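import Mathlib
import Pool.Agent.Work.MP_e29078_an.DefsA
import Pool.Agent.Work.MP_e29078_an.Geom

/-! Bundle of small proof modules (one section per former module). -/

section

/-! Abstract perturbation lemma for bounded measurable functions on the line. -/

open MeasureTheory Set Filter Topology

namespace Pool.Agent.Work.MP_e29078_an

/-- Integral operator. -/
noncomputable def iop (A : ℝ → ℝ → ℂ) (f : ℝ → ℂ) (y : ℝ) : ℂ := ∫ y', A y y' * f y'

structure IsKer (A : ℝ → ℝ → ℂ) (N : ℝ) : Prop where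
  meas : Measurable (Function.uncurry A)
  int : ∀ y, Integrable (A y)
  bound : ∀ y, ∫ y', ‖A y y'‖ ≤ N

structure IsBd (f : ℝ → ℂ) (M : ℝ) : Prop where
  meas : Measurable f
  bound : ∀ y, ‖f y‖ ≤ M

lemma IsBd.nonneg {f : ℝ → ℂ} {M : ℝ} (h : IsBd f M) : 0 ≤ M := (norm_nonneg _).trans (h.bound 0)

lemma IsKer.nonneg {A : ℝ → ℝ → ℂ} {N : ℝ} (h : IsKer A N) : 0 ≤ N :=
  (integral_nonneg (fun _ => norm_nonneg _)).trans (h.bound 0)

lemma IsKer.meas_right {A : ℝ → ℝ → ℂ} {N : ℝ} (h : IsKer A N) (y : ℝ) : Measurable (A y) :=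
  h.meas.comp measurable_prodMk_left

lemma ker_mul_integrable {A : ℝ → ℝ → ℂ} {N : ℝ} (hA : IsKer A N) {f : ℝ → ℂ} {M : ℝ}
    (hf : IsBd f M) (y : ℝ) : Integrable (fun y' => A y y' * f y') :=
  (hA.int y).mul_bdd hf.meas.aestronglyMeasurable (ae_of_all _ hf.bound)

lemma norm_iop_le {A : ℝ → ℝ → ℂ} {N : ℝ} (hA : IsKer A N) {f : ℝ → ℂ} {M : ℝ}
    (hf : IsBd f M) (y : ℝ) : ‖iop A f y‖ ≤ N * M := by
  unfold iop
  calc ‖∫ y', A y y' * f y'‖ ≤ ∫ y', ‖A y y' * f y'‖ := norm_integral_le_integral_norm _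
    _ ≤ ∫ y', ‖A y y'‖ * M := by
        apply integral_mono_of_nonneg (ae_of_all _ fun _ => norm_nonneg _)
          ((hA.int y).norm.mul_const M)
        refine ae_of_all _ fun y' => ?_
        simp only [norm_mul]
        exact mul_le_mul_of_nonneg_left (hf.bound y') (norm_nonneg _)
    _ = (∫ y', ‖A y y'‖) * M := by rw [integral_mul_const]
    _ ≤ N * M := mul_le_mul_of_nonneg_right (hA.bound y) hf.nonneg

lemma iop_isBd {A : ℝ → ℝ → ℂ} {N : ℝ} (hA : IsKer A N) {f : ℝ → ℂ} {M : ℝ}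
    (hf : IsBd f M) : IsBd (iop A f) (N * M) := by
  refine ⟨?_, norm_iop_le hA hf⟩
  have h1 : Measurable (fun p : ℝ × ℝ => A p.1 p.2 * f p.2) :=
    (hA.meas).mul (hf.meas.comp measurable_snd)
  have := h1.stronglyMeasurable.integral_prod_right' (ν := (volume : Measure ℝ))
  exact this.measurable

lemma IsBd.add {f g : ℝ → ℂ} {M M' : ℝ} (hf : IsBd f M) (hg : IsBd g M') :
    IsBd (fun y => f y + g y) (M + M') :=
  ⟨hf.meas.add hg.meas, fun y => (norm_add_le _ _).trans (add_le_add (hf.bound y) (hg.bound y))⟩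

lemma IsBd.sub {f g : ℝ → ℂ} {M M' : ℝ} (hf : IsBd f M) (hg : IsBd g M') :
    IsBd (fun y => f y - g y) (M + M') :=
  ⟨hf.meas.sub hg.meas, fun y => (norm_sub_le _ _).trans (add_le_add (hf.bound y) (hg.bound y))⟩

lemma IsBd.mono {f : ℝ → ℂ} {M M' : ℝ} (hf : IsBd f M) (h : M ≤ M') : IsBd f M' :=
  ⟨hf.meas, fun y => (hf.bound y).trans h⟩

lemma iop_add {A : ℝ → ℝ → ℂ} {N : ℝ} (hA : IsKer A N) {f g : ℝ → ℂ} {M M' : ℝ}
    (hf : IsBd f M) (hg : IsBd g M') (y : ℝ) :
    iop A (fun y => f y + g y) y = iop A f y + iop A g y := by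
  unfold iop
  rw [← integral_add (ker_mul_integrable hA hf y) (ker_mul_integrable hA hg y)]
  simp only [mul_add]

lemma iop_sub {A : ℝ → ℝ → ℂ} {N : ℝ} (hA : IsKer A N) {f g : ℝ → ℂ} {M M' : ℝ}
    (hf : IsBd f M) (hg : IsBd g M') (y : ℝ) :
    iop A (fun y => f y - g y) y = iop A f y - iop A g y := by
  unfold iop
  rw [← integral_sub (ker_mul_integrable hA hf y) (ker_mul_integrable hA hg y)]
  simp only [mul_sub]

/-- Convolution kernel. -/
def ck (a : ℝ → ℂ) (y y' : ℝ) : ℂ := a (y - y')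

lemma ck_isKer {a : ℝ → ℂ} (ham : Measurable a) (ha : Integrable a) :
    IsKer (ck a) (∫ x, ‖a x‖) := by
  refine ⟨?_, fun y => ?_, fun y => ?_⟩
  · exact ham.comp (measurable_fst.sub measurable_snd)
  · exact ha.comp_sub_left y
  · have := integral_sub_left_eq_self (fun x => ‖a x‖) volume y
    exact this.le

lemma iop_ck_comp {a R : ℝ → ℂ} (ham : Measurable a) (ha : Integrable a)
    (hRm : Measurable R) (hR : Integrable R) {f : ℝ → ℂ} {M : ℝ} (hf : IsBd f M) (y : ℝ) :
    iop (ck a) (iop (ck R) f) y = ∫ y'', (∫ t, a (y - y'' - t) * R t) * f y'' := by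
  have hint : Integrable (Function.uncurry fun y' y'' : ℝ =>
      a (y - y') * (R (y' - y'') * f y'')) (volume.prod volume) := by
    rw [integrable_prod_iff]
    · refine ⟨ae_of_all _ fun y' => ?_, ?_⟩
      · exact (ker_mul_integrable (ck_isKer hRm hR) hf y').const_mul (a (y - y'))
      · have hb : Integrable (fun y' => ‖a (y - y')‖ * ((∫ x, ‖R x‖) * M)) :=
          (ha.comp_sub_left y).norm.mul_const _
        refine hb.mono' ?_ (ae_of_all _ fun y' => ?_)
        · have hm : Measurable (fun p : ℝ × ℝ => ‖a (y - p.1) * (R (p.1 - p.2) * f p.2)‖) := by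
            apply Measurable.norm
            apply Measurable.mul (ham.comp (measurable_const.sub measurable_fst))
            exact (hRm.comp (measurable_fst.sub measurable_snd)).mul (hf.meas.comp measurable_snd)
          exact (hm.stronglyMeasurable.integral_prod_right'
            (ν := (volume : Measure ℝ))).aestronglyMeasurable
        · rw [Real.norm_of_nonneg (integral_nonneg fun _ => norm_nonneg _)]
          have h1 : ∀ y'', ‖Function.uncurry (fun y' y'' : ℝ =>
              a (y - y') * (R (y' - y'') * f y'')) (y', y'')‖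
              = ‖a (y - y')‖ * (‖R (y' - y'')‖ * ‖f y''‖) := by
            intro y''; simp [Function.uncurry]
          simp only [h1]
          rw [integral_const_mul]
          apply mul_le_mul_of_nonneg_left _ (norm_nonneg _)
          have h2 : ∫ x, ‖R x‖ = ∫ y'', ‖R (y' - y'')‖ :=
            (integral_sub_left_eq_self (fun x => ‖R x‖) volume y').symm
          rw [h2, ← integral_mul_const]
          apply integral_mono_of_nonneg (ae_of_all _ fun _ => by positivity)
            (((hR.comp_sub_left y').norm).mul_const M)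
          exact ae_of_all _ fun y'' => mul_le_mul_of_nonneg_left (hf.bound y'') (norm_nonneg _)
    · apply Measurable.aestronglyMeasurable
      apply Measurable.mul (ham.comp (measurable_const.sub measurable_fst))
      exact (hRm.comp (measurable_fst.sub measurable_snd)).mul (hf.meas.comp measurable_snd)
  unfold iop ck
  simp_rw [← integral_const_mul]
  rw [integral_integral_swap hint]
  congr 1
  ext y''
  have h3 : ∀ y', a (y - y') * (R (y' - y'') * f y'')
      = (fun t => (a (y - y'' - t) * R t) * f y'') (y' - y'') := by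
    intro y'
    simp only
    ring_nf
  simp_rw [h3]
  rw [integral_sub_right_eq_self (fun t => (a (y - y'' - t) * R t) * f y''),
    integral_mul_const]

/-- Data of a resolvent pair: `R = a + a * R`. -/
structure ResPair (a R : ℝ → ℂ) : Prop where
  ma : Measurable a
  ia : Integrable a
  mR : Measurable R
  iR : Integrable R
  eq : ∀ x, R x = a x + ∫ t, a (x - t) * R t

lemma ResPair.comp {a R : ℝ → ℂ} (h : ResPair a R) {f : ℝ → ℂ} {M : ℝ} (hf : IsBd f M) (y : ℝ) :
    iop (ck a) (iop (ck R) f) y = iop (ck R) f y - iop (ck a) f y := by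
  rw [iop_ck_comp h.ma h.ia h.mR h.iR hf]
  have h1 : ∀ y'', (∫ t, a (y - y'' - t) * R t) = R (y - y'') - a (y - y'') := by
    intro y''
    rw [h.eq (y - y'')]; ring
  simp_rw [h1, sub_mul]
  rw [integral_sub]
  · rfl
  · exact ker_mul_integrable (ck_isKer h.mR h.iR) hf y
  · exact ker_mul_integrable (ck_isKer h.ma h.ia) hf y

lemma ResPair.comp' {a R : ℝ → ℂ} (h : ResPair a R) {f : ℝ → ℂ} {M : ℝ} (hf : IsBd f M) (y : ℝ) :
    iop (ck R) (iop (ck a) f) y = iop (ck R) f y - iop (ck a) f y := by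
  rw [iop_ck_comp h.mR h.iR h.ma h.ia hf]
  have h1 : ∀ y'', (∫ t, R (y - y'' - t) * a t) = R (y - y'') - a (y - y'') := by
    intro y''
    rw [h.eq (y - y'')]
    have : ∫ t, R (y - y'' - t) * a t = ∫ t, a (y - y'' - t) * R t := by
      rw [← integral_sub_left_eq_self (fun t => R (y - y'' - t) * a t) volume (y - y'')]
      congr 1; ext t; ring_nf
    rw [this]; ring
  simp_rw [h1, sub_mul]
  rw [integral_sub]
  · rfl
  · exact ker_mul_integrable (ck_isKer h.mR h.iR) hf y
  · exact ker_mul_integrable (ck_isKer h.ma h.ia) hf y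

/-- The operator `G = 1 + R *`. -/
noncomputable def Gop (R : ℝ → ℂ) (f : ℝ → ℂ) (y : ℝ) : ℂ := f y + iop (ck R) f y

lemma Gop_isBd {R : ℝ → ℂ} (mR : Measurable R) (iR : Integrable R) {f : ℝ → ℂ} {M : ℝ}
    (hf : IsBd f M) : IsBd (Gop R f) ((1 + ∫ x, ‖R x‖) * M) := by
  have := hf.add (iop_isBd (ck_isKer mR iR) hf)
  refine IsBd.mono this (le_of_eq (by ring))

/-- `A0 (G f) = f`. -/
lemma ResPair.right_inv {a R : ℝ → ℂ} (h : ResPair a R) {f : ℝ → ℂ} {M : ℝ} (hf : IsBd f M)
    (y : ℝ) : Gop R f y - iop (ck a) (Gop R f) y = f y := by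
  have h1 : iop (ck a) (Gop R f) y = iop (ck a) f y + iop (ck a) (iop (ck R) f) y :=
    iop_add (ck_isKer h.ma h.ia) hf (iop_isBd (ck_isKer h.mR h.iR) hf) y
  rw [h1, h.comp hf]
  unfold Gop
  ring

/-- `G (A0 f) = f`. -/
lemma ResPair.left_inv {a R : ℝ → ℂ} (h : ResPair a R) {f : ℝ → ℂ} {M : ℝ} (hf : IsBd f M)
    (y : ℝ) : Gop R (fun y => f y - iop (ck a) f y) y = f y := by
  unfold Gop
  rw [iop_sub (ck_isKer h.mR h.iR) hf (iop_isBd (ck_isKer h.ma h.ia) hf), h.comp' hf]
  ring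

lemma iop_tsum {A : ℝ → ℝ → ℂ} {N : ℝ} (hA : IsKer A N) {u : ℕ → ℝ → ℂ} {M : ℝ}
    (hu : ∀ j, IsBd (u j) (M / 2 ^ j)) (y : ℝ) :
    HasSum (fun j => iop A (u j) y) (iop A (fun y' => ∑' j, u j y') y) := by
  unfold iop
  have hM : 0 ≤ M := by simpa using (hu 0).nonneg
  have h1 := hasSum_integral_of_summable_integral_norm (μ := volume)
    (F := fun j y' => A y y' * u j y') (fun j => ker_mul_integrable hA (hu j) y) ?_
  · have h2 : (∫ y', A y y' * ∑' j, u j y') = ∫ y', ∑' j, A y y' * u j y' := by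
      congr 1; ext y'; rw [tsum_mul_left]
    rw [h2]
    exact h1
  · have hs : Summable (fun j : ℕ => N * (M / 2 ^ j)) := by
      apply Summable.mul_left
      have := summable_geometric_two.mul_left M
      refine this.congr fun j => ?_
      simp [div_eq_mul_inv]
    refine Summable.of_nonneg_of_le (fun j => integral_nonneg fun _ => norm_nonneg _) (fun j => ?_) hs
    calc ∫ y', ‖A y y' * u j y'‖ ≤ ∫ y', ‖A y y'‖ * (M / 2 ^ j) := by
          apply integral_mono_of_nonneg (ae_of_all _ fun _ => norm_nonneg _)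
            ((hA.int y).norm.mul_const _)
          refine ae_of_all _ fun y' => ?_
          simp only [norm_mul]
          exact mul_le_mul_of_nonneg_left ((hu j).bound y') (norm_nonneg _)
      _ = (∫ y', ‖A y y'‖) * (M / 2 ^ j) := by rw [integral_mul_const]
      _ ≤ N * (M / 2 ^ j) := mul_le_mul_of_nonneg_right (hA.bound y) (hu j).nonneg

/-- Existence. -/
theorem exists_perturbed {a R : ℝ → ℂ} (h : ResPair a R) {D : ℝ → ℝ → ℂ} {ε : ℝ}
    (hD : IsKer D ε) (hε : (1 + ∫ x, ‖R x‖) * ε ≤ 1 / 2) {b : ℝ → ℂ} {B : ℝ} (hb : IsBd b B) :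
    ∃ v : ℝ → ℂ, ∃ M : ℝ, IsBd v M ∧
      ∀ y, v y = iop (ck a) v y + iop D v y + b y := by
  classical
  set ρ := ∫ x, ‖R x‖ with hρ
  have hρ0 : 0 ≤ ρ := integral_nonneg fun _ => norm_nonneg _
  set M := (1 + ρ) * B with hM
  have hB := hb.nonneg
  let T : (ℝ → ℂ) → (ℝ → ℂ) := fun f => Gop R (iop D f)
  let u : ℕ → ℝ → ℂ := fun j => T^[j] (Gop R b)
  have hu : ∀ j, IsBd (u j) (M / 2 ^ j) := by
    intro j
    induction j with
    | zero => simpa [u, hM] using Gop_isBd h.mR h.iR hb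
    | succ j ih =>
      have h1 : u (j + 1) = T (u j) := by
        simp only [u, Function.iterate_succ', Function.comp]
      rw [h1]
      have h2 := Gop_isBd h.mR h.iR (iop_isBd hD ih)
      refine h2.mono ?_
      calc (1 + ρ) * (ε * (M / 2 ^ j)) = ((1 + ρ) * ε) * (M / 2 ^ j) := by ring
        _ ≤ 1 / 2 * (M / 2 ^ j) := mul_le_mul_of_nonneg_right hε ih.nonneg
        _ = M / 2 ^ (j + 1) := by rw [pow_succ]; field_simp
  have hMs : Summable (fun j : ℕ => M / 2 ^ j) := by
    have := summable_geometric_two.mul_left M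
    refine this.congr fun j => ?_
    simp [div_eq_mul_inv]
  have hus : ∀ y, Summable (fun j => u j y) := fun y =>
    Summable.of_norm_bounded hMs fun j => (hu j).bound y
  let v : ℝ → ℂ := fun y => ∑' j, u j y
  have hv : IsBd v (∑' j : ℕ, M / 2 ^ j) := by
    refine ⟨?_, fun y => ?_⟩
    · refine measurable_of_tendsto_metrizable
        (f := fun n y => ∑ j ∈ Finset.range n, u j y) (fun n => ?_) ?_
      · exact Finset.measurable_fun_sum _ fun j _ => (hu j).meas
      · rw [tendsto_pi_nhds]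
        intro y
        exact (hus y).hasSum.tendsto_sum_nat
    · exact tsum_of_norm_bounded hMs.hasSum fun j => (hu j).bound y
  have hTv : ∀ y, HasSum (fun j => u (j + 1) y) (T v y) := by
    intro y
    have hDs := fun y => iop_tsum hD hu y
    have hDu : ∀ j, IsBd (iop D (u j)) (ε * M / 2 ^ j) := fun j =>
      (iop_isBd hD (hu j)).mono (le_of_eq (by ring))
    have hRs := iop_tsum (ck_isKer h.mR h.iR) hDu y
    have h3 : (fun y' => ∑' j, iop D (u j) y') = iop D v := by
      ext y'; exact (hDs y').tsum_eq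
    rw [h3] at hRs
    have h4 := (hDs y).add hRs
    have h5 : (fun j => u (j + 1) y) = fun j => iop D (u j) y + iop (ck R) (iop D (u j)) y := by
      ext j
      have h1 : u (j + 1) = T (u j) := by
        simp only [u, Function.iterate_succ', Function.comp]
      rw [h1]; rfl
    rw [h5]
    exact h4
  have hveq : ∀ y, v y = Gop R b y + T v y := by
    intro y
    have h1 : v y = u 0 y + ∑' j, u (j + 1) y := (hus y).tsum_eq_zero_add
    rw [h1, (hTv y).tsum_eq]
    rfl
  refine ⟨v, _, hv, fun y => ?_⟩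
  have hbd : IsBd (fun y => b y + iop D v y) (B + ε * (∑' j : ℕ, M / 2 ^ j)) :=
    hb.add (iop_isBd hD hv)
  have hvG : v = Gop R (fun y => b y + iop D v y) := by
    ext y
    rw [hveq y]
    simp only [T, Gop]
    rw [iop_add (ck_isKer h.mR h.iR) hb (iop_isBd hD hv)]
    ring
  have h6 := h.right_inv hbd y
  rw [← hvG] at h6
  have : v y = iop (ck a) v y + (b y + iop D v y) := by rw [← h6]; ring
  rw [this]; ring

/-- Uniqueness. -/
theorem unique_perturbed {a R : ℝ → ℂ} (h : ResPair a R) {D : ℝ → ℝ → ℂ} {ε : ℝ}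
    (hD : IsKer D ε) (hε : (1 + ∫ x, ‖R x‖) * ε ≤ 1 / 2) {f : ℝ → ℂ} {M : ℝ} (hf : IsBd f M)
    (heq : ∀ y, f y = iop (ck a) f y + iop D f y) : ∀ y, f y = 0 := by
  have h1 : ∀ M' : ℝ, IsBd f M' → IsBd f (M' / 2) := by
    intro M' hM'
    have h2 : f = Gop R (iop D f) := by
      ext y
      have h3 := h.left_inv hM' y
      have h4 : (fun y => f y - iop (ck a) f y) = iop D f := by
        ext y'; rw [sub_eq_iff_eq_add]
        exact (heq y').trans (add_comm _ _)
      rw [h4] at h3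
      exact h3.symm
    have h5 := Gop_isBd h.mR h.iR (iop_isBd hD hM')
    rw [← h2] at h5
    refine h5.mono ?_
    calc (1 + ∫ x, ‖R x‖) * (ε * M') = ((1 + ∫ x, ‖R x‖) * ε) * M' := by ring
      _ ≤ 1 / 2 * M' := mul_le_mul_of_nonneg_right hε hM'.nonneg
      _ = M' / 2 := by ring
  have h2 : ∀ n : ℕ, IsBd f (M / 2 ^ n) := by
    intro n
    induction n with
    | zero => simpa using hf
    | succ n ih =>
      have := h1 _ ih
      rwa [div_div, ← pow_succ] at this
  intro y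
  have h3 : Tendsto (fun n : ℕ => M / 2 ^ n) atTop (𝓝 0) := by
    have := (tendsto_pow_atTop_nhds_zero_of_lt_one (r := (1/2 : ℝ)) (by norm_num) (by norm_num)).const_mul M
    simp only [mul_zero] at this
    refine this.congr fun n => ?_
    rw [one_div, inv_pow]; rfl
  have h4 : ‖f y‖ ≤ 0 := ge_of_tendsto' h3 fun n => (h2 n).bound y
  exact norm_le_zero_iff.mp h4

end Pool.Agent.Work.MP_e29078_an

end

section

/-! Fourier coefficients of a real analytic periodic function decay exponentially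
(MP_e29078_an, item B8; helper65). -/

set_option autoImplicit false

open MeasureTheory Set Filter Topology
open scoped Real

namespace Pool.Agent.Work.MP_e29078_an

namespace FD

/-- Local complexification of a real analytic function. -/
theorem local_ext {g : ℝ → ℂ} {x₀ : ℝ} (hg : AnalyticAt ℝ g x₀) :
    ∃ (F : ℂ → ℂ) (r : ℝ), 0 < r ∧ DifferentiableOn ℂ F (Metric.ball (x₀ : ℂ) r) ∧
      ∀ x : ℝ, |x - x₀| < r → g x = F x := by
  obtain ⟨p, hp⟩ := hg
  rw [hasFPowerSeriesAt_iff'] at hp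
  obtain ⟨ε, hε, hball⟩ := Metric.eventually_nhds_iff.1 hp
  set r : ℝ := ε / 2 with hr
  have hr0 : 0 < r := by positivity
  have hx1 : dist (x₀ + r) x₀ < ε := by
    rw [Real.dist_eq]
    simp only [add_sub_cancel_left, abs_of_pos hr0]
    rw [hr]; linarith
  have hs1 := (hball hx1).summable
  simp only [add_sub_cancel_left] at hs1
  obtain ⟨C, hC⟩ := hs1.norm.tendsto_atTop_zero.bddAbove_range
  obtain ⟨rr, hrr⟩ : ∃ rr : NNReal, (rr : ℝ) = r := ⟨⟨r, hr0.le⟩, rfl⟩
  let q : FormalMultilinearSeries ℂ ℂ ℂ := fun n =>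
    ContinuousMultilinearMap.mkPiRing ℂ (Fin n) (p.coeff n)
  have hq : (rr : ENNReal) ≤ q.radius := by
    apply q.le_radius_of_bound C
    intro n
    have h1 : ‖q n‖ = ‖p.coeff n‖ := ContinuousMultilinearMap.norm_mkPiRing _
    rw [h1]
    have h2 := hC ⟨n, rfl⟩
    simp only [norm_smul, norm_pow, Real.norm_eq_abs, abs_of_pos hr0] at h2
    rw [hrr, mul_comm]
    exact h2
  have hqpos : 0 < q.radius := by
    refine lt_of_lt_of_le ?_ hq
    rw [ENNReal.coe_pos, ← NNReal.coe_pos, hrr]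
    exact hr0
  have hqs := q.hasFPowerSeriesOnBall hqpos
  refine ⟨fun z => q.sum (z - x₀), r, hr0, ?_, ?_⟩
  · intro z hz
    have h1 : z - x₀ ∈ Metric.eball (0 : ℂ) q.radius := by
      rw [Metric.mem_ball, dist_eq_norm] at hz
      rw [Metric.mem_eball, edist_dist, dist_zero_right]
      refine lt_of_lt_of_le ?_ hq
      rw [ENNReal.ofReal_lt_iff_lt_toReal (norm_nonneg _) ENNReal.coe_ne_top, ENNReal.coe_toReal,
        hrr]
      exact hz
    have h2 : DifferentiableAt ℂ q.sum (z - x₀) :=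
      (hqs.differentiableOn.differentiableAt (Metric.isOpen_eball.mem_nhds h1))
    exact (h2.comp z ((differentiableAt_id).sub_const _)).differentiableWithinAt
  · intro x hx
    have hx2 : dist x x₀ < ε := by
      rw [Real.dist_eq]; rw [hr] at hx; linarith
    have h3 := hball hx2
    rw [← h3.tsum_eq]
    simp only [FormalMultilinearSeries.sum]
    congr 1
    funext n
    simp only [q, ContinuousMultilinearMap.mkPiRing_apply, Finset.prod_const, Finset.card_univ,
      Fintype.card_fin]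
    rw [← Complex.ofReal_sub, ← Complex.ofReal_pow, Complex.real_smul, smul_eq_mul]

theorem iter_real {F : ℂ → ℂ} {x₀ r : ℝ} (hF : DifferentiableOn ℂ F (Metric.ball (x₀ : ℂ) r))
    (j : ℕ) : ∀ x : ℝ, |x - x₀| < r → iteratedDeriv j (fun y : ℝ => F y) x = iteratedDeriv j F x := by
  have hmem : ∀ x : ℝ, |x - x₀| < r → (x : ℂ) ∈ Metric.ball (x₀ : ℂ) r := by
    intro x hx
    rw [Metric.mem_ball, Complex.dist_eq, ← Complex.ofReal_sub, Complex.norm_real]
    exact hx
  induction j with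
  | zero => intro x _; simp
  | succ j ih =>
    intro x hx
    rw [iteratedDeriv_succ, iteratedDeriv_succ]
    have hopen : {y : ℝ | |y - x₀| < r} ∈ 𝓝 x := by
      have ho : IsOpen {y : ℝ | |y - x₀| < r} := isOpen_lt (by fun_prop) continuous_const
      exact ho.mem_nhds hx
    have h1 : (iteratedDeriv j fun y : ℝ => F y) =ᶠ[𝓝 x] fun y : ℝ => iteratedDeriv j F y := by
      filter_upwards [hopen] with y hy
      exact ih y hy
    rw [h1.deriv_eq]
    have han : AnalyticAt ℂ F x := hF.analyticAt (Metric.isOpen_ball.mem_nhds (hmem x hx))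
    have h2 : DifferentiableAt ℂ (iteratedDeriv j F) x := by
      rw [iteratedDeriv_eq_iterate]
      exact (han.iterated_deriv j).differentiableAt
    exact h2.hasDerivAt.comp_ofReal.deriv

/-- Local bound for the derivatives. -/
theorem local_bound {g : ℝ → ℂ} {x₀ : ℝ} (hg : AnalyticAt ℝ g x₀) :
    ∃ M ρ ε : ℝ, 0 ≤ M ∧ 0 < ρ ∧ 0 < ε ∧ ∀ x : ℝ, |x - x₀| < ε → ∀ j : ℕ,
      ‖iteratedDeriv j g x‖ ≤ M * j.factorial / ρ ^ j := by
  obtain ⟨F, r, hr, hF, hFg⟩ := local_ext hg
  have hcont : ContinuousOn F (Metric.closedBall (x₀ : ℂ) (r / 2)) :=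
    hF.continuousOn.mono (Metric.closedBall_subset_ball (by linarith))
  obtain ⟨M, hM⟩ := (isCompact_closedBall (x₀ : ℂ) (r / 2)).exists_bound_of_continuousOn hcont
  refine ⟨max M 0, r / 4, r / 4, le_max_right _ _, by positivity, by positivity, ?_⟩
  intro x hx j
  have hopen : {y : ℝ | |y - x₀| < r} ∈ 𝓝 x := by
    have ho : IsOpen {y : ℝ | |y - x₀| < r} := isOpen_lt (by fun_prop) continuous_const
    exact ho.mem_nhds (show |x - x₀| < r by linarith)
  have h1 : g =ᶠ[𝓝 x] fun y : ℝ => F y := by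
    filter_upwards [hopen] with y hy
    exact hFg y hy
  rw [h1.iteratedDeriv_eq j, iter_real hF j x (by linarith)]
  have hsub : Metric.closedBall (x : ℂ) (r / 4) ⊆ Metric.closedBall (x₀ : ℂ) (r / 2) := by
    apply Metric.closedBall_subset_closedBall'
    rw [Complex.dist_eq, ← Complex.ofReal_sub, Complex.norm_real, Real.norm_eq_abs]
    linarith
  have h2 := Complex.norm_iteratedDeriv_le_of_forall_mem_sphere_norm_le (f := F) (c := (x : ℂ))
    (R := r / 4) (C := max M 0) j (by positivity) ?_ ?_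
  · calc ‖iteratedDeriv j F x‖ ≤ j.factorial * max M 0 / (r / 4) ^ j := h2
      _ = max M 0 * j.factorial / (r / 4) ^ j := by ring
  · apply DifferentiableOn.diffContOnCl
    apply hF.mono
    refine (Metric.closure_ball_subset_closedBall).trans (hsub.trans ?_)
    exact Metric.closedBall_subset_ball (by linarith)
  · intro z hz
    exact (hM z (hsub (Metric.sphere_subset_closedBall hz))).trans (le_max_left _ _)

theorem unif_bound {g : ℝ → ℂ} (hg : ∀ x, AnalyticAt ℝ g x) :
    ∃ M ρ : ℝ, 0 ≤ M ∧ 0 < ρ ∧ ∀ x ∈ Icc (0 : ℝ) (2 * π), ∀ j : ℕ,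
      ‖iteratedDeriv j g x‖ ≤ M * j.factorial / ρ ^ j := by
  refine (isCompact_Icc (a := (0 : ℝ)) (b := 2 * π)).induction_on
    (p := fun s => ∃ M ρ : ℝ, 0 ≤ M ∧ 0 < ρ ∧ ∀ x ∈ s, ∀ j : ℕ,
      ‖iteratedDeriv j g x‖ ≤ M * j.factorial / ρ ^ j) ?_ ?_ ?_ ?_
  · exact ⟨0, 1, le_rfl, one_pos, fun x hx => absurd hx (Set.notMem_empty x)⟩
  · rintro s t hst ⟨M, ρ, h1, h2, h3⟩
    exact ⟨M, ρ, h1, h2, fun x hx => h3 x (hst hx)⟩
  · rintro s t ⟨M, ρ, h1, h2, h3⟩ ⟨M', ρ', h1', h2', h3'⟩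
    refine ⟨max M M', min ρ ρ', le_max_of_le_left h1, lt_min h2 h2', ?_⟩
    have hpos : 0 < min ρ ρ' := lt_min h2 h2'
    rintro x (hx | hx) j
    · refine (h3 x hx j).trans ?_
      gcongr
      · exact le_max_left _ _
      · exact min_le_left _ _
    · refine (h3' x hx j).trans ?_
      gcongr
      · exact le_max_right _ _
      · exact min_le_right _ _
  · intro x _
    obtain ⟨M, ρ, ε, h1, h2, h3, h4⟩ := local_bound (hg x)
    refine ⟨Metric.ball x ε, mem_nhdsWithin_of_mem_nhds (Metric.ball_mem_nhds x h3), M, ρ, h1, h2,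
      ?_⟩
    intro y hy
    exact h4 y (by rw [Metric.mem_ball, Real.dist_eq] at hy; exact hy)

theorem parts {f f' : ℝ → ℂ} (hf : ∀ x, HasDerivAt f (f' x) x) (hf' : Continuous f')
    (hper : f (2 * π) = f 0) (n : ℕ) :
    ∫ x in (0 : ℝ)..(2 * π), f' x * Complex.exp (-(Complex.I * n * x)) =
      Complex.I * n * ∫ x in (0 : ℝ)..(2 * π), f x * Complex.exp (-(Complex.I * n * x)) := by
  have he : ∀ x : ℝ, HasDerivAt (fun x : ℝ => Complex.exp (-(Complex.I * n * x)))
      (Complex.exp (-(Complex.I * n * x)) * (-(Complex.I * n))) x := by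
    intro x
    have h1 : HasDerivAt (fun z : ℂ => Complex.exp (-(Complex.I * n * z)))
        (Complex.exp (-(Complex.I * n * (x : ℂ))) * (-(Complex.I * n))) (x : ℂ) := by
      apply HasDerivAt.cexp
      have h0 := ((hasDerivAt_id (x : ℂ)).const_mul (Complex.I * n)).neg
      rw [mul_one] at h0
      exact h0
    exact h1.comp_ofReal
  have h2 := intervalIntegral.integral_mul_deriv_eq_deriv_mul (a := (0 : ℝ)) (b := 2 * π)
    (u := f) (u' := f') (v := fun x : ℝ => Complex.exp (-(Complex.I * n * x)))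
    (v' := fun x : ℝ => Complex.exp (-(Complex.I * n * x)) * (-(Complex.I * n)))
    (fun x _ => hf x) (fun x _ => he x) (hf'.intervalIntegrable _ _)
    ((by fun_prop : Continuous fun x : ℝ =>
      Complex.exp (-(Complex.I * n * x)) * (-(Complex.I * n))).intervalIntegrable _ _)
  have h3 : Complex.exp (-(Complex.I * n * ((2 * π : ℝ) : ℂ))) = 1 := by
    rw [Complex.exp_eq_one_iff]
    refine ⟨-n, ?_⟩
    push_cast
    ring
  have h4 : Complex.exp (-(Complex.I * n * ((0 : ℝ) : ℂ))) = 1 := by simp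
  rw [h3, h4, hper] at h2
  have h5 : ∫ x in (0 : ℝ)..(2 * π), f x * (Complex.exp (-(Complex.I * n * x)) * (-(Complex.I * n))) =
      -(Complex.I * n) * ∫ x in (0 : ℝ)..(2 * π), f x * Complex.exp (-(Complex.I * n * x)) := by
    rw [← intervalIntegral.integral_const_mul]
    congr 1
    funext x
    ring
  rw [h5] at h2
  linear_combination h2

end FD

open FD in
/-- Fourier coefficients of a real analytic periodic function decay exponentially. -/
theorem fourier_decay_of_analytic (g : ℝ → ℂ) (hg : ∀ x, AnalyticAt ℝ g x)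
    (hper : ∀ x, g (x + 2 * π) = g x) :
    ∃ C : ℝ, ∃ δ > 0, ∀ n : ℕ,
      ‖∫ x in (0 : ℝ)..(2 * π), g x * Complex.exp (-(Complex.I * n * x))‖ ≤
        C * Real.exp (-δ * n) := by
  obtain ⟨M, ρ, hM, hρ, hb⟩ := unif_bound hg
  have hsm : ContDiff ℝ ⊤ g := by
    have : AnalyticOnNhd ℝ g univ := fun x _ => hg x
    exact this.contDiff
  have hcont : ∀ j, Continuous (iteratedDeriv j g) := fun j =>
    hsm.continuous_iteratedDeriv j (by exact_mod_cast le_top)
  have hdiff : ∀ j x, HasDerivAt (iteratedDeriv j g) (iteratedDeriv (j + 1) g x) x := by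
    intro j x
    have h1 : Differentiable ℝ (iteratedDeriv j g) :=
      hsm.differentiable_iteratedDeriv j (by exact_mod_cast WithTop.coe_lt_top _)
    have h2 := (h1 x).hasDerivAt
    rw [← iteratedDeriv_succ] at h2
    exact h2
  have hperj : ∀ j, iteratedDeriv j g (2 * π) = iteratedDeriv j g 0 := by
    intro j
    have h1 : (fun x => g (x + 2 * π)) = g := funext hper
    have h2 := congrFun (iteratedDeriv_comp_add_const j g (2 * π)) 0
    rw [h1] at h2
    simpa using h2.symm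
  set I : ℕ → ℕ → ℂ := fun n j =>
    ∫ x in (0 : ℝ)..(2 * π), iteratedDeriv j g x * Complex.exp (-(Complex.I * n * x)) with hI
  have hrec : ∀ n j, I n (j + 1) = Complex.I * n * I n j := by
    intro n j
    exact parts (hdiff j) (hcont (j + 1)) (hperj j) n
  have hnorm : ∀ n j : ℕ, ‖I n j‖ = (n : ℝ) ^ j * ‖I n 0‖ := by
    intro n j
    induction j with
    | zero => simp
    | succ j ih =>
      rw [hrec, norm_mul, norm_mul, Complex.norm_I, ih, Complex.norm_natCast]
      ring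
  have hbd : ∀ n j : ℕ, ‖I n j‖ ≤ 2 * π * (M * j.factorial / ρ ^ j) := by
    intro n j
    have h1 := intervalIntegral.norm_integral_le_of_norm_le_const (a := (0 : ℝ)) (b := 2 * π)
      (f := fun x => iteratedDeriv j g x * Complex.exp (-(Complex.I * n * x)))
      (C := M * j.factorial / ρ ^ j) ?_
    · rw [sub_zero, abs_of_pos Real.two_pi_pos] at h1
      rw [mul_comm]
      exact h1
    · intro x hx
      rw [uIoc_of_le Real.two_pi_pos.le] at hx
      have h2 : ‖Complex.exp (-(Complex.I * n * x))‖ = 1 := by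
        have : -(Complex.I * n * x) = ((-(n * x) : ℝ) : ℂ) * Complex.I := by
          push_cast; ring
        rw [this, Complex.norm_exp_ofReal_mul_I]
      rw [norm_mul, h2, mul_one]
      exact hb x ⟨hx.1.le, hx.2⟩ j
  refine ⟨4 * π * M, ρ * Real.log 2 / 2, by positivity, ?_⟩
  intro n
  set j := ⌊ρ * n / 2⌋₊ with hj
  have h0 : I n 0 = ∫ x in (0 : ℝ)..(2 * π), g x * Complex.exp (-(Complex.I * n * x)) := by
    simp [hI]
  rw [← h0]
  have hjle : (j : ℝ) ≤ ρ * n / 2 := Nat.floor_le (by positivity)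
  have hjlt : ρ * n / 2 < j + 1 := Nat.lt_floor_add_one _
  have hmain : ‖I n 0‖ ≤ 2 * π * M * (1 / 2) ^ j := by
    have h1 := hbd n j
    rw [hnorm] at h1
    rcases Nat.eq_zero_or_pos j with h2 | h2
    · rw [h2] at h1 ⊢
      simpa [mul_assoc] using h1
    · have hn : (0 : ℝ) < n := by
        rcases Nat.eq_zero_or_pos n with h3 | h3
        · rw [h3] at hjle
          have : (1 : ℝ) ≤ j := by exact_mod_cast h2
          simp at hjle
          linarith
        · exact_mod_cast h3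
      have hfac : (j.factorial : ℝ) ≤ (j : ℝ) ^ j := by exact_mod_cast Nat.factorial_le_pow j
      have h3 : (n : ℝ) ^ j * ‖I n 0‖ ≤ 2 * π * (M * (ρ * n / 2) ^ j / ρ ^ j) := by
        refine h1.trans ?_
        have : (j : ℝ) ^ j ≤ (ρ * n / 2) ^ j := by gcongr
        have h4 := hfac.trans this
        gcongr
      have h5 : 2 * π * (M * (ρ * n / 2) ^ j / ρ ^ j) = (n : ℝ) ^ j * (2 * π * M * (1 / 2) ^ j) := by
        have : (ρ * n / 2) ^ j = ρ ^ j * (n : ℝ) ^ j * (1 / 2) ^ j := by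
          rw [← mul_pow, ← mul_pow]
          congr 1
          ring
        rw [this]
        field_simp
      rw [h5] at h3
      exact le_of_mul_le_mul_left h3 (by positivity)
  have hexp : (1 / 2 : ℝ) ^ j ≤ 2 * Real.exp (-(ρ * Real.log 2 / 2) * n) := by
    have h1 : (1 / 2 : ℝ) ^ j = Real.exp (-(j * Real.log 2)) := by
      rw [Real.exp_neg, ← Real.log_pow, Real.exp_log (by positivity)]
      simp
    have h2 : (2 : ℝ) = Real.exp (Real.log 2) := (Real.exp_log (by norm_num)).symm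
    rw [h1]
    nth_rewrite 2 [h2]
    rw [← Real.exp_add]
    apply Real.exp_le_exp.2
    have hl : 0 < Real.log 2 := Real.log_pos (by norm_num)
    nlinarith
  calc ‖I n 0‖ ≤ 2 * π * M * (1 / 2) ^ j := hmain
    _ ≤ 2 * π * M * (2 * Real.exp (-(ρ * Real.log 2 / 2) * n)) := by gcongr
    _ = 4 * π * M * Real.exp (-(ρ * Real.log 2 / 2) * n) := by ring

end Pool.Agent.Work.MP_e29078_an

end

section

/-! Uniform asymptotics of the matrix `Kr` near the diagonal, part 1: the rescaled integrand. -/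

open MeasureTheory Set Filter Topology
open scoped Real ComplexConjugate

namespace Pool.Agent.Work.MP_e29078_an

namespace Asy

/-- The nonnegative root of `x^2 + a x = b`. -/
noncomputable def rr (a b : ℝ) : ℝ := (-a + √(a ^ 2 + 4 * b)) / 2

lemma rho_eq (w : ℂ) : rho w = rr (qf w) (sf w) := rfl

lemma rr_nonneg {a b : ℝ} (hb : 0 ≤ b) : 0 ≤ rr a b := by
  unfold rr
  have h1 : a ≤ √(a ^ 2 + 4 * b) := by
    refine (le_abs_self a).trans ?_
    rw [← Real.sqrt_sq_eq_abs]
    exact Real.sqrt_le_sqrt (by linarith)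
  linarith

lemma rr_eq {a b : ℝ} (hb : 0 ≤ b) : rr a b ^ 2 + a * rr a b = b := by
  unfold rr
  have h1 : √(a ^ 2 + 4 * b) ^ 2 = a ^ 2 + 4 * b := Real.sq_sqrt (by positivity)
  nlinarith

lemma rr_sq_le {a b : ℝ} (ha : 0 ≤ a) (hb : 0 ≤ b) : rr a b ^ 2 ≤ b := by
  have h1 := rr_eq (a := a) hb
  have h2 := mul_nonneg ha (rr_nonneg (a := a) hb)
  linarith

lemma mul_rr_le {a b : ℝ} (hb : 0 ≤ b) : a * rr a b ≤ b := by
  have h1 := rr_eq (a := a) hb
  have h2 := sq_nonneg (rr a b)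
  linarith

lemma rr_scale {t a b : ℝ} (ht : 0 ≤ t) : t * rr a b = rr (t * a) (t ^ 2 * b) := by
  unfold rr
  have h1 : (t * a) ^ 2 + 4 * (t ^ 2 * b) = t ^ 2 * (a ^ 2 + 4 * b) := by ring
  rw [h1, Real.sqrt_mul (by positivity), Real.sqrt_sq ht]
  ring

lemma continuous_rr : Continuous fun p : ℝ × ℝ => rr p.1 p.2 := by
  unfold rr
  fun_prop

lemma continuous_rho : Continuous rho := by
  unfold rho qf sf
  fun_prop

/-- Fourth root. -/
noncomputable def qr (N : ℕ) : ℝ := (N : ℝ) ^ (1 / 4 : ℝ)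

lemma qr_pos {N : ℕ} (hN : 0 < N) : 0 < qr N := by
  unfold qr
  have : (0 : ℝ) < N := by exact_mod_cast hN
  positivity

lemma qr_four (N : ℕ) : qr N ^ 4 = N := by
  unfold qr
  rw [← Real.rpow_natCast, ← Real.rpow_mul (by positivity)]
  norm_num

lemma qr_sq_sq (N : ℕ) : (qr N ^ 2) ^ 2 = N := by
  rw [← pow_mul, qr_four]

lemma tendsto_qr : Tendsto qr atTop atTop := by
  unfold qr
  exact (tendsto_rpow_atTop (by norm_num)).comp tendsto_natCast_atTop_atTop

/-- The rescaled point of the disc. -/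
noncomputable def wN (N : ℕ) (p : ℝ × ℝ) : ℂ :=
  Complex.polarCoord.symm (1 - p.1 / N, p.2 / qr N)

lemma continuous_wN (N : ℕ) : Continuous (wN N) := by
  unfold wN
  simp only [Complex.polarCoord_symm_apply]
  fun_prop

lemma sf_wN (N : ℕ) (p : ℝ × ℝ) : sf (wN N p) = 1 - (1 - p.1 / N) ^ 2 := by
  unfold sf wN
  rw [Complex.norm_polarCoord_symm, sq_abs]

lemma qf_polar (r θ : ℝ) :
    qf (Complex.polarCoord.symm (r, θ)) = (1 - r) ^ 2 + r * (2 * Real.sin (θ / 2)) ^ 2 := by
  unfold qf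
  rw [Complex.polarCoord_symm_apply, ← Complex.normSq_eq_norm_sq, Complex.normSq_apply]
  simp only [Complex.sub_re, Complex.one_re, Complex.sub_im, Complex.one_im, Complex.mul_re,
    Complex.mul_im, Complex.add_re, Complex.add_im, Complex.ofReal_re, Complex.ofReal_im,
    Complex.I_re, Complex.I_im]
  have h1 : Real.cos θ = 1 - 2 * Real.sin (θ / 2) ^ 2 := by
    have h2 := Real.cos_two_mul (θ / 2)
    rw [show 2 * (θ / 2) = θ by ring] at h2
    have h3 := Real.sin_sq_add_cos_sq (θ / 2)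
    linarith
  have h4 := Real.sin_sq_add_cos_sq θ
  have h5 : (1 - r * Real.cos θ) ^ 2 + (r * Real.sin θ) ^ 2 =
      (1 - r) ^ 2 + 2 * r * (1 - Real.cos θ) := by
    have h6 : Real.sin θ ^ 2 = 1 - Real.cos θ ^ 2 := by linarith
    rw [mul_pow r (Real.sin θ), h6]
    ring
  have h7 : (2 * Real.sin (θ / 2)) ^ 2 = 2 * (1 - Real.cos θ) := by rw [h1]; ring
  rw [h7]
  have h8 : (1 - r) ^ 2 + r * (2 * (1 - Real.cos θ)) = (1 - r) ^ 2 + 2 * r * (1 - Real.cos θ) := by
    ring
  rw [h8, ← h5]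
  ring

/-- Lower bound for `|1 - w|^2` by the square of the argument. -/
lemma le_qf_polar {r θ : ℝ} (hr : 0 ≤ r) (hθ : |θ| ≤ π) :
    θ ^ 2 / π ^ 2 ≤ qf (Complex.polarCoord.symm (r, θ)) := by
  have hpi := Real.pi_pos
  unfold qf
  rw [Complex.polarCoord_symm_apply, ← Complex.normSq_eq_norm_sq, Complex.normSq_apply]
  simp only [Complex.sub_re, Complex.one_re, Complex.sub_im, Complex.one_im, Complex.mul_re,
    Complex.mul_im, Complex.add_re, Complex.add_im, Complex.ofReal_re, Complex.ofReal_im,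
    Complex.I_re, Complex.I_im]
  have h4 := Real.sin_sq_add_cos_sq θ
  by_cases hc : Real.cos θ ≤ 0
  · have h1 : θ ^ 2 / π ^ 2 ≤ 1 := by
      rw [div_le_one (by positivity), ← sq_abs θ]
      exact pow_le_pow_left₀ (abs_nonneg _) hθ 2
    have h2 : 0 ≤ r * (-Real.cos θ) := mul_nonneg hr (by linarith)
    nlinarith [mul_self_nonneg (r * Real.sin θ)]
  · push Not at hc
    have habs : |θ| ≤ π / 2 := by
      by_contra hcon
      push Not at hcon
      have : Real.cos |θ| ≤ 0 := Real.cos_nonpos_of_pi_div_two_le_of_le hcon.le (by linarith)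
      rw [Real.cos_abs] at this
      linarith
    have h1 := Real.mul_le_sin (abs_nonneg θ) habs
    have h2 : Real.sin |θ| ^ 2 = Real.sin θ ^ 2 := by
      rcases abs_choice θ with h | h <;> rw [h]
      rw [Real.sin_neg]; ring
    have h3 : (2 / π * |θ|) ^ 2 ≤ Real.sin θ ^ 2 := by
      rw [← h2]
      exact pow_le_pow_left₀ (by positivity) h1 2
    have h5 : (2 / π * |θ|) ^ 2 = 4 * (θ ^ 2 / π ^ 2) := by
      rw [mul_pow, sq_abs]; ring
    rw [h5] at h3
    have h6 : 0 ≤ θ ^ 2 / π ^ 2 := by positivity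
    nlinarith [mul_self_nonneg (r - Real.cos θ)]

/-- The rescaled integrand. -/
noncomputable def psiN (N : ℕ) (p : ℝ × ℝ) : ℝ :=
  {p : ℝ × ℝ | 0 < p.1 ∧ p.1 < N ∧ |p.2| < π * qr N}.indicator
    (fun p => (1 - p.1 / N) ^ N * (N * rho (wN N p) ^ 2)) p

/-- The limit integrand. -/
noncomputable def psi0 (p : ℝ × ℝ) : ℝ :=
  {p : ℝ × ℝ | 0 < p.1}.indicator (fun p => Real.exp (-p.1) * rr (p.2 ^ 2) (2 * p.1) ^ 2) p

/-- The dominating function. -/
noncomputable def bd (p : ℝ × ℝ) : ℝ :=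
  (Ioi (0 : ℝ)).indicator (fun u => 8 * π ^ 4 * ((u + u ^ 2) * Real.exp (-u))) p.1 *
    (1 + p.2 ^ 2)⁻¹

lemma measurableSet_dom (N : ℕ) :
    MeasurableSet {p : ℝ × ℝ | 0 < p.1 ∧ p.1 < N ∧ |p.2| < π * qr N} := by
  apply MeasurableSet.inter (s₁ := {p : ℝ × ℝ | 0 < p.1})
  · exact measurableSet_lt measurable_const measurable_fst
  · apply MeasurableSet.inter (s₁ := {p : ℝ × ℝ | p.1 < N})
    · exact measurableSet_lt measurable_fst measurable_const
    · exact measurableSet_lt (measurable_snd.abs) measurable_const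

lemma measurable_psiN (N : ℕ) : Measurable (psiN N) := by
  unfold psiN
  apply Measurable.indicator _ (measurableSet_dom N)
  have h1 := (continuous_rho.comp (continuous_wN N)).measurable
  have h2 : Measurable fun p : ℝ × ℝ => rho (wN N p) := h1
  exact ((measurable_const.sub (measurable_fst.div_const _)).pow_const N).mul
    (measurable_const.mul (h2.pow_const 2))

lemma measurable_psi0 : Measurable psi0 := by
  unfold psi0
  apply Measurable.indicator _ (measurableSet_lt measurable_const measurable_fst)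
  have h1 : Continuous fun p : ℝ × ℝ => rr (p.2 ^ 2) (2 * p.1) :=
    continuous_rr.comp (f := fun p : ℝ × ℝ => ((p.2 ^ 2, 2 * p.1) : ℝ × ℝ)) (by fun_prop)
  exact (Measurable.exp (measurable_fst.neg)).mul (h1.measurable.pow_const 2)

/-- Elementary domination. -/
lemma dom_aux {x u v c : ℝ} (hc : 1 ≤ c) (hu : 0 ≤ u) (h1 : x ≤ 2 * u)
    (h2 : v ^ 4 * x ≤ 4 * c * u ^ 2) : x ≤ 8 * c * (u + u ^ 2) * (1 + v ^ 2)⁻¹ := by
  rw [← div_eq_mul_inv, le_div_iff₀ (by positivity)]
  by_cases hx : x ≤ 0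
  · have : x * (1 + v ^ 2) ≤ 0 := mul_nonpos_of_nonpos_of_nonneg hx (by positivity)
    have h3 : 0 ≤ 8 * c * (u + u ^ 2) := by positivity
    linarith
  push Not at hx
  by_cases hv : v ^ 2 ≤ 1
  · have h3 : x * (1 + v ^ 2) ≤ 2 * u * 2 := by
      apply mul_le_mul h1 (by linarith) (by positivity) (by positivity)
    have h4 : 0 ≤ (c - 1) * u := mul_nonneg (by linarith) hu
    have h5 : 0 ≤ c * u ^ 2 := by positivity
    nlinarith
  · push Not at hv
    have h3 : 1 + v ^ 2 ≤ 2 * v ^ 4 := by nlinarith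
    have h4 : x * (1 + v ^ 2) ≤ x * (2 * v ^ 4) := mul_le_mul_of_nonneg_left h3 hx.le
    have h5 : 0 ≤ c * u := by positivity
    nlinarith

lemma psiN_nonneg (N : ℕ) (p : ℝ × ℝ) : 0 ≤ psiN N p := by
  unfold psiN
  apply indicator_nonneg
  rintro p ⟨h1, h2, h3⟩
  have hN : (0 : ℝ) < N := h1.trans h2
  have h4 : 0 ≤ 1 - p.1 / N := by
    rw [sub_nonneg, div_le_one hN]; exact h2.le
  positivity

lemma psiN_le (N : ℕ) (p : ℝ × ℝ) : psiN N p ≤ bd p := by
  unfold psiN
  by_cases hp : p ∈ {p : ℝ × ℝ | 0 < p.1 ∧ p.1 < N ∧ |p.2| < π * qr N}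
  · rw [indicator_of_mem hp]
    obtain ⟨h1, h2, h3⟩ := hp
    have hN : (0 : ℝ) < N := h1.trans h2
    have hN' : 0 < N := by exact_mod_cast hN
    have hq := qr_pos hN'
    have h4 : 0 ≤ 1 - p.1 / N := by
      rw [sub_nonneg, div_le_one hN]; exact h2.le
    have hr1 : 1 - p.1 / N ≤ 1 := by
      have : 0 ≤ p.1 / N := by positivity
      linarith
    have hexp : (1 - p.1 / N) ^ N ≤ Real.exp (-p.1) :=
      Real.one_sub_div_pow_le_exp_neg h2.le
    have hs0 : 0 ≤ sf (wN N p) := by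
      rw [sf_wN]
      nlinarith
    have hs1 : N * sf (wN N p) ≤ 2 * p.1 := by
      rw [sf_wN]
      have : N * (1 - (1 - p.1 / N) ^ 2) = 2 * p.1 - p.1 ^ 2 / N := by
        field_simp
        ring
      rw [this]
      have : 0 ≤ p.1 ^ 2 / N := by positivity
      linarith
    have hq1 : (p.2 / qr N) ^ 2 / π ^ 2 ≤ qf (wN N p) := by
      apply le_qf_polar h4
      rw [abs_div, abs_of_pos hq, div_le_iff₀ hq]
      exact h3.le
    have hr0 := rr_nonneg (a := qf (wN N p)) hs0
    have hx1 : N * rho (wN N p) ^ 2 ≤ 2 * p.1 := by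
      rw [rho_eq]
      have h5 := rr_sq_le (a := qf (wN N p)) (by unfold qf; positivity) hs0
      calc (N : ℝ) * rr (qf (wN N p)) (sf (wN N p)) ^ 2 ≤ N * sf (wN N p) :=
            mul_le_mul_of_nonneg_left h5 hN.le
        _ ≤ _ := hs1
    have hx2 : p.2 ^ 4 * (N * rho (wN N p) ^ 2) ≤ 4 * π ^ 4 * p.1 ^ 2 := by
      rw [rho_eq]
      have h5 : (p.2 / qr N) ^ 2 / π ^ 2 * rr (qf (wN N p)) (sf (wN N p)) ≤ sf (wN N p) :=
        (mul_le_mul_of_nonneg_right hq1 hr0).trans (mul_rr_le hs0)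
      have h6 : ((p.2 / qr N) ^ 2 / π ^ 2 * rr (qf (wN N p)) (sf (wN N p))) * N ≤ 2 * p.1 := by
        calc _ ≤ sf (wN N p) * N := mul_le_mul_of_nonneg_right h5 hN.le
          _ = N * sf (wN N p) := mul_comm _ _
          _ ≤ _ := hs1
      have h7 : 0 ≤ ((p.2 / qr N) ^ 2 / π ^ 2 * rr (qf (wN N p)) (sf (wN N p))) * N := by
        positivity
      have h8 := pow_le_pow_left₀ h7 h6 2
      have h9 : (((p.2 / qr N) ^ 2 / π ^ 2 * rr (qf (wN N p)) (sf (wN N p))) * N) ^ 2 =
          (p.2 ^ 4 * (N * rr (qf (wN N p)) (sf (wN N p)) ^ 2)) / π ^ 4 := by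
        have hqq := qr_four N
        have hpi := Real.pi_pos
        field_simp
        rw [hqq]
        ring
      rw [h9, div_le_iff₀ (by have := Real.pi_pos; positivity)] at h8
      calc _ ≤ _ := h8
        _ = _ := by ring
    have hpi1 : (1 : ℝ) ≤ π ^ 4 := one_le_pow₀ (by linarith [Real.pi_gt_three])
    have h10 := dom_aux hpi1 h1.le hx1 hx2
    unfold bd
    rw [indicator_of_mem (show p.1 ∈ Ioi (0 : ℝ) from h1)]
    calc (1 - p.1 / N) ^ N * (N * rho (wN N p) ^ 2)
        ≤ Real.exp (-p.1) * (8 * π ^ 4 * (p.1 + p.1 ^ 2) * (1 + p.2 ^ 2)⁻¹) :=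
          mul_le_mul hexp h10 (by positivity) (by positivity)
      _ = _ := by ring
  · rw [indicator_of_notMem hp]
    unfold bd
    apply mul_nonneg
    · apply indicator_nonneg
      intro u hu
      have hu' : 0 < u := hu
      positivity
    · positivity

lemma integrable_bd : Integrable bd := by
  unfold bd
  have h1 : Integrable (fun u : ℝ => (Ioi (0 : ℝ)).indicator
      (fun u => 8 * π ^ 4 * ((u + u ^ 2) * Real.exp (-u))) u) := by
    rw [integrable_indicator_iff measurableSet_Ioi]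
    apply Integrable.const_mul
    have e1 := Real.GammaIntegral_convergent (s := 2) (by norm_num)
    have e2 := Real.GammaIntegral_convergent (s := 3) (by norm_num)
    have e3 := e1.add e2
    refine e3.congr ?_
    filter_upwards [ae_restrict_mem measurableSet_Ioi] with u hu
    have hu' : (0 : ℝ) < u := hu
    simp only [Pi.add_apply]
    norm_num
    ring
  exact h1.mul_prod integrable_inv_one_add_sq

lemma integrable_psiN (N : ℕ) : Integrable (psiN N) :=
  integrable_bd.mono' (measurable_psiN N).aestronglyMeasurable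
    (Eventually.of_forall fun p => by
      rw [Real.norm_eq_abs, abs_of_nonneg (psiN_nonneg N p)]
      exact psiN_le N p)

lemma tendsto_sinc (v : ℝ) :
    Tendsto (fun N : ℕ => qr N * (2 * Real.sin (v / qr N / 2))) atTop (𝓝 v) := by
  have h1 : HasDerivAt (fun x : ℝ => 2 * Real.sin (v * x / 2)) v 0 := by
    have h2 : HasDerivAt (fun x : ℝ => v * x / 2) (v / 2) 0 := by
      have := (hasDerivAt_id (0 : ℝ)).const_mul v
      simpa using this.div_const 2
    have h3 := (h2.sin).const_mul 2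
    have h4 : 2 * (Real.cos (v * 0 / 2) * (v / 2)) = v := by
      simp
      ring
    rw [h4] at h3
    exact h3
  have h4 := h1.tendsto_slope
  have h5 : Tendsto (fun N : ℕ => (qr N)⁻¹) atTop (𝓝[≠] 0) := by
    apply tendsto_nhdsWithin_of_tendsto_nhds_of_eventually_within
    · exact tendsto_inv_atTop_zero.comp tendsto_qr
    · filter_upwards [eventually_gt_atTop 0] with N hN
      have := qr_pos hN
      exact (inv_pos.mpr this).ne'
  have h6 := h4.comp h5
  refine h6.congr' ?_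
  filter_upwards [eventually_gt_atTop 0] with N hN
  have := qr_pos hN
  simp only [Function.comp, slope_def_field]
  simp only [mul_zero, zero_div, Real.sin_zero, sub_zero]
  rw [div_inv_eq_mul, mul_comm]
  congr 3

lemma tendsto_psiN (p : ℝ × ℝ) : Tendsto (fun N : ℕ => psiN N p) atTop (𝓝 (psi0 p)) := by
  by_cases hp : 0 < p.1
  swap
  · have h1 : psi0 p = 0 := by
      unfold psi0
      exact indicator_of_notMem (show p ∉ {p : ℝ × ℝ | 0 < p.1} from hp) _
    have h2 : ∀ N : ℕ, psiN N p = 0 := by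
      intro N
      unfold psiN
      exact indicator_of_notMem
        (show p ∉ {p : ℝ × ℝ | 0 < p.1 ∧ p.1 < N ∧ |p.2| < π * qr N} from fun h => hp h.1) _
    simp_rw [h1, h2]
    exact tendsto_const_nhds
  have h0 : psi0 p = Real.exp (-p.1) * rr (p.2 ^ 2) (2 * p.1) ^ 2 := by
    unfold psi0
    exact indicator_of_mem (show p ∈ {p : ℝ × ℝ | 0 < p.1} from hp) _
  have hdiv : Tendsto (fun N : ℕ => p.1 / (N : ℝ)) atTop (𝓝 0) :=
    tendsto_const_div_atTop_nhds_zero_nat p.1
  -- power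
  have hpow : Tendsto (fun N : ℕ => (1 - p.1 / (N : ℝ)) ^ N) atTop (𝓝 (Real.exp (-p.1))) := by
    have := Real.tendsto_one_add_div_pow_exp (-p.1)
    refine this.congr fun N => ?_
    rw [neg_div, sub_eq_add_neg]
  -- first argument
  have hb : Tendsto (fun N : ℕ => (N : ℝ) * sf (wN N p)) atTop (𝓝 (2 * p.1)) := by
    have h1 : Tendsto (fun N : ℕ => 2 * p.1 - p.1 * (p.1 / (N : ℝ))) atTop
        (𝓝 (2 * p.1 - p.1 * 0)) := tendsto_const_nhds.sub (hdiv.const_mul _)
    rw [mul_zero, sub_zero] at h1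
    refine h1.congr' ?_
    filter_upwards [eventually_gt_atTop 0] with N hN
    have hN' : (0 : ℝ) < N := by exact_mod_cast hN
    rw [sf_wN]
    field_simp
    ring
  have ha : Tendsto (fun N : ℕ => qr N ^ 2 * qf (wN N p)) atTop (𝓝 (p.2 ^ 2)) := by
    have h1 : Tendsto (fun N : ℕ => (p.1 / qr N ^ 3) ^ 2 +
        (1 - p.1 / (N : ℝ)) * (qr N * (2 * Real.sin (p.2 / qr N / 2))) ^ 2) atTop
        (𝓝 (0 ^ 2 + (1 - 0) * p.2 ^ 2)) := by
      apply Tendsto.add
      · apply Tendsto.pow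
        exact Tendsto.const_div_atTop ((tendsto_pow_atTop (by norm_num)).comp tendsto_qr) _
      · exact (tendsto_const_nhds.sub hdiv).mul ((tendsto_sinc p.2).pow 2)
    rw [show (0 : ℝ) ^ 2 + (1 - 0) * p.2 ^ 2 = p.2 ^ 2 by ring] at h1
    refine h1.congr' ?_
    filter_upwards [eventually_gt_atTop 0] with N hN
    have hN' : (0 : ℝ) < N := by exact_mod_cast hN
    have hq := qr_pos hN
    unfold wN
    rw [qf_polar]
    have h2 : (qr N ^ 2) * (1 - (1 - p.1 / (N : ℝ))) ^ 2 = (p.1 / qr N ^ 3) ^ 2 := by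
      have h3 := qr_four N
      rw [← h3]
      field_simp
      ring
    rw [mul_add, h2]
    ring
  have hrr : Tendsto (fun N : ℕ => (N : ℝ) * rho (wN N p) ^ 2) atTop
      (𝓝 (rr (p.2 ^ 2) (2 * p.1) ^ 2)) := by
    have h1 : Tendsto (fun N : ℕ => rr (qr N ^ 2 * qf (wN N p)) ((N : ℝ) * sf (wN N p))) atTop
        (𝓝 (rr (p.2 ^ 2) (2 * p.1))) :=
      (continuous_rr.tendsto (p.2 ^ 2, 2 * p.1)).comp (ha.prodMk_nhds hb)
    refine (h1.pow 2).congr fun N => ?_
    have h2 : (N : ℝ) = (qr N ^ 2) ^ 2 := (qr_sq_sq N).symm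
    have h3 : rr (qr N ^ 2 * qf (wN N p)) ((N : ℝ) * sf (wN N p)) =
        qr N ^ 2 * rho (wN N p) := by
      rw [rho_eq, rr_scale (sq_nonneg _), ← h2]
    rw [h3, mul_pow, qr_sq_sq]
  rw [h0]
  refine (hpow.mul hrr).congr' ?_
  have e1 : ∀ᶠ N : ℕ in atTop, p.1 < N := by
    filter_upwards [eventually_gt_atTop ⌈p.1⌉₊] with N hN
    exact (Nat.le_ceil _).trans_lt (by exact_mod_cast hN)
  have e2 : ∀ᶠ N : ℕ in atTop, |p.2| / π < qr N := tendsto_qr.eventually_gt_atTop _
  filter_upwards [e1, e2] with N h1 h2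
  unfold psiN
  rw [indicator_of_mem]
  refine ⟨hp, h1, ?_⟩
  rwa [div_lt_iff₀' Real.pi_pos] at h2

lemma psi0_nonneg (p : ℝ × ℝ) : 0 ≤ psi0 p :=
  ge_of_tendsto' (tendsto_psiN p) fun N => psiN_nonneg N p

lemma psi0_le (p : ℝ × ℝ) : psi0 p ≤ bd p :=
  le_of_tendsto' (tendsto_psiN p) fun N => psiN_le N p

lemma integrable_psi0 : Integrable psi0 :=
  integrable_bd.mono' measurable_psi0.aestronglyMeasurable
    (Eventually.of_forall fun p => by
      rw [Real.norm_eq_abs, abs_of_nonneg (psi0_nonneg p)]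
      exact psi0_le p)

/-- `L^1` convergence of the rescaled integrands. -/
lemma tendsto_L1 : Tendsto (fun N : ℕ => ∫ p, |psiN N p - psi0 p|) atTop (𝓝 0) := by
  have h := tendsto_integral_of_dominated_convergence (μ := (volume : Measure (ℝ × ℝ)))
    (F := fun (N : ℕ) p => |psiN N p - psi0 p|) (f := fun _ => 0) (fun p => 2 * bd p)
    (fun N => ((measurable_psiN N).sub measurable_psi0).abs.aestronglyMeasurable)
    (integrable_bd.const_mul 2)
    (fun N => Eventually.of_forall fun p => by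
      rw [Real.norm_eq_abs, abs_abs, abs_le]
      have h1 := psiN_nonneg N p
      have h2 := psiN_le N p
      have h3 := psi0_nonneg p
      have h4 := psi0_le p
      constructor <;> linarith)
    (Eventually.of_forall fun p => by
      have h1 := (tendsto_psiN p).sub_const (psi0 p)
      rw [sub_self] at h1
      simpa using h1.abs)
  simpa using h

end Asy

end Pool.Agent.Work.MP_e29078_an

end

section

/-! Cauchy transform on the unit disc with vanishing moments. -/

open MeasureTheory Set Filter Topology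
open scoped Real ComplexConjugate

namespace Pool.Agent.Work.MP_e29078_an

noncomputable def cauchyV (Θ : ℂ → ℂ) (w : ℂ) : ℂ :=
  -(π : ℂ)⁻¹ * ∫ ζ in Metric.ball (0 : ℂ) 1, Θ ζ / (conj w - conj ζ)

namespace CV

/-- Truncated kernel. -/
noncomputable def kk (u : ℂ) : ℝ := (Metric.ball (0 : ℂ) 1).indicator (fun u => ‖u‖ ^ (-(7 / 4) : ℝ)) u

theorem kk_nonneg (u : ℂ) : 0 ≤ kk u := by
  unfold kk
  refine Set.indicator_nonneg (fun u _ => ?_) u
  positivity

theorem kk_integrable : Integrable kk := by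
  have h : IntegrableOn (fun u : ℂ => ‖u‖ ^ (-(7 / 4) : ℝ)) (Metric.ball (0 : ℂ) 1) := by
    have h1 := (integrableOn_fun_norm_addHaar (E := ℂ) (volume : Measure ℂ)
      (f := fun y : ℝ => y ^ (-(7 / 4) : ℝ)) (r := 1)).mpr ?_
    · exact h1
    · rw [Complex.finrank_real_complex]
      have h2 : IntegrableOn (fun y : ℝ => y ^ (-(3 / 4) : ℝ)) (Ioo 0 1) := by
        have h3 := intervalIntegral.intervalIntegrable_rpow' (a := 0) (b := 1)
          (r := (-(3 / 4) : ℝ)) (by norm_num)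
        rw [intervalIntegrable_iff_integrableOn_Ioo_of_le zero_le_one] at h3
        exact h3
      refine h2.congr_fun (fun y hy => ?_) measurableSet_Ioo
      simp only [smul_eq_mul]
      norm_num
      rw [← Real.rpow_one_add' hy.1.le (by norm_num)]
      norm_num
  unfold kk
  rw [integrable_indicator_iff Metric.isOpen_ball.measurableSet]
  exact h

theorem kk_bound (u : ℂ) : ‖u‖ ^ (-(7 / 4) : ℝ) ≤ kk u + 1 := by
  unfold kk
  by_cases h : u ∈ Metric.ball (0 : ℂ) 1
  · rw [Set.indicator_of_mem h]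
    linarith
  · rw [Set.indicator_of_notMem h, zero_add]
    have h1 : 1 ≤ ‖u‖ := by
      rw [Metric.mem_ball, dist_zero_right] at h
      linarith
    exact Real.rpow_le_one_of_one_le_of_nonpos h1 (by norm_num)

theorem kk_bound' (u : ℂ) : ‖u‖⁻¹ ≤ kk u + 1 := by
  by_cases h0 : u = 0
  · rw [h0, norm_zero, inv_zero]
    have := kk_nonneg 0
    linarith
  have hu : 0 < ‖u‖ := norm_pos_iff.mpr h0
  by_cases h : ‖u‖ ≤ 1
  · refine le_trans ?_ (kk_bound u)
    rw [← Real.rpow_neg_one]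
    exact Real.rpow_le_rpow_of_exponent_ge hu h (by norm_num)
  · have h1 : ‖u‖⁻¹ ≤ 1 := inv_le_one_of_one_le₀ (by linarith)
    have := kk_nonneg u
    linarith

/-- Bound function on the ball. -/
theorem bd_integrable (w : ℂ) : IntegrableOn (fun ζ => kk (w - ζ) + 1) (Metric.ball (0 : ℂ) 1) := by
  refine Integrable.add ?_ ?_
  · exact (kk_integrable.comp_sub_left w).integrableOn
  · exact integrableOn_const (by simp)

theorem bd_integral (w : ℂ) :
    ∫ ζ in Metric.ball (0 : ℂ) 1, (kk (w - ζ) + 1) ≤ (∫ u, kk u) + π := by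
  rw [integral_add (kk_integrable.comp_sub_left w).integrableOn
    (integrableOn_const (by simp))]
  have h1 : ∫ ζ in Metric.ball (0 : ℂ) 1, kk (w - ζ) ≤ ∫ u, kk u := by
    calc ∫ ζ in Metric.ball (0 : ℂ) 1, kk (w - ζ) ≤ ∫ ζ, kk (w - ζ) :=
          setIntegral_le_integral (kk_integrable.comp_sub_left w)
            (Eventually.of_forall fun ζ => kk_nonneg _)
      _ = ∫ u, kk u := integral_sub_left_eq_self kk volume w
  have h2 : ∫ _ζ in Metric.ball (0 : ℂ) 1, (1 : ℝ) = π := by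
    rw [setIntegral_const, Measure.real, Complex.volume_ball]
    simp
  linarith

/-- Elementary inequality. -/
theorem elem_ineq {a b t : ℝ} (ha : 0 < a) (hb : 0 < b) (ht : 0 ≤ t) (htab : t ≤ a + b) :
    t / (a * b) ≤ 2 * t ^ (3 / 4 : ℝ) * (a ^ (-(7 / 4) : ℝ) + b ^ (-(7 / 4) : ℝ)) := by
  wlog hab : a ≤ b generalizing a b
  · have := this hb ha (by linarith) (by linarith)
    rw [mul_comm a b, add_comm (a ^ _)]
    exact this
  have h1 : t = t ^ (3 / 4 : ℝ) * t ^ (1 / 4 : ℝ) := by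
    rw [← Real.rpow_add' ht (by norm_num)]
    norm_num
  have h2 : t ^ (1 / 4 : ℝ) ≤ 2 * b ^ (1 / 4 : ℝ) := by
    calc t ^ (1 / 4 : ℝ) ≤ (2 * b) ^ (1 / 4 : ℝ) :=
          Real.rpow_le_rpow ht (by linarith) (by norm_num)
      _ = 2 ^ (1 / 4 : ℝ) * b ^ (1 / 4 : ℝ) := Real.mul_rpow (by norm_num) hb.le
      _ ≤ 2 ^ (1 : ℝ) * b ^ (1 / 4 : ℝ) := by
          refine mul_le_mul_of_nonneg_right ?_ (by positivity)
          exact Real.rpow_le_rpow_of_exponent_le (by norm_num) (by norm_num)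
      _ = 2 * b ^ (1 / 4 : ℝ) := by rw [Real.rpow_one]
  have h3 : b ^ (1 / 4 : ℝ) / (a * b) ≤ a ^ (-(7 / 4) : ℝ) := by
    have h4 : b ^ (1 / 4 : ℝ) / (a * b) = a⁻¹ * b ^ (-(3 / 4) : ℝ) := by
      rw [show (-(3 / 4) : ℝ) = 1 / 4 - 1 by norm_num, Real.rpow_sub hb, Real.rpow_one]
      field_simp
    rw [h4, show (-(7 / 4) : ℝ) = -1 + -(3 / 4) by norm_num, Real.rpow_add ha, Real.rpow_neg_one]
    refine mul_le_mul_of_nonneg_left ?_ (by positivity)
    exact Real.rpow_le_rpow_of_nonpos ha hab (by norm_num)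
  calc t / (a * b) = t ^ (3 / 4 : ℝ) * (t ^ (1 / 4 : ℝ) / (a * b)) := by
        rw [← mul_div_assoc, ← h1]
    _ ≤ t ^ (3 / 4 : ℝ) * (2 * b ^ (1 / 4 : ℝ) / (a * b)) := by
        gcongr
    _ = 2 * t ^ (3 / 4 : ℝ) * (b ^ (1 / 4 : ℝ) / (a * b)) := by ring
    _ ≤ 2 * t ^ (3 / 4 : ℝ) * (a ^ (-(7 / 4) : ℝ) + b ^ (-(7 / 4) : ℝ)) := by
        refine mul_le_mul_of_nonneg_left ?_ (by positivity)
        have : 0 ≤ b ^ (-(7 / 4) : ℝ) := by positivity
        linarith

theorem norm_conj_sub (w ζ : ℂ) : ‖conj w - conj ζ‖ = ‖w - ζ‖ := by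
  rw [← map_sub, RCLike.norm_conj]

section

variable (Θ : ℂ → ℂ) (hΘ : Measurable Θ) (A : ℝ) (hA : ∀ w, ‖Θ w‖ ≤ A)

include hΘ hA

theorem A_nonneg : 0 ≤ A := (norm_nonneg _).trans (hA 0)

theorem meas_int (w : ℂ) : Measurable fun ζ : ℂ => Θ ζ / (conj w - conj ζ) :=
  hΘ.div (measurable_const.sub (Complex.continuous_conj.measurable))

theorem int_one (w : ℂ) :
    IntegrableOn (fun ζ : ℂ => Θ ζ / (conj w - conj ζ)) (Metric.ball (0 : ℂ) 1) := by
  have hA0 := A_nonneg Θ hΘ A hA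
  refine Integrable.mono' ((bd_integrable w).const_mul A) (meas_int Θ hΘ A hA w).aestronglyMeasurable
    (Eventually.of_forall fun ζ => ?_)
  rw [norm_div, norm_conj_sub, div_eq_mul_inv]
  exact mul_le_mul (hA ζ) (kk_bound' _) (by positivity) hA0

theorem hoelder : ∃ C : ℝ, 0 ≤ C ∧ ∀ w w' : ℂ,
    ‖cauchyV Θ w - cauchyV Θ w'‖ ≤ C * ‖w - w'‖ ^ (3 / 4 : ℝ) := by
  have hA0 := A_nonneg Θ hΘ A hA
  have hK : 0 ≤ ∫ u, kk u := integral_nonneg fun u => kk_nonneg u
  refine ⟨π⁻¹ * (A * 2 * (2 * ((∫ u, kk u) + π))), by positivity, fun w w' => ?_⟩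
  unfold cauchyV
  rw [← mul_sub, norm_mul, norm_neg, norm_inv, Complex.norm_real, Real.norm_of_nonneg Real.pi_pos.le,
    mul_assoc]
  refine mul_le_mul_of_nonneg_left ?_ (by positivity)
  rw [← integral_sub (int_one Θ hΘ A hA w) (int_one Θ hΘ A hA w')]
  have hnull : ∀ᵐ ζ : ℂ ∂(volume.restrict (Metric.ball (0 : ℂ) 1)), ζ ≠ w ∧ ζ ≠ w' := by
    refine ae_restrict_of_ae ?_
    exact (Measure.ae_ne volume w).and (Measure.ae_ne volume w')
  have hb : ∀ᵐ ζ : ℂ ∂(volume.restrict (Metric.ball (0 : ℂ) 1)),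
      ‖Θ ζ / (conj w - conj ζ) - Θ ζ / (conj w' - conj ζ)‖ ≤
        A * 2 * ‖w - w'‖ ^ (3 / 4 : ℝ) * ((kk (w - ζ) + 1) + (kk (w' - ζ) + 1)) := by
    filter_upwards [hnull] with ζ hζ
    have h1 : w - ζ ≠ 0 := sub_ne_zero.mpr hζ.1.symm
    have h2 : w' - ζ ≠ 0 := sub_ne_zero.mpr hζ.2.symm
    have h1' : conj w - conj ζ ≠ 0 := by
      rw [← map_sub]
      exact (map_ne_zero _).mpr h1
    have h2' : conj w' - conj ζ ≠ 0 := by
      rw [← map_sub]
      exact (map_ne_zero _).mpr h2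
    have h3 : Θ ζ / (conj w - conj ζ) - Θ ζ / (conj w' - conj ζ) =
        Θ ζ * (conj (w' - w) / ((conj w - conj ζ) * (conj w' - conj ζ))) := by
      rw [map_sub]
      field_simp
      ring
    rw [h3, norm_mul, norm_div, norm_mul, norm_conj_sub, norm_conj_sub, RCLike.norm_conj,
      norm_sub_rev w' w]
    have h4 : ‖w - w'‖ ≤ ‖w - ζ‖ + ‖w' - ζ‖ := by
      have h5 : w - w' = (w - ζ) - (w' - ζ) := by ring
      rw [h5]
      exact norm_sub_le _ _
    have h5 := elem_ineq (norm_pos_iff.mpr h1) (norm_pos_iff.mpr h2) (norm_nonneg (w - w')) h4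
    have h6 := kk_bound (w - ζ)
    have h7 := kk_bound (w' - ζ)
    calc ‖Θ ζ‖ * (‖w - w'‖ / (‖w - ζ‖ * ‖w' - ζ‖))
        ≤ A * (2 * ‖w - w'‖ ^ (3 / 4 : ℝ) * (‖w - ζ‖ ^ (-(7 / 4) : ℝ) + ‖w' - ζ‖ ^ (-(7 / 4) : ℝ))) :=
          mul_le_mul (hA ζ) h5 (by positivity) hA0
      _ ≤ A * (2 * ‖w - w'‖ ^ (3 / 4 : ℝ) * ((kk (w - ζ) + 1) + (kk (w' - ζ) + 1))) := by
          gcongr
      _ = _ := by ring
  refine (norm_integral_le_of_norm_le (((bd_integrable w).add (bd_integrable w')).const_mul _)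
    hb).trans ?_
  rw [integral_const_mul]
  have h8 : ∫ ζ in Metric.ball (0 : ℂ) 1, ((fun ζ => kk (w - ζ) + 1) + fun ζ => kk (w' - ζ) + 1) ζ
      ≤ 2 * ((∫ u, kk u) + π) := by
    have h9 := bd_integral w
    have h10 := bd_integral w'
    rw [integral_add' (bd_integrable w) (bd_integrable w')]
    linarith
  calc A * 2 * ‖w - w'‖ ^ (3 / 4 : ℝ) *
        ∫ ζ in Metric.ball (0 : ℂ) 1, ((fun ζ => kk (w - ζ) + 1) + fun ζ => kk (w' - ζ) + 1) ζ
      ≤ A * 2 * ‖w - w'‖ ^ (3 / 4 : ℝ) * (2 * ((∫ u, kk u) + π)) :=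
        mul_le_mul_of_nonneg_left h8 (by positivity)
    _ = _ := by ring

theorem cont : Continuous (cauchyV Θ) := by
  obtain ⟨C, hC, h⟩ := hoelder Θ hΘ A hA
  rw [continuous_iff_continuousAt]
  intro w
  rw [ContinuousAt, tendsto_iff_norm_sub_tendsto_zero]
  refine squeeze_zero (fun _ => norm_nonneg _) (fun w' => h w' w) ?_
  have h1 : Continuous fun w' : ℂ => C * ‖w' - w‖ ^ (3 / 4 : ℝ) := by
    refine continuous_const.mul ?_
    exact (continuous_norm.comp (continuous_id.sub continuous_const)).rpow_const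
      fun _ => Or.inr (by norm_num)
  have h2 := h1.tendsto w
  simp only [sub_self, norm_zero] at h2
  rw [Real.zero_rpow (by norm_num), mul_zero] at h2
  exact h2

theorem zero_out (h0 : ∀ k : ℕ, ∫ w in Metric.ball (0 : ℂ) 1, Θ w * (conj w) ^ k = 0)
    (w : ℂ) (hw : 1 < ‖w‖) : cauchyV Θ w = 0 := by
  have hA0 := A_nonneg Θ hΘ A hA
  have hw0 : w ≠ 0 := by
    intro h
    rw [h, norm_zero] at hw
    linarith
  have hcw : conj w ≠ 0 := (map_ne_zero _).mpr hw0
  have hwi : ‖w‖⁻¹ < 1 := inv_lt_one_of_one_lt₀ hw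
  have hint : ∀ k : ℕ, IntegrableOn (fun ζ : ℂ => Θ ζ * (conj ζ) ^ k * (conj w)⁻¹ ^ (k + 1))
      (Metric.ball (0 : ℂ) 1) := by
    intro k
    refine Integrable.mono' (g := fun _ => A * ‖w‖⁻¹ ^ (k + 1))
      (integrableOn_const (by simp)) ?_ ?_
    · refine Measurable.aestronglyMeasurable ?_
      exact (hΘ.mul (Complex.continuous_conj.measurable.pow_const k)).mul_const _
    · refine (ae_restrict_iff' Metric.isOpen_ball.measurableSet).mpr
        (Eventually.of_forall fun ζ hζ => ?_)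
      rw [Metric.mem_ball, dist_zero_right] at hζ
      rw [norm_mul, norm_mul, norm_pow, norm_pow, norm_inv, RCLike.norm_conj, RCLike.norm_conj]
      refine mul_le_mul_of_nonneg_right ?_ (by positivity)
      calc ‖Θ ζ‖ * ‖ζ‖ ^ k ≤ A * 1 := mul_le_mul (hA ζ) (pow_le_one₀ (norm_nonneg _) hζ.le)
            (by positivity) hA0
        _ = A := mul_one A
  have hnb : ∀ k : ℕ, ∫ ζ in Metric.ball (0 : ℂ) 1, ‖Θ ζ * (conj ζ) ^ k * (conj w)⁻¹ ^ (k + 1)‖ ≤
      A * π * ‖w‖⁻¹ ^ (k + 1) := by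
    intro k
    have h1 : ∀ ζ ∈ Metric.ball (0 : ℂ) 1, ‖Θ ζ * (conj ζ) ^ k * (conj w)⁻¹ ^ (k + 1)‖ ≤
        A * ‖w‖⁻¹ ^ (k + 1) := by
      intro ζ hζ
      rw [Metric.mem_ball, dist_zero_right] at hζ
      rw [norm_mul, norm_mul, norm_pow, norm_pow, norm_inv, RCLike.norm_conj, RCLike.norm_conj]
      refine mul_le_mul_of_nonneg_right ?_ (by positivity)
      calc ‖Θ ζ‖ * ‖ζ‖ ^ k ≤ A * 1 := mul_le_mul (hA ζ) (pow_le_one₀ (norm_nonneg _) hζ.le)
            (by positivity) hA0
        _ = A := mul_one A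
    calc ∫ ζ in Metric.ball (0 : ℂ) 1, ‖Θ ζ * (conj ζ) ^ k * (conj w)⁻¹ ^ (k + 1)‖
        ≤ ∫ ζ in Metric.ball (0 : ℂ) 1, A * ‖w‖⁻¹ ^ (k + 1) :=
          setIntegral_mono_on (hint k).norm (integrableOn_const (by simp))
            Metric.isOpen_ball.measurableSet h1
      _ = A * π * ‖w‖⁻¹ ^ (k + 1) := by
          rw [setIntegral_const, Measure.real, Complex.volume_ball]
          simp
          ring
  have hsum : Summable fun k : ℕ =>
      ∫ ζ in Metric.ball (0 : ℂ) 1, ‖Θ ζ * (conj ζ) ^ k * (conj w)⁻¹ ^ (k + 1)‖ := by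
    refine Summable.of_nonneg_of_le (fun k => integral_nonneg fun _ => norm_nonneg _) hnb ?_
    have h2 := (summable_geometric_of_lt_one (by positivity) hwi).mul_left (A * π * ‖w‖⁻¹)
    refine h2.congr fun k => ?_
    rw [pow_succ]
    ring
  have h3 := hasSum_integral_of_summable_integral_norm hint hsum
  have h4 : ∀ k : ℕ, ∫ ζ in Metric.ball (0 : ℂ) 1, Θ ζ * (conj ζ) ^ k * (conj w)⁻¹ ^ (k + 1) = 0 := by
    intro k
    rw [integral_mul_const, h0 k, zero_mul]
  simp only [h4] at h3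
  have h5 := h3.unique hasSum_zero
  have h6 : ∫ ζ in Metric.ball (0 : ℂ) 1, Θ ζ / (conj w - conj ζ) =
      ∫ ζ in Metric.ball (0 : ℂ) 1, ∑' k : ℕ, Θ ζ * (conj ζ) ^ k * (conj w)⁻¹ ^ (k + 1) := by
    refine setIntegral_congr_fun Metric.isOpen_ball.measurableSet fun ζ hζ => ?_
    rw [Metric.mem_ball, dist_zero_right] at hζ
    have h7 : ‖conj ζ * (conj w)⁻¹‖ < 1 := by
      rw [norm_mul, norm_inv, RCLike.norm_conj, RCLike.norm_conj]
      have h9 : 0 ≤ ‖ζ‖ := norm_nonneg ζ
      have h10 : 0 ≤ ‖w‖⁻¹ := by positivity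
      nlinarith
    have h8 := (hasSum_geometric_of_norm_lt_one h7).mul_left (Θ ζ * (conj w)⁻¹)
    have h9 : ∀ k : ℕ, Θ ζ * (conj ζ) ^ k * (conj w)⁻¹ ^ (k + 1) =
        Θ ζ * (conj w)⁻¹ * (conj ζ * (conj w)⁻¹) ^ k := by
      intro k
      rw [mul_pow, pow_succ]
      ring
    simp only [h9]
    rw [h8.tsum_eq]
    have h10 : conj w - conj ζ ≠ 0 := by
      rw [← map_sub]
      refine (map_ne_zero _).mpr ?_
      intro h
      rw [sub_eq_zero] at h
      rw [h] at hw
      linarith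
    have h11 : 1 - conj ζ * (conj w)⁻¹ = (conj w - conj ζ) * (conj w)⁻¹ := by
      field_simp
    rw [h11, mul_inv, inv_inv]
    field_simp
  unfold cauchyV
  rw [h6, h5, mul_zero]

theorem zero_out' (h0 : ∀ k : ℕ, ∫ w in Metric.ball (0 : ℂ) 1, Θ w * (conj w) ^ k = 0)
    (w : ℂ) (hw : 1 ≤ ‖w‖) : cauchyV Θ w = 0 := by
  have hc := cont Θ hΘ A hA
  have h1 : Tendsto (fun n : ℕ => cauchyV Θ (((1 + 1 / ((n : ℝ) + 1) : ℝ) : ℂ) * w)) atTop
      (𝓝 (cauchyV Θ w)) := by
    refine (hc.tendsto w).comp ?_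
    have h2 : Tendsto (fun n : ℕ => (((1 + 1 / ((n : ℝ) + 1) : ℝ) : ℂ) * w)) atTop
        (𝓝 (((1 + 0 : ℝ) : ℂ) * w)) := by
      refine Tendsto.mul_const w ?_
      refine (Complex.continuous_ofReal.tendsto _).comp ?_
      exact tendsto_const_nhds.add tendsto_one_div_add_atTop_nhds_zero_nat
    simpa using h2
  have h3 : ∀ n : ℕ, cauchyV Θ (((1 + 1 / ((n : ℝ) + 1) : ℝ) : ℂ) * w) = 0 := by
    intro n
    refine zero_out Θ hΘ A hA h0 _ ?_
    rw [norm_mul, Complex.norm_real]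
    have h4 : (0 : ℝ) < 1 / ((n : ℝ) + 1) := by positivity
    rw [Real.norm_of_nonneg (by linarith)]
    nlinarith
  simp only [h3] at h1
  exact (tendsto_nhds_unique tendsto_const_nhds h1).symm

theorem bound_in (h0 : ∀ k : ℕ, ∫ w in Metric.ball (0 : ℂ) 1, Θ w * (conj w) ^ k = 0) :
    ∃ C : ℝ, ∀ w, ‖w‖ < 1 → ‖cauchyV Θ w‖ ≤ C * (1 - ‖w‖ ^ 2) ^ (3 / 4 : ℝ) := by
  obtain ⟨C, hC, h⟩ := hoelder Θ hΘ A hA
  refine ⟨C, fun w hw => ?_⟩
  have hex : ∃ w' : ℂ, ‖w'‖ = 1 ∧ ‖w - w'‖ = 1 - ‖w‖ := by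
    by_cases hw0 : w = 0
    · refine ⟨1, by simp, ?_⟩
      rw [hw0]
      simp
    · have hn : (‖w‖ : ℝ) ≠ 0 := norm_ne_zero_iff.mpr hw0
      have hnc : (‖w‖ : ℂ) ≠ 0 := by exact_mod_cast hn
      refine ⟨w / ‖w‖, ?_, ?_⟩
      · rw [norm_div, Complex.norm_real, norm_norm, div_self hn]
      · have h1 : w - w / ‖w‖ = w / ‖w‖ * ((‖w‖ - 1 : ℝ) : ℂ) := by
          push_cast
          field_simp
        rw [h1, norm_mul, norm_div, Complex.norm_real, norm_norm, div_self hn, one_mul,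
          Complex.norm_real, Real.norm_of_nonpos (by linarith)]
        ring
  obtain ⟨w', hw', hd⟩ := hex
  have h1 := h w w'
  rw [zero_out' Θ hΘ A hA h0 w' (by rw [hw']), sub_zero, hd] at h1
  refine h1.trans (mul_le_mul_of_nonneg_left ?_ hC)
  refine Real.rpow_le_rpow (by linarith) ?_ (by norm_num)
  nlinarith [norm_nonneg w]

end

/-- Wirtinger derivative. -/
noncomputable def dw (χ : ℂ → ℂ) (w : ℂ) : ℂ :=
  (fderiv ℝ χ w 1 - Complex.I * fderiv ℝ χ w Complex.I) / 2

/-- Unit vector. -/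
noncomputable def ee (θ : ℝ) : ℂ := Complex.exp (θ * Complex.I)

theorem ee_cont : Continuous ee := by
  unfold ee
  fun_prop

theorem ee_norm (θ : ℝ) : ‖ee θ‖ = 1 := Complex.norm_exp_ofReal_mul_I θ

theorem ee_conj (θ : ℝ) : ee θ * conj (ee θ) = 1 := by
  rw [Complex.mul_conj, Complex.normSq_eq_norm_sq, ee_norm]
  simp

theorem ee_deriv (θ : ℝ) : HasDerivAt ee (Complex.I * ee θ) θ := by
  unfold ee
  have h1 : HasDerivAt (fun t : ℝ => (t : ℂ) * Complex.I) (1 * Complex.I) θ :=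
    (HasDerivAt.ofReal_comp (hasDerivAt_id θ)).mul_const Complex.I
  have h2 := h1.cexp
  rw [one_mul, mul_comm] at h2
  exact h2

theorem lin_id (D : ℂ →L[ℝ] ℂ) (e : ℂ) :
    D e - Complex.I * D (Complex.I * e) = e * (D 1 - Complex.I * D Complex.I) := by
  have h1 : e = e.re • (1 : ℂ) + e.im • Complex.I := by
    simp [Complex.re_add_im]
  have h2 : Complex.I * e = (-e.im) • (1 : ℂ) + e.re • Complex.I := by
    apply Complex.ext <;> simp
  have h3 : D e = (e.re : ℂ) * D 1 + (e.im : ℂ) * D Complex.I := by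
    conv_lhs => rw [h1]
    rw [map_add, map_smul, map_smul]
    simp
  have h4 : D (Complex.I * e) = -(e.im : ℂ) * D 1 + (e.re : ℂ) * D Complex.I := by
    rw [h2, map_add, map_smul, map_smul]
    simp
  rw [h3, h4]
  have h5 : e = (e.re : ℂ) + (e.im : ℂ) * Complex.I := (Complex.re_add_im e).symm
  have h6 := Complex.I_mul_I
  conv_rhs => rw [h5]
  linear_combination ((e.im : ℂ) * D Complex.I) * h6

section

variable (χ : ℂ → ℂ) (hχ : ContDiff ℝ 1 χ) (hc : HasCompactSupport χ)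

include hχ hc

theorem supp_bound (ζ : ℂ) : ∃ R : ℝ, 0 < R ∧ ∀ u : ℂ, R < ‖u‖ →
    χ (ζ + u) = 0 ∧ fderiv ℝ χ (ζ + u) = 0 := by
  obtain ⟨R, hR⟩ := hc.isBounded.subset_closedBall ζ
  refine ⟨max R 1, by positivity, fun u hu => ?_⟩
  have h1 : ζ + u ∉ tsupport χ := by
    intro h
    have h2 := hR h
    rw [Metric.mem_closedBall, dist_eq_norm, add_sub_cancel_left] at h2
    have := le_max_left R 1
    linarith
  refine ⟨image_eq_zero_of_notMem_tsupport h1, ?_⟩
  by_contra h3
  exact h1 (support_fderiv_subset ℝ h3)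

theorem Fint (ζ a : ℂ) : IntegrableOn (fun p : ℝ × ℝ => fderiv ℝ χ (ζ + p.1 * ee p.2) (a * ee p.2))
    (Ioi 0 ×ˢ Ioo (-π) π) := by
  obtain ⟨R, hR, h⟩ := supp_bound χ hχ hc ζ
  have hcont : Continuous (fun p : ℝ × ℝ => fderiv ℝ χ (ζ + p.1 * ee p.2) (a * ee p.2)) := by
    have h1 := hχ.continuous_fderiv one_ne_zero
    have h2 : Continuous fun p : ℝ × ℝ => ζ + (p.1 : ℂ) * ee p.2 :=
      continuous_const.add ((Complex.continuous_ofReal.comp continuous_fst).mul
        (ee_cont.comp continuous_snd))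
    have h3 : Continuous fun p : ℝ × ℝ => a * ee p.2 :=
      continuous_const.mul (ee_cont.comp continuous_snd)
    exact (h1.comp h2).clm_apply h3
  have hi : IntegrableOn (fun p : ℝ × ℝ => fderiv ℝ χ (ζ + p.1 * ee p.2) (a * ee p.2))
      (Icc 0 R ×ˢ Icc (-π) π) :=
    hcont.continuousOn.integrableOn_compact (isCompact_Icc.prod isCompact_Icc)
  refine hi.of_forall_sdiff_eq_zero (measurableSet_Ioi.prod measurableSet_Ioo) ?_
  rintro ⟨r, θ⟩ ⟨⟨hr, hθ⟩, hn⟩
  have hr' : (0 : ℝ) < r := hr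
  have hRr : R < r := by
    by_contra hcon
    push Not at hcon
    exact hn ⟨⟨hr'.le, hcon⟩, ⟨hθ.1.le, hθ.2.le⟩⟩
  have h4 := (h ((r : ℂ) * ee θ) (by
    rw [norm_mul, ee_norm, mul_one, Complex.norm_real, Real.norm_of_nonneg hr'.le]
    exact hRr)).2
  simp only
  rw [h4]
  rfl

theorem Fval (ζ : ℂ) :
    ∫ p in Ioi (0 : ℝ) ×ˢ Ioo (-π) π, fderiv ℝ χ (ζ + p.1 * ee p.2) (1 * ee p.2) =
      -(2 * π * χ ζ) := by
  obtain ⟨R, hR, h⟩ := supp_bound χ hχ hc ζ
  have hi := Fint χ hχ hc ζ 1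
  have hi' : Integrable (fun p : ℝ × ℝ => fderiv ℝ χ (ζ + p.1 * ee p.2) (1 * ee p.2))
      ((volume.restrict (Ioi (0 : ℝ))).prod (volume.restrict (Ioo (-π) π))) := by
    rw [Measure.prod_restrict, ← Measure.volume_eq_prod]
    exact hi
  rw [Measure.volume_eq_prod, ← Measure.prod_restrict, integral_prod_symm _ hi']
  have h1 : ∀ θ : ℝ, ∫ r in Ioi (0 : ℝ), fderiv ℝ χ (ζ + r * ee θ) (1 * ee θ) = -χ ζ := by
    intro θ
    set f : ℝ → ℂ := fun r => χ (ζ + r * ee θ) with hf
    have hd : ∀ r : ℝ, HasDerivAt f (fderiv ℝ χ (ζ + r * ee θ) (1 * ee θ)) r := by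
      intro r
      have h2 : HasDerivAt (fun r : ℝ => ζ + (r : ℂ) * ee θ) (1 * ee θ) r :=
        ((HasDerivAt.ofReal_comp (hasDerivAt_id r)).mul_const (ee θ)).const_add ζ
      exact ((hχ.differentiable one_ne_zero _).hasFDerivAt).comp_hasDerivAt r h2
    have hfc : ContDiff ℝ 1 f := by
      refine hχ.comp ?_
      exact contDiff_const.add (Complex.ofRealCLM.contDiff.mul contDiff_const)
    have hsup : HasCompactSupport f := by
      refine HasCompactSupport.of_support_subset_isCompact (isCompact_Icc (a := -R) (b := R)) ?_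
      intro r hr
      by_contra hcon
      have h3 : R < |r| := by
        by_contra h4
        push Not at h4
        exact hcon (abs_le.mp h4)
      exact hr (h ((r : ℂ) * ee θ) (by
        rw [norm_mul, ee_norm, mul_one, Complex.norm_real]
        exact h3)).1
    have h5 := hsup.integral_Ioi_deriv_eq hfc 0
    have h6 : ∀ r, deriv f r = fderiv ℝ χ (ζ + r * ee θ) (1 * ee θ) := fun r => (hd r).deriv
    simp only [h6] at h5
    rw [h5, hf]
    simp
  simp only [h1]
  rw [integral_const, measureReal_restrict_apply_univ, Real.volume_real_Ioo_of_le (by linarith [Real.pi_pos])]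
  rw [Complex.real_smul]
  push_cast
  ring

theorem Gval (ζ : ℂ) :
    ∫ p in Ioi (0 : ℝ) ×ˢ Ioo (-π) π, fderiv ℝ χ (ζ + p.1 * ee p.2) (Complex.I * ee p.2) = 0 := by
  have hi := Fint χ hχ hc ζ Complex.I
  have hi' : Integrable (fun p : ℝ × ℝ => fderiv ℝ χ (ζ + p.1 * ee p.2) (Complex.I * ee p.2))
      ((volume.restrict (Ioi (0 : ℝ))).prod (volume.restrict (Ioo (-π) π))) := by
    rw [Measure.prod_restrict, ← Measure.volume_eq_prod]
    exact hi
  rw [Measure.volume_eq_prod, ← Measure.prod_restrict, integral_prod _ hi']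
  refine (setIntegral_congr_fun measurableSet_Ioi fun r hr => ?_).trans (integral_zero _ _)
  have hr' : (0 : ℝ) < r := hr
  have hrc : (r : ℂ) ≠ 0 := by exact_mod_cast hr'.ne'
  simp only
  have hd : ∀ θ, HasDerivAt (fun θ : ℝ => (r : ℂ)⁻¹ * χ (ζ + r * ee θ))
      (fderiv ℝ χ (ζ + r * ee θ) (Complex.I * ee θ)) θ := by
    intro θ
    have h2 : HasDerivAt (fun θ : ℝ => ζ + (r : ℂ) * ee θ) (r • (Complex.I * ee θ)) θ := by
      rw [Complex.real_smul]
      exact ((ee_deriv θ).const_mul (r : ℂ)).const_add ζ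
    have h3 := (((hχ.differentiable one_ne_zero _).hasFDerivAt).comp_hasDerivAt θ h2).const_mul
      ((r : ℂ)⁻¹)
    have h5 : (r : ℂ)⁻¹ * fderiv ℝ χ (ζ + r * ee θ) (r • (Complex.I * ee θ)) =
        fderiv ℝ χ (ζ + r * ee θ) (Complex.I * ee θ) := by
      rw [map_smul, Complex.real_smul]
      field_simp
    rw [h5] at h3
    exact h3
  rw [← integral_Ioc_eq_integral_Ioo, ← intervalIntegral.integral_of_le (by linarith [Real.pi_pos])]
  rw [intervalIntegral.integral_eq_sub_of_hasDerivAt (fun θ _ => hd θ)]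
  · have h5 : ee π = ee (-π) := by
      unfold ee
      push_cast
      rw [Complex.exp_pi_mul_I, neg_mul, Complex.exp_neg, Complex.exp_pi_mul_I]
      norm_num
    rw [h5, sub_self]
  · refine Continuous.intervalIntegrable ?_ _ _
    have h1 := hχ.continuous_fderiv one_ne_zero
    have h2 : Continuous fun θ : ℝ => ζ + (r : ℂ) * ee θ :=
      continuous_const.add (continuous_const.mul ee_cont)
    exact (h1.comp h2).clm_apply (continuous_const.mul ee_cont)

theorem pompeiu (ζ : ℂ) : ∫ w, dw χ w / (conj ζ - conj w) = π * χ ζ := by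
  rw [← integral_add_left_eq_self (fun w => dw χ w / (conj ζ - conj w)) ζ,
    ← Complex.integral_comp_polarCoord_symm]
  have h1 : ∀ p ∈ polarCoord.target, p.1 • (dw χ (ζ + Complex.polarCoord.symm p) /
      (conj ζ - conj (ζ + Complex.polarCoord.symm p))) =
      -(1 / 2) * (fderiv ℝ χ (ζ + p.1 * ee p.2) (1 * ee p.2) -
        Complex.I * fderiv ℝ χ (ζ + p.1 * ee p.2) (Complex.I * ee p.2)) := by
    rintro ⟨r, θ⟩ hp
    rw [polarCoord_target] at hp
    have hr : (0 : ℝ) < r := hp.1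
    have hrc : (r : ℂ) ≠ 0 := by exact_mod_cast hr.ne'
    have h2 : Complex.polarCoord.symm (r, θ) = r * ee θ := by
      rw [Complex.polarCoord_symm_apply]
      unfold ee
      rw [Complex.exp_mul_I]
      push_cast
      rfl
    simp only
    rw [h2, one_mul, lin_id, map_add, map_mul, Complex.conj_ofReal, Complex.real_smul]
    have h3 := ee_conj θ
    have h4 : conj (ee θ) ≠ 0 := by
      intro h
      rw [h, mul_zero] at h3
      exact zero_ne_one h3
    have h5 : (conj ζ - (conj ζ + (r : ℂ) * conj (ee θ))) = -((r : ℂ) * conj (ee θ)) := by ring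
    rw [h5]
    unfold dw
    rw [div_neg, mul_neg]
    field_simp
    linear_combination (fderiv ℝ χ (ζ + r * ee θ) 1 -
      Complex.I * fderiv ℝ χ (ζ + r * ee θ) Complex.I) * h3
  rw [setIntegral_congr_fun polarCoord.open_target.measurableSet h1]
  rw [integral_const_mul]
  have hF := Fint χ hχ hc ζ 1
  have hG := Fint χ hχ hc ζ Complex.I
  have h7 : ∫ p in polarCoord.target, (fderiv ℝ χ (ζ + p.1 * ee p.2) (1 * ee p.2) -
        Complex.I * fderiv ℝ χ (ζ + p.1 * ee p.2) (Complex.I * ee p.2)) =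
      -(2 * π * χ ζ) - Complex.I * 0 := by
    rw [← Fval χ hχ hc ζ, ← Gval χ hχ hc ζ, ← integral_const_mul]
    exact integral_sub hF (hG.const_mul _)
  rw [h7]
  ring

end

theorem weak (Θ : ℂ → ℂ) (hΘ : Measurable Θ) (A : ℝ) (hA : ∀ w, ‖Θ w‖ ≤ A)
    (χ : ℂ → ℂ) (hχ : ContDiff ℝ 1 χ) (hc : HasCompactSupport χ)
    (hs : tsupport χ ⊆ Metric.ball 0 1) :
    ∫ w in Metric.ball (0 : ℂ) 1, cauchyV Θ w * dw χ w =
        ∫ w in Metric.ball (0 : ℂ) 1, Θ w * χ w := by
  have hA0 := A_nonneg Θ hΘ A hA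
  have hdc : Continuous (dw χ) := by
    have h1 := hχ.continuous_fderiv one_ne_zero
    unfold dw
    exact ((h1.clm_apply continuous_const).sub
      (continuous_const.mul (h1.clm_apply continuous_const))).div_const 2
  have hd0 : ∀ w, w ∉ Metric.ball (0 : ℂ) 1 → dw χ w = 0 := by
    intro w hw
    have h1 : fderiv ℝ χ w = 0 := by
      by_contra h3
      exact hw (hs (support_fderiv_subset ℝ h3))
    unfold dw
    rw [h1]
    simp
  have hdcs : HasCompactSupport (dw χ) := by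
    refine HasCompactSupport.of_support_subset_isCompact (isCompact_closedBall (0 : ℂ) 1) ?_
    intro w hw
    by_contra hcon
    exact hw (hd0 w fun h => hcon (Metric.ball_subset_closedBall h))
  obtain ⟨M, hM⟩ := hdcs.exists_bound_of_continuous hdc
  have hM0 : 0 ≤ M := (norm_nonneg _).trans (hM 0)
  set B := Metric.ball (0 : ℂ) 1 with hB
  have hnorm : ∀ w ζ : ℂ, ‖Θ ζ * (dw χ w / (conj ζ - conj w))‖ ≤ A * M * (kk (w - ζ) + 1) := by
    intro w ζ
    rw [norm_mul, norm_div, norm_conj_sub, norm_sub_rev ζ w, div_eq_mul_inv, mul_assoc]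
    exact mul_le_mul (hA ζ) (mul_le_mul (hM w) (kk_bound' _) (by positivity) hM0)
      (by positivity) hA0
  have hmeas : Measurable (Function.uncurry fun w ζ : ℂ => Θ ζ * (dw χ w / (conj ζ - conj w))) := by
    refine (hΘ.comp measurable_snd).mul ((hdc.measurable.comp measurable_fst).div ?_)
    exact (Complex.continuous_conj.measurable.comp measurable_snd).sub
      (Complex.continuous_conj.measurable.comp measurable_fst)
  have hint : Integrable (Function.uncurry fun w ζ : ℂ => Θ ζ * (dw χ w / (conj ζ - conj w)))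
      ((volume.restrict B).prod (volume.restrict B)) := by
    have : IsFiniteMeasure (volume.restrict B) := ⟨by
      rw [Measure.restrict_apply_univ]
      exact measure_ball_lt_top⟩
    rw [integrable_prod_iff hmeas.aestronglyMeasurable]
    constructor
    · refine Eventually.of_forall fun w => ?_
      refine Integrable.mono' ((bd_integrable w).const_mul (A * M)) ?_
        (Eventually.of_forall fun ζ => hnorm w ζ)
      exact (hmeas.comp (measurable_const.prodMk measurable_id)).aestronglyMeasurable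
    · refine Integrable.mono' (g := fun _ => A * M * ((∫ u, kk u) + π)) (integrable_const _) ?_
        (Eventually.of_forall fun w => ?_)
      · exact hmeas.aestronglyMeasurable.norm.integral_prod_right'
      · rw [Real.norm_of_nonneg (integral_nonneg fun _ => norm_nonneg _)]
        calc ∫ ζ in B, ‖Θ ζ * (dw χ w / (conj ζ - conj w))‖
            ≤ ∫ ζ in B, A * M * (kk (w - ζ) + 1) := by
              refine integral_mono_of_nonneg (Eventually.of_forall fun _ => norm_nonneg _)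
                ((bd_integrable w).const_mul (A * M)) (Eventually.of_forall fun ζ => hnorm w ζ)
          _ = A * M * ∫ ζ in B, (kk (w - ζ) + 1) := integral_const_mul _ _
          _ ≤ A * M * ((∫ u, kk u) + π) :=
              mul_le_mul_of_nonneg_left (bd_integral w) (by positivity)
  have hswap := integral_integral_swap hint
  have hpi : (π : ℂ) ≠ 0 := by exact_mod_cast Real.pi_ne_zero
  calc ∫ w in B, cauchyV Θ w * dw χ w
      = ∫ w in B, (π : ℂ)⁻¹ * ∫ ζ in B, Θ ζ * (dw χ w / (conj ζ - conj w)) := by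
        refine integral_congr_ae (Eventually.of_forall fun w => ?_)
        simp only [cauchyV]
        rw [mul_assoc, neg_mul, ← mul_neg]
        congr 1
        rw [← integral_mul_const, ← integral_neg]
        refine integral_congr_ae (Eventually.of_forall fun ζ => ?_)
        simp only
        have h1 : conj ζ - conj w = -(conj w - conj ζ) := by ring
        rw [h1, div_neg]
        ring
    _ = (π : ℂ)⁻¹ * ∫ w in B, ∫ ζ in B, Θ ζ * (dw χ w / (conj ζ - conj w)) :=
        integral_const_mul _ _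
    _ = (π : ℂ)⁻¹ * ∫ ζ in B, ∫ w in B, Θ ζ * (dw χ w / (conj ζ - conj w)) := by
        rw [hswap]
    _ = (π : ℂ)⁻¹ * ∫ ζ in B, π * (Θ ζ * χ ζ) := by
        congr 1
        refine integral_congr_ae (Eventually.of_forall fun ζ => ?_)
        simp only
        rw [integral_const_mul]
        have h2 : ∫ w in B, dw χ w / (conj ζ - conj w) = ∫ w, dw χ w / (conj ζ - conj w) := by
          refine setIntegral_eq_integral_of_forall_compl_eq_zero fun w hw => ?_
          rw [hd0 w hw, zero_div]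
        rw [h2, pompeiu χ hχ hc ζ]
        ring
    _ = ∫ ζ in B, Θ ζ * χ ζ := by
        rw [integral_const_mul, ← mul_assoc, inv_mul_cancel₀ hpi, one_mul]

end CV

theorem cauchyV_spec (Θ : ℂ → ℂ) (hΘ : Measurable Θ) (A : ℝ) (hA : ∀ w, ‖Θ w‖ ≤ A)
    (h0 : ∀ k : ℕ, ∫ w in Metric.ball (0 : ℂ) 1, Θ w * (conj w) ^ k = 0) :
    Continuous (cauchyV Θ) ∧ (∀ w, 1 ≤ ‖w‖ → cauchyV Θ w = 0) ∧
    (∃ C : ℝ, ∀ w, ‖w‖ < 1 → ‖cauchyV Θ w‖ ≤ C * (1 - ‖w‖ ^ 2) ^ (3 / 4 : ℝ)) ∧
    (∀ χ : ℂ → ℂ, ContDiff ℝ 1 χ → HasCompactSupport χ → tsupport χ ⊆ Metric.ball 0 1 →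
      ∫ w in Metric.ball (0 : ℂ) 1, cauchyV Θ w *
          ((fderiv ℝ χ w 1 - Complex.I * fderiv ℝ χ w Complex.I) / 2) =
        ∫ w in Metric.ball (0 : ℂ) 1, Θ w * χ w) :=
  ⟨CV.cont Θ hΘ A hA, CV.zero_out' Θ hΘ A hA h0, CV.bound_in Θ hΘ A hA h0,
    fun χ hχ hc hs => CV.weak Θ hΘ A hA χ hχ hc hs⟩

end Pool.Agent.Work.MP_e29078_an

end

section

/-! The change of scale `y = cY (x^{3/4} - N^{3/4})` and the perturbation kernel. -/

open MeasureTheory Set Filter Topology
open scoped Real ComplexConjugate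

namespace Pool.Agent.Work.MP_e29078_an

/-- The constant `(4/3) 2^{-1/4}`. -/
noncomputable def cY : ℝ := 4 / 3 * (2 : ℝ) ^ (-(1 / 4) : ℝ)

/-- `Xf N y` is the point `x ≥ N` with `cY (x^{3/4} - N^{3/4}) = y` (for `y ≥ 0`). -/
noncomputable def Xf (N : ℕ) (y : ℝ) : ℝ := (y / cY + (N : ℝ) ^ (3 / 4 : ℝ)) ^ (4 / 3 : ℝ)

/-- The exact kernel minus the limit kernel, on `y, y' ≥ 0`. -/
noncomputable def del (N : ℕ) (y y' : ℝ) : ℝ :=
  if 0 ≤ y ∧ 0 ≤ y' then
    Kr ⌊Xf N y⌋₊ ⌊Xf N y'⌋₊ * (2 * Xf N y') ^ (1 / 4 : ℝ) - k0 (y - y')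
  else 0

end Pool.Agent.Work.MP_e29078_an

end

section

/-! Fourier coefficients of the boundary values. -/

open MeasureTheory Set Filter Topology
open scoped Real ComplexConjugate

namespace Pool.Agent.Work.MP_e29078_an

lemma hs_congr {f g : ℕ → ℂ} {a : ℂ} (h : ∀ j, f j = g j) : HasSum f a ↔ HasSum g a := by
  rw [funext h]

lemma integral_exp_nat (m : ℤ) :
    ∫ x in (0 : ℝ)..(2 * π), Complex.exp (Complex.I * m * x) = if m = 0 then 2 * π else 0 := by
  split_ifs with h
  · subst h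
    simp
  · have hm : (Complex.I * m : ℂ) ≠ 0 := mul_ne_zero Complex.I_ne_zero (by exact_mod_cast h)
    rw [integral_exp_mul_complex hm]
    have h1 : Complex.exp (Complex.I * m * ((2 * π : ℝ) : ℂ)) = 1 := by
      have : Complex.I * m * ((2 * π : ℝ) : ℂ) = m * (2 * π * Complex.I) := by push_cast; ring
      rw [this]
      exact Complex.exp_int_mul_two_pi_mul_I m
    rw [h1]; simp

lemma fourier_coeff_eq (g : ℕ → ℂ) (hg : Summable (fun n => ‖g n‖)) (n : ℕ) :
    ∫ x in (0 : ℝ)..(2 * π), ((1 - Complex.exp (x * Complex.I)) *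
      ∑' j, g j * Complex.exp (x * Complex.I) ^ j) * Complex.exp (-(Complex.I * n * x)) =
      2 * π * (g n - if n = 0 then 0 else g (n - 1)) := by
  have hterm : ∀ (x : ℝ) (j : ℕ), (1 - Complex.exp (x * Complex.I)) *
      (g j * Complex.exp (x * Complex.I) ^ j) * Complex.exp (-(Complex.I * n * x)) =
      g j * (Complex.exp (Complex.I * ((j - n : ℤ) : ℂ) * x) -
        Complex.exp (Complex.I * ((j + 1 - n : ℤ) : ℂ) * x)) := by
    intro x j
    rw [← Complex.exp_nat_mul]
    have e1 : Complex.exp (Complex.I * ((j - n : ℤ) : ℂ) * x) =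
        Complex.exp (j * (x * Complex.I)) * Complex.exp (-(Complex.I * n * x)) := by
      rw [← Complex.exp_add]; congr 1; push_cast; ring
    have e2 : Complex.exp (Complex.I * ((j + 1 - n : ℤ) : ℂ) * x) =
        Complex.exp (x * Complex.I) * (Complex.exp (j * (x * Complex.I)) *
          Complex.exp (-(Complex.I * n * x))) := by
      rw [← Complex.exp_add, ← Complex.exp_add]; congr 1; push_cast; ring
    rw [e1, e2]; ring
  have hn1 : ∀ (m : ℤ) (x : ℝ), ‖Complex.exp (Complex.I * m * x)‖ = 1 := by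
    intro m x
    have : Complex.I * m * x = ((m * x : ℝ) : ℂ) * Complex.I := by push_cast; ring
    rw [this, Complex.norm_exp_ofReal_mul_I]
  let T : ℕ → ℝ → ℂ := fun j x => g j * (Complex.exp (Complex.I * ((j - n : ℤ) : ℂ) * x) -
        Complex.exp (Complex.I * ((j + 1 - n : ℤ) : ℂ) * x))
  have hTc : ∀ j, Continuous (T j) := by
    intro j; simp only [T]; fun_prop
  have hTb : ∀ j x, ‖T j x‖ ≤ 2 * ‖g j‖ := by
    intro j x
    simp only [T]
    rw [norm_mul]
    have := norm_sub_le (Complex.exp (Complex.I * ((j - n : ℤ) : ℂ) * x))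
      (Complex.exp (Complex.I * ((j + 1 - n : ℤ) : ℂ) * x))
    rw [hn1, hn1] at this
    nlinarith [norm_nonneg (g j)]
  have hsum := intervalIntegral.hasSum_integral_of_dominated_convergence
    (μ := volume) (a := (0 : ℝ)) (b := 2 * π) (F := T)
    (f := fun x => ∑' j, T j x) (bound := fun j _ => 2 * ‖g j‖)
    (fun j => (hTc j).aestronglyMeasurable) (fun j => ae_of_all _ fun x _ => hTb j x)
    (ae_of_all _ fun x _ => hg.mul_left 2)
    (by exact intervalIntegrable_const)
    (ae_of_all _ fun x _ => (Summable.of_norm_bounded (hg.mul_left 2) fun j => hTb j x).hasSum)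
  have hL : ∫ x in (0 : ℝ)..(2 * π), ((1 - Complex.exp (x * Complex.I)) *
      ∑' j, g j * Complex.exp (x * Complex.I) ^ j) * Complex.exp (-(Complex.I * n * x)) =
      ∫ x in (0 : ℝ)..(2 * π), ∑' j, T j x := by
    congr 1
    ext x
    rw [← tsum_mul_left, ← tsum_mul_right]
    exact tsum_congr fun j => hterm x j
  rw [hL]
  have hI : ∀ j, ∫ x in (0 : ℝ)..(2 * π), T j x =
      g j * ((if j = n then 2 * π else 0) - if j + 1 = n then 2 * π else 0) := by
    intro j
    simp only [T]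
    rw [intervalIntegral.integral_const_mul, intervalIntegral.integral_sub
      (by apply Continuous.intervalIntegrable; fun_prop)
      (by apply Continuous.intervalIntegrable; fun_prop), integral_exp_nat, integral_exp_nat]
    have h1 : ((j : ℤ) - n = 0) ↔ j = n := by omega
    have h2 : ((j : ℤ) + 1 - n = 0) ↔ j + 1 = n := by omega
    simp only [h1, h2]
  simp_rw [hI] at hsum
  have hfin : HasSum (fun j => g j * (((if j = n then 2 * π else 0 : ℝ) : ℂ) -
      ((if j + 1 = n then 2 * π else 0 : ℝ) : ℂ)))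
      (2 * π * (g n - if n = 0 then 0 else g (n - 1))) := by
    have hs1 : HasSum (fun j => g j * ((if j = n then 2 * π else 0 : ℝ) : ℂ)) (g n * (2 * π)) := by
      have := hasSum_ite_eq n (g n * (2 * π : ℂ))
      refine (hs_congr fun j => ?_).mp this
      by_cases h : j = n <;> simp [h]
    have hs2 : HasSum (fun j => g j * ((if j + 1 = n then 2 * π else 0 : ℝ) : ℂ))
        (if n = 0 then 0 else g (n - 1) * (2 * π)) := by
      rcases Nat.eq_zero_or_pos n with h0 | h0
      · subst h0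
        simp only [if_true]
        have : (fun j => g j * ((if j + 1 = 0 then 2 * π else 0 : ℝ) : ℂ)) = fun _ => 0 := by
          ext j; simp
        rw [this]; exact hasSum_zero
      · rw [if_neg (by omega)]
        have := hasSum_ite_eq (n - 1) (g (n - 1) * (2 * π : ℂ))
        refine (hs_congr fun j => ?_).mp this
        by_cases h : j = n - 1
        · have h' : j + 1 = n := by omega
          simp [h, h', show n - 1 + 1 = n by omega]
        · have h' : ¬ (j + 1 = n) := by omega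
          simp [h, h']
    have hs3 := hs1.sub hs2
    have e : (2 * π * (g n - if n = 0 then 0 else g (n - 1)) : ℂ) =
        g n * (2 * π) - (if n = 0 then 0 else g (n - 1) * (2 * π)) := by
      split_ifs <;> ring
    rw [e]
    refine (hs_congr fun j => ?_).mp hs3
    ring
  refine hsum.unique ?_
  refine (hs_congr fun j => ?_).mp hfin
  congr 2 <;> split_ifs <;> push_cast <;> rfl

/-- analytic boundary values force exponential decay. -/
theorem decay_of_boundary_analytic (g : ℕ → ℂ) (hg : Summable (fun n => ‖g n‖))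
    (han : ∀ x : ℝ, AnalyticAt ℝ (fun x : ℝ => (1 - Complex.exp (x * Complex.I)) *
      ∑' j, g j * Complex.exp (x * Complex.I) ^ j) x) :
    ∃ δ > 0, ∃ C : ℝ, ∀ n : ℕ, ‖g n‖ ≤ C * Real.exp (-δ * n) := by
  obtain ⟨C, δ, hδ, hC⟩ := fourier_decay_of_analytic _ han (by
    intro x
    have : Complex.exp (((x + 2 * π : ℝ) : ℂ) * Complex.I) = Complex.exp (x * Complex.I) := by
      push_cast
      rw [add_mul, Complex.exp_add, Complex.exp_two_pi_mul_I, mul_one]
    simp only [this])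
  have hC' : ∀ n : ℕ, ‖g (n + 1) - g n‖ ≤ C / (2 * π) * Real.exp (-δ * (n + 1)) := by
    intro n
    have h1 := hC (n + 1)
    rw [fourier_coeff_eq g hg (n + 1)] at h1
    simp only [Nat.add_eq_zero_iff, one_ne_zero, and_false, if_false, Nat.add_sub_cancel] at h1
    rw [norm_mul] at h1
    have h2 : ‖(2 * π : ℂ)‖ = 2 * π := by
      rw [norm_mul, Complex.norm_real, Real.norm_of_nonneg Real.pi_pos.le]; simp
    rw [h2] at h1
    have hpi := Real.pi_pos
    rw [div_mul_eq_mul_div, le_div_iff₀ (by positivity)]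
    push_cast at h1
    linarith
  have hC0 : 0 ≤ C / (2 * π) := by
    have h := (norm_nonneg _).trans (hC' 0)
    by_contra hneg
    push Not at hneg
    have := mul_neg_of_neg_of_pos hneg (Real.exp_pos (-δ * ((0 : ℕ) + 1)))
    linarith
  set C₁ := C / (2 * π)
  set a := Real.exp (-δ) with ha
  have ha1 : a < 1 := by rw [ha]; exact Real.exp_lt_one_iff.mpr (by linarith)
  have ha0 : 0 < a := Real.exp_pos _
  have hpow : ∀ n : ℕ, Real.exp (-δ * n) = a ^ n := by
    intro n; rw [ha, ← Real.exp_nat_mul]; congr 1; ring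
  have hg0 : Tendsto g atTop (𝓝 0) := by
    have := hg.tendsto_atTop_zero
    exact tendsto_zero_iff_norm_tendsto_zero.mpr this
  refine ⟨δ, hδ, C₁ * a / (1 - a), fun n => ?_⟩
  have hstep : ∀ m : ℕ, ‖g (n + m) - g n‖ ≤ C₁ * a / (1 - a) * a ^ n := by
    intro m
    have h1 : g (n + m) - g n = ∑ i ∈ Finset.range m, (g (n + i + 1) - g (n + i)) := by
      have := Finset.sum_range_sub (fun i => g (n + i)) m
      simp only [Nat.add_zero] at this
      exact this.symm
    rw [h1]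
    calc ‖∑ i ∈ Finset.range m, (g (n + i + 1) - g (n + i))‖
        ≤ ∑ i ∈ Finset.range m, ‖g (n + i + 1) - g (n + i)‖ := norm_sum_le _ _
      _ ≤ ∑ i ∈ Finset.range m, C₁ * a * a ^ n * a ^ i := by
          apply Finset.sum_le_sum
          intro i _
          refine (hC' (n + i)).trans (le_of_eq ?_)
          have : Real.exp (-δ * (((n + i : ℕ) : ℝ) + 1)) = a * a ^ n * a ^ i := by
            have h2 := hpow (n + i + 1)
            push_cast at h2 ⊢
            rw [h2]; ring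
          rw [this]; ring
      _ = C₁ * a * a ^ n * ∑ i ∈ Finset.range m, a ^ i := by rw [Finset.mul_sum]
      _ ≤ C₁ * a * a ^ n * (1 - a)⁻¹ := by
          apply mul_le_mul_of_nonneg_left _ (by positivity)
          have hs := (hasSum_geometric_of_lt_one ha0.le ha1)
          exact sum_le_hasSum _ (fun i _ => by positivity) hs
      _ = C₁ * a / (1 - a) * a ^ n := by rw [div_eq_mul_inv]; ring
  have hlim : Tendsto (fun m => ‖g (n + m) - g n‖) atTop (𝓝 ‖(0 : ℂ) - g n‖) := by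
    apply Tendsto.norm
    apply Tendsto.sub_const
    have := hg0.comp (tendsto_add_atTop_nat n)
    refine this.congr fun m => ?_
    simp [add_comm]
  rw [zero_sub, norm_neg] at hlim
  rw [hpow]
  exact le_of_tendsto' hlim hstep

end Pool.Agent.Work.MP_e29078_an

end

section

/-! The limit convolution kernel `k0`: bounds, Lipschitz continuity, Fourier-Laplace transform. -/

open MeasureTheory Set Filter Topology
open scoped Real ComplexConjugate

namespace Pool.Agent.Work.MP_e29078_an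

/-- the integrand of `k0` -/
noncomputable def gk (y x : ℝ) : ℝ := √x * Real.exp (-x ^ 2 / 2 - y ^ 2 / (2 * x))

theorem k0_eq (y : ℝ) : k0 y = (√(2 * π))⁻¹ * ∫ x in Ioi (0 : ℝ), gk y x := rfl

theorem gk_nonneg (y x : ℝ) : 0 ≤ gk y x := by unfold gk; positivity

theorem gk_measurable : Measurable (fun p : ℝ × ℝ => gk p.1 p.2) := by
  unfold gk; fun_prop

theorem gk_measurable_right (y : ℝ) : Measurable (fun x => gk y x) := by
  unfold gk; fun_prop

theorem sqrt_exp_integrable {b : ℝ} (hb : 0 < b) :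
    IntegrableOn (fun x : ℝ => √x * Real.exp (-b * x ^ 2)) (Ioi 0) := by
  have h := (integrableOn_rpow_mul_exp_neg_mul_sq hb (s := (1 / 2 : ℝ)) (by norm_num))
  refine h.congr_fun (fun x _ => ?_) measurableSet_Ioi
  simp only [Real.sqrt_eq_rpow]

theorem gk_le (y x : ℝ) (hx : 0 < x) :
    gk y x ≤ (√x * Real.exp (-(1 / 4) * x ^ 2)) * Real.exp (-(3 / 4) * |y| ^ (4 / 3 : ℝ)) := by
  unfold gk
  rw [mul_assoc, ← Real.exp_add]
  refine mul_le_mul_of_nonneg_left (Real.exp_le_exp.2 ?_) (Real.sqrt_nonneg _)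
  set m : ℝ := |y| ^ (2 / 3 : ℝ) with hm
  have hm0 : 0 ≤ m := Real.rpow_nonneg (abs_nonneg _) _
  have hm3 : m ^ 3 = y ^ 2 := by
    rw [hm, ← Real.rpow_natCast, ← Real.rpow_mul (abs_nonneg _), ← sq_abs y]
    norm_num
  have hm2 : |y| ^ (4 / 3 : ℝ) = m ^ 2 := by
    rw [hm, ← Real.rpow_natCast, ← Real.rpow_mul (abs_nonneg _)]
    norm_num
  rw [hm2, ← hm3]
  have h1 : x ^ 2 / 4 + m ^ 3 / (2 * x) - 3 / 4 * m ^ 2 = (x + 2 * m) * (x - m) ^ 2 / (4 * x) := by
    field_simp
    ring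
  have h2 : 0 ≤ (x + 2 * m) * (x - m) ^ 2 / (4 * x) := by positivity
  linarith

theorem gk_integrable (y : ℝ) : IntegrableOn (fun x => gk y x) (Ioi 0) := by
  refine Integrable.mono' ((sqrt_exp_integrable (b := 1 / 4) (by norm_num)).mul_const
    (Real.exp (-(3 / 4) * |y| ^ (4 / 3 : ℝ)))) (gk_measurable_right y).aestronglyMeasurable ?_
  filter_upwards [ae_restrict_mem measurableSet_Ioi] with x hx
  rw [Real.norm_of_nonneg (gk_nonneg y x)]
  exact gk_le y x hx

theorem k0_nonneg (y : ℝ) : 0 ≤ k0 y := by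
  rw [k0_eq]
  exact mul_nonneg (by positivity) (integral_nonneg fun x => gk_nonneg y x)

theorem k0_le : ∃ C : ℝ, ∀ y : ℝ, k0 y ≤ C * Real.exp (-(3 / 4) * |y| ^ (4 / 3 : ℝ)) := by
  refine ⟨(√(2 * π))⁻¹ * ∫ x in Ioi (0 : ℝ), √x * Real.exp (-(1 / 4) * x ^ 2), fun y => ?_⟩
  rw [k0_eq, mul_assoc]
  refine mul_le_mul_of_nonneg_left ?_ (by positivity)
  rw [← integral_mul_const]
  refine setIntegral_mono_on (gk_integrable y) ?_ measurableSet_Ioi (fun x hx => gk_le y x hx)
  exact (sqrt_exp_integrable (b := 1 / 4) (by norm_num)).mul_const _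

theorem gauss_lip (u v : ℝ) : |Real.exp (-u ^ 2 / 2) - Real.exp (-v ^ 2 / 2)| ≤ |u - v| := by
  have hd : ∀ x : ℝ, HasDerivAt (fun u : ℝ => Real.exp (-u ^ 2 / 2))
      (Real.exp (-x ^ 2 / 2) * (-x)) x := by
    intro x
    have h1 : HasDerivAt (fun u : ℝ => -u ^ 2 / 2) (-x) x := by
      have := ((hasDerivAt_pow 2 x).neg.div_const 2)
      convert! this using 1
      simp
      ring
    exact h1.exp
  have hb : ∀ x : ℝ, ‖Real.exp (-x ^ 2 / 2) * (-x)‖ ≤ 1 := by
    intro x
    rw [norm_mul, Real.norm_of_nonneg (Real.exp_pos _).le, norm_neg, Real.norm_eq_abs]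
    have h1 : |x| ≤ Real.exp (x ^ 2 / 2) := by
      have := Real.add_one_le_exp (x ^ 2 / 2)
      have h2 : |x| ≤ x ^ 2 / 2 + 1 := by
        rw [← sq_abs x]
        nlinarith [sq_nonneg (|x| - 1)]
      linarith
    have h3 : Real.exp (-x ^ 2 / 2) * Real.exp (x ^ 2 / 2) = 1 := by
      rw [← Real.exp_add, ← Real.exp_zero]; congr 1; ring
    calc Real.exp (-x ^ 2 / 2) * |x| ≤ Real.exp (-x ^ 2 / 2) * Real.exp (x ^ 2 / 2) := by
          gcongr
      _ = 1 := h3
  have := Convex.norm_image_sub_le_of_norm_hasDerivWithin_le (f := fun u : ℝ => Real.exp (-u ^ 2 / 2))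
    (C := 1) (s := Set.univ) (fun x _ => (hd x).hasDerivWithinAt) (fun x _ => hb x) convex_univ
    (mem_univ v) (mem_univ u)
  simpa using this

theorem k0_lipschitz (x y : ℝ) : |k0 x - k0 y| ≤ |x - y| := by
  rw [k0_eq, k0_eq, ← mul_sub, ← integral_sub (gk_integrable x) (gk_integrable y), abs_mul,
    abs_of_nonneg (by positivity : (0 : ℝ) ≤ (√(2 * π))⁻¹)]
  have hE : IntegrableOn (fun t : ℝ => Real.exp (-(1 / 2) * t ^ 2)) (Ioi 0) :=
    (integrable_exp_neg_mul_sq (by norm_num)).integrableOn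
  have h1 : |∫ t in Ioi (0 : ℝ), (gk x t - gk y t)| ≤
      ∫ t in Ioi (0 : ℝ), Real.exp (-(1 / 2) * t ^ 2) * |x - y| := by
    rw [← Real.norm_eq_abs]
    refine norm_integral_le_of_norm_le (hE.mul_const _) ?_
    filter_upwards [ae_restrict_mem measurableSet_Ioi] with t ht
    have ht' : (0 : ℝ) < t := ht
    have hs : 0 < √t := Real.sqrt_pos.2 ht'
    have hss : √t ^ 2 = t := Real.sq_sqrt ht'.le
    have key : ∀ y : ℝ, gk y t = √t * Real.exp (-(1 / 2) * t ^ 2) *
        Real.exp (-(y / √t) ^ 2 / 2) := by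
      intro y
      unfold gk
      rw [mul_assoc, ← Real.exp_add]
      congr 2
      rw [div_pow, hss]
      field_simp
      ring
    rw [key x, key y, ← mul_sub, Real.norm_eq_abs, abs_mul, abs_of_nonneg (by positivity)]
    have h2 := gauss_lip (x / √t) (y / √t)
    rw [← sub_div, abs_div, abs_of_pos hs] at h2
    calc √t * Real.exp (-(1 / 2) * t ^ 2) *
          |Real.exp (-(x / √t) ^ 2 / 2) - Real.exp (-(y / √t) ^ 2 / 2)|
        ≤ √t * Real.exp (-(1 / 2) * t ^ 2) * (|x - y| / √t) := by gcongr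
      _ = Real.exp (-(1 / 2) * t ^ 2) * |x - y| := by field_simp
  rw [integral_mul_const, integral_gaussian_Ioi] at h1
  have h3 : √(π / (1 / 2)) = √(2 * π) := by congr 1; ring
  rw [h3] at h1
  have hp : 0 < √(2 * π) := by positivity
  calc (√(2 * π))⁻¹ * |∫ t in Ioi (0 : ℝ), (gk x t - gk y t)|
      ≤ (√(2 * π))⁻¹ * (√(2 * π) / 2 * |x - y|) := by gcongr
    _ = |x - y| / 2 := by field_simp
    _ ≤ |x - y| := by linarith [abs_nonneg (x - y)]

/-- the two variable integrand for the transform -/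
noncomputable def Fk (T : ℂ) (p : ℝ × ℝ) : ℂ :=
  (gk p.1 p.2 : ℂ) * Complex.exp (-(Complex.I * T * p.1))

theorem Fk_measurable (T : ℂ) : Measurable (Fk T) := by
  unfold Fk
  have := gk_measurable
  fun_prop

theorem inner_eq (T : ℂ) (x : ℝ) (hx : 0 < x) :
    Integrable (fun y : ℝ => Fk T (y, x)) ∧
    ∫ y : ℝ, Fk T (y, x) =
      (√(2 * π) : ℂ) * ((x : ℂ) * Complex.exp (-((x : ℂ) ^ 2 + T ^ 2 * x) / 2)) := by
  have hxc : (x : ℂ) ≠ 0 := by exact_mod_cast hx.ne'
  have hb : (-(1 / (2 * (x : ℂ)))).re < 0 := by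
    have : (-(1 / (2 * (x : ℂ)))) = ((-(1 / (2 * x)) : ℝ) : ℂ) := by push_cast; ring
    rw [this, Complex.ofReal_re]
    have : 0 < 1 / (2 * x) := by positivity
    linarith
  have he : ∀ y : ℝ, Fk T (y, x) = (√x : ℂ) *
      Complex.exp (-(1 / (2 * (x : ℂ))) * y ^ 2 + (-(Complex.I * T)) * y + (-(x : ℂ) ^ 2 / 2)) := by
    intro y
    unfold Fk gk
    push_cast
    rw [mul_assoc, ← Complex.exp_add]
    congr 2
    field_simp
    ring
  refine ⟨?_, ?_⟩
  · simp_rw [he]
    exact (integrable_cexp_quadratic' hb _ _).const_mul _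
  · simp_rw [he]
    rw [integral_const_mul, integral_cexp_quadratic hb]
    have h1 : ((π : ℂ) / -(-(1 / (2 * (x : ℂ))))) = ((2 * π * x : ℝ) : ℂ) := by
      push_cast
      field_simp
    have h2 : ((2 * π * x : ℝ) : ℂ) ^ (1 / 2 : ℂ) = ((√(2 * π) * √x : ℝ) : ℂ) := by
      rw [← Real.sqrt_mul (by positivity), Real.sqrt_eq_rpow,
        Complex.ofReal_cpow (by positivity)]
      norm_num
    rw [h1, h2]
    have h3 : (-(x : ℂ) ^ 2 / 2 - (-(Complex.I * T)) ^ 2 / (4 * -(1 / (2 * (x : ℂ))))) =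
        -((x : ℂ) ^ 2 + T ^ 2 * x) / 2 := by
      rw [neg_sq, mul_pow, Complex.I_sq]
      field_simp
      ring
    rw [h3]
    have h4 : (√x : ℂ) * √x = x := by
      rw [← Complex.ofReal_mul, Real.mul_self_sqrt hx.le]
    push_cast
    linear_combination (√(2 * π) : ℂ) * Complex.exp (-((x : ℂ) ^ 2 + T ^ 2 * x) / 2) * h4

theorem norm_Fk (T : ℂ) (p : ℝ × ℝ) : (‖Fk T p‖ : ℂ) = Fk (T.im * Complex.I) p := by
  unfold Fk
  rw [norm_mul, Complex.norm_real, Real.norm_of_nonneg (gk_nonneg _ _), Complex.norm_exp]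
  push_cast
  congr 2
  simp only [Complex.neg_re, Complex.mul_re, Complex.I_re, Complex.I_im, Complex.ofReal_re,
    Complex.mul_im, Complex.ofReal_im]
  push_cast
  linear_combination ((T.im : ℂ) * p.1) * Complex.I_sq

theorem kap_integrand_integrable (τ b : ℝ) (hb : 0 < b) :
    IntegrableOn (fun x : ℝ => x * Real.exp (-b * x ^ 2 + τ * x)) (Ioi 0) := by
  have h := ((integrableOn_rpow_mul_exp_neg_mul_sq (b := b / 2) (by positivity)
    (s := (1 : ℝ)) (by norm_num))).const_mul (Real.exp (τ ^ 2 / (2 * b)))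
  refine Integrable.mono' h (by fun_prop) ?_
  filter_upwards [ae_restrict_mem measurableSet_Ioi] with x hx
  have hx' : (0 : ℝ) < x := hx
  rw [Real.norm_of_nonneg (by positivity), Real.rpow_one]
  have : Real.exp (-b * x ^ 2 + τ * x) ≤ Real.exp (τ ^ 2 / (2 * b)) * Real.exp (-(b / 2) * x ^ 2) := by
    rw [← Real.exp_add]
    refine Real.exp_le_exp.2 ?_
    have h1 : τ ^ 2 / (2 * b) + -(b / 2) * x ^ 2 - (-b * x ^ 2 + τ * x) = (τ - b * x) ^ 2 / (2 * b) := by
      field_simp
      ring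
    have h2 : 0 ≤ (τ - b * x) ^ 2 / (2 * b) := by positivity
    linarith
  calc x * Real.exp (-b * x ^ 2 + τ * x)
      ≤ x * (Real.exp (τ ^ 2 / (2 * b)) * Real.exp (-(b / 2) * x ^ 2)) := by gcongr
    _ = _ := by ring

theorem Fk_integrable (T : ℂ) :
    Integrable (Fk T) ((volume : Measure ℝ).prod (volume.restrict (Ioi (0 : ℝ)))) := by
  rw [integrable_prod_iff' (Fk_measurable T).aestronglyMeasurable]
  refine ⟨?_, ?_⟩
  · filter_upwards [ae_restrict_mem measurableSet_Ioi] with x hx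
    exact (inner_eq T x hx).1
  · have h := (kap_integrand_integrable (T.im ^ 2 / 2) (1 / 2) (by norm_num)).const_mul (√(2 * π))
    refine h.congr ?_
    filter_upwards [ae_restrict_mem measurableSet_Ioi] with x hx
    have h1 := (inner_eq (T.im * Complex.I) x hx).2
    have h2 : ((∫ y : ℝ, ‖Fk T (y, x)‖ : ℝ) : ℂ) = ∫ y : ℝ, Fk (T.im * Complex.I) (y, x) := by
      rw [← integral_complex_ofReal]
      simp_rw [norm_Fk]
    rw [h1] at h2
    have h3 : (√(2 * π) : ℂ) * ((x : ℂ) * Complex.exp (-((x : ℂ) ^ 2 +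
        ((T.im : ℂ) * Complex.I) ^ 2 * x) / 2)) =
        ((√(2 * π) * (x * Real.exp (-(1 / 2) * x ^ 2 + T.im ^ 2 / 2 * x)) : ℝ) : ℂ) := by
      push_cast
      congr 3
      rw [mul_pow, Complex.I_sq]
      ring
    rw [h3] at h2
    exact (Complex.ofReal_injective h2).symm

theorem k0_ofReal (y : ℝ) (T : ℂ) :
    (k0 y : ℂ) * Complex.exp (-(Complex.I * T * y)) =
      ((√(2 * π))⁻¹ : ℝ) * ∫ x in Ioi (0 : ℝ), Fk T (y, x) := by
  rw [k0_eq]
  simp only [Fk]
  rw [integral_mul_const, integral_complex_ofReal]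
  push_cast
  ring

theorem k0_transform_integrable (T : ℂ) :
    Integrable (fun y : ℝ => (k0 y : ℂ) * Complex.exp (-(Complex.I * T * y))) := by
  simp_rw [k0_ofReal]
  exact ((Fk_integrable T).integral_prod_left).const_mul _

theorem k0_transform (T : ℂ) :
    ∫ y : ℝ, (k0 y : ℂ) * Complex.exp (-(Complex.I * T * y)) = kap T := by
  simp_rw [k0_ofReal]
  rw [integral_const_mul]
  have h := integral_integral_swap (f := fun y x => Fk T (y, x)) (μ := (volume : Measure ℝ))
    (ν := volume.restrict (Ioi (0 : ℝ))) (Fk_integrable T)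
  rw [h]
  have h2 : ∫ x in Ioi (0 : ℝ), ∫ y : ℝ, Fk T (y, x) = ∫ x in Ioi (0 : ℝ),
      (√(2 * π) : ℂ) * ((x : ℂ) * Complex.exp (-((x : ℂ) ^ 2 + T ^ 2 * x) / 2)) :=
    setIntegral_congr_fun measurableSet_Ioi (fun x hx => (inner_eq T x hx).2)
  rw [h2, integral_const_mul, ← mul_assoc]
  have hp : (√(2 * π) : ℂ) ≠ 0 := by
    have : (√(2 * π)) ≠ 0 := by positivity
    exact_mod_cast this
  rw [Complex.ofReal_inv, inv_mul_cancel₀ hp, one_mul]
  rfl

/-- the two variable integrand for the inverse transform -/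
noncomputable def Gk (y : ℝ) (p : ℝ × ℝ) : ℂ :=
  (p.2 : ℂ) * Complex.exp (-((p.2 : ℂ) ^ 2 + (p.1 : ℂ) ^ 2 * p.2) / 2) *
    Complex.exp (Complex.I * p.1 * y)

theorem Gk_measurable (y : ℝ) : Measurable (Gk y) := by
  unfold Gk
  fun_prop

theorem inner_eq2 (y : ℝ) (x : ℝ) (hx : 0 < x) :
    Integrable (fun t : ℝ => Gk y (t, x)) ∧
    ∫ t : ℝ, Gk y (t, x) = (√(2 * π) : ℂ) * (gk y x : ℂ) := by
  have hxc : (x : ℂ) ≠ 0 := by exact_mod_cast hx.ne'
  have hb : (-((x : ℂ) / 2)).re < 0 := by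
    have : (-((x : ℂ) / 2)) = ((-(x / 2) : ℝ) : ℂ) := by push_cast; ring
    rw [this, Complex.ofReal_re]
    linarith
  have he : ∀ t : ℝ, Gk y (t, x) = (x : ℂ) *
      Complex.exp (-((x : ℂ) / 2) * t ^ 2 + (Complex.I * y) * t + (-(x : ℂ) ^ 2 / 2)) := by
    intro t
    unfold Gk
    simp only
    rw [mul_assoc, ← Complex.exp_add]
    congr 2
    ring
  refine ⟨?_, ?_⟩
  · simp_rw [he]
    exact (integrable_cexp_quadratic' hb _ _).const_mul _
  · simp_rw [he]
    rw [integral_const_mul, integral_cexp_quadratic hb]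
    have h1 : ((π : ℂ) / -(-((x : ℂ) / 2))) = ((2 * π / x : ℝ) : ℂ) := by
      push_cast
      field_simp
    have h2 : ((2 * π / x : ℝ) : ℂ) ^ (1 / 2 : ℂ) = ((√(2 * π) / √x : ℝ) : ℂ) := by
      rw [← Real.sqrt_div (by positivity), Real.sqrt_eq_rpow,
        Complex.ofReal_cpow (by positivity)]
      norm_num
    rw [h1, h2]
    have h3 : (-(x : ℂ) ^ 2 / 2 - (Complex.I * y) ^ 2 / (4 * -((x : ℂ) / 2))) =
        -(x : ℂ) ^ 2 / 2 - (y : ℂ) ^ 2 / (2 * x) := by
      rw [mul_pow, Complex.I_sq]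
      field_simp
      ring
    rw [h3]
    have h4 : (√x : ℂ) * √x = x := by
      rw [← Complex.ofReal_mul, Real.mul_self_sqrt hx.le]
    have h5 : (√x : ℂ) ≠ 0 := by
      have : (√x) ≠ 0 := (Real.sqrt_pos.2 hx).ne'
      exact_mod_cast this
    unfold gk
    push_cast
    field_simp
    linear_combination -h4

theorem norm_Gk (y : ℝ) (p : ℝ × ℝ) (hp : 0 < p.2) : (‖Gk y p‖ : ℂ) = Gk 0 p := by
  unfold Gk
  have h0 : Complex.exp (Complex.I * p.1 * ((0 : ℝ) : ℂ)) = 1 := by simp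
  have h1 : ‖Complex.exp (Complex.I * p.1 * (y : ℂ))‖ = 1 := by
    rw [Complex.norm_exp]
    simp
  have h2 : ‖Complex.exp (-((p.2 : ℂ) ^ 2 + (p.1 : ℂ) ^ 2 * p.2) / 2)‖ =
      Real.exp (-(p.2 ^ 2 + p.1 ^ 2 * p.2) / 2) := by
    have : (-((p.2 : ℂ) ^ 2 + (p.1 : ℂ) ^ 2 * p.2) / 2) =
      ((-(p.2 ^ 2 + p.1 ^ 2 * p.2) / 2 : ℝ) : ℂ) := by push_cast; ring
    rw [this, Complex.norm_exp, Complex.ofReal_re]
  rw [norm_mul, norm_mul, h1, h2, h0, mul_one, mul_one, Complex.norm_real,
    Real.norm_of_nonneg hp.le]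
  push_cast
  ring

theorem Gk_integrable (y : ℝ) :
    Integrable (Gk y) ((volume : Measure ℝ).prod (volume.restrict (Ioi (0 : ℝ)))) := by
  rw [integrable_prod_iff' (Gk_measurable y).aestronglyMeasurable]
  refine ⟨?_, ?_⟩
  · filter_upwards [ae_restrict_mem measurableSet_Ioi] with x hx
    exact (inner_eq2 y x hx).1
  · have h := (gk_integrable 0).const_mul (√(2 * π))
    refine h.congr ?_
    filter_upwards [ae_restrict_mem measurableSet_Ioi] with x hx
    have h1 := (inner_eq2 0 x hx).2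
    have h2 : ((∫ t : ℝ, ‖Gk y (t, x)‖ : ℝ) : ℂ) = ∫ t : ℝ, Gk 0 (t, x) := by
      rw [← integral_complex_ofReal]
      refine integral_congr_ae (Eventually.of_forall fun t => ?_)
      exact norm_Gk y (t, x) hx
    rw [h1, ← Complex.ofReal_mul] at h2
    exact (Complex.ofReal_injective h2).symm

theorem k0_inverse (y : ℝ) :
    (k0 y : ℂ) = (2 * π : ℂ)⁻¹ * ∫ T : ℝ, kap T * Complex.exp (Complex.I * T * y) := by
  have h0 : ∀ t : ℝ, kap t * Complex.exp (Complex.I * t * y) =
      ∫ x in Ioi (0 : ℝ), Gk y (t, x) := by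
    intro t
    unfold kap
    simp only [Gk]
    rw [integral_mul_const]
  simp_rw [h0]
  have h := integral_integral_swap (f := fun t x => Gk y (t, x)) (μ := (volume : Measure ℝ))
    (ν := volume.restrict (Ioi (0 : ℝ))) (Gk_integrable y)
  rw [h]
  have h2 : ∫ x in Ioi (0 : ℝ), ∫ t : ℝ, Gk y (t, x) = ∫ x in Ioi (0 : ℝ),
      (√(2 * π) : ℂ) * (gk y x : ℂ) :=
    setIntegral_congr_fun measurableSet_Ioi (fun x hx => (inner_eq2 y x hx).2)
  rw [h2, integral_const_mul, integral_complex_ofReal, k0_eq]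
  have hp : (√(2 * π) : ℂ) ≠ 0 := by
    have : (√(2 * π)) ≠ 0 := by positivity
    exact_mod_cast this
  have h5 : (√(2 * π) : ℂ) * √(2 * π) = 2 * π := by
    rw [← Complex.ofReal_mul, Real.mul_self_sqrt (by positivity)]
    push_cast
    ring
  push_cast
  rw [← mul_assoc]
  congr 1
  rw [← h5]
  field_simp

theorem kap_integrable : Integrable (fun T : ℝ => kap T) := by
  have h0 : ∀ t : ℝ, kap t = ∫ x in Ioi (0 : ℝ), Gk 0 (t, x) := by
    intro t
    unfold kap Gk
    simp
  simp_rw [h0]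
  exact (Gk_integrable 0).integral_prod_left

end Pool.Agent.Work.MP_e29078_an

end

section

/-! Disc moments for the layer cake computation of the matrix `Kr`. -/

open MeasureTheory Set Filter Topology
open scoped Real ComplexConjugate

namespace Pool.Agent.Work.MP_e29078_an

lemma integral_exp_int (m : ℤ) (hm : m ≠ 0) :
    ∫ θ in Ioo (-π) π, Complex.exp ((m : ℂ) * Complex.I * θ) = 0 := by
  have hc : (m : ℂ) * Complex.I ≠ 0 :=
    mul_ne_zero (by exact_mod_cast hm) Complex.I_ne_zero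
  rw [← integral_Ioc_eq_integral_Ioo, ← intervalIntegral.integral_of_le (by linarith [Real.pi_pos])]
  rw [integral_exp_mul_complex hc]
  have : Complex.exp ((m : ℂ) * Complex.I * (π : ℝ)) =
      Complex.exp ((m : ℂ) * Complex.I * ((-π : ℝ) : ℂ)) := by
    rw [Complex.exp_eq_exp_iff_exists_int]
    refine ⟨m, ?_⟩
    push_cast
    ring
  rw [this]
  simp

lemma disc_moment (R : ℝ) (hR : 0 ≤ R) (i j : ℕ) :
    ∫ v in Metric.ball (0 : ℂ) R, v ^ i * (conj v) ^ j =
      if i = j then ((π * (R ^ 2) ^ (j + 1) / (j + 1) : ℝ) : ℂ) else 0 := by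
  rw [← integral_indicator Metric.isOpen_ball.measurableSet, ← Complex.integral_comp_polarCoord_symm]
  have key : ∀ p ∈ polarCoord.target,
      p.1 • (Metric.ball (0 : ℂ) R).indicator (fun v : ℂ => v ^ i * (conj v) ^ j)
        (Complex.polarCoord.symm p) =
      ((Ioo (0 : ℝ) R).indicator (fun r : ℝ => (r : ℂ) ^ (i + j + 1)) p.1) *
        Complex.exp (((i : ℤ) - (j : ℤ) : ℤ) * Complex.I * p.2) := by
    rintro ⟨r, θ⟩ hp
    simp only [polarCoord_target, mem_prod, mem_Ioi] at hp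
    have hr : 0 < r := hp.1
    have hz : Complex.polarCoord.symm (r, θ) = r * Complex.exp (Complex.I * θ) := by
      rw [Complex.polarCoord_symm_apply]
      rw [mul_comm Complex.I, Complex.exp_mul_I]
      push_cast
      rfl
    have hcz : conj (Complex.polarCoord.symm (r, θ)) = r * Complex.exp (-(Complex.I * θ)) := by
      rw [hz, map_mul, Complex.conj_ofReal, ← Complex.exp_conj, map_mul, Complex.conj_I,
        Complex.conj_ofReal]
      ring_nf
    have hmem : (Complex.polarCoord.symm (r, θ) ∈ Metric.ball (0 : ℂ) R) ↔ r ∈ Ioo (0 : ℝ) R := by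
      rw [mem_ball_zero_iff, Complex.norm_polarCoord_symm]
      simp only [mem_Ioo]
      rw [abs_of_pos hr]
      exact ⟨fun h => ⟨hr, h⟩, fun h => h.2⟩
    by_cases h : r ∈ Ioo (0 : ℝ) R
    · rw [indicator_of_mem (hmem.2 h)]
      simp only
      rw [indicator_of_mem h, hcz, hz, mul_pow, mul_pow, ← Complex.exp_nat_mul,
        ← Complex.exp_nat_mul]
      rw [Complex.real_smul]
      have : Complex.exp ((((i : ℤ) - (j : ℤ) : ℤ) : ℂ) * Complex.I * θ) =
          Complex.exp ((i : ℂ) * (Complex.I * θ)) * Complex.exp ((j : ℂ) * (-(Complex.I * θ))) := by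
        rw [← Complex.exp_add]
        congr 1
        push_cast
        ring
      rw [this]
      ring
    · have h2 : Complex.polarCoord.symm (r, θ) ∉ Metric.ball (0 : ℂ) R := fun h3 => h (hmem.1 h3)
      rw [indicator_of_notMem h2]
      simp only
      rw [indicator_of_notMem h]
      simp
  rw [setIntegral_congr_fun (polarCoord.open_target.measurableSet) key]
  rw [polarCoord_target, Measure.volume_eq_prod]
  rw [setIntegral_prod_mul (fun r : ℝ => (Ioo (0 : ℝ) R).indicator (fun r : ℝ => (r : ℂ) ^ (i + j + 1)) r)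
    (fun θ : ℝ => Complex.exp (((i : ℤ) - (j : ℤ) : ℤ) * Complex.I * θ))]
  by_cases hij : i = j
  · subst hij
    rw [if_pos rfl]
    have h1 : ∫ θ in Ioo (-π) π, Complex.exp (((i : ℤ) - (i : ℤ) : ℤ) * Complex.I * θ) = 2 * π := by
      simp
      rw [max_eq_left (by linarith [Real.pi_pos])]
      push_cast
      ring
    rw [h1]
    have h2 : ∫ r in Ioi (0 : ℝ), (Ioo (0 : ℝ) R).indicator (fun r : ℝ => (r : ℂ) ^ (i + i + 1)) r =
        ((R ^ (i + i + 2) / (2 * (i + 1)) : ℝ) : ℂ) := by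
      rw [setIntegral_indicator measurableSet_Ioo]
      have : Ioi (0 : ℝ) ∩ Ioo (0 : ℝ) R = Ioo (0 : ℝ) R := by
        ext x
        simp only [mem_inter_iff, mem_Ioi, mem_Ioo]
        tauto
      rw [this, ← integral_Ioc_eq_integral_Ioo, ← intervalIntegral.integral_of_le hR]
      have : ∀ r : ℝ, (r : ℂ) ^ (i + i + 1) = ((r ^ (i + i + 1) : ℝ) : ℂ) := by
        intro r
        push_cast
        rfl
      simp_rw [this]
      rw [intervalIntegral.integral_ofReal, integral_pow]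
      congr 1
      rw [zero_pow (by omega), sub_zero]
      congr 1
      push_cast
      ring
    rw [h2, ← Complex.ofReal_ofNat, ← Complex.ofReal_mul, ← Complex.ofReal_mul]
    congr 1
    have h3 : (i : ℝ) + 1 ≠ 0 := by positivity
    field_simp
    ring
  · rw [if_neg hij, integral_exp_int ((i : ℤ) - (j : ℤ)) (by omega), mul_zero]

/-- The value of `∫ w^n conj(w)^k` over the disc with centre `a` and squared radius `R2`. -/
noncomputable def Jf (a R2 : ℝ) (k n : ℕ) : ℝ :=
  π * ∑ j ∈ Finset.range (k + 1),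
    ((n.choose j : ℝ) * (k.choose j) * a ^ (n - j) * a ^ (k - j) * R2 ^ (j + 1) / (j + 1))

lemma Jf_nonneg (a R2 : ℝ) (ha : 0 ≤ a) (hR : 0 ≤ R2) (k n : ℕ) : 0 ≤ Jf a R2 k n := by
  unfold Jf
  refine mul_nonneg Real.pi_pos.le (Finset.sum_nonneg fun j _ => ?_)
  positivity

lemma integrableOn_ball_mono (R : ℝ) (i j : ℕ) :
    IntegrableOn (fun v : ℂ => v ^ i * (conj v) ^ j) (Metric.ball 0 R) := by
  have hc : Continuous (fun v : ℂ => v ^ i * (conj v) ^ j) := by
    have := Complex.continuous_conj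
    fun_prop
  exact (hc.continuousOn.integrableOn_compact (isCompact_closedBall 0 R)).mono_set
    Metric.ball_subset_closedBall

lemma disc_shift (a R2 : ℝ) (hR : 0 ≤ R2) (k n : ℕ) :
    ∫ w in {w : ℂ | ‖w - a‖ ^ 2 < R2}, w ^ n * (conj w) ^ k = ((Jf a R2 k n : ℝ) : ℂ) := by
  have hms : MeasurableSet {w : ℂ | ‖w - a‖ ^ 2 < R2} := by
    apply IsOpen.measurableSet
    exact isOpen_lt (by fun_prop) continuous_const
  rw [← integral_indicator hms, ← integral_add_right_eq_self _ (a : ℂ)]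
  have h1 : ∀ v : ℂ, ({w : ℂ | ‖w - a‖ ^ 2 < R2}.indicator (fun w : ℂ => w ^ n * (conj w) ^ k))
      (v + a) = (Metric.ball (0 : ℂ) (√R2)).indicator
        (fun v : ℂ => (v + a) ^ n * (conj v + a) ^ k) v := by
    intro v
    have hiff : (v + a ∈ {w : ℂ | ‖w - a‖ ^ 2 < R2}) ↔ v ∈ Metric.ball (0 : ℂ) (√R2) := by
      rw [mem_setOf_eq, mem_ball_zero_iff, add_sub_cancel_right]
      exact (Real.lt_sqrt (norm_nonneg v)).symm
    by_cases h : v ∈ Metric.ball (0 : ℂ) (√R2)
    · rw [indicator_of_mem h, indicator_of_mem (hiff.2 h)]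
      simp only [map_add, Complex.conj_ofReal]
    · rw [indicator_of_notMem h, indicator_of_notMem (fun h3 => h (hiff.1 h3))]
  simp_rw [h1]
  rw [integral_indicator Metric.isOpen_ball.measurableSet]
  have h2 : ∀ v : ℂ, (v + a) ^ n * (conj v + a) ^ k =
      ∑ i ∈ Finset.range (n + 1), ∑ j ∈ Finset.range (k + 1),
        (((n.choose i : ℝ) * (k.choose j) * a ^ (n - i) * a ^ (k - j) : ℝ) : ℂ) *
          (v ^ i * (conj v) ^ j) := by
    intro v
    rw [add_pow, add_pow, Finset.sum_mul_sum]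
    refine Finset.sum_congr rfl fun i _ => Finset.sum_congr rfl fun j _ => ?_
    push_cast
    ring
  simp_rw [h2]
  rw [integral_finsetSum _ (fun i _ => integrable_finsetSum _
    (fun j _ => (integrableOn_ball_mono (√R2) i j).const_mul _))]
  have h3 : ∀ i ∈ Finset.range (n + 1), (∫ v in Metric.ball (0 : ℂ) (√R2),
      ∑ j ∈ Finset.range (k + 1),
        (((n.choose i : ℝ) * (k.choose j) * a ^ (n - i) * a ^ (k - j) : ℝ) : ℂ) *
          (v ^ i * (conj v) ^ j)) = ∑ j ∈ Finset.range (k + 1),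
        (((n.choose i : ℝ) * (k.choose j) * a ^ (n - i) * a ^ (k - j) : ℝ) : ℂ) *
          (if i = j then ((π * (√R2 ^ 2) ^ (j + 1) / (j + 1) : ℝ) : ℂ) else 0) := by
    intro i _
    rw [integral_finsetSum _ (fun j _ => (integrableOn_ball_mono (√R2) i j).const_mul _)]
    refine Finset.sum_congr rfl fun j _ => ?_
    rw [integral_const_mul, disc_moment _ (Real.sqrt_nonneg _)]
  rw [Finset.sum_congr rfl h3, Finset.sum_comm]
  unfold Jf
  push_cast
  rw [Finset.mul_sum]
  refine Finset.sum_congr rfl fun j _ => ?_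
  simp only [mul_ite, mul_zero, Finset.sum_ite_eq', Finset.mem_range]
  have hs : ((√R2 : ℝ) : ℂ) ^ 2 = (R2 : ℂ) := by
    rw [← Complex.ofReal_pow, Real.sq_sqrt hR]
  split_ifs with h
  · rw [hs]
    ring
  · have : n.choose j = 0 := Nat.choose_eq_zero_of_lt (by omega)
    rw [this]
    simp

end Pool.Agent.Work.MP_e29078_an

end

section

/-! Wirtinger calculus on `ℂ³`. -/

open MeasureTheory Set Filter Topology
open scoped Real ComplexConjugate ContDiff

namespace Pool.Agent.Work.MP_e29078_an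

variable {f g : C3 → ℂ} {p : C3} {k j : Fin 3}

/-- coordinates -/
def co : Fin 3 → C3 → ℂ := ![fun p => p.1, fun p => p.2.1, fun p => p.2.2]

lemma dz_congr (h : f =ᶠ[𝓝 p] g) : dz k f p = dz k g p := by
  unfold dz; rw [h.fderiv_eq]

lemma dzb_congr (h : f =ᶠ[𝓝 p] g) : dzb k f p = dzb k g p := by
  unfold dzb; rw [h.fderiv_eq]

lemma dz_eventuallyEq (h : f =ᶠ[𝓝 p] g) : dz k f =ᶠ[𝓝 p] dz k g := by
  filter_upwards [h.eventuallyEq_nhds] with q hq using dz_congr hq

lemma dzb_eventuallyEq (h : f =ᶠ[𝓝 p] g) : dzb k f =ᶠ[𝓝 p] dzb k g := by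
  filter_upwards [h.eventuallyEq_nhds] with q hq using dzb_congr hq

lemma dz_const (c : ℂ) : dz k (fun _ => c) p = 0 := by simp [dz]
lemma dzb_const (c : ℂ) : dzb k (fun _ => c) p = 0 := by simp [dzb]

lemma dz_add (hf : DifferentiableAt ℝ f p) (hg : DifferentiableAt ℝ g p) :
    dz k (fun q => f q + g q) p = dz k f p + dz k g p := by
  unfold dz
  rw [fderiv_fun_add hf hg]
  simp only [add_apply]; ring

lemma dzb_add (hf : DifferentiableAt ℝ f p) (hg : DifferentiableAt ℝ g p) :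
    dzb k (fun q => f q + g q) p = dzb k f p + dzb k g p := by
  unfold dzb
  rw [fderiv_fun_add hf hg]
  simp only [add_apply]; ring

lemma dz_sub (hf : DifferentiableAt ℝ f p) (hg : DifferentiableAt ℝ g p) :
    dz k (fun q => f q - g q) p = dz k f p - dz k g p := by
  unfold dz
  rw [fderiv_fun_sub hf hg]
  simp only [sub_apply]; ring

lemma dzb_sub (hf : DifferentiableAt ℝ f p) (hg : DifferentiableAt ℝ g p) :
    dzb k (fun q => f q - g q) p = dzb k f p - dzb k g p := by
  unfold dzb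
  rw [fderiv_fun_sub hf hg]
  simp only [sub_apply]; ring

lemma dz_neg : dz k (fun q => -f q) p = -dz k f p := by
  unfold dz
  rw [fderiv_fun_neg]
  simp only [neg_apply]; ring

lemma dzb_neg : dzb k (fun q => -f q) p = -dzb k f p := by
  unfold dzb
  rw [fderiv_fun_neg]
  simp only [neg_apply]; ring

lemma dz_mul (hf : DifferentiableAt ℝ f p) (hg : DifferentiableAt ℝ g p) :
    dz k (fun q => f q * g q) p = dz k f p * g p + f p * dz k g p := by
  unfold dz
  rw [fderiv_fun_mul hf hg]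
  simp only [add_apply, smul_apply, smul_eq_mul]; ring

lemma dzb_mul (hf : DifferentiableAt ℝ f p) (hg : DifferentiableAt ℝ g p) :
    dzb k (fun q => f q * g q) p = dzb k f p * g p + f p * dzb k g p := by
  unfold dzb
  rw [fderiv_fun_mul hf hg]
  simp only [add_apply, smul_apply, smul_eq_mul]; ring

lemma fderiv_conj_fun (hf : DifferentiableAt ℝ f p) (v : C3) :
    fderiv ℝ (fun q => conj (f q)) p v = conj (fderiv ℝ f p v) := by
  have h1 : HasFDerivAt (fun q => conj (f q))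
      ((Complex.conjCLE : ℂ →L[ℝ] ℂ).comp (fderiv ℝ f p)) p :=
    (Complex.conjCLE : ℂ →L[ℝ] ℂ).hasFDerivAt.comp p hf.hasFDerivAt
  rw [h1.fderiv]
  rfl

lemma differentiableAt_conj_iff : DifferentiableAt ℝ (fun q => conj (f q)) p ↔
    DifferentiableAt ℝ f p := by
  constructor
  · intro h
    have := (Complex.conjCLE : ℂ →L[ℝ] ℂ).differentiableAt.comp p h
    have h2 : (⇑(Complex.conjCLE : ℂ →L[ℝ] ℂ) ∘ fun q => conj (f q)) = f := by
      ext q; simp
    rwa [h2] at this
  · intro h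
    exact (Complex.conjCLE : ℂ →L[ℝ] ℂ).differentiableAt.comp p h

lemma dz_conj : dz k (fun q => conj (f q)) p = conj (dzb k f p) := by
  by_cases hf : DifferentiableAt ℝ f p
  · unfold dz dzb
    rw [fderiv_conj_fun hf, fderiv_conj_fun hf]
    simp only [map_div₀, map_add, map_mul, Complex.conj_I]
    have : (starRingEnd ℂ) 2 = 2 := Complex.conj_ofNat 2
    rw [this]; ring
  · have h2 : ¬ DifferentiableAt ℝ (fun q => conj (f q)) p := by
      rwa [differentiableAt_conj_iff]
    unfold dz dzb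
    rw [fderiv_zero_of_not_differentiableAt hf, fderiv_zero_of_not_differentiableAt h2]
    simp

lemma dzb_conj : dzb k (fun q => conj (f q)) p = conj (dz k f p) := by
  have h := dz_conj (f := fun q => conj (f q)) (p := p) (k := k)
  simp only [Complex.conj_conj] at h
  have h2 := congrArg conj h
  rw [Complex.conj_conj] at h2
  exact h2.symm

lemma dzb_rc (r : C3 → ℝ) : dzb k (rc r) p = conj (dz k (rc r) p) := by
  have h : rc r = fun q => conj (rc r q) := by ext q; simp [rc]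
  conv_lhs => rw [h]
  exact dzb_conj

lemma dz_of_linear (L : C3 →L[ℝ] ℂ) : dz k L p = (L (bas k) - Complex.I * L (Complex.I • bas k)) / 2 := by
  unfold dz; rw [L.fderiv]

lemma dzb_of_linear (L : C3 →L[ℝ] ℂ) :
    dzb k L p = (L (bas k) + Complex.I * L (Complex.I • bas k)) / 2 := by
  unfold dzb; rw [L.fderiv]

/-- coordinate maps as continuous linear maps -/
noncomputable def coL : Fin 3 → (C3 →L[ℂ] ℂ) :=
  ![ContinuousLinearMap.fst ℂ ℂ (ℂ × ℂ),
    (ContinuousLinearMap.fst ℂ ℂ ℂ).comp (ContinuousLinearMap.snd ℂ ℂ (ℂ × ℂ)),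
    (ContinuousLinearMap.snd ℂ ℂ ℂ).comp (ContinuousLinearMap.snd ℂ ℂ (ℂ × ℂ))]

lemma coL_apply (j : Fin 3) (p : C3) : coL j p = co j p := by
  fin_cases j <;> rfl

lemma co_eq (j : Fin 3) : co j = ⇑((coL j).restrictScalars ℝ) := by
  ext p; rw [ContinuousLinearMap.coe_restrictScalars', coL_apply]

lemma co_bas (j k : Fin 3) : co j (bas k) = if j = k then 1 else 0 := by
  fin_cases j <;> fin_cases k <;> simp [co, bas]

lemma dz_co (j : Fin 3) : dz k (co j) p = if j = k then 1 else 0 := by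
  rw [co_eq, dz_of_linear]
  have h1 : ((coL j).restrictScalars ℝ) (bas k) = if j = k then 1 else 0 := by
    rw [ContinuousLinearMap.coe_restrictScalars', coL_apply, co_bas]
  have h2 : ((coL j).restrictScalars ℝ) (Complex.I • bas k) = Complex.I * if j = k then 1 else 0 := by
    rw [ContinuousLinearMap.coe_restrictScalars', map_smul, coL_apply, co_bas, smul_eq_mul]
  rw [h1, h2, ← mul_assoc, Complex.I_mul_I]
  split_ifs <;> ring

lemma dzb_co (j : Fin 3) : dzb k (co j) p = 0 := by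
  rw [co_eq, dzb_of_linear]
  have h1 : ((coL j).restrictScalars ℝ) (bas k) = if j = k then 1 else 0 := by
    rw [ContinuousLinearMap.coe_restrictScalars', coL_apply, co_bas]
  have h2 : ((coL j).restrictScalars ℝ) (Complex.I • bas k) = Complex.I * if j = k then 1 else 0 := by
    rw [ContinuousLinearMap.coe_restrictScalars', map_smul, coL_apply, co_bas, smul_eq_mul]
  rw [h1, h2, ← mul_assoc, Complex.I_mul_I]
  split_ifs <;> ring

lemma co_differentiable (j : Fin 3) : DifferentiableAt ℝ (co j) p := by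
  rw [co_eq]; exact ContinuousLinearMap.differentiableAt _

lemma co_contDiff (j : Fin 3) {n : WithTop ℕ∞} : ContDiff ℝ n (co j) := by
  rw [co_eq]; exact ContinuousLinearMap.contDiff _

/-- holomorphic functions of one coordinate -/
lemma dz_holo {Φ : ℂ → ℂ} {Φ' : ℂ} (j : Fin 3) (h : HasDerivAt Φ Φ' (co j p)) :
    dz k (fun q => Φ (co j q)) p = if j = k then Φ' else 0 := by
  have h1 : HasFDerivAt (fun q => Φ (co j q))
      ((((1 : ℂ →L[ℂ] ℂ).smulRight Φ').restrictScalars ℝ).comp ((coL j).restrictScalars ℝ)) p := by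
    have h2 : HasFDerivAt Φ (((1 : ℂ →L[ℂ] ℂ).smulRight Φ').restrictScalars ℝ) (co j p) :=
      h.hasFDerivAt.restrictScalars ℝ
    have h3 : HasFDerivAt (co j) ((coL j).restrictScalars ℝ) p := by
      rw [co_eq]; exact ContinuousLinearMap.hasFDerivAt _
    exact h2.comp p h3
  unfold dz
  rw [h1.fderiv]
  have h4 : ∀ v, (((((1 : ℂ →L[ℂ] ℂ).smulRight Φ').restrictScalars ℝ).comp
      ((coL j).restrictScalars ℝ)) v : ℂ) = co j v * Φ' := by
    intro v
    simp [coL_apply]
  rw [h4, h4, co_bas]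
  have h5 : co j (Complex.I • bas k) = Complex.I * if j = k then 1 else 0 := by
    rw [← coL_apply, map_smul, coL_apply, co_bas, smul_eq_mul]
  rw [h5, mul_assoc Complex.I, ← mul_assoc Complex.I, Complex.I_mul_I]
  split_ifs <;> ring

lemma dzb_holo {Φ : ℂ → ℂ} {Φ' : ℂ} (j : Fin 3) (h : HasDerivAt Φ Φ' (co j p)) :
    dzb k (fun q => Φ (co j q)) p = 0 := by
  have h1 : HasFDerivAt (fun q => Φ (co j q))
      ((((1 : ℂ →L[ℂ] ℂ).smulRight Φ').restrictScalars ℝ).comp ((coL j).restrictScalars ℝ)) p := by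
    have h2 : HasFDerivAt Φ (((1 : ℂ →L[ℂ] ℂ).smulRight Φ').restrictScalars ℝ) (co j p) :=
      h.hasFDerivAt.restrictScalars ℝ
    have h3 : HasFDerivAt (co j) ((coL j).restrictScalars ℝ) p := by
      rw [co_eq]; exact ContinuousLinearMap.hasFDerivAt _
    exact h2.comp p h3
  unfold dzb
  rw [h1.fderiv]
  have h4 : ∀ v, (((((1 : ℂ →L[ℂ] ℂ).smulRight Φ').restrictScalars ℝ).comp
      ((coL j).restrictScalars ℝ)) v : ℂ) = co j v * Φ' := by
    intro v
    simp [coL_apply]
  rw [h4, h4, co_bas]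
  have h5 : co j (Complex.I • bas k) = Complex.I * if j = k then 1 else 0 := by
    rw [← coL_apply, map_smul, coL_apply, co_bas, smul_eq_mul]
  rw [h5, mul_assoc Complex.I, ← mul_assoc Complex.I, Complex.I_mul_I]
  split_ifs <;> ring

/-- smoothness of derivatives -/
lemma contDiffAt_fderiv_apply {n m : WithTop ℕ∞} (hf : ContDiffAt ℝ n f p) (hmn : m + 1 ≤ n)
    (v : C3) : ContDiffAt ℝ m (fun q => fderiv ℝ f q v) p :=
  (hf.fderiv_right hmn).clm_apply contDiffAt_const

lemma contDiffAt_dz {n m : WithTop ℕ∞} (hf : ContDiffAt ℝ n f p) (hmn : m + 1 ≤ n) :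
    ContDiffAt ℝ m (dz k f) p := by
  unfold dz
  exact ((contDiffAt_fderiv_apply hf hmn _).sub
    (contDiffAt_const.mul (contDiffAt_fderiv_apply hf hmn _))).div_const _

lemma contDiffAt_dzb {n m : WithTop ℕ∞} (hf : ContDiffAt ℝ n f p) (hmn : m + 1 ≤ n) :
    ContDiffAt ℝ m (dzb k f) p := by
  unfold dzb
  exact ((contDiffAt_fderiv_apply hf hmn _).add
    (contDiffAt_const.mul (contDiffAt_fderiv_apply hf hmn _))).div_const _

lemma analyticAt_dz (hf : AnalyticAt ℝ f p) : AnalyticAt ℝ (dz k f) p :=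
  (contDiffAt_dz (n := ω) (m := ω) hf.contDiffAt (by simp)).analyticAt

lemma analyticAt_dzb (hf : AnalyticAt ℝ f p) : AnalyticAt ℝ (dzb k f) p :=
  (contDiffAt_dzb (n := ω) (m := ω) hf.contDiffAt (by simp)).analyticAt

/-- symmetry of the second derivative -/
lemma fderiv_fderiv_symm (hf : ContDiffAt ℝ 2 f p) (u v : C3) :
    fderiv ℝ (fun q => fderiv ℝ f q u) p v = fderiv ℝ (fun q => fderiv ℝ f q v) p u := by
  have h1 : DifferentiableAt ℝ (fderiv ℝ f) p :=
    (hf.fderiv_right (m := 1) (by norm_num)).differentiableAt (by norm_num)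
  have h2 : ∀ u v : C3, fderiv ℝ (fun q => fderiv ℝ f q u) p v = fderiv ℝ (fderiv ℝ f) p v u := by
    intro u v
    rw [fderiv_clm_apply h1 (differentiableAt_const u)]
    simp
  rw [h2, h2]
  exact (hf.isSymmSndFDerivAt (by simp)).eq v u

lemma dzb_dzb_comm (hf : ContDiffAt ℝ 2 f p) : dzb j (dzb k f) p = dzb k (dzb j f) p := by
  have hd : ∀ v : C3, DifferentiableAt ℝ (fun q => fderiv ℝ f q v) p := fun v =>
    (contDiffAt_fderiv_apply (m := 1) hf (by norm_num) v).differentiableAt (by norm_num)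
  have key : ∀ (k : Fin 3) (v : C3), fderiv ℝ (dzb k f) p v =
      (fderiv ℝ (fun q => fderiv ℝ f q (bas k)) p v + Complex.I *
        fderiv ℝ (fun q => fderiv ℝ f q (Complex.I • bas k)) p v) / 2 := by
    intro k v
    have h1 : HasFDerivAt (dzb k f) ((2 : ℂ)⁻¹ • (fderiv ℝ (fun q => fderiv ℝ f q (bas k)) p +
        Complex.I • fderiv ℝ (fun q => fderiv ℝ f q (Complex.I • bas k)) p)) p := by
      have h2 := ((hd (bas k)).hasFDerivAt.add
        ((hd (Complex.I • bas k)).hasFDerivAt.const_smul Complex.I)).const_smul ((2 : ℂ)⁻¹)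
      refine h2.congr_of_eventuallyEq (Eventually.of_forall fun q => ?_)
      simp only [dzb, Pi.smul_apply, Pi.add_apply, smul_eq_mul]; ring
    rw [h1.fderiv]
    simp only [smul_apply, add_apply, smul_eq_mul]; ring
  unfold dzb at key ⊢
  rw [key, key, key, key]
  rw [fderiv_fderiv_symm hf (bas k) (bas j), fderiv_fderiv_symm hf (bas k) (Complex.I • bas j),
    fderiv_fderiv_symm hf (Complex.I • bas k) (bas j),
    fderiv_fderiv_symm hf (Complex.I • bas k) (Complex.I • bas j)]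
  ring

end Pool.Agent.Work.MP_e29078_an

end

section

/-! The symbol `kap` takes the value one at a non-real point. -/

open MeasureTheory Set Filter Topology
open scoped Real ComplexConjugate

namespace Pool.Agent.Work.MP_e29078_an

/-- the auxiliary entire function of `erfc` type -/
noncomputable def EE (S : ℂ) : ℂ :=
  ∫ x in Ioi (0 : ℝ), Complex.exp (-((x : ℂ) ^ 2 + S * x) / 2)

theorem norm_expo_le (S : ℂ) (K : ℝ) (hK : ‖S‖ ≤ K) (x : ℝ) (hx : 0 ≤ x) :
    ‖Complex.exp (-((x : ℂ) ^ 2 + S * x) / 2)‖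
      ≤ Real.exp (K ^ 2 / 4) * Real.exp (-(1 / 4) * x ^ 2) := by
  rw [Complex.norm_exp, ← Real.exp_add]
  apply Real.exp_le_exp.2
  have h0 : (-((x : ℂ) ^ 2 + S * x) / 2).re = -(x ^ 2 + S.re * x) / 2 := by
    simp [pow_two]
  rw [h0]
  have h1 : -S.re ≤ K := (neg_le_abs _).trans ((Complex.abs_re_le_norm S).trans hK)
  nlinarith [sq_nonneg (x - K), mul_le_mul_of_nonneg_right h1 hx]

theorem meas_expo (S : ℂ) : Continuous fun x : ℝ => Complex.exp (-((x : ℂ) ^ 2 + S * x) / 2) := by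
  fun_prop

theorem integrable_expo (S : ℂ) :
    IntegrableOn (fun x : ℝ => Complex.exp (-((x : ℂ) ^ 2 + S * x) / 2)) (Ioi 0) := by
  have hg : Integrable (fun x : ℝ => Real.exp (‖S‖ ^ 2 / 4) * Real.exp (-(1 / 4) * x ^ 2)) :=
    (integrable_exp_neg_mul_sq (by norm_num)).const_mul _
  refine Integrable.mono' hg.integrableOn (meas_expo S).aestronglyMeasurable ?_
  rw [ae_restrict_iff' measurableSet_Ioi]
  exact Eventually.of_forall fun x hx => norm_expo_le S _ le_rfl x (le_of_lt hx)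

theorem integrable_x_expo (S : ℂ) :
    IntegrableOn (fun x : ℝ => (x : ℂ) * Complex.exp (-((x : ℂ) ^ 2 + S * x) / 2)) (Ioi 0) := by
  have hg : Integrable (fun x : ℝ => Real.exp (‖S‖ ^ 2 / 4) * (x * Real.exp (-(1 / 4) * x ^ 2))) :=
    (integrable_mul_exp_neg_mul_sq (by norm_num)).const_mul _
  refine Integrable.mono' hg.integrableOn (by fun_prop) ?_
  rw [ae_restrict_iff' measurableSet_Ioi]
  refine Eventually.of_forall fun x hx => ?_
  have hx0 : 0 ≤ x := le_of_lt hx
  rw [norm_mul, Complex.norm_real, Real.norm_of_nonneg hx0]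
  calc x * ‖Complex.exp (-((x : ℂ) ^ 2 + S * x) / 2)‖
      ≤ x * (Real.exp (‖S‖ ^ 2 / 4) * Real.exp (-(1 / 4) * x ^ 2)) :=
        mul_le_mul_of_nonneg_left (norm_expo_le S _ le_rfl x hx0) hx0
    _ = _ := by ring

theorem hasDerivAt_EE (S : ℂ) :
    HasDerivAt EE (∫ x in Ioi (0 : ℝ), -((x : ℂ) / 2) *
      Complex.exp (-((x : ℂ) ^ 2 + S * x) / 2)) S := by
  have h := hasDerivAt_integral_of_dominated_loc_of_deriv_le
    (μ := volume.restrict (Ioi (0 : ℝ))) (𝕜 := ℂ) (E := ℂ) (x₀ := S) (s := Metric.ball S 1)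
    (F := fun S x => Complex.exp (-((x : ℂ) ^ 2 + S * x) / 2))
    (F' := fun S x => -((x : ℂ) / 2) * Complex.exp (-((x : ℂ) ^ 2 + S * x) / 2))
    (bound := fun x => Real.exp ((‖S‖ + 1) ^ 2 / 4) * (x * Real.exp (-(1 / 4) * x ^ 2)))
    (Metric.ball_mem_nhds S one_pos)
    (Eventually.of_forall fun z => (meas_expo z).aestronglyMeasurable)
    (integrable_expo S) (by fun_prop) ?_ ?_ ?_
  · exact h.2
  · rw [ae_restrict_iff' measurableSet_Ioi]
    refine Eventually.of_forall fun x hx z hz => ?_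
    have hx0 : 0 ≤ x := le_of_lt hx
    have hzn : ‖z‖ ≤ ‖S‖ + 1 := by
      rw [Metric.mem_ball, dist_eq_norm] at hz
      calc ‖z‖ = ‖S + (z - S)‖ := by ring_nf
        _ ≤ ‖S‖ + ‖z - S‖ := norm_add_le _ _
        _ ≤ ‖S‖ + 1 := by linarith
    rw [norm_mul, norm_neg, norm_div, Complex.norm_real, Real.norm_of_nonneg hx0]
    have h1 := norm_expo_le z _ hzn x hx0
    have h2 : ‖(2 : ℂ)‖ = 2 := by simp
    rw [h2]
    calc x / 2 * ‖Complex.exp (-((x : ℂ) ^ 2 + z * x) / 2)‖
        ≤ x / 2 * (Real.exp ((‖S‖ + 1) ^ 2 / 4) * Real.exp (-(1 / 4) * x ^ 2)) :=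
          mul_le_mul_of_nonneg_left h1 (by positivity)
      _ ≤ x * (Real.exp ((‖S‖ + 1) ^ 2 / 4) * Real.exp (-(1 / 4) * x ^ 2)) :=
          mul_le_mul_of_nonneg_right (by linarith) (by positivity)
      _ = _ := by ring
  · exact ((integrable_mul_exp_neg_mul_sq (by norm_num)).const_mul _).integrableOn
  · refine Eventually.of_forall fun x z _ => ?_
    have h1 : HasDerivAt (fun S : ℂ => -((x : ℂ) ^ 2 + S * x) / 2) (-(x : ℂ) / 2) z := by
      have h2 := (((hasDerivAt_id z).mul_const (x : ℂ)).const_add ((x : ℂ) ^ 2)).neg.div_const 2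
      simpa using h2
    have h3 : HasDerivAt (fun S : ℂ => Complex.exp (-((x : ℂ) ^ 2 + S * x) / 2)) _ z := h1.cexp
    exact h3.congr_deriv (by ring)

/-- the differential equation -/
theorem ode_EE (S : ℂ) :
    (∫ x in Ioi (0 : ℝ), (x : ℂ) * Complex.exp (-((x : ℂ) ^ 2 + S * x) / 2)) + S / 2 * EE S
      = 1 := by
  have hint : IntegrableOn (fun x : ℝ => (x : ℂ) * Complex.exp (-((x : ℂ) ^ 2 + S * x) / 2)
      + S / 2 * Complex.exp (-((x : ℂ) ^ 2 + S * x) / 2)) (Ioi 0) :=
    (integrable_x_expo S).add ((integrable_expo S).const_mul _)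
  have htend : Tendsto (fun x : ℝ => -Complex.exp (-((x : ℂ) ^ 2 + S * x) / 2)) atTop (𝓝 0) := by
    rw [← neg_zero]
    apply Tendsto.neg
    apply squeeze_zero_norm' (a := fun x : ℝ => Real.exp (‖S‖ ^ 2 / 4) *
      Real.exp (-(1 / 4) * x ^ 2))
    · filter_upwards [eventually_ge_atTop 0] with x hx
      exact norm_expo_le S _ le_rfl x hx
    · rw [← mul_zero (Real.exp (‖S‖ ^ 2 / 4))]
      apply Tendsto.const_mul
      apply Real.tendsto_exp_atBot.comp
      apply Tendsto.const_mul_atTop_of_neg (by norm_num)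
      exact tendsto_pow_atTop (by norm_num)
  have h := integral_Ioi_of_hasDerivAt_of_tendsto' (a := 0)
    (f := fun x : ℝ => -Complex.exp (-((x : ℂ) ^ 2 + S * x) / 2)) (m := 0)
    (f' := fun x : ℝ => (x : ℂ) * Complex.exp (-((x : ℂ) ^ 2 + S * x) / 2)
      + S / 2 * Complex.exp (-((x : ℂ) ^ 2 + S * x) / 2)) (fun x _ => ?_) hint htend
  · rw [integral_add (integrable_x_expo S) ((integrable_expo S).const_mul _),
      integral_const_mul] at h
    unfold EE
    rw [h]
    simp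
  · have h1 : HasDerivAt (fun y : ℝ => -((y : ℂ) ^ 2 + S * y) / 2) (-((2 : ℂ) * x + S) / 2) x := by
      have hx1 : HasDerivAt (fun y : ℝ => (y : ℂ)) 1 x := Complex.ofRealCLM.hasDerivAt
      have h2 : HasDerivAt (fun y : ℝ => -((y : ℂ) ^ 2 + S * y) / 2) _ x :=
        (((hx1.pow 2).add (hx1.const_mul S)).neg).div_const 2
      exact h2.congr_deriv (by push_cast; ring)
    have h3 : HasDerivAt (fun y : ℝ => -Complex.exp (-((y : ℂ) ^ 2 + S * y) / 2)) _ x :=
      h1.cexp.neg
    exact h3.congr_deriv (by ring)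

theorem kap_eq (T : ℂ) : kap T = 1 - T ^ 2 / 2 * EE (T ^ 2) := by
  unfold kap
  linear_combination ode_EE (T ^ 2)

theorem norm_EE_le (S : ℂ) : ‖EE S‖ ≤ Real.exp (‖S‖ ^ 2 / 4) * 2 := by
  unfold EE
  calc ‖∫ x in Ioi (0 : ℝ), Complex.exp (-((x : ℂ) ^ 2 + S * x) / 2)‖
      ≤ ∫ x in Ioi (0 : ℝ), Real.exp (‖S‖ ^ 2 / 4) * Real.exp (-(1 / 4) * x ^ 2) := by
        apply norm_integral_le_of_norm_le
        · exact ((integrable_exp_neg_mul_sq (by norm_num)).const_mul _).integrableOn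
        · rw [ae_restrict_iff' measurableSet_Ioi]
          exact Eventually.of_forall fun x hx => norm_expo_le S _ le_rfl x (le_of_lt hx)
    _ = Real.exp (‖S‖ ^ 2 / 4) * (√(π / (1 / 4)) / 2) := by
        rw [integral_const_mul, integral_gaussian_Ioi]
    _ ≤ Real.exp (‖S‖ ^ 2 / 4) * 2 := by
        apply mul_le_mul_of_nonneg_left _ (Real.exp_pos _).le
        have h1 : √(π / (1 / 4)) ≤ 4 := by
          rw [Real.sqrt_le_left (by norm_num)]
          have := Real.pi_lt_four
          linarith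
        linarith

theorem deriv_growth (f : ℂ → ℂ) (hf : Differentiable ℂ f) (C : ℝ) (n : ℕ)
    (h : ∀ z, ‖f z‖ ≤ C * (1 + ‖z‖) ^ (n + 1)) (z : ℂ) :
    ‖deriv f z‖ ≤ C * 2 ^ (n + 1) * (1 + ‖z‖) ^ n := by
  have hC : 0 ≤ C := by
    have := h 0
    rw [norm_zero, add_zero, one_pow, mul_one] at this
    exact (norm_nonneg _).trans this
  have hR : 0 < 1 + ‖z‖ := by positivity
  have h1 := Complex.norm_deriv_le_of_forall_mem_sphere_norm_le (f := f) (c := z) (R := 1 + ‖z‖)
    (C := C * (2 * (1 + ‖z‖)) ^ (n + 1)) hR hf.diffContOnCl (by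
      intro w hw
      rw [mem_sphere_iff_norm] at hw
      have hw2 : ‖w‖ ≤ ‖z‖ + (1 + ‖z‖) := by
        calc ‖w‖ = ‖z + (w - z)‖ := by congr 1; ring
          _ ≤ ‖z‖ + ‖w - z‖ := norm_add_le _ _
          _ = _ := by rw [hw]
      refine (h w).trans ?_
      apply mul_le_mul_of_nonneg_left _ hC
      apply pow_le_pow_left₀ (by positivity)
      linarith)
  refine h1.trans (le_of_eq ?_)
  rw [div_eq_iff hR.ne', mul_pow]
  ring

theorem exists_zero_EE : ∃ S, EE S = 0 := by
  by_contra hne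
  push Not at hne
  have hd : Differentiable ℂ EE := fun S => (hasDerivAt_EE S).differentiableAt
  have hder : ∀ S, deriv EE S = S / 4 * EE S - 1 / 2 := by
    intro S
    rw [(hasDerivAt_EE S).deriv]
    have h1 : (∫ x in Ioi (0 : ℝ), -((x : ℂ) / 2) * Complex.exp (-((x : ℂ) ^ 2 + S * x) / 2))
        = -(1 / 2) * ∫ x in Ioi (0 : ℝ), (x : ℂ) * Complex.exp (-((x : ℂ) ^ 2 + S * x) / 2) := by
      rw [← integral_const_mul]
      congr 1
      ext x
      ring
    rw [h1]
    linear_combination -(1 / 2) * ode_EE S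
  have hdd : Differentiable ℂ (fun S => deriv EE S / EE S) := by
    have h1 : (fun S => deriv EE S / EE S) = fun S => (S / 4 * EE S - 1 / 2) / EE S := by
      ext S; rw [hder]
    rw [h1]
    intro S
    have h2 := hd S
    have h3 := hne S
    fun_prop (disch := assumption)
  obtain ⟨Q, hQ0, hQ⟩ := hdd.isExactOn_univ.with_val_at 0 (Complex.log (EE 0))
  replace hQ : ∀ S, HasDerivAt Q (deriv EE S / EE S) S := fun S => hQ S (mem_univ S)
  have hQd : Differentiable ℂ Q := fun S => (hQ S).differentiableAt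
  have hexp : ∀ S, Complex.exp (Q S) = EE S := by
    have hc : ∀ S, EE S * Complex.exp (-Q S) = EE 0 * Complex.exp (-Q 0) := by
      intro S
      apply is_const_of_deriv_eq_zero (f := fun S => EE S * Complex.exp (-Q S))
      · exact hd.mul (hQd.neg.cexp)
      · intro T
        have h1 := (hd T).hasDerivAt.mul ((hQ T).neg.cexp)
        have h2 : HasDerivAt (fun S => EE S * Complex.exp (-Q S)) _ T := h1
        rw [h2.deriv]
        have h3 := hne T
        field_simp
        ring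
    intro S
    have h1 := hc S
    rw [hQ0, Complex.exp_neg (Complex.log (EE 0)), Complex.exp_log (hne 0),
      mul_inv_cancel₀ (hne 0), Complex.exp_neg] at h1
    have h2 := Complex.exp_ne_zero (Q S)
    field_simp at h1
    exact h1.symm
  have hre : ∀ S, (Q S).re ≤ 1 + ‖S‖ ^ 2 / 4 := by
    intro S
    have h1 : Real.exp (Q S).re ≤ Real.exp (1 + ‖S‖ ^ 2 / 4) := by
      rw [← Complex.norm_exp, hexp, Real.exp_add, mul_comm]
      refine (norm_EE_le S).trans ?_
      apply mul_le_mul_of_nonneg_left _ (Real.exp_pos _).le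
      have := Real.add_one_le_exp 1
      linarith
    exact Real.exp_le_exp.1 h1
  have hQg : ∀ S, ‖Q S‖ ≤ (4 + 3 * ‖Q 0‖) * (1 + ‖S‖) ^ (1 + 1) := by
    intro S
    have hS := norm_nonneg S
    have hQ00 := norm_nonneg (Q 0)
    have h1 := Complex.borelCaratheodory (f := Q) (R := 2 * (1 + ‖S‖)) (z := S)
      (M := 1 + (1 + ‖S‖) ^ 2) (by positivity) hQd.differentiableOn (by
        intro w hw
        rw [Metric.mem_ball, dist_zero_right] at hw
        have := hre w
        simp only [Set.mem_ofPred_eq]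
        nlinarith [norm_nonneg w]) (by positivity) (by
        rw [Metric.mem_ball, dist_zero_right]; linarith)
    have hden : 0 < 2 * (1 + ‖S‖) - ‖S‖ := by linarith
    have h2 : 2 * (1 + (1 + ‖S‖) ^ 2) * ‖S‖ / (2 * (1 + ‖S‖) - ‖S‖)
        ≤ 2 * (1 + (1 + ‖S‖) ^ 2) := by
      rw [div_le_iff₀ hden]
      apply mul_le_mul_of_nonneg_left _ (by positivity)
      linarith
    have h3 : ‖Q 0‖ * (2 * (1 + ‖S‖) + ‖S‖) / (2 * (1 + ‖S‖) - ‖S‖) ≤ 3 * ‖Q 0‖ := by
      rw [div_le_iff₀ hden]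
      nlinarith
    have h4 : 1 ≤ (1 + ‖S‖) ^ (1 + 1) := by
      apply one_le_pow₀
      linarith
    have h5 : (1 + ‖S‖) ^ (1 + 1) = (1 + ‖S‖) ^ 2 := by norm_num
    rw [h5] at h4 ⊢
    have h6 := mul_nonneg hQ00 (sub_nonneg.2 h4)
    linarith
  have hQ1 := deriv_growth Q hQd (4 + 3 * ‖Q 0‖) 1 hQg
  have hQ'd : Differentiable ℂ (deriv Q) := by
    have : deriv Q = fun S => deriv EE S / EE S := by
      ext S; exact (hQ S).deriv
    rw [this]; exact hdd
  have hQ2 := deriv_growth (deriv Q) hQ'd ((4 + 3 * ‖Q 0‖) * 2 ^ (1 + 1)) 0 (by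
    intro z
    have := hQ1 z
    simpa using this)
  have hQ''d : Differentiable ℂ (deriv (deriv Q)) := by
    intro S
    exact ((hQ'd.analyticAt S).deriv).differentiableAt
  obtain ⟨c, hc⟩ := hQ''d.exists_const_forall_eq_of_bounded (by
    rw [Metric.isBounded_range_iff]
    refine ⟨2 * ((4 + 3 * ‖Q 0‖) * 2 ^ (1 + 1) * 2 ^ (0 + 1)), fun x y => ?_⟩
    have h1 := hQ2 x
    have h2 := hQ2 y
    rw [pow_zero, mul_one] at h1 h2
    rw [dist_eq_norm]
    calc _ ≤ ‖deriv (deriv Q) x‖ + ‖deriv (deriv Q) y‖ := norm_sub_le _ _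
      _ ≤ _ := by linarith)
  have haff : ∀ S, deriv Q S - c * S = deriv Q 0 - c * 0 := by
    intro S
    apply is_const_of_deriv_eq_zero (f := fun S => deriv Q S - c * S)
    · exact hQ'd.sub (by fun_prop)
    · intro T
      have h1 : HasDerivAt (fun S => deriv Q S - c * S) (deriv (deriv Q) T - c * 1) T :=
        (hQ'd T).hasDerivAt.sub ((hasDerivAt_id T).const_mul c)
      rw [h1.deriv, hc T]
      ring
  have hinv : ∀ S, (EE S)⁻¹ = (1 / 2 - 2 * c) * S + (-2 * deriv Q 0) := by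
    intro S
    have h1 := haff S
    have h2 : deriv Q S = deriv EE S / EE S := (hQ S).deriv
    rw [hder] at h2
    have h3 : deriv Q S = S / 4 - (EE S)⁻¹ / 2 := by
      rw [h2]
      have := hne S
      field_simp
    linear_combination -2 * h1 + 2 * h3
  have hα : (1 / 2 - 2 * c : ℂ) = 0 := by
    by_contra hα
    have h1 := hinv (-(-2 * deriv Q 0) / (1 / 2 - 2 * c))
    rw [mul_div_cancel₀ _ hα] at h1
    rw [neg_add_cancel] at h1
    exact hne _ (inv_eq_zero.1 h1)
  have hconst : ∀ S, EE S = EE 0 := by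
    intro S
    rw [← inv_inj, hinv, hinv 0, hα]
    ring
  have h0 := hder 0
  have h1 : deriv EE 0 = 0 := by
    have : EE = fun _ => EE 0 := by ext S; exact hconst S
    rw [this]
    simp
  rw [h1] at h0
  norm_num at h0

theorem EE_real_ne (s : ℝ) : EE (s : ℂ) ≠ 0 := by
  have h1 : EE (s : ℂ) = ((∫ x in Ioi (0 : ℝ), Real.exp (-(x ^ 2 + s * x) / 2) : ℝ) : ℂ) := by
    unfold EE
    rw [← integral_complex_ofReal]
    congr 1
    ext x
    push_cast
    rfl
  rw [h1]
  rw [Complex.ofReal_ne_zero]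
  apply ne_of_gt
  have hint : IntegrableOn (fun x : ℝ => Real.exp (-(x ^ 2 + s * x) / 2)) (Ioi 0) := by
    have := (integrable_expo (s : ℂ)).norm
    refine this.congr (Eventually.of_forall fun x => ?_)
    simp only []
    rw [Complex.norm_exp]
    congr 1
    simp [pow_two]
  rw [setIntegral_pos_iff_support_of_nonneg_ae
    (Eventually.of_forall fun x => (Real.exp_pos _).le) hint]
  have : Function.support (fun x : ℝ => Real.exp (-(x ^ 2 + s * x) / 2)) = univ := by
    ext x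
    simp [(Real.exp_pos _).ne']
  rw [this, univ_inter]
  simp

/-- **Item A1**: the symbol takes the value one in the open upper half plane. -/
theorem exists_kap_eq_one : ∃ T : ℂ, 0 < T.im ∧ kap T = 1 := by
  obtain ⟨S, hS⟩ := exists_zero_EE
  obtain ⟨z, hz⟩ := IsAlgClosed.exists_pow_nat_eq S (n := 2) (by norm_num)
  have hzim : z.im ≠ 0 := by
    intro h0
    have hz2 : z = (z.re : ℂ) := by
      apply Complex.ext <;> simp [h0]
    rw [hz2] at hz
    have : S = ((z.re ^ 2 : ℝ) : ℂ) := by rw [← hz]; push_cast; rfl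
    exact EE_real_ne (z.re ^ 2) (this ▸ hS)
  rcases lt_or_gt_of_ne hzim with h | h
  · refine ⟨-z, by simpa using h, ?_⟩
    rw [kap_eq, neg_sq, hz, hS]
    simp
  · refine ⟨z, h, ?_⟩
    rw [kap_eq, hz, hS]
    simp

end Pool.Agent.Work.MP_e29078_an

end

section

/-! Uniform asymptotics of the matrix `Kr` near the diagonal. -/

open MeasureTheory Set Filter Topology
open scoped Real ComplexConjugate

namespace Pool.Agent.Work.MP_e29078_an

namespace Asy

/-- Affine change of variables in the plane. -/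
lemma integral_scale {a b c : ℝ} (ha : a ≠ 0) (hb : b ≠ 0) (G : ℝ × ℝ → ℂ) :
    ∫ p : ℝ × ℝ, G (c + a * p.1, b * p.2) = ((|a⁻¹| * |b⁻¹| : ℝ) : ℂ) * ∫ p, G p := by
  have hf : Measurable fun x : ℝ => c + a * x := by fun_prop
  have hg : Measurable fun x : ℝ => b * x := by fun_prop
  have h1 : Measure.map (fun x : ℝ => c + a * x) volume = ENNReal.ofReal |a⁻¹| • volume := by
    have h2 : (fun x : ℝ => c + a * x) = (fun x => c + x) ∘ (fun x => a * x) := rfl
    rw [h2, ← Measure.map_map (by fun_prop) (by fun_prop), Real.map_volume_mul_left ha,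
      Measure.map_smul, (measurePreserving_add_left volume c).map_eq]
  have h2 : Measure.map (fun x : ℝ => b * x) volume = ENNReal.ofReal |b⁻¹| • volume :=
    Real.map_volume_mul_left hb
  have h3 := Measure.map_prod_map (volume : Measure ℝ) (volume : Measure ℝ) hf hg
  rw [h1, h2, Measure.prod_smul_left, Measure.prod_smul_right, smul_smul] at h3
  have hemb : MeasurableEmbedding (Prod.map (fun x : ℝ => c + a * x) (fun x : ℝ => b * x)) := by
    apply MeasurableEmbedding.prodMap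
    · have e1 := (MeasurableEquiv.addLeft c).measurableEmbedding
      have e2 := (MeasurableEquiv.mulLeft₀ a ha).measurableEmbedding
      exact e1.comp e2
    · exact (MeasurableEquiv.mulLeft₀ b hb).measurableEmbedding
  have h4 := hemb.integral_map (μ := (volume : Measure ℝ).prod (volume : Measure ℝ)) G
  rw [← h3, integral_smul_measure] at h4
  have h5 : ∫ p : ℝ × ℝ, G (c + a * p.1, b * p.2) =
      ∫ x, G (Prod.map (fun x : ℝ => c + a * x) (fun x : ℝ => b * x) x)
        ∂((volume : Measure ℝ).prod volume) := rfl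
  rw [h5, ← h4]
  rw [ENNReal.toReal_mul, ENNReal.toReal_ofReal (abs_nonneg _),
    ENNReal.toReal_ofReal (abs_nonneg _), Complex.real_smul]
  rfl

/-- The moment in rescaled polar coordinates. -/
lemma Bc_scale (k n N : ℕ) (hN : N = n + k + 1) :
    ((N * qr N * N : ℝ) : ℂ) * Bc k n =
      ∫ p : ℝ × ℝ, (psiN N p : ℂ) *
        Complex.exp (Complex.I * (p.2 : ℂ) * ((((n : ℝ) - k) / qr N : ℝ) : ℂ)) := by
  have hN0 : 0 < N := by omega
  have hNr : (0 : ℝ) < N := by exact_mod_cast hN0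
  have hq := qr_pos hN0
  have hpi := Real.pi_pos
  set F : ℂ → ℂ := fun w => w ^ n * (conj w) ^ k * ((rho w ^ 2 : ℝ) : ℂ) with hF
  set G : ℝ × ℝ → ℂ := polarCoord.target.indicator
    (fun p => p.1 • ((Metric.ball (0 : ℂ) 1).indicator F) (Complex.polarCoord.symm p)) with hG
  have h1 : Bc k n = ∫ p, G p := by
    unfold Bc
    rw [hG, integral_indicator polarCoord.open_target.measurableSet,
      Complex.integral_comp_polarCoord_symm, integral_indicator Metric.isOpen_ball.measurableSet]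
  have h2 := integral_scale (a := -(1 / (N : ℝ))) (b := 1 / qr N) (c := 1)
    (by simp [hNr.ne']) (by simp [hq.ne']) G
  have h3 : |(-(1 / (N : ℝ)))⁻¹| * |(1 / qr N)⁻¹| = N * qr N := by
    rw [inv_neg, abs_neg, one_div, inv_inv, one_div, inv_inv, abs_of_pos hNr, abs_of_pos hq]
  rw [h3, ← h1] at h2
  have h4 : ((N * qr N * N : ℝ) : ℂ) * Bc k n = (N : ℂ) * (((N * qr N : ℝ) : ℂ) * Bc k n) := by
    push_cast
    ring
  rw [h4, ← h2, ← integral_const_mul]
  refine integral_congr_ae (Eventually.of_forall fun p => ?_)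
  simp only
  have hr : (1 : ℝ) + -(1 / (N : ℝ)) * p.1 = 1 - p.1 / N := by ring
  have hθ : 1 / qr N * p.2 = p.2 / qr N := by ring
  rw [hr, hθ, hG]
  unfold psiN
  by_cases hp : p ∈ {p : ℝ × ℝ | 0 < p.1 ∧ p.1 < N ∧ |p.2| < π * qr N}
  · rw [indicator_of_mem hp]
    obtain ⟨hp1, hp2, hp3⟩ := hp
    have hr0 : 0 < 1 - p.1 / N := by
      rw [sub_pos, div_lt_one hNr]; exact hp2
    have hr1 : 1 - p.1 / N < 1 := by
      have : 0 < p.1 / N := by positivity
      linarith
    have hθ2 : |p.2 / qr N| < π := by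
      rw [abs_div, abs_of_pos hq, div_lt_iff₀ hq]; exact hp3
    have hmem : ((1 - p.1 / N, p.2 / qr N) : ℝ × ℝ) ∈ polarCoord.target := by
      rw [polarCoord_target]
      exact ⟨hr0, abs_lt.mp hθ2⟩
    have hball : Complex.polarCoord.symm (1 - p.1 / N, p.2 / qr N) ∈ Metric.ball (0 : ℂ) 1 := by
      rw [mem_ball_zero_iff, Complex.norm_polarCoord_symm, abs_of_pos hr0]
      exact hr1
    rw [indicator_of_mem hmem, indicator_of_mem hball]
    have hw : Complex.polarCoord.symm (1 - p.1 / N, p.2 / qr N) =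
        ((1 - p.1 / N : ℝ) : ℂ) * Complex.exp (Complex.I * ((p.2 / qr N : ℝ) : ℂ)) := by
      rw [Complex.polarCoord_symm_apply, mul_comm Complex.I, Complex.exp_mul_I,
        Complex.ofReal_cos, Complex.ofReal_sin]
    have hwN : Complex.polarCoord.symm (1 - p.1 / N, p.2 / qr N) = wN N p := rfl
    rw [hwN]
    show (N : ℂ) * ((1 - p.1 / N : ℝ) • F (wN N p)) = _
    rw [hF]
    simp only
    have hconj : conj (wN N p) =
        ((1 - p.1 / N : ℝ) : ℂ) * Complex.exp (-(Complex.I * ((p.2 / qr N : ℝ) : ℂ))) := by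
      rw [← hwN, hw, map_mul, Complex.conj_ofReal, ← Complex.exp_conj, map_mul, Complex.conj_I,
        Complex.conj_ofReal]
      ring_nf
    have hpow : wN N p ^ n * conj (wN N p) ^ k =
        ((1 - p.1 / N : ℝ) : ℂ) ^ (n + k) *
          Complex.exp (Complex.I * (p.2 : ℂ) * ((((n : ℝ) - k) / qr N : ℝ) : ℂ)) := by
      rw [hconj, ← hwN, hw, mul_pow, mul_pow, ← Complex.exp_nat_mul, ← Complex.exp_nat_mul, pow_add]
      rw [mul_mul_mul_comm, ← Complex.exp_add]
      congr 2
      push_cast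
      ring
    rw [hpow, Complex.real_smul]
    have hNpow : (1 - p.1 / (N : ℝ)) ^ N = (1 - p.1 / (N : ℝ)) ^ (n + k) * (1 - p.1 / (N : ℝ)) := by
      conv_lhs => rw [hN]
      rw [← pow_succ, hN]
    rw [hNpow]
    push_cast
    ring
  · rw [indicator_of_notMem hp]
    simp only [Complex.ofReal_zero, zero_mul, mul_eq_zero, Nat.cast_eq_zero]
    right
    by_cases hmem : ((1 - p.1 / N, p.2 / qr N) : ℝ × ℝ) ∈ polarCoord.target
    · rw [indicator_of_mem hmem]
      rw [polarCoord_target] at hmem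
      obtain ⟨hm1, hm2⟩ := hmem
      have hm1' : 0 < 1 - p.1 / N := hm1
      have hm2' : |p.2 / qr N| < π := abs_lt.mpr hm2
      have hnb : Complex.polarCoord.symm (1 - p.1 / N, p.2 / qr N) ∉ Metric.ball (0 : ℂ) 1 := by
        rw [mem_ball_zero_iff, Complex.norm_polarCoord_symm, abs_of_pos hm1', not_lt]
        by_contra hcon
        push Not at hcon
        apply hp
        refine ⟨?_, ?_, ?_⟩
        · have h6 : 0 < p.1 / N := by linarith
          exact (div_pos_iff_of_pos_right hNr).mp h6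
        · rw [sub_pos, div_lt_one hNr] at hm1'
          exact hm1'
        · rw [abs_div, abs_of_pos hq, div_lt_iff₀ hq] at hm2'
          exact hm2'
      rw [indicator_of_notMem hnb, smul_zero]
    · rw [indicator_of_notMem hmem]

lemma integrableOn_pow (j : ℕ) (c : ℝ) (hc : 0 ≤ c) :
    IntegrableOn (fun x : ℝ => x ^ j * Real.exp (-((x ^ 2 + c * x) / 2))) (Ioi 0) := by
  have h1 := integrableOn_rpow_mul_exp_neg_mul_sq (b := 1 / 2) (by norm_num) (s := (j : ℝ))
    (by have : (0 : ℝ) ≤ j := Nat.cast_nonneg j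
        linarith)
  refine Integrable.mono' h1 (by fun_prop) ?_
  filter_upwards [ae_restrict_mem measurableSet_Ioi] with x hx
  have hx' : (0 : ℝ) < x := hx
  rw [Real.norm_eq_abs, abs_of_nonneg (by positivity), Real.rpow_natCast]
  apply mul_le_mul_of_nonneg_left _ (by positivity)
  apply Real.exp_le_exp.mpr
  have : 0 ≤ c * x := by positivity
  linarith

lemma parts_aux (c : ℝ) (hc : 0 ≤ c) :
    ∫ x in Ioi (0 : ℝ), x ^ 2 * (x + c / 2) * Real.exp (-((x ^ 2 + c * x) / 2)) =
      2 * ∫ x in Ioi (0 : ℝ), x * Real.exp (-((x ^ 2 + c * x) / 2)) := by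
  have i1 := integrableOn_pow 1 c hc
  have i2 := integrableOn_pow 2 c hc
  have i3 := integrableOn_pow 3 c hc
  have i4 : IntegrableOn (fun x : ℝ => x ^ 2 * (x + c / 2) *
      Real.exp (-((x ^ 2 + c * x) / 2))) (Ioi 0) := by
    refine (i3.add (i2.const_mul (c / 2))).congr (Eventually.of_forall fun x => ?_)
    simp only [Pi.add_apply]
    ring
  have i1' : IntegrableOn (fun x : ℝ => x * Real.exp (-((x ^ 2 + c * x) / 2))) (Ioi 0) := by
    simpa using i1
  have hd : ∀ x : ℝ, HasDerivAt (fun x : ℝ => -(x ^ 2 * Real.exp (-((x ^ 2 + c * x) / 2))))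
      (x ^ 2 * (x + c / 2) * Real.exp (-((x ^ 2 + c * x) / 2)) -
        2 * (x * Real.exp (-((x ^ 2 + c * x) / 2)))) x := by
    intro x
    have e1 : HasDerivAt (fun x : ℝ => -((x ^ 2 + c * x) / 2)) (-((2 * x + c) / 2)) x := by
      have a1 : HasDerivAt (fun x : ℝ => x ^ 2) (2 * x) x := by
        simpa using hasDerivAt_pow 2 x
      have a2 : HasDerivAt (fun x : ℝ => c * x) c x := by
        simpa using (hasDerivAt_id x).const_mul c
      exact ((a1.add a2).div_const 2).neg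
    have e2 : HasDerivAt (fun x : ℝ => x ^ 2) (2 * x) x := by
      simpa using hasDerivAt_pow 2 x
    have e3 := (e2.mul e1.exp).neg
    refine e3.congr_deriv ?_
    ring
  have hlim : Tendsto (fun x : ℝ => -(x ^ 2 * Real.exp (-((x ^ 2 + c * x) / 2)))) atTop (𝓝 0) := by
    have h1 := Real.tendsto_pow_mul_exp_neg_atTop_nhds_zero 2
    have h2 : Tendsto (fun x : ℝ => x ^ 2 * Real.exp (-((x ^ 2 + c * x) / 2))) atTop (𝓝 0) := by
      apply squeeze_zero' _ _ h1
      · exact Eventually.of_forall fun x => by positivity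
      · filter_upwards [eventually_ge_atTop 2] with x hx
        apply mul_le_mul_of_nonneg_left _ (by positivity)
        apply Real.exp_le_exp.mpr
        have : 0 ≤ c * x := by positivity
        nlinarith
    simpa using h2.neg
  have h := integral_Ioi_of_hasDerivAt_of_tendsto (a := 0) (hd 0).continuousAt.continuousWithinAt
    (fun x _ => hd x) (i4.sub (i1'.const_mul 2)) hlim
  simp only [zero_pow, ne_eq, OfNat.ofNat_ne_zero, not_false_eq_true, zero_mul, neg_zero,
    sub_self] at h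
  rw [integral_sub i4 (i1'.const_mul 2), integral_const_mul] at h
  linarith

lemma rr_of {a x : ℝ} (ha : 0 ≤ a) (hx : 0 ≤ x) : rr a (x ^ 2 + a * x) = x := by
  unfold rr
  have h1 : a ^ 2 + 4 * (x ^ 2 + a * x) = (2 * x + a) ^ 2 := by ring
  rw [h1, Real.sqrt_sq (by positivity)]
  ring

/-- Integration in the first variable. -/
lemma inner_int (v : ℝ) :
    ∫ u : ℝ, psi0 (u, v) = 2 * ∫ x in Ioi (0 : ℝ), x * Real.exp (-((x ^ 2 + v ^ 2 * x) / 2)) := by
  have hc : 0 ≤ v ^ 2 := sq_nonneg v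
  rw [← parts_aux (v ^ 2) hc]
  have h1 : ∫ u : ℝ, psi0 (u, v) =
      ∫ u in Ioi (0 : ℝ), Real.exp (-u) * rr (v ^ 2) (2 * u) ^ 2 := by
    rw [← integral_indicator measurableSet_Ioi]
    refine integral_congr_ae (Eventually.of_forall fun u => ?_)
    simp only
    unfold psi0
    by_cases hu : 0 < u
    · rw [indicator_of_mem (show (u, v) ∈ {p : ℝ × ℝ | 0 < p.1} from hu),
        indicator_of_mem (show u ∈ Ioi (0 : ℝ) from hu)]
    · rw [indicator_of_notMem (show (u, v) ∉ {p : ℝ × ℝ | 0 < p.1} from hu),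
        indicator_of_notMem (show u ∉ Ioi (0 : ℝ) from hu)]
  rw [h1]
  set f : ℝ → ℝ := fun x => (x ^ 2 + v ^ 2 * x) / 2 with hf
  set g : ℝ → ℝ := fun u => Real.exp (-u) * rr (v ^ 2) (2 * u) ^ 2 with hg
  have hgc : Continuous g := by
    have : Continuous fun u : ℝ => rr (v ^ 2) (2 * u) :=
      continuous_rr.comp (f := fun u : ℝ => ((v ^ 2, 2 * u) : ℝ × ℝ)) (by fun_prop)
    rw [hg]
    fun_prop
  have hfc : Continuous f := by rw [hf]; fun_prop
  have hft : Tendsto f atTop atTop := by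
    apply tendsto_atTop_mono' atTop _ (tendsto_id)
    filter_upwards [eventually_ge_atTop 2] with x hx
    have : 0 ≤ v ^ 2 * x := by positivity
    show x ≤ (x ^ 2 + v ^ 2 * x) / 2
    nlinarith
  have hfd : ∀ x : ℝ, HasDerivAt f (x + v ^ 2 / 2) x := by
    intro x
    have a1 : HasDerivAt (fun x : ℝ => x ^ 2) (2 * x) x := by
      simpa using hasDerivAt_pow 2 x
    have a2 : HasDerivAt (fun x : ℝ => v ^ 2 * x) (v ^ 2) x := by
      simpa using (hasDerivAt_id x).const_mul (v ^ 2)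
    refine ((a1.add a2).div_const 2).congr_deriv ?_
    ring
  have hfx : ∀ x : ℝ, 0 ≤ x → g (f x) = Real.exp (-((x ^ 2 + v ^ 2 * x) / 2)) * x ^ 2 := by
    intro x hx
    simp only [hg, hf]
    rw [show 2 * ((x ^ 2 + v ^ 2 * x) / 2) = x ^ 2 + v ^ 2 * x by ring, rr_of hc hx]
  have hg1 : IntegrableOn g (f '' Ici 0) := by
    have hsub : f '' Ici 0 ⊆ Ici 0 := by
      rintro _ ⟨x, hx, rfl⟩
      have hx' : (0 : ℝ) ≤ x := hx
      show 0 ≤ (x ^ 2 + v ^ 2 * x) / 2
      positivity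
    apply IntegrableOn.mono_set _ hsub
    rw [integrableOn_Ici_iff_integrableOn_Ioi]
    have e1 := (Real.GammaIntegral_convergent (s := 2) (by norm_num)).const_mul 2
    refine Integrable.mono' e1 hgc.aestronglyMeasurable ?_
    filter_upwards [ae_restrict_mem measurableSet_Ioi] with u hu
    have hu' : (0 : ℝ) < u := hu
    rw [Real.norm_eq_abs, abs_of_nonneg (by positivity)]
    have h2 := rr_sq_le hc (b := 2 * u) (by positivity)
    calc Real.exp (-u) * rr (v ^ 2) (2 * u) ^ 2 ≤ Real.exp (-u) * (2 * u) :=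
          mul_le_mul_of_nonneg_left h2 (by positivity)
      _ = 2 * (Real.exp (-u) * u ^ ((2 : ℝ) - 1)) := by norm_num; ring
  have hg2' : IntegrableOn (fun x : ℝ => x ^ 2 * (x + v ^ 2 / 2) *
      Real.exp (-((x ^ 2 + v ^ 2 * x) / 2))) (Ioi 0) := by
    refine ((integrableOn_pow 3 _ hc).add ((integrableOn_pow 2 _ hc).const_mul
      (v ^ 2 / 2))).congr (Eventually.of_forall fun x => ?_)
    simp only [Pi.add_apply]
    ring
  have hg2 : IntegrableOn (fun x => (g ∘ f) x * (x + v ^ 2 / 2)) (Ici 0) := by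
    rw [integrableOn_Ici_iff_integrableOn_Ioi]
    refine hg2'.congr ?_
    filter_upwards [ae_restrict_mem measurableSet_Ioi] with x hx
    have hx' : (0 : ℝ) < x := hx
    rw [Function.comp_apply, hfx x hx'.le]
    ring
  have h := integral_comp_mul_deriv_Ioi (f := f) (f' := fun x => x + v ^ 2 / 2) (g := g) (a := 0)
    hfc.continuousOn hft (fun x _ => (hfd x).hasDerivWithinAt) hgc.continuousOn hg1 hg2
  have hf0 : f 0 = 0 := by simp [hf]
  rw [hf0] at h
  rw [← h]
  refine setIntegral_congr_fun measurableSet_Ioi fun x hx => ?_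
  have hx' : (0 : ℝ) < x := hx
  rw [Function.comp_apply, hfx x hx'.le]
  ring

lemma kap_real (v : ℝ) :
    kap (v : ℂ) = ((∫ x in Ioi (0 : ℝ), x * Real.exp (-((x ^ 2 + v ^ 2 * x) / 2)) : ℝ) : ℂ) := by
  unfold kap
  rw [← integral_complex_ofReal]
  refine setIntegral_congr_fun measurableSet_Ioi fun x _ => ?_
  push_cast
  congr 2
  ring

/-- Oscillatory factors have norm one. -/
lemma norm_osc (x y : ℝ) : ‖Complex.exp (Complex.I * (x : ℂ) * (y : ℂ))‖ = 1 := by
  rw [show Complex.I * (x : ℂ) * (y : ℂ) = ((x * y : ℝ) : ℂ) * Complex.I by push_cast; ring]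
  exact Complex.norm_exp_ofReal_mul_I _

lemma integrable_osc {f : ℝ × ℝ → ℝ} (hf : Integrable f) (D : ℝ) :
    Integrable fun p : ℝ × ℝ => (f p : ℂ) * Complex.exp (Complex.I * (p.2 : ℂ) * (D : ℂ)) := by
  refine Integrable.mono' hf.norm ?_ (Eventually.of_forall fun p => ?_)
  · apply AEStronglyMeasurable.mul
    · exact Complex.continuous_ofReal.comp_aestronglyMeasurable hf.aestronglyMeasurable
    · have : Continuous fun p : ℝ × ℝ => Complex.exp (Complex.I * (p.2 : ℂ) * (D : ℂ)) := by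
        fun_prop
      exact this.aestronglyMeasurable
  · rw [norm_mul, norm_osc, mul_one, Complex.norm_real]

/-- The limit integral. -/
lemma limit_int (D : ℝ) :
    ∫ p : ℝ × ℝ, (psi0 p : ℂ) * Complex.exp (Complex.I * (p.2 : ℂ) * (D : ℂ)) =
      ((4 * π * k0 D : ℝ) : ℂ) := by
  have h1 := integral_prod_symm (μ := (volume : Measure ℝ)) (ν := (volume : Measure ℝ))
    (fun p : ℝ × ℝ => (psi0 p : ℂ) * Complex.exp (Complex.I * (p.2 : ℂ) * (D : ℂ)))
    (integrable_osc integrable_psi0 D)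
  have h2 : ∫ p : ℝ × ℝ, (psi0 p : ℂ) * Complex.exp (Complex.I * (p.2 : ℂ) * (D : ℂ)) =
      ∫ z, (psi0 z : ℂ) * Complex.exp (Complex.I * (z.2 : ℂ) * (D : ℂ))
        ∂((volume : Measure ℝ).prod volume) := rfl
  rw [h2, h1]
  have h3 : ∀ y : ℝ, ∫ x : ℝ, (psi0 (x, y) : ℂ) * Complex.exp (Complex.I * (y : ℂ) * (D : ℂ)) =
      2 * (kap y * Complex.exp (Complex.I * y * D)) := by
    intro y
    rw [integral_mul_const, integral_complex_ofReal, inner_int, kap_real]
    push_cast
    ring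
  simp only [h3]
  rw [integral_const_mul]
  have h4 := k0_inverse D
  push_cast
  rw [h4]
  have hpi : (π : ℂ) ≠ 0 := by exact_mod_cast Real.pi_ne_zero
  generalize (∫ T : ℝ, kap T * Complex.exp (Complex.I * T * D)) = J
  field_simp
  ring

/-- Comparison of the rescaled moment with the limit kernel. -/
lemma moment_close (k n N : ℕ) (hN : N = n + k + 1) :
    |(N * qr N * N : ℝ) * (Bc k n).re - 4 * π * k0 (((n : ℝ) - k) / qr N)| ≤
      ∫ p, |psiN N p - psi0 p| := by
  have h1 := Bc_scale k n N hN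
  have h2 := limit_int (((n : ℝ) - k) / qr N)
  have h3 : ((N * qr N * N : ℝ) : ℂ) * Bc k n - ((4 * π * k0 (((n : ℝ) - k) / qr N) : ℝ) : ℂ) =
      ∫ p : ℝ × ℝ, ((psiN N p - psi0 p : ℝ) : ℂ) *
        Complex.exp (Complex.I * (p.2 : ℂ) * ((((n : ℝ) - k) / qr N : ℝ) : ℂ)) := by
    rw [h1, ← h2, ← integral_sub (integrable_osc (integrable_psiN N) _)
      (integrable_osc integrable_psi0 _)]
    refine integral_congr_ae (Eventually.of_forall fun p => ?_)
    simp only
    push_cast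
    ring
  have h4 : (N * qr N * N : ℝ) * (Bc k n).re - 4 * π * k0 (((n : ℝ) - k) / qr N) =
      (((N * qr N * N : ℝ) : ℂ) * Bc k n -
        ((4 * π * k0 (((n : ℝ) - k) / qr N) : ℝ) : ℂ)).re := by
    rw [Complex.sub_re, Complex.ofReal_re, Complex.re_ofReal_mul]
  rw [h4]
  refine (Complex.abs_re_le_norm _).trans ?_
  rw [h3]
  refine (norm_integral_le_integral_norm _).trans (le_of_eq ?_)
  refine integral_congr_ae (Eventually.of_forall fun p => ?_)
  simp only
  rw [norm_mul, norm_osc, mul_one, Complex.norm_real, Real.norm_eq_abs]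

end Asy

open Asy in
/-- Uniform asymptotics of the matrix `Kr` near the diagonal. -/
theorem Kr_asymp (L ε : ℝ) (hε : 0 < ε) : ∃ k₁ : ℕ, ∀ k ≥ k₁, ∀ n : ℕ,
    |(n : ℝ) - k| ≤ L * (k : ℝ) ^ (1 / 4 : ℝ) →
    |(2 * k : ℝ) ^ (1 / 4 : ℝ) * Kr k n - k0 (((n : ℝ) - k) / (2 * k : ℝ) ^ (1 / 4 : ℝ))| ≤ ε := by
  set S : Set (ℕ × ℕ) := {p | |(p.2 : ℝ) - p.1| ≤ L * (p.1 : ℝ) ^ (1 / 4 : ℝ)} with hS
  set l : Filter (ℕ × ℕ) := comap Prod.fst atTop ⊓ 𝓟 S with hl
  have hfst : Tendsto (Prod.fst : ℕ × ℕ → ℕ) l atTop := tendsto_comap.mono_left inf_le_left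
  have hk : Tendsto (fun p : ℕ × ℕ => (p.1 : ℝ)) l atTop :=
    tendsto_natCast_atTop_atTop.comp hfst
  have hSl : ∀ᶠ p in l, p ∈ S := by
    have : l ≤ 𝓟 S := inf_le_right
    exact this (mem_principal_self S)
  have hk0 : ∀ᶠ p : ℕ × ℕ in l, 0 < p.1 := hfst.eventually_gt_atTop 0
  -- the relative difference tends to zero
  have hm : Tendsto (fun p : ℕ × ℕ => ((p.2 : ℝ) - p.1) / p.1) l (𝓝 0) := by
    have h1 : Tendsto (fun p : ℕ × ℕ => L * (p.1 : ℝ) ^ (-(3 / 4) : ℝ)) l (𝓝 0) := by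
      have := (tendsto_rpow_neg_atTop (y := 3 / 4) (by norm_num)).comp hk
      simpa using this.const_mul L
    apply squeeze_zero_norm' _ h1
    filter_upwards [hSl, hk0] with p hp hp0
    have hp0' : (0 : ℝ) < p.1 := by exact_mod_cast hp0
    have hp' : |(p.2 : ℝ) - p.1| ≤ L * (p.1 : ℝ) ^ (1 / 4 : ℝ) := hp
    rw [Real.norm_eq_abs, abs_div, abs_of_pos hp0', div_le_iff₀ hp0']
    calc |(p.2 : ℝ) - p.1| ≤ L * (p.1 : ℝ) ^ (1 / 4 : ℝ) := hp'
      _ = L * ((p.1 : ℝ) ^ (-(3 / 4) : ℝ) * (p.1 : ℝ) ^ (1 : ℝ)) := by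
          rw [← Real.rpow_add hp0']
          norm_num
      _ = _ := by rw [Real.rpow_one]; ring
  have hinv : Tendsto (fun p : ℕ × ℕ => 1 / (p.1 : ℝ)) l (𝓝 0) := by
    have := tendsto_inv_atTop_zero.comp hk
    refine this.congr fun p => ?_
    simp
  set Nn : ℕ × ℕ → ℕ := fun p => p.2 + p.1 + 1 with hNn
  have hNk : Tendsto (fun p : ℕ × ℕ => (Nn p : ℝ) / p.1) l (𝓝 2) := by
    have h1 : Tendsto (fun p : ℕ × ℕ => 2 + ((p.2 : ℝ) - p.1) / p.1 + 1 / (p.1 : ℝ)) l
        (𝓝 (2 + 0 + 0)) := (tendsto_const_nhds.add hm).add hinv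
    simp only [add_zero] at h1
    refine h1.congr' ?_
    filter_upwards [hk0] with p hp0
    have hp0' : (0 : ℝ) < p.1 := by exact_mod_cast hp0
    rw [hNn]
    push_cast
    field_simp
    ring
  have hNtop : Tendsto Nn l atTop :=
    tendsto_atTop_mono (fun p => by simp only [hNn]; omega) hfst
  have hE : Tendsto (fun p => ∫ x, |psiN (Nn p) x - psi0 x|) l (𝓝 0) := tendsto_L1.comp hNtop
  set t : ℕ × ℕ → ℝ := fun p => (2 * p.1 : ℝ) ^ (1 / 4 : ℝ) / qr (Nn p) with ht
  have htt : Tendsto t l (𝓝 1) := by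
    have h1 : Tendsto (fun p : ℕ × ℕ => (2 / ((Nn p : ℝ) / p.1)) ^ (1 / 4 : ℝ)) l
        (𝓝 ((2 / 2 : ℝ) ^ (1 / 4 : ℝ))) := by
      have h2 : Tendsto (fun p : ℕ × ℕ => (2 / ((Nn p : ℝ) / p.1))) l (𝓝 (2 / 2 : ℝ)) :=
        tendsto_const_nhds.div hNk (by norm_num)
      exact h2.rpow_const (Or.inr (by norm_num))
    rw [show ((2 / 2 : ℝ) ^ (1 / 4 : ℝ)) = 1 by norm_num] at h1
    refine h1.congr' ?_
    filter_upwards [hk0] with p hp0
    have hp0' : (0 : ℝ) < p.1 := by exact_mod_cast hp0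
    have hNp : (0 : ℝ) < Nn p := by rw [hNn]; positivity
    rw [ht]
    simp only
    unfold qr
    rw [← Real.div_rpow (by positivity) (by positivity)]
    congr 1
    field_simp
  set c : ℕ × ℕ → ℝ := fun p => t p * (4 * (((p.1 : ℝ) + 1) * (p.1 + 2) / (Nn p : ℝ) ^ 2)) with hc
  have hct : Tendsto c l (𝓝 1) := by
    have h1 : Tendsto (fun p : ℕ × ℕ => 4 * ((1 + 1 / (p.1 : ℝ)) * (1 + 2 * (1 / (p.1 : ℝ))) /
        ((Nn p : ℝ) / p.1) ^ 2)) l (𝓝 (4 * ((1 + 0) * (1 + 2 * 0) / 2 ^ 2))) := by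
      apply Tendsto.const_mul
      apply Tendsto.div
      · exact (tendsto_const_nhds.add hinv).mul (tendsto_const_nhds.add (hinv.const_mul 2))
      · exact hNk.pow 2
      · norm_num
    have h2 : Tendsto (fun p : ℕ × ℕ =>
        4 * (((p.1 : ℝ) + 1) * (p.1 + 2) / (Nn p : ℝ) ^ 2)) l
        (𝓝 (4 * ((1 + 0) * (1 + 2 * 0) / 2 ^ 2))) := by
      refine h1.congr' ?_
      filter_upwards [hk0] with p hp0
      have hp0' : (0 : ℝ) < p.1 := by exact_mod_cast hp0
      have hNp : (0 : ℝ) < Nn p := by rw [hNn]; positivity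
      field_simp
    have h3 := htt.mul h2
    rw [show (1 : ℝ) * (4 * ((1 + 0) * (1 + 2 * 0) / 2 ^ 2)) = 1 by norm_num] at h3
    exact h3
  have hbd : Tendsto (fun p : ℕ × ℕ => |c p| * ((∫ x, |psiN (Nn p) x - psi0 x|) / (4 * π)) +
      |c p - 1| * (|k0 0| + |L| * |t p|) + |L| * |t p - 1|) l (𝓝 0) := by
    have h1 := (hct.abs).mul (hE.div_const (4 * π))
    have h2 := ((hct.sub_const 1).abs).mul ((htt.abs.const_mul |L|).const_add |k0 0|)
    have h3 := ((htt.sub_const 1).abs).const_mul |L|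
    have h4 := (h1.add h2).add h3
    simpa using h4
  have hev : ∀ᶠ p in l, |c p| * ((∫ x, |psiN (Nn p) x - psi0 x|) / (4 * π)) +
      |c p - 1| * (|k0 0| + |L| * |t p|) + |L| * |t p - 1| ≤ ε := by
    filter_upwards [hbd.eventually_lt_const hε] with p hp using hp.le
  have hev2 : ∀ᶠ p : ℕ × ℕ in l, |(2 * p.1 : ℝ) ^ (1 / 4 : ℝ) * Kr p.1 p.2 -
      k0 (((p.2 : ℝ) - p.1) / (2 * p.1 : ℝ) ^ (1 / 4 : ℝ))| ≤ ε := by
    filter_upwards [hev, hSl, hk0] with p hp hpS hp0
    refine le_trans ?_ hp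
    have hp0' : (0 : ℝ) < p.1 := by exact_mod_cast hp0
    have hNp0 : 0 < Nn p := by simp only [hNn]; omega
    have hNp : (0 : ℝ) < Nn p := by exact_mod_cast hNp0
    have hqN := qr_pos hNp0
    have hpi := Real.pi_pos
    have h2k : (0 : ℝ) < (2 * p.1 : ℝ) ^ (1 / 4 : ℝ) := by positivity
    set D : ℝ := ((p.2 : ℝ) - p.1) / qr (Nn p) with hD
    set D' : ℝ := ((p.2 : ℝ) - p.1) / (2 * p.1 : ℝ) ^ (1 / 4 : ℝ) with hD'
    set A : ℝ := (Nn p * qr (Nn p) * Nn p : ℝ) * (Bc p.1 p.2).re with hA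
    have hDD' : D = D' * t p := by
      rw [hD, hD', ht]
      simp only
      field_simp
    have hD'L : |D'| ≤ |L| := by
      rw [hD', abs_div, abs_of_pos h2k, div_le_iff₀ h2k]
      have h1 : |(p.2 : ℝ) - p.1| ≤ L * (p.1 : ℝ) ^ (1 / 4 : ℝ) := hpS
      refine h1.trans ?_
      apply mul_le_mul (le_abs_self L) _ (by positivity) (abs_nonneg L)
      exact Real.rpow_le_rpow hp0'.le (by linarith) (by norm_num)
    have hclose : |A - 4 * π * k0 D| ≤ ∫ x, |psiN (Nn p) x - psi0 x| :=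
      moment_close p.1 p.2 (Nn p) rfl
    have hclose2 : |A / (4 * π) - k0 D| ≤ (∫ x, |psiN (Nn p) x - psi0 x|) / (4 * π) := by
      rw [le_div_iff₀ (by positivity)]
      have h1 : |A / (4 * π) - k0 D| * (4 * π) = |A - 4 * π * k0 D| := by
        rw [← abs_of_pos (show (0 : ℝ) < 4 * π by positivity), ← abs_mul]
        rw [abs_of_pos (show (0 : ℝ) < 4 * π by positivity)]
        congr 1
        field_simp
      rw [h1]
      exact hclose
    have hKr : (2 * p.1 : ℝ) ^ (1 / 4 : ℝ) * Kr p.1 p.2 = c p * (A / (4 * π)) := by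
      unfold Kr
      rw [hc, ht, hA]
      simp only
      field_simp
    have hk0D : |k0 D| ≤ |k0 0| + |L| * |t p| := by
      have h1 := k0_lipschitz D 0
      have h2 : |k0 D| ≤ |k0 D - k0 0| + |k0 0| := by
        have := abs_add_le (k0 D - k0 0) (k0 0)
        simpa using this
      have h3 : |D| ≤ |L| * |t p| := by
        rw [hDD', abs_mul]
        exact mul_le_mul_of_nonneg_right hD'L (abs_nonneg _)
      rw [sub_zero] at h1
      linarith
    have hlip : |k0 D - k0 D'| ≤ |L| * |t p - 1| := by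
      refine (k0_lipschitz D D').trans ?_
      have : D - D' = D' * (t p - 1) := by rw [hDD']; ring
      rw [this, abs_mul]
      exact mul_le_mul_of_nonneg_right hD'L (abs_nonneg _)
    rw [hKr]
    have hsplit : c p * (A / (4 * π)) - k0 D' =
        c p * (A / (4 * π) - k0 D) + (c p - 1) * k0 D + (k0 D - k0 D') := by ring
    rw [hsplit]
    calc |c p * (A / (4 * π) - k0 D) + (c p - 1) * k0 D + (k0 D - k0 D')|
        ≤ |c p * (A / (4 * π) - k0 D) + (c p - 1) * k0 D| + |k0 D - k0 D'| := abs_add_le _ _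
      _ ≤ |c p * (A / (4 * π) - k0 D)| + |(c p - 1) * k0 D| + |k0 D - k0 D'| := by
          gcongr
          exact abs_add_le _ _
      _ = |c p| * |A / (4 * π) - k0 D| + |c p - 1| * |k0 D| + |k0 D - k0 D'| := by
          rw [abs_mul (c p), abs_mul (c p - 1)]
      _ ≤ _ := by
          gcongr
  rw [hl, eventually_inf_principal, eventually_comap] at hev2
  obtain ⟨k₁, hk₁⟩ := eventually_atTop.mp hev2
  exact ⟨k₁, fun k hk n hn => hk₁ k hk (k, n) rfl hn⟩

end Pool.Agent.Work.MP_e29078_an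

end
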