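import Mathlib
import Pool.Agent.Work.MP_e29078_an.Bd.B01
import Pool.Agent.Work.MP_e29078_an.Model
import Pool.Agent.Work.MP_e29078_an.DefsA

/-! Bundle of small proof modules (one section per former module). -/

section

/-! Smallness of the perturbation kernel `del` in the weighted norm: the conditional form, with the
row sum bound and the asymptotics of `Kr` as hypotheses. -/

open MeasureTheory Set Filter Topology
open scoped Real ComplexConjugate

namespace Pool.Agent.Work.MP_e29078_an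

theorem two_rpow_quarter_pos : (0 : ℝ) < (2 : ℝ) ^ (1 / 4 : ℝ) := by positivity

theorem two_rpow_quarter_pow : ((2 : ℝ) ^ (1 / 4 : ℝ)) ^ 4 = 2 := by
  rw [← Real.rpow_natCast, ← Real.rpow_mul (by norm_num)]; norm_num

theorem two_rpow_quarter_ge : (1 : ℝ) ≤ (2 : ℝ) ^ (1 / 4 : ℝ) :=
  Real.one_le_rpow (by norm_num) (by norm_num)

theorem cY_eq : cY = 4 / 3 / (2 : ℝ) ^ (1 / 4 : ℝ) := by
  unfold cY
  rw [Real.rpow_neg (by norm_num)]
  ring

theorem cY_pos : 0 < cY := by unfold cY; positivity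

theorem cY_le : cY ≤ 2 := by
  rw [cY_eq, div_le_iff₀ two_rpow_quarter_pos]
  have := two_rpow_quarter_ge
  linarith

theorem one_le_cY : 1 ≤ cY := by
  rw [cY_eq, le_div_iff₀ two_rpow_quarter_pos, one_mul]
  by_contra h
  push Not at h
  have h1 : (4 / 3 : ℝ) ^ 4 < ((2 : ℝ) ^ (1 / 4 : ℝ)) ^ 4 :=
    pow_lt_pow_left₀ h (by norm_num) (by norm_num)
  rw [two_rpow_quarter_pow] at h1
  norm_num at h1

/-- The fourth root of `Xf N y`. -/
noncomputable def vf (N : ℕ) (y : ℝ) : ℝ := (y / cY + (N : ℝ) ^ (3 / 4 : ℝ)) ^ (1 / 3 : ℝ)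

theorem base_nonneg (N : ℕ) {y : ℝ} (hy : 0 ≤ y) : 0 ≤ y / cY + (N : ℝ) ^ (3 / 4 : ℝ) := by
  have := cY_pos
  positivity

theorem vf_nonneg (N : ℕ) {y : ℝ} (hy : 0 ≤ y) : 0 ≤ vf N y :=
  Real.rpow_nonneg (base_nonneg N hy) _

theorem vf_pow_three (N : ℕ) {y : ℝ} (hy : 0 ≤ y) :
    vf N y ^ 3 = y / cY + (N : ℝ) ^ (3 / 4 : ℝ) := by
  unfold vf
  rw [← Real.rpow_natCast, ← Real.rpow_mul (base_nonneg N hy)]
  norm_num

theorem vf_pow_four (N : ℕ) {y : ℝ} (hy : 0 ≤ y) : vf N y ^ 4 = Xf N y := by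
  unfold vf Xf
  rw [← Real.rpow_natCast, ← Real.rpow_mul (base_nonneg N hy)]
  norm_num

theorem vf_ge (N : ℕ) {y : ℝ} (hy : 0 ≤ y) : (N : ℝ) ^ (1 / 4 : ℝ) ≤ vf N y := by
  unfold vf
  have h1 : (N : ℝ) ^ (1 / 4 : ℝ) = ((N : ℝ) ^ (3 / 4 : ℝ)) ^ (1 / 3 : ℝ) := by
    rw [← Real.rpow_mul (Nat.cast_nonneg _)]; norm_num
  rw [h1]
  have := cY_pos
  apply Real.rpow_le_rpow (by positivity) _ (by norm_num)
  have : 0 ≤ y / cY := by positivity
  linarith

theorem Xf_nonneg (N : ℕ) {y : ℝ} (hy : 0 ≤ y) : 0 ≤ Xf N y := by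
  rw [← vf_pow_four N hy]; exact pow_nonneg (vf_nonneg N hy) _

theorem Xf_rpow (N : ℕ) {y : ℝ} (hy : 0 ≤ y) :
    (2 * Xf N y) ^ (1 / 4 : ℝ) = (2 : ℝ) ^ (1 / 4 : ℝ) * vf N y := by
  rw [Real.mul_rpow (by norm_num) (Xf_nonneg N hy), ← vf_pow_four N hy, ← Real.rpow_natCast,
    ← Real.rpow_mul (vf_nonneg N hy)]
  norm_num

theorem Xf_ge (N : ℕ) {y : ℝ} (hy : 0 ≤ y) : (N : ℝ) ≤ Xf N y := by
  rw [← vf_pow_four N hy]
  have h1 : (N : ℝ) = ((N : ℝ) ^ (1 / 4 : ℝ)) ^ 4 := by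
    rw [← Real.rpow_natCast, ← Real.rpow_mul (Nat.cast_nonneg _)]; norm_num
  rw [h1]
  exact pow_le_pow_left₀ (by positivity) (vf_ge N hy) _

theorem floor_Xf_ge (N : ℕ) {y : ℝ} (hy : 0 ≤ y) : N ≤ ⌊Xf N y⌋₊ :=
  Nat.le_floor (Xf_ge N hy)

theorem Xf_hasDeriv {N : ℕ} (hN : 0 < N) {y : ℝ} (hy : 0 ≤ y) :
    HasDerivAt (Xf N) ((2 * Xf N y) ^ (1 / 4 : ℝ)) y := by
  have hc := cY_pos
  have hb : 0 < y / cY + (N : ℝ) ^ (3 / 4 : ℝ) := by
    have : (0 : ℝ) < N := Nat.cast_pos.2 hN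
    positivity
  have h1 : HasDerivAt (fun y : ℝ => y / cY + (N : ℝ) ^ (3 / 4 : ℝ)) (1 / cY) y :=
    ((hasDerivAt_id y).div_const cY).add_const _
  have h2 := h1.rpow_const (p := (4 / 3 : ℝ)) (Or.inl hb.ne')
  have h3 : (2 * Xf N y) ^ (1 / 4 : ℝ) =
      1 / cY * (4 / 3) * (y / cY + (N : ℝ) ^ (3 / 4 : ℝ)) ^ ((4 / 3 : ℝ) - 1) := by
    rw [Xf_rpow N hy, vf, show (4 / 3 : ℝ) - 1 = 1 / 3 by norm_num, cY_eq]
    have := two_rpow_quarter_pos
    field_simp
  rw [h3]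
  exact h2

theorem Xf_strictMono {N : ℕ} : StrictMonoOn (Xf N) (Ici 0) := by
  intro a ha b hb hab
  have hc := cY_pos
  unfold Xf
  apply Real.rpow_lt_rpow (base_nonneg N ha) _ (by norm_num)
  have : a / cY < b / cY := by gcongr
  linarith

/-- the difference of the scale variables -/
theorem y_sub (N : ℕ) {y y' : ℝ} (hy : 0 ≤ y) (hy' : 0 ≤ y') :
    y - y' = cY * (vf N y ^ 3 - vf N y' ^ 3) := by
  rw [vf_pow_three N hy, vf_pow_three N hy']
  have := cY_pos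
  field_simp
  ring

theorem abs_y_sub_mul (N : ℕ) {y y' : ℝ} (hy : 0 ≤ y) (hy' : 0 ≤ y') :
    |y - y'| * vf N y ≤ cY * |Xf N y - Xf N y'| := by
  rw [y_sub N hy hy', ← vf_pow_four N hy, ← vf_pow_four N hy', abs_mul, abs_of_pos cY_pos,
    mul_assoc]
  refine mul_le_mul_of_nonneg_left ?_ cY_pos.le
  set v := vf N y
  set w := vf N y'
  have hv : 0 ≤ v := vf_nonneg N hy
  have hw : 0 ≤ w := vf_nonneg N hy'
  rcases le_total v w with h | h
  · have h3 : v ^ 3 ≤ w ^ 3 := pow_le_pow_left₀ hv h _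
    have h4 : v ^ 4 ≤ w ^ 4 := pow_le_pow_left₀ hv h _
    rw [abs_of_nonpos (by linarith), abs_of_nonpos (by linarith)]
    nlinarith [mul_nonneg (sub_nonneg.2 h3) (sub_nonneg.2 h), mul_nonneg (pow_nonneg hw 3) (sub_nonneg.2 h)]
  · have h3 : w ^ 3 ≤ v ^ 3 := pow_le_pow_left₀ hw h _
    have h4 : w ^ 4 ≤ v ^ 4 := pow_le_pow_left₀ hw h _
    rw [abs_of_nonneg (by linarith), abs_of_nonneg (by linarith)]
    nlinarith [mul_nonneg (pow_nonneg hw 3) (sub_nonneg.2 h)]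

theorem floor_diff {x x' : ℝ} (hx : 0 ≤ x) (hx' : 0 ≤ x') :
    |((⌊x'⌋₊ : ℝ) - ⌊x⌋₊) - (x' - x)| ≤ 1 := by
  have h1 := Nat.floor_le hx
  have h2 := Nat.floor_le hx'
  have h3 := Nat.lt_floor_add_one x
  have h4 := Nat.lt_floor_add_one x'
  rw [abs_le]
  constructor <;> linarith

/-! ### The far part -/

/-- fourth root of the floor -/
theorem kappa_bounds {v : ℝ} (hv : 1 ≤ v) {k : ℕ} (hk : k = ⌊v ^ 4⌋₊) :
    1 ≤ (k : ℝ) ^ (1 / 4 : ℝ) ∧ (k : ℝ) ^ (1 / 4 : ℝ) ≤ v ∧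
      (v - (k : ℝ) ^ (1 / 4 : ℝ)) * v ^ 3 ≤ 1 ∧ v ≤ 2 * (k : ℝ) ^ (1 / 4 : ℝ) := by
  have hv0 : 0 ≤ v := by linarith
  have hv4 : 1 ≤ v ^ 4 := one_le_pow₀ hv
  have h1k : (1 : ℕ) ≤ k := by rw [hk]; exact Nat.le_floor (by simpa using hv4)
  have h1k' : (1 : ℝ) ≤ k := by exact_mod_cast h1k
  have hkle : (k : ℝ) ≤ v ^ 4 := by rw [hk]; exact Nat.floor_le (by positivity)
  have hklt : v ^ 4 < k + 1 := by rw [hk]; exact Nat.lt_floor_add_one _
  set κ : ℝ := (k : ℝ) ^ (1 / 4 : ℝ) with hκ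
  have hκ4 : κ ^ 4 = k := by
    rw [hκ, ← Real.rpow_natCast, ← Real.rpow_mul (Nat.cast_nonneg _)]; norm_num
  have hκ1 : 1 ≤ κ := Real.one_le_rpow h1k' (by norm_num)
  have hκ0 : 0 ≤ κ := by linarith
  have hκv : κ ≤ v := by
    have : κ ^ 4 ≤ v ^ 4 := by rw [hκ4]; exact hkle
    exact le_of_pow_le_pow_left₀ (by norm_num) hv0 this
  have hdiff : v ^ 4 - κ ^ 4 ≤ 1 := by rw [hκ4]; linarith
  have h3 : (v - κ) * v ^ 3 ≤ 1 := by
    have h := pow_le_pow_left₀ hκ0 hκv 3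
    nlinarith [mul_nonneg hκ0 (sub_nonneg.2 h)]
  refine ⟨hκ1, hκv, h3, ?_⟩
  have h4 : (1 : ℝ) ≤ v ^ 3 := one_le_pow₀ hv
  have h5 : v - κ ≤ 1 := by
    nlinarith [mul_nonneg (sub_nonneg.2 hκv) (sub_nonneg.2 h4)]
  linarith

theorem one_le_vf {N : ℕ} (hN : 0 < N) {y : ℝ} (hy : 0 ≤ y) : 1 ≤ vf N y :=
  le_trans (Real.one_le_rpow (by exact_mod_cast hN) (by norm_num)) (vf_ge N hy)

theorem abs_y_sub_le {N : ℕ} (hN : 0 < N) {y y' : ℝ} (hy : 0 ≤ y) (hy' : 0 ≤ y') :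
    |y - y'| ≤ cY * (|(⌊Xf N y'⌋₊ : ℝ) - ⌊Xf N y⌋₊| / (⌊Xf N y⌋₊ : ℝ) ^ (1 / 4 : ℝ) + 1) := by
  have hv1 := one_le_vf hN hy
  have h1 := abs_y_sub_mul N hy hy'
  obtain ⟨hκ1, hκv, -, -⟩ := kappa_bounds hv1 (k := ⌊Xf N y⌋₊) (by rw [vf_pow_four N hy])
  set κ : ℝ := (⌊Xf N y⌋₊ : ℝ) ^ (1 / 4 : ℝ) with hκ
  have h2 := floor_diff (Xf_nonneg N hy) (Xf_nonneg N hy')
  have h3 : |Xf N y - Xf N y'| ≤ |(⌊Xf N y'⌋₊ : ℝ) - ⌊Xf N y⌋₊| + 1 := by
    rw [abs_sub_comm]
    have : Xf N y' - Xf N y = ((⌊Xf N y'⌋₊ : ℝ) - ⌊Xf N y⌋₊) -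
      (((⌊Xf N y'⌋₊ : ℝ) - ⌊Xf N y⌋₊) - (Xf N y' - Xf N y)) := by ring
    rw [this]
    refine (abs_sub _ _).trans ?_
    linarith
  have hc := cY_pos
  have hκ0 : 0 < κ := by linarith
  have h4 : |y - y'| * κ ≤ cY * (|(⌊Xf N y'⌋₊ : ℝ) - ⌊Xf N y⌋₊| + κ) := by
    calc |y - y'| * κ ≤ |y - y'| * vf N y := by gcongr
      _ ≤ cY * |Xf N y - Xf N y'| := h1
      _ ≤ cY * (|(⌊Xf N y'⌋₊ : ℝ) - ⌊Xf N y⌋₊| + κ) := by gcongr; linarith
  rw [← mul_le_mul_iff_left₀ hκ0]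
  refine h4.trans (le_of_eq ?_)
  field_simp

theorem lintegral_floor (g : ℕ → ENNReal) :
    ∫⁻ x in Ici (0 : ℝ), g ⌊x⌋₊ = ∑' n, g n := by
  have hU : Ici (0 : ℝ) = ⋃ n : ℕ, Ico (n : ℝ) (n + 1) := by
    ext x
    simp only [mem_Ici, mem_iUnion, mem_Ico]
    constructor
    · intro hx
      exact ⟨⌊x⌋₊, Nat.floor_le hx, Nat.lt_floor_add_one x⟩
    · rintro ⟨n, hn, -⟩
      exact le_trans (Nat.cast_nonneg n) hn
  rw [hU, lintegral_iUnion (fun n => measurableSet_Ico)]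
  · congr 1
    ext n
    have h1 : ∀ x ∈ Ico (n : ℝ) (n + 1), g ⌊x⌋₊ = g n := by
      intro x hx
      rw [(Nat.floor_eq_iff (le_trans (Nat.cast_nonneg n) hx.1)).2 ⟨hx.1, hx.2⟩]
    rw [setLIntegral_congr_fun measurableSet_Ico h1]
    simp
  · intro a b hab
    rw [Function.onFun, Set.disjoint_left]
    intro x hx hx'
    apply hab
    have h1 := (Nat.floor_eq_iff (le_trans (Nat.cast_nonneg a) hx.1)).2 ⟨hx.1, hx.2⟩
    have h2 := (Nat.floor_eq_iff (le_trans (Nat.cast_nonneg b) hx'.1)).2 ⟨hx'.1, hx'.2⟩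
    omega

theorem far_lintegral (hKr : ∀ k n, 0 ≤ Kr k n) {N : ℕ} (hN : 0 < N) {b y : ℝ} (hb : 0 ≤ b)
    (hy : 0 ≤ y) {k : ℕ} (hk : k = ⌊Xf N y⌋₊) :
    ∫⁻ y' in Ici (0 : ℝ), ENNReal.ofReal (Kr k ⌊Xf N y'⌋₊ * (2 * Xf N y') ^ (1 / 4 : ℝ) *
        Real.exp (b * |y - y'|)) ≤
      ∑' n : ℕ, ENNReal.ofReal (Real.exp (b * cY) *
        (Kr k n * Real.exp (b * cY * |(n : ℝ) - k| / (k : ℝ) ^ (1 / 4 : ℝ)))) := by
  set g : ℕ → ENNReal := fun n => ENNReal.ofReal (Real.exp (b * cY) *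
        (Kr k n * Real.exp (b * cY * |(n : ℝ) - k| / (k : ℝ) ^ (1 / 4 : ℝ)))) with hg
  have himg := lintegral_image_eq_lintegral_abs_deriv_mul (s := Ici (0 : ℝ)) (f := Xf N)
    (f' := fun y => (2 * Xf N y) ^ (1 / 4 : ℝ)) measurableSet_Ici
    (fun x hx => (Xf_hasDeriv hN hx).hasDerivWithinAt) Xf_strictMono.injOn (fun x => g ⌊x⌋₊)
  calc ∫⁻ y' in Ici (0 : ℝ), ENNReal.ofReal (Kr k ⌊Xf N y'⌋₊ * (2 * Xf N y') ^ (1 / 4 : ℝ) *
        Real.exp (b * |y - y'|))
      ≤ ∫⁻ y' in Ici (0 : ℝ), ENNReal.ofReal |(2 * Xf N y') ^ (1 / 4 : ℝ)| * g ⌊Xf N y'⌋₊ := by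
        refine setLIntegral_mono' measurableSet_Ici fun y' hy' => ?_
        rw [hg, ← ENNReal.ofReal_mul (abs_nonneg _)]
        apply ENNReal.ofReal_le_ofReal
        have hp : 0 ≤ (2 * Xf N y') ^ (1 / 4 : ℝ) :=
          Real.rpow_nonneg (mul_nonneg (by norm_num) (Xf_nonneg N hy')) _
        rw [abs_of_nonneg hp]
        have h1 := abs_y_sub_le hN hy hy'
        rw [← hk] at h1
        have h2 : Real.exp (b * |y - y'|) ≤ Real.exp (b * cY) *
            Real.exp (b * cY * |(⌊Xf N y'⌋₊ : ℝ) - k| / (k : ℝ) ^ (1 / 4 : ℝ)) := by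
          rw [← Real.exp_add]
          apply Real.exp_le_exp.2
          calc b * |y - y'| ≤ b * (cY * (|(⌊Xf N y'⌋₊ : ℝ) - k| / (k : ℝ) ^ (1 / 4 : ℝ) + 1)) := by
                gcongr
            _ = b * cY + b * cY * |(⌊Xf N y'⌋₊ : ℝ) - k| / (k : ℝ) ^ (1 / 4 : ℝ) := by ring
        calc Kr k ⌊Xf N y'⌋₊ * (2 * Xf N y') ^ (1 / 4 : ℝ) * Real.exp (b * |y - y'|)
            ≤ Kr k ⌊Xf N y'⌋₊ * (2 * Xf N y') ^ (1 / 4 : ℝ) * (Real.exp (b * cY) *
            Real.exp (b * cY * |(⌊Xf N y'⌋₊ : ℝ) - k| / (k : ℝ) ^ (1 / 4 : ℝ))) :=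
              mul_le_mul_of_nonneg_left h2 (mul_nonneg (hKr _ _) hp)
          _ = _ := by ring
    _ = ∫⁻ x in Xf N '' Ici (0 : ℝ), g ⌊x⌋₊ := himg.symm
    _ ≤ ∫⁻ x in Ici (0 : ℝ), g ⌊x⌋₊ := by
        apply lintegral_mono_set
        rintro _ ⟨y', hy', rfl⟩
        exact Xf_nonneg N hy'
    _ = ∑' n, g n := lintegral_floor g

/-! ### The near part -/

theorem near_alg {v w L : ℝ} (hv : 1 ≤ v) (hw : 0 ≤ w) (hL : 0 ≤ L) (hLv : L ≤ v)
    (h : |w ^ 3 - v ^ 3| ≤ L) :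
    |w - v| * v ^ 2 ≤ L ∧ |w ^ 4 - v ^ 4| ≤ 15 * L * v ∧
      |(w ^ 4 - v ^ 4) - 4 / 3 * v * (w ^ 3 - v ^ 3)| ≤ 6 * L ^ 2 := by
  have hv0 : 0 ≤ v := by linarith
  have hv2 : 1 ≤ v ^ 2 := one_le_pow₀ hv
  have h1 : |w - v| * v ^ 2 ≤ L := by
    have e : w ^ 3 - v ^ 3 = (w - v) * (w ^ 2 + w * v + v ^ 2) := by ring
    rw [e, abs_mul, abs_of_nonneg (by positivity : 0 ≤ w ^ 2 + w * v + v ^ 2)] at h
    refine le_trans ?_ h
    refine mul_le_mul_of_nonneg_left ?_ (abs_nonneg _)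
    nlinarith [mul_nonneg hw hv0, sq_nonneg w]
  have hδ0 := abs_nonneg (w - v)
  have hδ1 : |w - v| ≤ v := by
    nlinarith [mul_nonneg hδ0 (sub_nonneg.2 hv2)]
  have hδ2 : |w - v| ≤ L := by
    nlinarith [mul_nonneg hδ0 (sub_nonneg.2 hv2)]
  have hw2 : w ≤ 2 * v := by
    have := le_abs_self (w - v)
    linarith
  have hww : w ^ 2 ≤ 4 * v ^ 2 := by nlinarith
  have hwv : w * v ≤ 2 * v ^ 2 := by nlinarith
  refine ⟨h1, ?_, ?_⟩
  · have e : w ^ 4 - v ^ 4 = (w - v) * (w ^ 3 + w ^ 2 * v + w * v ^ 2 + v ^ 3) := by ring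
    have hp : 0 ≤ w ^ 3 + w ^ 2 * v + w * v ^ 2 + v ^ 3 := by positivity
    have hq : w ^ 3 + w ^ 2 * v + w * v ^ 2 + v ^ 3 ≤ 15 * v ^ 3 := by
      have a1 : w ^ 3 ≤ 8 * v ^ 3 := by
        have := pow_le_pow_left₀ hw hw2 3
        nlinarith
      have a2 : w ^ 2 * v ≤ 4 * v ^ 3 := by nlinarith
      have a3 : w * v ^ 2 ≤ 2 * v ^ 3 := by nlinarith
      linarith
    rw [e, abs_mul, abs_of_nonneg hp]
    calc |w - v| * (w ^ 3 + w ^ 2 * v + w * v ^ 2 + v ^ 3) ≤ |w - v| * (15 * v ^ 3) := by gcongr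
      _ = 15 * (|w - v| * v ^ 2) * v := by ring
      _ ≤ 15 * L * v := by gcongr
  · have e : (w ^ 4 - v ^ 4) - 4 / 3 * v * (w ^ 3 - v ^ 3) =
        (w - v) ^ 2 * (w ^ 2 + 2 / 3 * (w * v) + 1 / 3 * v ^ 2) := by ring
    have hp : 0 ≤ w ^ 2 + 2 / 3 * (w * v) + 1 / 3 * v ^ 2 := by positivity
    rw [e, abs_mul, abs_of_nonneg hp, abs_of_nonneg (sq_nonneg _), ← sq_abs (w - v)]
    calc |w - v| ^ 2 * (w ^ 2 + 2 / 3 * (w * v) + 1 / 3 * v ^ 2) ≤ |w - v| ^ 2 * (6 * v ^ 2) := by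
          gcongr; nlinarith
      _ = 6 * (|w - v| * v ^ 2) * |w - v| := by ring
      _ ≤ 6 * L * L := by gcongr
      _ = 6 * L ^ 2 := by ring

theorem k0_neg (y : ℝ) : k0 (-y) = k0 y := by
  unfold k0
  simp only [neg_sq]

theorem near_bound {N : ℕ} (hN : 0 < N) {L ε M : ℝ} (hL : 0 ≤ L) (hε : 0 ≤ ε)
    (hM : ∀ x, k0 x ≤ M)
    {y y' : ℝ} (hy : 0 ≤ y) (hy' : 0 ≤ y') (hyy : |y - y'| ≤ L) (hLv : L ≤ vf N y)
    {k n : ℕ} (hk : k = ⌊Xf N y⌋₊) (hn : n = ⌊Xf N y'⌋₊)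
    (hasy : |(n : ℝ) - k| ≤ (30 * L + 1) * (k : ℝ) ^ (1 / 4 : ℝ) →
      |(2 * k : ℝ) ^ (1 / 4 : ℝ) * Kr k n - k0 (((n : ℝ) - k) / (2 * k : ℝ) ^ (1 / 4 : ℝ))| ≤ ε) :
    |del N y y'| ≤ ε + ((M + ε) * (2 * (L + 1)) + (2 + 30 * L + 12 * L ^ 2)) / vf N y := by
  have hv1 := one_le_vf hN hy
  obtain ⟨hκ1, hκv, hκ3, hκ2⟩ := kappa_bounds hv1 (k := ⌊Xf N y⌋₊) (by rw [vf_pow_four N hy])
  rw [← hk] at hκ1 hκv hκ3 hκ2
  have hw := vf_nonneg N hy'
  have hXv := vf_pow_four N hy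
  have hXw := vf_pow_four N hy'
  have hysub := y_sub N hy hy'
  have hfd := floor_diff (Xf_nonneg N hy) (Xf_nonneg N hy')
  rw [← hk, ← hn] at hfd
  have hdel : del N y y' = Kr k n * ((2 : ℝ) ^ (1 / 4 : ℝ) * vf N y') - k0 (y - y') := by
    unfold del
    rw [if_pos ⟨hy, hy'⟩, Xf_rpow N hy', ← hk, ← hn]
  have h2k : (2 * k : ℝ) ^ (1 / 4 : ℝ) = (2 : ℝ) ^ (1 / 4 : ℝ) * (k : ℝ) ^ (1 / 4 : ℝ) :=
    Real.mul_rpow (by norm_num) (Nat.cast_nonneg _)
  rw [h2k] at hasy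
  have hcY := cY_eq
  rw [← hXv, ← hXw] at hfd
  rw [hdel]
  clear hdel hXv hXw h2k
  have ht1 := two_rpow_quarter_ge
  have hc1 := one_le_cY
  have hc0 := cY_pos
  set t : ℝ := (2 : ℝ) ^ (1 / 4 : ℝ) with ht
  set κ : ℝ := (k : ℝ) ^ (1 / 4 : ℝ) with hκ
  set v := vf N y with hv
  set w := vf N y' with hw'
  have hv0 : 0 < v := by linarith
  have hκ0 : 0 < κ := by linarith
  have ht0 : 0 < t := by linarith
  have hwv3 : |w ^ 3 - v ^ 3| ≤ L := by
    have e : |y - y'| = cY * |w ^ 3 - v ^ 3| := by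
      rw [hysub, abs_mul, abs_of_pos hc0, abs_sub_comm]
    rw [e] at hyy
    nlinarith [abs_nonneg (w ^ 3 - v ^ 3)]
  obtain ⟨g1, g2, g3⟩ := near_alg hv1 hw hL hLv hwv3
  have hv2 : 1 ≤ v ^ 2 := one_le_pow₀ hv1
  have hv3 : 1 ≤ v ^ 3 := one_le_pow₀ hv1
  -- the index difference
  have hnk : |(n : ℝ) - k| ≤ (30 * L + 1) * κ := by
    have e : (n : ℝ) - k = (((n : ℝ) - k) - (w ^ 4 - v ^ 4)) + (w ^ 4 - v ^ 4) := by ring
    rw [e]
    refine (abs_add_le _ _).trans ?_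
    have : 15 * L * v ≤ 15 * L * (2 * κ) := by gcongr
    nlinarith
  have hA := hasy hnk
  set D : ℝ := ((n : ℝ) - k) / (t * κ) with hD
  set A : ℝ := t * κ * Kr k n with hA'
  -- comparison of D with y' - y
  have hDy : |D - (y' - y)| ≤ (2 + 30 * L + 12 * L ^ 2) / v := by
    have e : D - (y' - y) = (((n : ℝ) - k) - (w ^ 4 - v ^ 4)) / (t * κ) +
        (w ^ 4 - v ^ 4) * ((v - κ) / (t * κ * v)) +
        ((w ^ 4 - v ^ 4) - 4 / 3 * v * (w ^ 3 - v ^ 3)) / (t * v) := by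
      have : y' - y = 4 / 3 / t * (w ^ 3 - v ^ 3) := by
        rw [← hcY]; linarith
      rw [this, hD]
      field_simp
      ring
    rw [e]
    have e1 : |(((n : ℝ) - k) - (w ^ 4 - v ^ 4)) / (t * κ)| ≤ 2 / v := by
      rw [abs_div, abs_of_pos (by positivity : 0 < t * κ), div_le_div_iff₀ (by positivity) hv0]
      nlinarith [mul_nonneg (sub_nonneg.2 ht1) hκ0.le]
    have e2 : |(w ^ 4 - v ^ 4) * ((v - κ) / (t * κ * v))| ≤ 30 * L / v := by
      rw [abs_mul, abs_div, abs_of_nonneg (sub_nonneg.2 hκv),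
        abs_of_pos (by positivity : 0 < t * κ * v)]
      have : (v - κ) / (t * κ * v) ≤ 2 / v ^ 2 := by
        rw [div_le_div_iff₀ (by positivity) (by positivity)]
        have q1 : (v - κ) * v ^ 2 ≤ 1 := by
          refine le_trans ?_ hκ3
          refine mul_le_mul_of_nonneg_left ?_ (sub_nonneg.2 hκv)
          exact pow_le_pow_right₀ hv1 (by norm_num)
        have q2 : 1 ≤ t * κ * v := by
          have : 1 ≤ t * κ := one_le_mul_of_one_le_of_one_le ht1 hκ1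
          exact one_le_mul_of_one_le_of_one_le this hv1
        linarith
      calc |w ^ 4 - v ^ 4| * ((v - κ) / (t * κ * v)) ≤ (15 * L * v) * (2 / v ^ 2) :=
            mul_le_mul g2 this (div_nonneg (sub_nonneg.2 hκv) (by positivity)) (by positivity)
        _ = 30 * L / v := by field_simp; ring
    have e3 : |((w ^ 4 - v ^ 4) - 4 / 3 * v * (w ^ 3 - v ^ 3)) / (t * v)| ≤ 12 * L ^ 2 / v := by
      rw [abs_div, abs_of_pos (by positivity : 0 < t * v), div_le_div_iff₀ (by positivity) hv0]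
      have q0 : 0 ≤ L ^ 2 * v := by positivity
      calc |(w ^ 4 - v ^ 4) - 4 / 3 * v * (w ^ 3 - v ^ 3)| * v ≤ 6 * L ^ 2 * v := by gcongr
        _ ≤ 12 * L ^ 2 * (t * v) := by nlinarith [mul_nonneg q0 (sub_nonneg.2 ht1)]
    refine (abs_add_le _ _).trans ?_
    have := abs_add_le ((((n : ℝ) - k) - (w ^ 4 - v ^ 4)) / (t * κ))
      ((w ^ 4 - v ^ 4) * ((v - κ) / (t * κ * v)))
    have e4 : (2 + 30 * L + 12 * L ^ 2) / v = 2 / v + 30 * L / v + 12 * L ^ 2 / v := by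
      field_simp
    rw [e4]
    linarith
  -- the ratio
  have hr : |w / κ - 1| ≤ 2 * (L + 1) / v := by
    have e : w / κ - 1 = ((w - v) + (v - κ)) / κ := by field_simp; ring
    have q1 : |w - v| ≤ L := by nlinarith [mul_nonneg (abs_nonneg (w - v)) (sub_nonneg.2 hv2)]
    have q2 : |v - κ| ≤ 1 := by
      rw [abs_of_nonneg (sub_nonneg.2 hκv)]
      nlinarith [mul_nonneg (sub_nonneg.2 hκv) (sub_nonneg.2 hv3)]
    have q3 : |(w - v) + (v - κ)| ≤ L + 1 := (abs_add_le _ _).trans (by linarith)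
    rw [e, abs_div, abs_of_pos hκ0, div_le_div_iff₀ hκ0 hv0]
    nlinarith [abs_nonneg ((w - v) + (v - κ))]
  have hA2 : |A| ≤ M + ε := by
    have : A = (A - k0 D) + k0 D := by ring
    rw [this]
    refine (abs_add_le _ _).trans ?_
    rw [abs_of_nonneg (k0_nonneg D)]
    have := hM D
    linarith
  have hfin : Kr k n * (t * w) - k0 (y - y') =
      A * (w / κ - 1) + (A - k0 D) + (k0 D - k0 (y' - y)) := by
    rw [show y - y' = -(y' - y) by ring, k0_neg, hA']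
    field_simp
    ring
  rw [hfin]
  refine (abs_add_le _ _).trans ?_
  have h1 := abs_add_le (A * (w / κ - 1)) (A - k0 D)
  have h2 : |A * (w / κ - 1)| ≤ (M + ε) * (2 * (L + 1) / v) := by
    rw [abs_mul]
    exact mul_le_mul hA2 hr (abs_nonneg _) (le_trans (abs_nonneg _) hA2)
  have h3 := (k0_lipschitz D (y' - y)).trans hDy
  have e5 : ((M + ε) * (2 * (L + 1)) + (2 + 30 * L + 12 * L ^ 2)) / v =
      (M + ε) * (2 * (L + 1) / v) + (2 + 30 * L + 12 * L ^ 2) / v := by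
    field_simp
  rw [e5]
  linarith

end Pool.Agent.Work.MP_e29078_an

end

section

/-! Tangential integration by parts for the measure of the model hypersurface, assuming the
tube formula. -/

open MeasureTheory Set Filter Topology
open scoped Real ComplexConjugate ContDiff ENNReal

namespace Pool.Agent.Work.MP_e29078_an
namespace B3

variable {f g : C3 → ℂ}

lemma rM_contDiff {n : WithTop ℕ∞} : ContDiff ℝ n rM := by
  have h1 : ContDiff ℝ n (fun p : C3 => ‖p.1‖ ^ 2) := contDiff_fst.norm_sq ℝ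
  have h2 : ContDiff ℝ n (fun p : C3 => ‖p.2.1‖ ^ 2) :=
    (contDiff_fst.comp contDiff_snd).norm_sq ℝ
  have h3 : ContDiff ℝ n (fun p : C3 => ‖p.2.2‖ ^ 2) :=
    (contDiff_snd.comp contDiff_snd).norm_sq ℝ
  have h4 : ContDiff ℝ n (fun p : C3 => ‖1 - p.2.2‖ ^ 2) :=
    (contDiff_const.sub (contDiff_snd.comp contDiff_snd)).norm_sq ℝ
  have h5 : rM = fun p : C3 => ‖p.1‖ ^ 2 + (‖p.2.1‖ ^ 2) ^ 2 + ‖1 - p.2.2‖ ^ 2 * ‖p.2.1‖ ^ 2
      + ‖p.2.2‖ ^ 2 - 1 := by
    funext p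
    unfold rM
    ring
  rw [h5]
  exact (((h1.add (h2.pow 2)).add (h4.mul h2)).add h3).sub contDiff_const

lemma rc_rM_contDiff {n : WithTop ℕ∞} : ContDiff ℝ n (rc rM) :=
  Complex.ofRealCLM.contDiff.comp rM_contDiff

lemma continuous_fderiv_apply' (hf : ContDiff ℝ 1 f) (v : C3) :
    Continuous fun p => fderiv ℝ f p v :=
  (hf.continuous_fderiv (by norm_num)).clm_apply continuous_const

lemma continuous_dzb (hf : ContDiff ℝ 1 f) (k : Fin 3) : Continuous (dzb k f) := by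
  unfold dzb
  exact ((continuous_fderiv_apply' hf _).add
    (continuous_const.mul (continuous_fderiv_apply' hf _))).div_const _

lemma continuous_Lb (hf : ContDiff ℝ 1 f) (j k : Fin 3) : Continuous (Lb rM j k f) := by
  unfold Lb
  exact ((continuous_dzb rc_rM_contDiff j).mul (continuous_dzb hf k)).sub
    ((continuous_dzb rc_rM_contDiff k).mul (continuous_dzb hf j))

lemma hasCompactSupport_fderiv_apply (hc : HasCompactSupport f) (v : C3) :
    HasCompactSupport fun p => fderiv ℝ f p v := hc.fderiv_apply ℝ v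

lemma isAddHaar_C3 : (volume : Measure C3).IsAddHaarMeasure := by
  have h1 : (volume : Measure (ℂ × ℂ)).IsAddHaarMeasure :=
    Measure.prod.instIsAddHaarMeasure (volume : Measure ℂ) (volume : Measure ℂ)
  exact Measure.prod.instIsAddHaarMeasure (volume : Measure ℂ) (volume : Measure (ℂ × ℂ))

lemma integral_fderiv_eq_zero (hf : ContDiff ℝ 1 f) (hc : HasCompactSupport f) (v : C3) :
    ∫ p, fderiv ℝ f p v = 0 := by
  have := isAddHaar_C3
  have h1 : Integrable f := hf.continuous.integrable_of_hasCompactSupport hc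
  have h2 : Integrable fun p => fderiv ℝ f p v :=
    (continuous_fderiv_apply' hf v).integrable_of_hasCompactSupport (hc.fderiv_apply ℝ v)
  have h3 := integral_mul_fderiv_eq_neg_fderiv_mul_of_integrable (𝕜 := ℂ)
    (μ := (volume : Measure C3)) (f := fun _ : C3 => (1 : ℂ)) (g := f) (v := v)
    (by simp) (by simpa using h2) (by simpa using h1)
    (fun x _ => differentiableAt_const _)
    (fun x _ => hf.differentiable (by norm_num) x)
  simpa using h3

lemma integrable_fderiv (hf : ContDiff ℝ 1 f) (hc : HasCompactSupport f) (v : C3) :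
    Integrable fun p => fderiv ℝ f p v :=
  (continuous_fderiv_apply' hf v).integrable_of_hasCompactSupport (hc.fderiv_apply ℝ v)

lemma integrable_dzb (hf : ContDiff ℝ 1 f) (hc : HasCompactSupport f) (k : Fin 3) :
    Integrable (dzb k f) := by
  unfold dzb
  exact ((integrable_fderiv hf hc _).add ((integrable_fderiv hf hc _).const_mul _)).div_const _

lemma integral_dzb_eq_zero (hf : ContDiff ℝ 1 f) (hc : HasCompactSupport f) (k : Fin 3) :
    ∫ p, dzb k f p = 0 := by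
  unfold dzb
  rw [integral_div, integral_add (integrable_fderiv hf hc _)
    ((integrable_fderiv hf hc _).const_mul _), integral_const_mul,
    integral_fderiv_eq_zero hf hc, integral_fderiv_eq_zero hf hc]
  simp

lemma dzb_rc_contDiff (k : Fin 3) : ContDiff ℝ 1 (dzb k (rc rM)) :=
  contDiff_iff_contDiffAt.2 fun p =>
    contDiffAt_dzb (n := 2) (m := 1) (rc_rM_contDiff.contDiffAt) (by norm_num)

lemma Lb_eq (hf : ContDiff ℝ 1 f) (j k : Fin 3) (p : C3) :
    Lb rM j k f p = dzb k (fun q => dzb j (rc rM) q * f q) p -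
      dzb j (fun q => dzb k (rc rM) q * f q) p := by
  have hd : ∀ l, DifferentiableAt ℝ (dzb l (rc rM)) p := fun l =>
    (dzb_rc_contDiff l).differentiable (by norm_num) p
  have hf' : DifferentiableAt ℝ f p := hf.differentiable (by norm_num) p
  rw [dzb_mul (hd j) hf', dzb_mul (hd k) hf',
    dzb_dzb_comm (f := rc rM) (j := k) (k := j) rc_rM_contDiff.contDiffAt]
  unfold Lb
  ring

lemma integral_Lb_eq_zero (hf : ContDiff ℝ 1 f) (hc : HasCompactSupport f) (j k : Fin 3) :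
    ∫ p, Lb rM j k f p = 0 := by
  have hc' : ∀ l, ContDiff ℝ 1 (fun q => dzb l (rc rM) q * f q) := fun l =>
    (dzb_rc_contDiff l).mul hf
  have hs : ∀ l, HasCompactSupport (fun q => dzb l (rc rM) q * f q) := fun l =>
    hc.mul_left
  have h1 : (fun p => Lb rM j k f p) = fun p => dzb k (fun q => dzb j (rc rM) q * f q) p -
      dzb j (fun q => dzb k (rc rM) q * f q) p := funext (Lb_eq hf j k)
  rw [h1, integral_sub (integrable_dzb (hc' j) (hs j) k) (integrable_dzb (hc' k) (hs k) j),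
    integral_dzb_eq_zero (hc' j) (hs j), integral_dzb_eq_zero (hc' k) (hs k), sub_zero]

lemma dzb_comp_rM (η : ℝ → ℝ) (hη : ContDiff ℝ 1 η) (k : Fin 3) (p : C3) :
    dzb k (fun q => ((η (rM q) : ℝ) : ℂ)) p = ((deriv η (rM p) : ℝ) : ℂ) * dzb k (rc rM) p := by
  have hr : HasFDerivAt rM (fderiv ℝ rM p) p :=
    ((rM_contDiff (n := 1)).differentiable (by norm_num) p).hasFDerivAt
  have h1 : HasDerivAt η (deriv η (rM p)) (rM p) :=
    (hη.differentiable (by norm_num) _).hasDerivAt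
  have h2 : HasFDerivAt (fun q => η (rM q)) (deriv η (rM p) • fderiv ℝ rM p) p :=
    h1.comp_hasFDerivAt p hr
  have h3 : HasFDerivAt (fun q => ((η (rM q) : ℝ) : ℂ))
      (Complex.ofRealCLM.comp (deriv η (rM p) • fderiv ℝ rM p)) p :=
    Complex.ofRealCLM.hasFDerivAt.comp p h2
  have h4 : HasFDerivAt (rc rM) (Complex.ofRealCLM.comp (fderiv ℝ rM p)) p :=
    Complex.ofRealCLM.hasFDerivAt.comp p hr
  unfold dzb
  rw [h3.fderiv, h4.fderiv]
  simp only [ContinuousLinearMap.comp_apply, smul_apply, smul_eq_mul, Complex.ofRealCLM_apply,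
    Complex.ofReal_mul]
  ring

lemma Lb_cut (η : ℝ → ℝ) (hη : ContDiff ℝ 1 η) (hf : ContDiff ℝ 1 f) (j k : Fin 3) (p : C3) :
    Lb rM j k (fun q => ((η (rM q) : ℝ) : ℂ) * f q) p = ((η (rM p) : ℝ) : ℂ) * Lb rM j k f p := by
  have hf' : DifferentiableAt ℝ f p := hf.differentiable (by norm_num) p
  have h1 : DifferentiableAt ℝ (fun q => ((η (rM q) : ℝ) : ℂ)) p :=
    (Complex.ofRealCLM.contDiff.comp (hη.comp rM_contDiff)).differentiable (by norm_num) p
  unfold Lb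
  rw [dzb_mul h1 hf', dzb_mul h1 hf', dzb_comp_rM η hη, dzb_comp_rM η hη]
  ring

/-- The tube formula. -/
def Tube : Prop :=
  ∀ (η : ℝ → ℝ) (_ : Measurable η) (C : ℝ) (_ : ∀ x, |η x| ≤ C) (_ : ∀ x, 1 ≤ |x| → η x = 0)
    (φ : C3 → ℂ) (_ : Continuous φ),
    Tendsto (fun ε : ℝ => ∫ p : C3, ((ε⁻¹ * η (rM p / ε) : ℝ) : ℂ) * φ p) (𝓝[>] 0)
      (𝓝 (((∫ x, η x : ℝ) : ℂ) * ∫ p, φ p ∂muM))

theorem integral_Lb_of_tube (ht : Tube) (j k : Fin 3) (φ : C3 → ℂ) (hφ : ContDiff ℝ 1 φ)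
    (hc : HasCompactSupport φ) : ∫ p, Lb rM j k φ p ∂muM = 0 := by
  let b : ContDiffBump (0 : ℝ) := ⟨1 / 2, 1, by norm_num, by norm_num⟩
  have hb0 : ∀ x, 1 ≤ |x| → b x = 0 := by
    intro x hx
    apply b.zero_of_le_dist
    rw [Real.dist_eq, sub_zero]
    exact hx
  have hbC : ∀ x, |b x| ≤ 1 := by
    intro x
    rw [abs_of_nonneg b.nonneg]
    exact b.le_one
  have h1 := ht b b.continuous.measurable 1 hbC hb0 (Lb rM j k φ) (continuous_Lb hφ j k)
  have h2 : ∀ ε : ℝ, ε ∈ Ioi (0 : ℝ) →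
      ∫ p : C3, ((ε⁻¹ * b (rM p / ε) : ℝ) : ℂ) * Lb rM j k φ p = 0 := by
    intro ε _
    have hη : ContDiff ℝ 1 (fun x : ℝ => ε⁻¹ * b (x / ε)) :=
      contDiff_const.mul (b.contDiff.comp (contDiff_id.div_const _))
    have h3 : (fun p => ((ε⁻¹ * b (rM p / ε) : ℝ) : ℂ) * Lb rM j k φ p) =
        fun p => Lb rM j k (fun q => ((ε⁻¹ * b (rM q / ε) : ℝ) : ℂ) * φ q) p := by
      funext p
      exact (Lb_cut (fun x : ℝ => ε⁻¹ * b (x / ε)) hη hφ j k p).symm
    rw [h3]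
    apply integral_Lb_eq_zero
    · exact (Complex.ofRealCLM.contDiff.comp (hη.comp rM_contDiff)).mul hφ
    · exact hc.mul_left
  have h4 : Tendsto (fun ε : ℝ => ∫ p : C3, ((ε⁻¹ * b (rM p / ε) : ℝ) : ℂ) * Lb rM j k φ p)
      (𝓝[>] 0) (𝓝 0) := by
    refine tendsto_const_nhds.congr' ?_
    filter_upwards [self_mem_nhdsWithin] with ε hε using (h2 ε hε).symm
  have h5 := tendsto_nhds_unique h1 h4
  have h6 : ((∫ x, b x : ℝ) : ℂ) ≠ 0 := by
    have := b.integral_pos (μ := volume)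
    exact_mod_cast this.ne'
  exact (mul_eq_zero.1 h5).resolve_left h6

end B3
end Pool.Agent.Work.MP_e29078_an

end

section

/-! Geometry of the model hypersurface. -/

open MeasureTheory Set Filter Topology
open scoped Real ComplexConjugate ContDiff ENNReal

namespace Pool.Agent.Work.MP_e29078_an

namespace B1

/-- Wirtinger derivatives, bundled. -/
def HW (f : C3 → ℂ) (p : C3) (a b : Fin 3 → ℂ) : Prop :=
  DifferentiableAt ℝ f p ∧ (∀ k, dz k f p = a k) ∧ ∀ k, dzb k f p = b k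

variable {f g : C3 → ℂ} {p : C3} {a b a' b' : Fin 3 → ℂ}

lemma HW.add (h : HW f p a b) (h' : HW g p a' b') :
    HW (fun q => f q + g q) p (fun k => a k + a' k) (fun k => b k + b' k) :=
  ⟨h.1.fun_add h'.1, fun k => by rw [dz_add h.1 h'.1, h.2.1, h'.2.1],
    fun k => by rw [dzb_add h.1 h'.1, h.2.2, h'.2.2]⟩

lemma HW.sub (h : HW f p a b) (h' : HW g p a' b') :
    HW (fun q => f q - g q) p (fun k => a k - a' k) (fun k => b k - b' k) :=
  ⟨h.1.fun_sub h'.1, fun k => by rw [dz_sub h.1 h'.1, h.2.1, h'.2.1],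
    fun k => by rw [dzb_sub h.1 h'.1, h.2.2, h'.2.2]⟩

lemma HW.mul (h : HW f p a b) (h' : HW g p a' b') :
    HW (fun q => f q * g q) p (fun k => a k * g p + f p * a' k)
      (fun k => b k * g p + f p * b' k) :=
  ⟨h.1.fun_mul h'.1, fun k => by rw [dz_mul h.1 h'.1, h.2.1, h'.2.1],
    fun k => by rw [dzb_mul h.1 h'.1, h.2.2, h'.2.2]⟩

lemma HW.conj (h : HW f p a b) :
    HW (fun q => (starRingEnd ℂ) (f q)) p (fun k => (starRingEnd ℂ) (b k))
      (fun k => (starRingEnd ℂ) (a k)) :=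
  ⟨differentiableAt_conj_iff.2 h.1, fun k => by rw [dz_conj, h.2.2],
    fun k => by rw [dzb_conj, h.2.1]⟩

lemma HW.const (c : ℂ) : HW (fun _ => c) p (fun _ => 0) (fun _ => 0) :=
  ⟨differentiableAt_const _, fun _ => dz_const c, fun _ => dzb_const c⟩

lemma HW.co (j : Fin 3) : HW (co j) p (fun k => if j = k then 1 else 0) (fun _ => 0) :=
  ⟨co_differentiable j, fun _ => dz_co j, fun _ => dzb_co j⟩

lemma rc_rM : rc rM = fun q => (co 0 q * conj (co 0 q) +
    (co 1 q * conj (co 1 q)) * (co 1 q * conj (co 1 q)) +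
    ((1 - co 2 q) * conj (1 - co 2 q)) * (co 1 q * conj (co 1 q)) + co 2 q * conj (co 2 q)) -
      1 := by
  funext q
  simp only [rc, rM, Complex.mul_conj, Complex.normSq_eq_norm_sq, co]
  simp only [Matrix.cons_val_zero, Matrix.cons_val_one, Matrix.cons_val]
  push_cast
  ring

lemma HW_rM (p : C3) : HW (rc rM) p
    ![conj p.1, conj p.2.1 * (2 * (p.2.1 * conj p.2.1) + (1 - p.2.2) * conj (1 - p.2.2)),
      conj p.2.2 - conj (1 - p.2.2) * (p.2.1 * conj p.2.1)]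
    ![p.1, p.2.1 * (2 * (p.2.1 * conj p.2.1) + (1 - p.2.2) * conj (1 - p.2.2)),
      p.2.2 - (1 - p.2.2) * (p.2.1 * conj p.2.1)] := by
  have c0 := HW.co (p := p) 0
  have c1 := HW.co (p := p) 1
  have c2 := HW.co (p := p) 2
  have m1 := c1.mul c1.conj
  have d2 := (HW.const (p := p) 1).sub c2
  have key := ((((c0.mul c0.conj).add (m1.mul m1)).add ((d2.mul d2.conj).mul m1)).add
    (c2.mul c2.conj)).sub (HW.const (p := p) 1)
  rw [← rc_rM] at key
  refine ⟨key.1, fun k => ?_, fun k => ?_⟩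
  · rw [key.2.1]
    fin_cases k <;> simp [Pool.Agent.Work.MP_e29078_an.co] <;> ring
  · rw [key.2.2]
    fin_cases k <;> simp [Pool.Agent.Work.MP_e29078_an.co] <;> ring

end B1

theorem dz_rM (p : C3) : dz 0 (rc rM) p = conj p.1 ∧
    dz 1 (rc rM) p = conj p.2.1 * (2 * ‖p.2.1‖ ^ 2 + ‖1 - p.2.2‖ ^ 2 : ℝ) ∧
    dz 2 (rc rM) p = conj p.2.2 - (1 - conj p.2.2) * (‖p.2.1‖ ^ 2 : ℝ) := by
  have h := (B1.HW_rM p).2.1
  refine ⟨h 0, ?_, ?_⟩
  · rw [h 1]
    simp only [Matrix.cons_val_one, Matrix.cons_val_zero, Complex.mul_conj,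
      Complex.normSq_eq_norm_sq]
    push_cast
    ring
  · rw [h 2]
    simp only [Matrix.cons_val, Complex.mul_conj, Complex.normSq_eq_norm_sq, map_sub, map_one]

namespace B1

lemma dz0_eq : dz 0 (rc rM) = fun q => conj (co 0 q) := by
  funext q; exact (HW_rM q).2.1 0

lemma dz1_eq : dz 1 (rc rM) = fun q => conj (co 1 q) *
    ((co 1 q * conj (co 1 q) + co 1 q * conj (co 1 q)) + (1 - co 2 q) * conj (1 - co 2 q)) := by
  funext q
  rw [(HW_rM q).2.1 1]
  simp only [co, Matrix.cons_val_one, Matrix.cons_val_zero, Matrix.cons_val]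
  ring

lemma dz2_eq : dz 2 (rc rM) = fun q => conj (co 2 q) -
    conj (1 - co 2 q) * (co 1 q * conj (co 1 q)) := by
  funext q
  rw [(HW_rM q).2.1 2]
  simp [co]

lemma dzb_dz (p : C3) :
    (∀ k, dzb k (dz 0 (rc rM)) p = ![1, 0, 0] k) ∧
    (∀ k, dzb k (dz 1 (rc rM)) p = ![0, 4 * (p.2.1 * conj p.2.1) + (1 - p.2.2) * conj (1 - p.2.2),
      -conj p.2.1 * (1 - p.2.2)] k) ∧
    (∀ k, dzb k (dz 2 (rc rM)) p = ![0, - conj (1 - p.2.2) * p.2.1,
      1 + p.2.1 * conj p.2.1] k) := by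
  have c0 := HW.co (p := p) 0
  have c1 := HW.co (p := p) 1
  have c2 := HW.co (p := p) 2
  have m1 := c1.mul c1.conj
  have d2 := (HW.const (p := p) 1).sub c2
  have k1 := c1.conj.mul ((m1.add m1).add (d2.mul d2.conj))
  have k2 := c2.conj.sub (d2.conj.mul m1)
  rw [← dz1_eq] at k1
  rw [← dz2_eq] at k2
  refine ⟨fun k => ?_, fun k => ?_, fun k => ?_⟩
  · rw [dz0_eq, c0.conj.2.2]
    fin_cases k
    all_goals simp
  · rw [k1.2.2]
    fin_cases k <;> simp [co] <;> ring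
  · rw [k2.2.2]
    fin_cases k <;> simp [co] <;> ring

lemma levi_rM (p : C3) (ξ : Fin 3 → ℂ) :
    levi rM p ξ = ((‖ξ 0‖ ^ 2 + 4 * ‖p.2.1‖ ^ 2 * ‖ξ 1‖ ^ 2 +
      ‖(1 - p.2.2) * ξ 1 - p.2.1 * ξ 2‖ ^ 2 + ‖ξ 2‖ ^ 2 : ℝ) : ℂ) := by
  obtain ⟨h0, h1, h2⟩ := dzb_dz p
  unfold levi
  simp only [Fin.sum_univ_three, h0, h1, h2]
  simp only [Complex.ofReal_add, Complex.ofReal_mul, ← Complex.normSq_eq_norm_sq,
    ← Complex.mul_conj]
  simp
  ring

lemma rM_cont : Continuous rM := by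
  unfold rM
  fun_prop

lemma rM_analytic (p : C3) : AnalyticAt ℝ rM p := by
  have hns : ∀ (L : C3 →L[ℝ] ℂ) (c : ℂ), AnalyticAt ℝ (fun q => ‖c - L q‖ ^ 2) p := by
    intro L c
    have h1 : (fun q => ‖c - L q‖ ^ 2) = fun q => (c - L q).re ^ 2 + (c - L q).im ^ 2 := by
      funext q
      rw [← Complex.normSq_eq_norm_sq, Complex.normSq_apply]; ring
    rw [h1]
    have hL : AnalyticAt ℝ (fun q => c - L q) p := analyticAt_const.sub (L.analyticAt p)
    have hre : AnalyticAt ℝ (fun q => (c - L q).re) p :=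
      (Complex.reCLM.analyticAt _).comp hL
    have him : AnalyticAt ℝ (fun q => (c - L q).im) p :=
      (Complex.imCLM.analyticAt _).comp hL
    exact (hre.pow 2).add (him.pow 2)
  have h0 := hns ((coL 0).restrictScalars ℝ) 0
  have h1 := hns ((coL 1).restrictScalars ℝ) 0
  have h2 := hns ((coL 2).restrictScalars ℝ) 0
  have h3 := hns ((coL 2).restrictScalars ℝ) 1
  have key := (((h0.add (h1.pow 2)).add (h3.mul h1)).add h2).sub (analyticAt_const (v := (1 : ℝ)))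
  refine key.congr (Eventually.of_forall fun q => ?_)
  simp only [ContinuousLinearMap.coe_restrictScalars', coL_apply, Pi.add_apply, Pi.sub_apply,
    Pi.mul_apply, Pi.pow_apply, co, rM, Matrix.cons_val_zero, Matrix.cons_val_one,
    Matrix.cons_val, zero_sub, norm_neg]
  ring

lemma rM_bounded (p : C3) (hp : p ∈ Hyp rM) : ‖p‖ ≤ 1 := by
  have h : rM p = 0 := hp
  unfold rM at h
  have e0 : ‖p.1‖ ^ 2 ≤ 1 := by
    have : 0 ≤ ‖p.2.1‖ ^ 4 + ‖1 - p.2.2‖ ^ 2 * ‖p.2.1‖ ^ 2 + ‖p.2.2‖ ^ 2 := by positivity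
    linarith
  have e1 : ‖p.2.1‖ ^ 4 ≤ 1 := by
    have : 0 ≤ ‖p.1‖ ^ 2 + ‖1 - p.2.2‖ ^ 2 * ‖p.2.1‖ ^ 2 + ‖p.2.2‖ ^ 2 := by positivity
    linarith
  have e2 : ‖p.2.2‖ ^ 2 ≤ 1 := by
    have : 0 ≤ ‖p.1‖ ^ 2 + ‖p.2.1‖ ^ 4 + ‖1 - p.2.2‖ ^ 2 * ‖p.2.1‖ ^ 2 := by positivity
    linarith
  have f0 : ‖p.1‖ ≤ 1 := by
    by_contra hc; push Not at hc; nlinarith
  have f1 : ‖p.2.1‖ ≤ 1 := by
    by_contra hc; push Not at hc
    have : 1 < ‖p.2.1‖ ^ 4 := one_lt_pow₀ hc (by norm_num)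
    linarith
  have f2 : ‖p.2.2‖ ≤ 1 := by
    by_contra hc; push Not at hc; nlinarith
  simp only [Prod.norm_def, sup_le_iff]
  exact ⟨f0, f1, f2⟩

lemma rM_regular (p : C3) (hp : p ∈ Hyp rM) : fderiv ℝ rM p ≠ 0 := by
  intro h
  have hd : DifferentiableAt ℝ rM p := (rM_analytic p).differentiableAt
  have hz : ∀ k, dz k (rc rM) p = 0 := by
    intro k
    have h1 : HasFDerivAt (rc rM) (Complex.ofRealCLM.comp (fderiv ℝ rM p)) p :=
      Complex.ofRealCLM.hasFDerivAt.comp p hd.hasFDerivAt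
    unfold dz
    rw [h1.fderiv, h]
    simp
  obtain ⟨d0, d1, d2⟩ := dz_rM p
  rw [hz 0] at d0
  rw [hz 1] at d1
  rw [hz 2] at d2
  have e0 : p.1 = 0 := by
    have := d0.symm
    simpa using this
  have hr : rM p = 0 := hp
  have e1 : p.2.1 = 0 := by
    by_contra hc
    have : 0 < 2 * ‖p.2.1‖ ^ 2 + ‖1 - p.2.2‖ ^ 2 := by positivity
    have h2 := d1.symm
    rcases mul_eq_zero.1 h2 with h3 | h3
    · exact hc (by simpa using h3)
    · rw [Complex.ofReal_eq_zero] at h3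
      linarith
  have e2 : p.2.2 = 0 := by
    have h2 := d2.symm
    rw [e1] at h2
    simpa using h2
  unfold rM at hr
  rw [e0, e1, e2] at hr
  norm_num at hr

end B1

theorem isPscHyp_rM : IsPscHyp rM where
  analytic := B1.rM_analytic
  compact := by
    refine Metric.isCompact_of_isClosed_isBounded ?_ ?_
    · exact isClosed_eq B1.rM_cont continuous_const
    · refine isBounded_iff_forall_norm_le.2 ⟨1, B1.rM_bounded⟩
  nonempty := ⟨(0, 0, 1), by simp [Hyp, rM]⟩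
  regular := B1.rM_regular
  psc := by
    intro p _ ξ _
    rw [B1.levi_rM, Complex.ofReal_re]
    positivity

theorem mem_Hyp_rM_point : ((0, 0, 1) : C3) ∈ Hyp rM := by simp [Hyp, rM]

theorem strict_rM (p : C3) (hp : p ∈ Hyp rM) (hne : p ≠ (0, 0, 1)) : StrictPscAt rM p := by
  intro ξ hξ _
  rw [B1.levi_rM, Complex.ofReal_re]
  by_contra hc
  have h0 : 0 ≤ ‖ξ 0‖ ^ 2 := by positivity
  have h1 : 0 ≤ 4 * ‖p.2.1‖ ^ 2 * ‖ξ 1‖ ^ 2 := by positivity
  have h2 : 0 ≤ ‖(1 - p.2.2) * ξ 1 - p.2.1 * ξ 2‖ ^ 2 := by positivity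
  have h3 : 0 ≤ ‖ξ 2‖ ^ 2 := by positivity
  have e0 : ξ 0 = 0 := by
    have : ‖ξ 0‖ ^ 2 = 0 := by linarith
    simpa using this
  have e2 : ξ 2 = 0 := by
    have : ‖ξ 2‖ ^ 2 = 0 := by linarith
    simpa using this
  have e1 : ξ 1 ≠ 0 := by
    intro h
    apply hξ
    funext k
    fin_cases k
    · exact e0
    · exact h
    · exact e2
  have e3 : p.2.1 = 0 := by
    have h4 : 4 * ‖p.2.1‖ ^ 2 * ‖ξ 1‖ ^ 2 = 0 := by linarith
    have h5 : ‖ξ 1‖ ^ 2 ≠ 0 := by simpa using e1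
    have h6 : 4 * ‖p.2.1‖ ^ 2 = 0 := (mul_eq_zero.1 h4).resolve_right h5
    have h7 : ‖p.2.1‖ ^ 2 = 0 := by linarith
    simpa using h7
  have e4 : p.2.2 = 1 := by
    have h4 : ‖(1 - p.2.2) * ξ 1 - p.2.1 * ξ 2‖ ^ 2 = 0 := by linarith
    rw [e3, e2] at h4
    have h5 : (1 - p.2.2) * ξ 1 = 0 := by simpa using h4
    have h6 := (mul_eq_zero.1 h5).resolve_right e1
    exact (sub_eq_zero.1 h6).symm
  have hr : rM p = 0 := hp
  unfold rM at hr
  rw [e3, e4] at hr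
  have e5 : p.1 = 0 := by
    have : ‖p.1‖ ^ 2 = 0 := by
      simp only [norm_zero, sub_self, norm_one] at hr
      linarith
    simpa using this
  exact hne (Prod.ext e5 (Prod.ext e3 e4))

end Pool.Agent.Work.MP_e29078_an

end

section

/-! The measure `δ(r) dV` of the model hypersurface. -/

open MeasureTheory Set Filter Topology
open scoped Real ComplexConjugate ContDiff ENNReal

namespace Pool.Agent.Work.MP_e29078_an

namespace B2

/-- angular mean -/
noncomputable def Phi (φ : C3 → ℂ) (x : ℝ) (v : ℂ × ℂ) : ℂ :=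
  ∫ θ in (-π)..π, φ (((√x : ℝ) : ℂ) * Complex.exp (θ * Complex.I), v.1, v.2)

theorem rM_eq (z : ℂ) (v : ℂ × ℂ) : rM (z, v.1, v.2) = ‖z‖ ^ 2 - hM v := by
  simp only [rM, hM, sf, qf]; ring

theorem continuous_hM : Continuous hM := by
  unfold hM sf qf; fun_prop

theorem continuous_rM : Continuous rM := by
  unfold rM; fun_prop

theorem continuous_PM : Continuous PM := by
  have h := continuous_hM
  unfold PM
  fun_prop

theorem isOpen_GM : IsOpen GM := isOpen_lt continuous_const continuous_hM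

theorem hM_le_one (v : ℂ × ℂ) : hM v ≤ 1 := by
  simp only [hM, sf, qf]
  have h1 : 0 ≤ ‖v.2‖ ^ 2 := by positivity
  have h2 : 0 ≤ ‖v.1‖ ^ 4 := by positivity
  have h3 : 0 ≤ ‖1 - v.2‖ ^ 2 * ‖v.1‖ ^ 2 := by positivity
  linarith

theorem norm_le_of_hM {v : ℂ × ℂ} (h : -1 < hM v) : ‖v.1‖ ≤ 2 ∧ ‖v.2‖ ≤ 2 := by
  simp only [hM, sf, qf] at h
  have h3 : 0 ≤ ‖1 - v.2‖ ^ 2 * ‖v.1‖ ^ 2 := by positivity
  have h1 : 0 ≤ ‖v.2‖ := norm_nonneg _
  have h2 : 0 ≤ ‖v.1‖ := norm_nonneg _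
  constructor
  · by_contra hc
    push Not at hc
    have : (16 : ℝ) ≤ ‖v.1‖ ^ 4 := by
      have := pow_le_pow_left₀ (by norm_num : (0 : ℝ) ≤ 2) hc.le 4
      norm_num at this; exact this
    nlinarith [sq_nonneg ‖v.2‖]
  · by_contra hc
    push Not at hc
    have : (4 : ℝ) ≤ ‖v.2‖ ^ 2 := by
      have := pow_le_pow_left₀ (by norm_num : (0 : ℝ) ≤ 2) hc.le 2
      norm_num at this; exact this
    nlinarith [pow_nonneg h2 4]

theorem polar2 (g : ℂ → ℂ) (hg : Measurable g) {M R : ℝ} (hM0 : 0 ≤ M) (hR0 : 0 ≤ R)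
    (hM : ∀ z, ‖g z‖ ≤ M) (hR : ∀ z, R < ‖z‖ → g z = 0) :
    ∫ z, g z = (1 / 2 : ℂ) * ∫ x in Ioi (0 : ℝ), ∫ θ in (-π)..π,
      g (((√x : ℝ) : ℂ) * Complex.exp (θ * Complex.I)) := by
  have hpi : -π ≤ π := by linarith [Real.pi_pos]
  rw [← Complex.integral_comp_polarCoord_symm]
  have htarget : polarCoord.target = Ioi (0 : ℝ) ×ˢ Ioo (-π) π := rfl
  have hsymm : ∀ p : ℝ × ℝ, Complex.polarCoord.symm p =
      ((p.1 : ℝ) : ℂ) * Complex.exp (p.2 * Complex.I) := by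
    intro p
    rw [Complex.polarCoord_symm_apply, Complex.exp_mul_I]
    push_cast
    ring_nf
  simp only [hsymm]
  rw [htarget, Measure.volume_eq_prod]
  have hF : Measurable (fun p : ℝ × ℝ => p.1 • g (((p.1 : ℝ) : ℂ) *
      Complex.exp (p.2 * Complex.I))) := by
    apply Measurable.smul measurable_fst
    exact hg.comp (by fun_prop)
  rw [setIntegral_prod]
  · have h1 : ∀ r : ℝ, (∫ y in Ioo (-π) π, r • g ((r : ℂ) * Complex.exp (y * Complex.I))) =
        r • ∫ y in (-π)..π, g ((r : ℂ) * Complex.exp (y * Complex.I)) := by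
      intro r
      rw [integral_smul, intervalIntegral.integral_of_le hpi, integral_Ioc_eq_integral_Ioo]
    simp only [h1]
    have h2 := integral_comp_rpow_Ioi_of_pos (E := ℂ)
      (g := fun y => ∫ θ in (-π)..π, g (((√y : ℝ) : ℂ) * Complex.exp (θ * Complex.I)))
      (p := 2) (by norm_num)
    rw [← h2, ← integral_const_mul]
    apply setIntegral_congr_fun measurableSet_Ioi
    intro x hx
    have hx' : (0 : ℝ) < x := hx
    have h3 : (x : ℝ) ^ (2 : ℝ) = x ^ 2 := by norm_num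
    have h4 : √(x ^ 2) = x := Real.sqrt_sq hx'.le
    have h5 : (x : ℝ) ^ ((2 : ℝ) - 1) = x := by norm_num
    simp only [h3, h4, h5]
    simp only [Complex.real_smul]
    push_cast
    ring
  · have hbd : Integrable (indicator (Ioc (0 : ℝ) R ×ˢ Ioo (-π) π) (fun _ : ℝ × ℝ => R * M))
        ((volume : Measure ℝ).prod volume) := by
      rw [integrable_indicator_iff (measurableSet_Ioc.prod measurableSet_Ioo)]
      apply integrableOn_const
      · rw [Measure.prod_prod]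
        exact ENNReal.mul_ne_top (by simp) (by simp)
      · exact enorm_ne_top
    unfold IntegrableOn
    refine Integrable.mono' hbd.integrableOn hF.aestronglyMeasurable ?_
    rw [ae_restrict_iff' (measurableSet_Ioi.prod measurableSet_Ioo)]
    refine Eventually.of_forall fun p hp => ?_
    have hp1 : 0 < p.1 := hp.1
    have hn : ‖((p.1 : ℝ) : ℂ) * Complex.exp (p.2 * Complex.I)‖ = p.1 := by
      rw [norm_mul, Complex.norm_exp_ofReal_mul_I, Complex.norm_real, Real.norm_of_nonneg hp1.le,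
        mul_one]
    by_cases hpR : p.1 ≤ R
    · rw [indicator_of_mem (show p ∈ Ioc (0 : ℝ) R ×ˢ Ioo (-π) π from ⟨⟨hp1, hpR⟩, hp.2⟩)]
      rw [norm_smul, Real.norm_of_nonneg hp1.le]
      exact mul_le_mul hpR (hM _) (norm_nonneg _) hR0
    · push Not at hpR
      rw [hR _ (by rw [hn]; exact hpR), smul_zero, norm_zero]
      apply indicator_nonneg
      intro _ _
      positivity

theorem continuous_Phi (φ : C3 → ℂ) (hφ : Continuous φ) :
    Continuous (fun x : ℝ × (ℂ × ℂ) => Phi φ x.1 x.2) := by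
  unfold Phi
  apply intervalIntegral.continuous_parametric_intervalIntegral_of_continuous'
  fun_prop

theorem exists_bound (φ : C3 → ℂ) (hφ : Continuous φ) : ∃ B : ℝ, 0 ≤ B ∧
    ∀ z z2 w : ℂ, ‖z‖ ≤ 2 → ‖z2‖ ≤ 2 → ‖w‖ ≤ 2 → ‖φ (z, z2, w)‖ ≤ B := by
  have hK : IsCompact (Metric.closedBall (0 : ℂ) 2 ×ˢ (Metric.closedBall (0 : ℂ) 2 ×ˢ
      Metric.closedBall (0 : ℂ) 2)) :=
    (isCompact_closedBall _ _).prod ((isCompact_closedBall _ _).prod (isCompact_closedBall _ _))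
  obtain ⟨B, hB⟩ := hK.exists_bound_of_continuousOn hφ.continuousOn
  refine ⟨max B 0, le_max_right _ _, fun z z2 w h1 h2 h3 => ?_⟩
  refine (hB (z, z2, w) ⟨?_, ?_, ?_⟩).trans (le_max_left _ _) <;> simpa

theorem norm_Phi_le {φ : C3 → ℂ} {B : ℝ}
    (hB : ∀ z z2 w : ℂ, ‖z‖ ≤ 2 → ‖z2‖ ≤ 2 → ‖w‖ ≤ 2 → ‖φ (z, z2, w)‖ ≤ B) {x : ℝ} (hx : x ≤ 4)
    {v : ℂ × ℂ} (h1 : ‖v.1‖ ≤ 2) (h2 : ‖v.2‖ ≤ 2) : ‖Phi φ x v‖ ≤ 2 * π * B := by
  unfold Phi
  have h := intervalIntegral.norm_integral_le_of_norm_le_const (a := -π) (b := π) (C := B)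
    (f := fun θ : ℝ => φ (((√x : ℝ) : ℂ) * Complex.exp (θ * Complex.I), v.1, v.2)) ?_
  · refine h.trans (le_of_eq ?_)
    rw [abs_of_pos (by linarith [Real.pi_pos])]
    ring
  · intro θ _
    apply hB _ _ _ _ h1 h2
    rw [norm_mul, Complex.norm_exp_ofReal_mul_I, Complex.norm_real,
      Real.norm_of_nonneg (Real.sqrt_nonneg _), mul_one]
    calc √x ≤ √4 := Real.sqrt_le_sqrt hx
      _ = 2 := by
        rw [show (4 : ℝ) = 2 ^ 2 by norm_num, Real.sqrt_sq (by norm_num)]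

/-- the inner integral -/
theorem slice (η : ℝ → ℝ) (hη : Measurable η) (C : ℝ) (hC : ∀ x, |η x| ≤ C)
    (hs : ∀ x, 1 ≤ |x| → η x = 0) (φ : C3 → ℂ) (hφ : Continuous φ) {ε : ℝ} (hε : 0 < ε)
    (hε1 : ε ≤ 1) (v : ℂ × ℂ) :
    ∫ z : ℂ, ((ε⁻¹ * η (rM (z, v.1, v.2) / ε) : ℝ) : ℂ) * φ (z, v.1, v.2) =
      (1 / 2 : ℂ) * ∫ y : ℝ, (if 0 < hM v + ε * y then ((η y : ℝ) : ℂ) * Phi φ (hM v + ε * y) v
        else 0) := by
  have hC0 : 0 ≤ C := (abs_nonneg _).trans (hC 0)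
  set h := hM v with hh
  have hh1 : h ≤ 1 := hM_le_one v
  -- vanishing for large z
  have hzero : ∀ z : ℂ, 2 < ‖z‖ → η (rM (z, v.1, v.2) / ε) = 0 := by
    intro z hz
    apply hs
    rw [rM_eq, ← hh, le_abs]
    left
    rw [le_div_iff₀ hε]
    nlinarith
  obtain ⟨B, hB⟩ := (isCompact_closedBall (0 : ℂ) 2).exists_bound_of_continuousOn
    (f := fun z => φ (z, v.1, v.2)) (by fun_prop)
  have hB0 : 0 ≤ B := (norm_nonneg _).trans (hB 0 (by simp))
  rw [polar2 (M := ε⁻¹ * C * B) (R := 2)]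
  rotate_left
  · apply Measurable.mul
    · apply Complex.measurable_ofReal.comp
      apply Measurable.const_mul
      apply hη.comp
      apply Measurable.div_const
      exact (continuous_rM.comp (by fun_prop)).measurable
    · exact (hφ.comp (by fun_prop)).measurable
  · positivity
  · norm_num
  · intro z
    by_cases hz : ‖z‖ ≤ 2
    · rw [norm_mul, Complex.norm_real, norm_mul, Real.norm_of_nonneg (inv_nonneg.2 hε.le)]
      apply mul_le_mul _ (hB z (by simpa using hz)) (norm_nonneg _) (by positivity)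
      exact mul_le_mul_of_nonneg_left (by rw [Real.norm_eq_abs]; exact hC _)
        (inv_nonneg.2 hε.le)
    · push Not at hz
      rw [hzero z hz]
      simp only [mul_zero, Complex.ofReal_zero, zero_mul, norm_zero]
      positivity
  · intro z hz
    rw [hzero z hz]
    simp
  congr 1
  -- now in the variable x
  have h1 : ∀ x : ℝ, 0 < x → (∫ θ in (-π)..π,
      ((ε⁻¹ * η (rM (((√x : ℝ) : ℂ) * Complex.exp (θ * Complex.I), v.1, v.2) / ε) : ℝ) : ℂ) *
        φ (((√x : ℝ) : ℂ) * Complex.exp (θ * Complex.I), v.1, v.2)) =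
      ((ε⁻¹ * η ((x - h) / ε) : ℝ) : ℂ) * Phi φ x v := by
    intro x hx
    unfold Phi
    rw [← intervalIntegral.integral_const_mul]
    congr 1
    funext θ
    rw [rM_eq, norm_mul, Complex.norm_exp_ofReal_mul_I, Complex.norm_real,
      Real.norm_of_nonneg (Real.sqrt_nonneg _), mul_one, Real.sq_sqrt hx.le]
  rw [setIntegral_congr_fun measurableSet_Ioi (g := fun x : ℝ =>
    ((ε⁻¹ * η ((x - h) / ε) : ℝ) : ℂ) * Phi φ x v) (fun x hx => h1 x hx)]
  rw [← integral_indicator measurableSet_Ioi]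
  set F : ℝ → ℂ := indicator (Ioi (0 : ℝ)) (fun x : ℝ => ((η ((x - h) / ε) : ℝ) : ℂ) * Phi φ x v)
    with hF
  have h2 : (indicator (Ioi (0 : ℝ)) (fun x : ℝ => ((ε⁻¹ * η ((x - h) / ε) : ℝ) : ℂ) *
      Phi φ x v)) = fun x => ε⁻¹ • F x := by
    funext x
    rw [hF]
    by_cases hx : x ∈ Ioi (0 : ℝ)
    · rw [indicator_of_mem hx, indicator_of_mem hx, Complex.real_smul]
      push_cast
      ring
    · rw [indicator_of_notMem hx, indicator_of_notMem hx, smul_zero]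
  rw [h2, integral_smul]
  have h3 : ∫ y : ℝ, F (h + ε * y) = |ε⁻¹| • ∫ x, F x := by
    have := Measure.integral_comp_mul_left (fun x => F (h + x)) ε
    rw [this, integral_add_left_eq_self]
  rw [abs_of_pos (inv_pos.2 hε)] at h3
  rw [← h3]
  congr 1
  funext y
  rw [hF]
  by_cases hy : 0 < h + ε * y
  · rw [if_pos hy, indicator_of_mem (show h + ε * y ∈ Ioi (0 : ℝ) from hy)]
    congr 3
    field_simp
    ring
  · rw [if_neg hy, indicator_of_notMem (show h + ε * y ∉ Ioi (0 : ℝ) from hy)]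

/-- the level set `h = 0` is a null set -/
theorem null_hM : volume {v : ℂ × ℂ | hM v = 0} = 0 := by
  have hmeas : MeasurableSet {v : ℂ × ℂ | hM v = 0} :=
    (isClosed_singleton.preimage continuous_hM).measurableSet
  rw [Measure.volume_eq_prod, Measure.prod_apply_symm hmeas]
  rw [lintegral_eq_zero_iff (measurable_measure_prodMk_right hmeas)]
  refine Eventually.of_forall fun w => ?_
  simp only [Pi.zero_apply]
  by_cases hne : ((fun x => (x, w)) ⁻¹' {v : ℂ × ℂ | hM v = 0}).Nonempty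
  · obtain ⟨z0, hz0⟩ := hne
    have hsub : ((fun x => (x, w)) ⁻¹' {v : ℂ × ℂ | hM v = 0}) ⊆ Metric.sphere (0 : ℂ) ‖z0‖ := by
      intro z hz
      simp only [mem_preimage, mem_ofPred_eq, hM] at hz hz0
      rw [mem_sphere_zero_iff_norm]
      have hq : 0 ≤ qf w := by unfold qf; positivity
      have h1 := norm_nonneg z
      have h2 := norm_nonneg z0
      have h3 : (‖z‖ ^ 2 - ‖z0‖ ^ 2) * (‖z‖ ^ 2 + ‖z0‖ ^ 2 + qf w) = 0 := by
        linear_combination hz0 - hz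
      rcases mul_eq_zero.1 h3 with h | h
      · have : (‖z‖ - ‖z0‖) * (‖z‖ + ‖z0‖) = 0 := by linear_combination h
        rcases mul_eq_zero.1 this with h | h
        · linarith
        · have : ‖z‖ = 0 := by linarith
          have : ‖z0‖ = 0 := by linarith
          linarith
      · have ha : ‖z‖ ^ 2 = 0 := by nlinarith [sq_nonneg ‖z‖, sq_nonneg ‖z0‖]
        have hb : ‖z0‖ ^ 2 = 0 := by nlinarith [sq_nonneg ‖z‖, sq_nonneg ‖z0‖]
        rw [pow_eq_zero_iff (by norm_num)] at ha hb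
        rw [ha, hb]
    exact measure_mono_null hsub (Measure.addHaar_sphere _ _ _)
  · rw [not_nonempty_iff_eq_empty] at hne
    rw [hne, measure_empty]

end B2

theorem integral_muM (φ : C3 → ℂ) (hφ : Measurable φ) :
    ∫ p, φ p ∂muM = (1 / 2 : ℂ) * ∫ x in Ioo (-π) π ×ˢ GM, φ (PM x) := by
  unfold muM
  rw [integral_smul_measure, integral_map B2.continuous_PM.measurable.aemeasurable
    hφ.aestronglyMeasurable, Measure.prod_restrict, ← Measure.volume_eq_prod]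
  rw [Complex.real_smul]
  norm_num

namespace B2

theorem integral_muM' (φ : C3 → ℂ) (hφ : Continuous φ) :
    ∫ p, φ p ∂muM = (1 / 2 : ℂ) * ∫ v in GM, Phi φ (hM v) v := by
  have hpi : -π ≤ π := by linarith [Real.pi_pos]
  rw [integral_muM φ hφ.measurable]
  congr 1
  obtain ⟨B, hB0, hB⟩ := exists_bound φ hφ
  have hGM : ∀ v ∈ GM, ‖v.1‖ ≤ 2 ∧ ‖v.2‖ ≤ 2 := fun v hv =>
    norm_le_of_hM (lt_trans (by norm_num) hv)
  have hfin : volume GM < ⊤ := by
    refine lt_of_le_of_lt (measure_mono (t := Metric.closedBall (0 : ℂ × ℂ) 2) ?_)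
      measure_closedBall_lt_top
    intro v hv
    have := hGM v hv
    rw [mem_closedBall_zero_iff, Prod.norm_def]
    exact max_le this.1 this.2
  rw [Measure.volume_eq_prod, ← Measure.prod_restrict, integral_prod_symm]
  · apply integral_congr_ae
    refine Eventually.of_forall fun v => ?_
    simp only [Phi, PM]
    rw [intervalIntegral.integral_of_le hpi, integral_Ioc_eq_integral_Ioo]
  · rw [Measure.prod_restrict]
    apply Integrable.mono' (g := fun _ => B)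
    · have : IntegrableOn (fun _ : ℝ × (ℂ × ℂ) => B) (Ioo (-π) π ×ˢ GM)
          ((volume : Measure ℝ).prod volume) := by
        apply integrableOn_const
        · rw [Measure.prod_prod]
          exact ENNReal.mul_ne_top (by simp) hfin.ne
        · exact enorm_ne_top
      exact this
    · exact (hφ.comp continuous_PM).aestronglyMeasurable
    · rw [ae_restrict_iff' (measurableSet_Ioo.prod isOpen_GM.measurableSet)]
      refine Eventually.of_forall fun x hx => ?_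
      have h1 := hGM x.2 hx.2
      simp only [PM]
      apply hB _ _ _ _ h1.1 h1.2
      rw [norm_mul, Complex.norm_exp_ofReal_mul_I, Complex.norm_real,
        Real.norm_of_nonneg (Real.sqrt_nonneg _), mul_one]
      calc √(hM x.2) ≤ √1 := Real.sqrt_le_sqrt (hM_le_one _)
        _ ≤ 2 := by norm_num


/-- the limit of the inner integral -/
theorem slice_tendsto (η : ℝ → ℝ) (hη : Measurable η) (C : ℝ) (hC : ∀ x, |η x| ≤ C)
    (hs : ∀ x, 1 ≤ |x| → η x = 0) (φ : C3 → ℂ) (hφ : Continuous φ) (v : ℂ × ℂ) (hv : hM v ≠ 0) :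
    Tendsto (fun ε : ℝ => ∫ y : ℝ, (if 0 < hM v + ε * y then
      ((η y : ℝ) : ℂ) * Phi φ (hM v + ε * y) v else 0)) (𝓝[>] 0)
      (𝓝 (indicator GM (fun v => ((∫ x, η x : ℝ) : ℂ) * Phi φ (hM v) v) v)) := by
  have hC0 : 0 ≤ C := (abs_nonneg _).trans (hC 0)
  set h := hM v with hh
  have hcont : Continuous (fun x : ℝ => Phi φ x v) :=
    (continuous_Phi φ hφ).comp (by fun_prop : Continuous fun x : ℝ => (x, v))
  obtain ⟨B, hB⟩ := (isCompact_Icc (a := h - 1) (b := h + 1)).exists_bound_of_continuousOn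
    hcont.continuousOn
  have hB0 : 0 ≤ B := (norm_nonneg _).trans (hB h ⟨by linarith, by linarith⟩)
  have hlim : ((∫ y : ℝ, (if 0 < h then ((η y : ℝ) : ℂ) * Phi φ h v else 0)) : ℂ) =
      indicator GM (fun v => ((∫ x, η x : ℝ) : ℂ) * Phi φ (hM v) v) v := by
    by_cases hp : 0 < h
    · rw [indicator_of_mem (show v ∈ GM from hp)]
      simp only [if_pos hp]
      have hof : (∫ y : ℝ, ((η y : ℝ) : ℂ)) = ((∫ x, η x : ℝ) : ℂ) := integral_ofReal
      rw [integral_mul_const, hof]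
    · rw [indicator_of_notMem (show v ∉ GM from hp)]
      simp [if_neg hp]
  rw [← hlim]
  apply tendsto_integral_filter_of_dominated_convergence
    (indicator (Icc (-1 : ℝ) 1) (fun _ => C * B))
  · refine Eventually.of_forall fun ε => ?_
    apply Measurable.aestronglyMeasurable
    apply Measurable.ite
    · exact measurableSet_lt measurable_const (by fun_prop)
    · apply Measurable.mul (Complex.measurable_ofReal.comp hη)
      exact (hcont.comp (by fun_prop : Continuous fun y : ℝ => h + ε * y)).measurable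
    · exact measurable_const
  · filter_upwards [Ioc_mem_nhdsGT (show (0 : ℝ) < 1 by norm_num)] with ε hε
    refine Eventually.of_forall fun y => ?_
    by_cases hy : |y| < 1
    · have hy' : y ∈ Icc (-1 : ℝ) 1 := ⟨(abs_lt.1 hy).1.le, (abs_lt.1 hy).2.le⟩
      rw [indicator_of_mem hy']
      have hmem : h + ε * y ∈ Icc (h - 1) (h + 1) := by
        have := abs_le.1 (show |ε * y| ≤ 1 by
          rw [abs_mul, abs_of_pos hε.1]
          nlinarith [abs_nonneg y, hε.1, hε.2])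
        constructor <;> linarith [this.1, this.2]
      split_ifs
      · rw [norm_mul, Complex.norm_real, Real.norm_eq_abs]
        exact mul_le_mul (hC y) (hB _ hmem) (norm_nonneg _) hC0
      · rw [norm_zero]; positivity
    · push Not at hy
      rw [hs y hy]
      simp only [Complex.ofReal_zero, zero_mul, ite_self, norm_zero]
      apply indicator_nonneg
      intro _ _
      positivity
  · rw [integrable_indicator_iff measurableSet_Icc]
    apply integrableOn_const (by simp) enorm_ne_top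
  · refine Eventually.of_forall fun y => ?_
    have h1 : Tendsto (fun ε : ℝ => h + ε * y) (𝓝[>] 0) (𝓝 h) := by
      have : Tendsto (fun ε : ℝ => h + ε * y) (𝓝 0) (𝓝 (h + 0 * y)) :=
        (by fun_prop : Continuous fun ε : ℝ => h + ε * y).tendsto 0
      rw [zero_mul, add_zero] at this
      exact this.mono_left nhdsWithin_le_nhds
    rcases lt_or_gt_of_ne hv with hneg | hpos
    · have h2 : ∀ᶠ ε : ℝ in 𝓝[>] 0, h + ε * y < 0 := h1.eventually (gt_mem_nhds hneg)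
      rw [if_neg (not_lt.2 hneg.le)]
      refine Tendsto.congr' ?_ tendsto_const_nhds
      filter_upwards [h2] with ε hε
      rw [if_neg (not_lt.2 hε.le)]
    · have h2 : ∀ᶠ ε : ℝ in 𝓝[>] 0, 0 < h + ε * y := h1.eventually (lt_mem_nhds hpos)
      rw [if_pos hpos]
      refine Tendsto.congr' (f₁ := fun ε : ℝ => ((η y : ℝ) : ℂ) * Phi φ (h + ε * y) v) ?_ ?_
      · filter_upwards [h2] with ε hε
        rw [if_pos hε]
      · exact tendsto_const_nhds.mul ((hcont.tendsto h).comp h1)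

theorem norm_slice_le (η : ℝ → ℝ) (C : ℝ) (hC : ∀ x, |η x| ≤ C)
    (hs : ∀ x, 1 ≤ |x| → η x = 0) (φ : C3 → ℂ) {B : ℝ} (hB0 : 0 ≤ B)
    (hB : ∀ z z2 w : ℂ, ‖z‖ ≤ 2 → ‖z2‖ ≤ 2 → ‖w‖ ≤ 2 → ‖φ (z, z2, w)‖ ≤ B) {ε : ℝ} (hε : 0 < ε)
    (hε1 : ε ≤ 1) (v : ℂ × ℂ) :
    ‖∫ y : ℝ, (if 0 < hM v + ε * y then ((η y : ℝ) : ℂ) * Phi φ (hM v + ε * y) v else 0)‖ ≤
      indicator (Metric.closedBall (0 : ℂ × ℂ) 2) (fun _ => 2 * (C * (2 * π * B))) v := by
  have hC0 : 0 ≤ C := (abs_nonneg _).trans (hC 0)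
  have hpi := Real.pi_pos
  by_cases hv : -1 < hM v
  · have hv2 := norm_le_of_hM hv
    have hmem : v ∈ Metric.closedBall (0 : ℂ × ℂ) 2 := by
      rw [mem_closedBall_zero_iff, Prod.norm_def]
      exact max_le hv2.1 hv2.2
    rw [indicator_of_mem hmem]
    have hbound : ∀ y : ℝ, ‖(if 0 < hM v + ε * y then
        ((η y : ℝ) : ℂ) * Phi φ (hM v + ε * y) v else 0)‖ ≤
        indicator (Icc (-1 : ℝ) 1) (fun _ => C * (2 * π * B)) y := by
      intro y
      by_cases hy : |y| < 1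
      · have hy' : y ∈ Icc (-1 : ℝ) 1 := ⟨(abs_lt.1 hy).1.le, (abs_lt.1 hy).2.le⟩
        rw [indicator_of_mem hy']
        split_ifs
        · rw [norm_mul, Complex.norm_real, Real.norm_eq_abs]
          refine mul_le_mul (hC y) (norm_Phi_le hB ?_ hv2.1 hv2.2) (norm_nonneg _) hC0
          have := hM_le_one v
          nlinarith [hy'.2]
        · rw [norm_zero]; positivity
      · push Not at hy
        rw [hs y hy]
        simp only [Complex.ofReal_zero, zero_mul, ite_self, norm_zero]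
        apply indicator_nonneg
        intro _ _
        positivity
    refine (norm_integral_le_of_norm_le ?_ (Eventually.of_forall hbound)).trans ?_
    · rw [integrable_indicator_iff measurableSet_Icc]
      apply integrableOn_const (by simp) enorm_ne_top
    · rw [integral_indicator measurableSet_Icc, setIntegral_const]
      simp
      norm_num
  · push Not at hv
    have h0 : ∀ y : ℝ, (if 0 < hM v + ε * y then
        ((η y : ℝ) : ℂ) * Phi φ (hM v + ε * y) v else 0) = 0 := by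
      intro y
      split_ifs with hy
      · rw [hs y]
        · simp
        · rw [le_abs]
          left
          nlinarith
      · rfl
    simp only [h0]
    simp only [integral_zero, norm_zero]
    apply indicator_nonneg
    intro _ _
    positivity

end B2

theorem tube_rM (η : ℝ → ℝ) (hη : Measurable η) (C : ℝ) (hC : ∀ x, |η x| ≤ C)
    (hs : ∀ x, 1 ≤ |x| → η x = 0) (φ : C3 → ℂ) (hφ : Continuous φ) :
    Tendsto (fun ε : ℝ => ∫ p : C3, ((ε⁻¹ * η (rM p / ε) : ℝ) : ℂ) * φ p) (𝓝[>] 0)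
      (𝓝 (((∫ x, η x : ℝ) : ℂ) * ∫ p, φ p ∂muM)) := by
  have hC0 : 0 ≤ C := (abs_nonneg _).trans (hC 0)
  have hpi := Real.pi_pos
  obtain ⟨B, hB0, hB⟩ := B2.exists_bound φ hφ
  -- integrability on `C3`
  have hint : ∀ ε : ℝ, 0 < ε → ε ≤ 1 → Integrable
      (fun p : C3 => ((ε⁻¹ * η (rM p / ε) : ℝ) : ℂ) * φ p) := by
    intro ε hε hε1
    have hbd : Integrable (indicator (Metric.closedBall (0 : C3) 2) (fun _ => ε⁻¹ * C * B))
        (volume : Measure C3) := by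
      rw [integrable_indicator_iff Metric.isClosed_closedBall.measurableSet]
      exact integrableOn_const measure_closedBall_lt_top.ne enorm_ne_top
    refine Integrable.mono' hbd ?_ (Eventually.of_forall fun p => ?_)
    · apply AEStronglyMeasurable.mul _ hφ.aestronglyMeasurable
      apply Measurable.aestronglyMeasurable
      apply Complex.measurable_ofReal.comp
      apply Measurable.const_mul
      apply hη.comp
      exact B2.continuous_rM.measurable.div_const ε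
    · by_cases hp : |rM p / ε| < 1
      · have h1 : rM p < 1 := by
          have h2 := (abs_lt.1 hp).2
          rw [div_lt_one hε] at h2
          linarith
        have h3 : -1 < hM p.2 := by
          have := B2.rM_eq p.1 p.2
          have h4 : rM p = ‖p.1‖ ^ 2 - hM p.2 := this
          nlinarith [sq_nonneg ‖p.1‖]
        have h5 := B2.norm_le_of_hM h3
        have h6 : ‖p.1‖ ≤ 2 := by
          have h4 : rM p = ‖p.1‖ ^ 2 - hM p.2 := B2.rM_eq p.1 p.2
          have h7 := B2.hM_le_one p.2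
          by_contra hcon
          push Not at hcon
          nlinarith
        have hmem : p ∈ Metric.closedBall (0 : C3) 2 := by
          rw [mem_closedBall_zero_iff, Prod.norm_def, Prod.norm_def]
          exact max_le h6 (max_le h5.1 h5.2)
        rw [indicator_of_mem hmem, norm_mul, Complex.norm_real, norm_mul,
          Real.norm_of_nonneg (inv_nonneg.2 hε.le)]
        apply mul_le_mul _ (hB p.1 p.2.1 p.2.2 h6 h5.1 h5.2) (norm_nonneg _) (by positivity)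
        exact mul_le_mul_of_nonneg_left (by rw [Real.norm_eq_abs]; exact hC _)
          (inv_nonneg.2 hε.le)
      · push Not at hp
        rw [hs _ hp]
        simp only [mul_zero, Complex.ofReal_zero, zero_mul, norm_zero]
        apply indicator_nonneg
        intro _ _
        positivity
  -- Fubini
  have hfub : ∀ ε : ℝ, 0 < ε → ε ≤ 1 →
      ∫ p : C3, ((ε⁻¹ * η (rM p / ε) : ℝ) : ℂ) * φ p =
        ∫ v : ℂ × ℂ, (1 / 2 : ℂ) * ∫ y : ℝ, (if 0 < hM v + ε * y then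
          ((η y : ℝ) : ℂ) * B2.Phi φ (hM v + ε * y) v else 0) := by
    intro ε hε hε1
    have h1 := hint ε hε hε1
    rw [Measure.volume_eq_prod] at h1 ⊢
    rw [integral_prod_symm _ h1]
    congr 1
    funext v
    exact B2.slice η hη C hC hs φ hφ hε hε1 v
  have hmeas : ∀ ε : ℝ, 0 < ε → ε ≤ 1 → AEStronglyMeasurable
      (fun v : ℂ × ℂ => (1 / 2 : ℂ) * ∫ y : ℝ, (if 0 < hM v + ε * y then
          ((η y : ℝ) : ℂ) * B2.Phi φ (hM v + ε * y) v else 0)) volume := by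
    intro ε hε hε1
    have h1 := hint ε hε hε1
    rw [Measure.volume_eq_prod] at h1
    have h2 := h1.integral_prod_right.aestronglyMeasurable
    refine h2.congr (Eventually.of_forall fun v => ?_)
    exact B2.slice η hη C hC hs φ hφ hε hε1 v
  have key : Tendsto (fun ε : ℝ => ∫ v : ℂ × ℂ, (1 / 2 : ℂ) * ∫ y : ℝ,
      (if 0 < hM v + ε * y then ((η y : ℝ) : ℂ) * B2.Phi φ (hM v + ε * y) v else 0)) (𝓝[>] 0)
      (𝓝 (∫ v : ℂ × ℂ, (1 / 2 : ℂ) *
        indicator GM (fun v => ((∫ x, η x : ℝ) : ℂ) * B2.Phi φ (hM v) v) v)) := by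
    apply tendsto_integral_filter_of_dominated_convergence
      (indicator (Metric.closedBall (0 : ℂ × ℂ) 2) (fun _ => 2 * (C * (2 * π * B))))
    · filter_upwards [Ioc_mem_nhdsGT (show (0 : ℝ) < 1 by norm_num)] with ε hε
      exact hmeas ε hε.1 hε.2
    · filter_upwards [Ioc_mem_nhdsGT (show (0 : ℝ) < 1 by norm_num)] with ε hε
      refine Eventually.of_forall fun v => ?_
      have h1 := B2.norm_slice_le η C hC hs φ hB0 hB hε.1 hε.2 v
      rw [norm_mul]
      have h2 : ‖(1 / 2 : ℂ)‖ = 1 / 2 := by norm_num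
      rw [h2]
      linarith [norm_nonneg (∫ y : ℝ, (if 0 < hM v + ε * y then
          ((η y : ℝ) : ℂ) * B2.Phi φ (hM v + ε * y) v else 0))]
    · rw [integrable_indicator_iff Metric.isClosed_closedBall.measurableSet]
      exact integrableOn_const measure_closedBall_lt_top.ne enorm_ne_top
    · have hae : ∀ᵐ v : ℂ × ℂ, hM v ≠ 0 := by
        rw [ae_iff]
        simpa using B2.null_hM
      filter_upwards [hae] with v hv
      exact (B2.slice_tendsto η hη C hC hs φ hφ v hv).const_mul _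
  have hend : (∫ v : ℂ × ℂ, (1 / 2 : ℂ) *
        indicator GM (fun v => ((∫ x, η x : ℝ) : ℂ) * B2.Phi φ (hM v) v) v) =
      ((∫ x, η x : ℝ) : ℂ) * ∫ p, φ p ∂muM := by
    rw [integral_const_mul, integral_indicator B2.isOpen_GM.measurableSet, integral_const_mul,
      B2.integral_muM' φ hφ]
    ring
  rw [hend] at key
  refine key.congr' ?_
  filter_upwards [Ioc_mem_nhdsGT (show (0 : ℝ) < 1 by norm_num)] with ε hε
  exact (hfub ε hε.1 hε.2).symm

namespace B2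

theorem rM_PM (x : ℝ × (ℂ × ℂ)) (hx : 0 ≤ hM x.2) : rM (PM x) = 0 := by
  have h := rM_eq (((√(hM x.2) : ℝ) : ℂ) * Complex.exp (x.1 * Complex.I)) x.2
  have h2 : rM (PM x) = ‖((√(hM x.2) : ℝ) : ℂ) * Complex.exp (x.1 * Complex.I)‖ ^ 2 - hM x.2 := h
  rw [h2, norm_mul, Complex.norm_exp_ofReal_mul_I, Complex.norm_real,
    Real.norm_of_nonneg (Real.sqrt_nonneg _), mul_one, Real.sq_sqrt hx, sub_self]

theorem volume_GM_lt_top : volume GM < ⊤ := by
  refine lt_of_le_of_lt (measure_mono (t := Metric.closedBall (0 : ℂ × ℂ) 2) ?_)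
    measure_closedBall_lt_top
  intro v hv
  have := norm_le_of_hM (lt_trans (by norm_num) (show 0 < hM v from hv))
  rw [mem_closedBall_zero_iff, Prod.norm_def]
  exact max_le this.1 this.2

theorem muM_apply {s : Set C3} (hs : MeasurableSet s) : muM s =
    (1 / 2 : ℝ≥0∞) * ((volume : Measure ℝ).prod volume) ((PM ⁻¹' s) ∩ (Ioo (-π) π ×ˢ GM)) := by
  unfold muM
  rw [Measure.smul_apply, smul_eq_mul, Measure.map_apply continuous_PM.measurable hs,
    Measure.prod_restrict, Measure.restrict_apply (continuous_PM.measurable hs)]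

theorem half_ind (φ : C3 → ℝ) (ε : ℝ) (hε : 0 < ε) :
    (((1 / (2 * ε)) * ∫ p in {p : C3 | |rM p| < ε}, φ p : ℝ) : ℂ) =
      ∫ p : C3, ((ε⁻¹ * (indicator {x : ℝ | |x| < 1} (fun _ => (1 / 2 : ℝ)) (rM p / ε)) : ℝ) : ℂ) *
        ((φ p : ℝ) : ℂ) := by
  have hmeas : MeasurableSet {p : C3 | |rM p| < ε} :=
    (isOpen_lt continuous_rM.abs continuous_const).measurableSet
  have h1 : ∀ p : C3, ((ε⁻¹ * (indicator {x : ℝ | |x| < 1} (fun _ => (1 / 2 : ℝ)) (rM p / ε)) : ℝ)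
      : ℂ) * ((φ p : ℝ) : ℂ) =
      (((1 / (2 * ε)) * indicator {p : C3 | |rM p| < ε} φ p : ℝ) : ℂ) := by
    intro p
    by_cases hp : |rM p| < ε
    · have h2 : |rM p / ε| < 1 := by
        rw [abs_div, abs_of_pos hε, div_lt_one hε]
        exact hp
      rw [indicator_of_mem (show rM p / ε ∈ {x : ℝ | |x| < 1} from h2),
        indicator_of_mem (show p ∈ {p : C3 | |rM p| < ε} from hp)]
      push_cast
      field_simp
    · have h2 : ¬ |rM p / ε| < 1 := by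
        rw [abs_div, abs_of_pos hε, div_lt_one hε]
        exact hp
      rw [indicator_of_notMem (show rM p / ε ∉ {x : ℝ | |x| < 1} from h2),
        indicator_of_notMem (show p ∉ {p : C3 | |rM p| < ε} from hp)]
      simp
  simp only [h1]
  have h3 : (∫ p : C3, (((1 / (2 * ε)) * indicator {p : C3 | |rM p| < ε} φ p : ℝ) : ℂ)) =
      ((∫ p : C3, (1 / (2 * ε)) * indicator {p : C3 | |rM p| < ε} φ p : ℝ) : ℂ) := integral_ofReal
  rw [h3, integral_const_mul, integral_indicator hmeas]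

end B2

theorem isVol_muM : IsVol rM muM where
  finite := by
    refine ⟨?_⟩
    rw [B2.muM_apply MeasurableSet.univ]
    refine ENNReal.mul_lt_top (by simp) ?_
    refine lt_of_le_of_lt (measure_mono inter_subset_right) ?_
    rw [Measure.prod_prod]
    exact ENNReal.mul_lt_top (by simp) B2.volume_GM_lt_top
  supp := by
    have hcl : IsClosed (Hyp rM) := isClosed_singleton.preimage B2.continuous_rM
    rw [B2.muM_apply hcl.measurableSet.compl]
    have : (PM ⁻¹' (Hyp rM)ᶜ) ∩ (Ioo (-π) π ×ˢ GM) = ∅ := by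
      ext x
      simp only [mem_inter_iff, mem_preimage, mem_compl_iff, mem_empty_iff_false, iff_false,
        not_and]
      intro h1 h2
      exact h1 (B2.rM_PM x (le_of_lt (show 0 < hM x.2 from h2.2)))
    rw [this, measure_empty, mul_zero]
  tube := by
    intro φ hφ _
    have hφc : Continuous (fun p : C3 => ((φ p : ℝ) : ℂ)) := Complex.continuous_ofReal.comp hφ
    have hmeas1 : MeasurableSet {x : ℝ | |x| < 1} :=
      (isOpen_lt continuous_abs continuous_const).measurableSet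
    have h := tube_rM (indicator {x : ℝ | |x| < 1} (fun _ => (1 / 2 : ℝ)))
      (measurable_const.indicator hmeas1) (1 / 2) ?_ ?_ (fun p => ((φ p : ℝ) : ℂ)) hφc
    · have hone : ∫ x : ℝ, indicator {x : ℝ | |x| < 1} (fun _ => (1 / 2 : ℝ)) x = 1 := by
        rw [integral_indicator hmeas1, setIntegral_const]
        have : {x : ℝ | |x| < 1} = Ioo (-1 : ℝ) 1 := by
          ext x
          exact abs_lt (a := x) (b := 1)
        rw [this]
        simp
        norm_num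
      have hof : (∫ p, ((φ p : ℝ) : ℂ) ∂muM) = ((∫ p, φ p ∂muM : ℝ) : ℂ) := integral_ofReal
      rw [hone, hof, Complex.ofReal_one, one_mul] at h
      have h2 : Tendsto (fun ε : ℝ => (((1 / (2 * ε)) * ∫ p in {p : C3 | |rM p| < ε}, φ p : ℝ)
          : ℂ)) (𝓝[>] 0) (𝓝 ((∫ p, φ p ∂muM : ℝ) : ℂ)) := by
        refine h.congr' ?_
        filter_upwards [self_mem_nhdsWithin] with ε hε
        exact (B2.half_ind φ ε hε).symm
      have h3 := (Complex.continuous_re.tendsto _).comp h2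
      simpa [Function.comp_def] using h3
    · intro x
      by_cases hx : x ∈ {x : ℝ | |x| < 1}
      · rw [indicator_of_mem hx, abs_of_pos (by norm_num : (0 : ℝ) < 1 / 2)]
      · rw [indicator_of_notMem hx]
        norm_num
    · intro x hx
      rw [indicator_of_notMem]
      exact not_lt.2 hx

theorem muM_pos_circle (θ : ℝ) (U : Set C3)
    (hU : U ∈ 𝓝 ((0, 0, Complex.exp (θ * Complex.I)) : C3)) : 0 < muM U := by
  obtain ⟨W, hWU, hWo, hWp⟩ := mem_nhds_iff.1 hU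
  refine lt_of_lt_of_le ?_ (measure_mono hWU)
  rw [B2.muM_apply hWo.measurableSet]
  refine ENNReal.mul_pos (by norm_num) ?_
  have hopen : IsOpen ((PM ⁻¹' W) ∩ (Ioo (-π) π ×ˢ GM)) :=
    (hWo.preimage B2.continuous_PM).inter (isOpen_Ioo.prod B2.isOpen_GM)
  refine (hopen.measure_pos _ ?_).ne'
  -- the curve `δ ↦ (0, (0, (1 - δ) e^{iθ}))`
  let c : ℝ → ℝ × (ℂ × ℂ) := fun δ => (0, (0, ((1 - δ : ℝ) : ℂ) * Complex.exp (θ * Complex.I)))
  have hc : Continuous c := by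
    simp only [c]
    fun_prop
  have hnorm : ∀ δ : ℝ, ‖((1 - δ : ℝ) : ℂ) * Complex.exp (θ * Complex.I)‖ ^ 2 = (1 - δ) ^ 2 := by
    intro δ
    rw [norm_mul, Complex.norm_exp_ofReal_mul_I, Complex.norm_real, mul_one, Real.norm_eq_abs,
      sq_abs]
  have hh : ∀ δ : ℝ, hM (c δ).2 = 1 - (1 - δ) ^ 2 := by
    intro δ
    simp only [hM, c, sf, norm_zero, hnorm]
    ring
  have hlim : PM (c 0) = (0, 0, Complex.exp (θ * Complex.I)) := by
    have h0 : hM (c 0).2 = 0 := by rw [hh]; ring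
    unfold PM
    rw [h0]
    simp [c]
  have hW : ∀ᶠ δ in 𝓝 (0 : ℝ), PM (c δ) ∈ W := by
    apply (B2.continuous_PM.comp hc).continuousAt.eventually_mem
    simp only [Function.comp_apply, hlim]
    exact hWo.mem_nhds hWp
  have hW' : ∀ᶠ δ in 𝓝[>] (0 : ℝ), PM (c δ) ∈ W := hW.filter_mono nhdsWithin_le_nhds
  obtain ⟨δ, hδW, hδ⟩ := (hW'.and (Ioo_mem_nhdsGT (show (0 : ℝ) < 1 by norm_num))).exists
  refine ⟨c δ, hδW, ⟨?_, ?_⟩, ?_⟩
  · show -π < (0 : ℝ)
    linarith [Real.pi_pos]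
  · show (0 : ℝ) < π
    exact Real.pi_pos
  · show 0 < hM (c δ).2
    rw [hh]
    nlinarith [hδ.1, hδ.2]

end Pool.Agent.Work.MP_e29078_an

end

section

/-! Resolvent kernel of the limit convolution operator on a zero free line. -/

open MeasureTheory Set Filter Topology FourierTransform
open scoped Real ComplexConjugate

namespace Pool.Agent.Work.MP_e29078_an

/-- the moments of the symbol -/
noncomputable def Mj (j : ℕ) (T : ℂ) : ℂ :=
  ∫ x in Ioi (0 : ℝ), (x : ℂ) ^ j * Complex.exp (-((x : ℂ) ^ 2 + T ^ 2 * x) / 2)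

theorem kap_eq_Mj (T : ℂ) : kap T = Mj 1 T := by
  unfold kap Mj
  simp

theorem pow_exp_integral (j : ℕ) {l : ℝ} (hl : 0 < l) :
    ∫ x in Ioi (0 : ℝ), x ^ j * Real.exp (-(l * x)) = (1 / l) ^ (j + 1) * (j.factorial : ℝ) := by
  have h := Real.integral_rpow_mul_exp_neg_mul_Ioi (a := (j : ℝ) + 1) (by positivity) hl
  rw [Real.Gamma_nat_eq_factorial] at h
  rw [← Real.rpow_natCast (1 / l) (j + 1)]
  push_cast
  rw [← h]
  refine setIntegral_congr_fun measurableSet_Ioi (fun x _ => ?_)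
  simp

theorem pow_exp_integrable (j : ℕ) {l : ℝ} (hl : 0 < l) :
    IntegrableOn (fun x : ℝ => x ^ j * Real.exp (-(l * x))) (Ioi 0) := by
  by_contra h
  have h1 := pow_exp_integral j hl
  rw [integral_undef h] at h1
  have : 0 < (1 / l) ^ (j + 1) * (j.factorial : ℝ) := by positivity
  linarith

theorem norm_exp_le (T : ℂ) {x : ℝ} (hx : 0 < x) {B : ℝ} (hB : |T.im| ≤ B) :
    ‖Complex.exp (-((x : ℂ) ^ 2 + T ^ 2 * x) / 2)‖ ≤
      Real.exp ((B ^ 2 + 1) ^ 2 / 8) * Real.exp (-((1 + T.re ^ 2) / 2 * x)) := by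
  rw [Complex.norm_exp, ← Real.exp_add]
  refine Real.exp_le_exp.2 ?_
  have h1 : (-((x : ℂ) ^ 2 + T ^ 2 * x) / 2).re = -(x ^ 2 + (T.re ^ 2 - T.im ^ 2) * x) / 2 := by
    have h2 : (-((x : ℂ) ^ 2 + T ^ 2 * x) / 2) = ((-1 / 2 : ℝ) : ℂ) * ((x ^ 2 : ℝ) : ℂ) +
        ((-1 / 2 * x : ℝ) : ℂ) * T ^ 2 := by push_cast; ring
    rw [h2, Complex.add_re, Complex.re_ofReal_mul, Complex.re_ofReal_mul, Complex.ofReal_re,
      sq T, Complex.mul_re]
    ring
  rw [h1]
  have h3 : T.im ^ 2 ≤ B ^ 2 := by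
    rw [← sq_abs T.im]
    exact pow_le_pow_left₀ (abs_nonneg _) hB 2
  nlinarith [sq_nonneg (x - (B ^ 2 + 1) / 2), mul_le_mul_of_nonneg_right h3 hx.le]

theorem Mj_norm_le (j : ℕ) (T : ℂ) {B : ℝ} (hB : |T.im| ≤ B) :
    ‖Mj j T‖ ≤ Real.exp ((B ^ 2 + 1) ^ 2 / 8) *
      ((2 / (1 + T.re ^ 2)) ^ (j + 1) * (j.factorial : ℝ)) := by
  have hl : 0 < (1 + T.re ^ 2) / 2 := by positivity
  have h1 := pow_exp_integral j hl
  have h2 : ‖Mj j T‖ ≤ ∫ x in Ioi (0 : ℝ), Real.exp ((B ^ 2 + 1) ^ 2 / 8) *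
      (x ^ j * Real.exp (-((1 + T.re ^ 2) / 2 * x))) := by
    refine norm_integral_le_of_norm_le ((pow_exp_integrable j hl).const_mul _) ?_
    filter_upwards [ae_restrict_mem measurableSet_Ioi] with x hx
    have hx' : (0 : ℝ) < x := hx
    rw [norm_mul, norm_pow, Complex.norm_real, Real.norm_of_nonneg hx'.le]
    calc x ^ j * ‖Complex.exp (-((x : ℂ) ^ 2 + T ^ 2 * x) / 2)‖
        ≤ x ^ j * (Real.exp ((B ^ 2 + 1) ^ 2 / 8) * Real.exp (-((1 + T.re ^ 2) / 2 * x))) := by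
          gcongr
          exact norm_exp_le T hx' hB
      _ = _ := by ring
  rw [integral_const_mul, h1] at h2
  convert h2 using 3
  rw [one_div_div]

theorem Mj_hasDerivAt (j : ℕ) (T : ℂ) : HasDerivAt (Mj j) (-T * Mj (j + 1) T) T := by
  set B : ℝ := ‖T‖ + 1 with hB
  have hmem : Metric.ball T 1 ∈ 𝓝 T := Metric.ball_mem_nhds T one_pos
  have hbd : ∀ z ∈ Metric.ball T 1, ‖z‖ ≤ B := by
    intro z hz
    have h1 : ‖z - T‖ < 1 := by rwa [← dist_eq_norm]
    have h2 : ‖z‖ ≤ ‖z - T‖ + ‖T‖ := by simpa using norm_add_le (z - T) T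
    linarith
  have hnorm : ∀ (k : ℕ) (z : ℂ), ‖z‖ ≤ B → ∀ x : ℝ, 0 < x →
      ‖(x : ℂ) ^ k * Complex.exp (-((x : ℂ) ^ 2 + z ^ 2 * x) / 2)‖ ≤
        Real.exp ((B ^ 2 + 1) ^ 2 / 8) * (x ^ k * Real.exp (-(1 / 2 * x))) := by
    intro k z hz x hx
    rw [norm_mul, norm_pow, Complex.norm_real, Real.norm_of_nonneg hx.le]
    have h1 := norm_exp_le z hx (B := B) ((Complex.abs_im_le_norm z).trans hz)
    have h2 : Real.exp (-((1 + z.re ^ 2) / 2 * x)) ≤ Real.exp (-(1 / 2 * x)) := by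
      refine Real.exp_le_exp.2 ?_
      nlinarith [sq_nonneg z.re, mul_nonneg (sq_nonneg z.re) hx.le]
    calc x ^ k * ‖Complex.exp (-((x : ℂ) ^ 2 + z ^ 2 * x) / 2)‖
        ≤ x ^ k * (Real.exp ((B ^ 2 + 1) ^ 2 / 8) * Real.exp (-((1 + z.re ^ 2) / 2 * x))) := by
          gcongr
      _ ≤ x ^ k * (Real.exp ((B ^ 2 + 1) ^ 2 / 8) * Real.exp (-(1 / 2 * x))) := by gcongr
      _ = _ := by ring
  have hhalf : (0 : ℝ) < 1 / 2 := by norm_num
  have hint : ∀ k : ℕ, ∀ z : ℂ, ‖z‖ ≤ B → IntegrableOn (fun x : ℝ =>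
      (x : ℂ) ^ k * Complex.exp (-((x : ℂ) ^ 2 + z ^ 2 * x) / 2)) (Ioi 0) := by
    intro k z hz
    refine Integrable.mono' ((pow_exp_integrable k hhalf).const_mul
      (Real.exp ((B ^ 2 + 1) ^ 2 / 8))) ?_ ?_
    · exact (Continuous.aestronglyMeasurable (by fun_prop))
    · filter_upwards [ae_restrict_mem measurableSet_Ioi] with x hx
      exact hnorm k z hz x hx
  have key := (hasDerivAt_integral_of_dominated_loc_of_deriv_le (μ := volume.restrict (Ioi (0 : ℝ)))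
    (F := fun z (x : ℝ) => (x : ℂ) ^ j * Complex.exp (-((x : ℂ) ^ 2 + z ^ 2 * x) / 2))
    (F' := fun z (x : ℝ) => -z * ((x : ℂ) ^ (j + 1) *
      Complex.exp (-((x : ℂ) ^ 2 + z ^ 2 * x) / 2)))
    (bound := fun x => B * (Real.exp ((B ^ 2 + 1) ^ 2 / 8) *
      (x ^ (j + 1) * Real.exp (-(1 / 2 * x)))))
    hmem (Eventually.of_forall fun z => (Continuous.aestronglyMeasurable (by fun_prop)))
    (hint j T (by rw [hB]; linarith)) (Continuous.aestronglyMeasurable (by fun_prop))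
    ?_ (((pow_exp_integrable (j + 1) hhalf).const_mul _).const_mul _) ?_).2
  · rw [integral_const_mul] at key
    exact key
  · filter_upwards [ae_restrict_mem measurableSet_Ioi] with x hx z hz
    rw [norm_mul, norm_neg]
    exact mul_le_mul (hbd z hz) (hnorm (j + 1) z (hbd z hz) x hx) (norm_nonneg _)
      ((norm_nonneg z).trans (hbd z hz))
  · filter_upwards with x z _
    have h1 : HasDerivAt (fun z : ℂ => -((x : ℂ) ^ 2 + z ^ 2 * x) / 2) (-(z * x)) z := by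
      have h2 := ((((hasDerivAt_pow 2 z).mul_const (x : ℂ)).const_add ((x : ℂ) ^ 2)).neg).div_const 2
      convert! h2 using 1
      simp
      ring
    have h3 := (h1.cexp).const_mul ((x : ℂ) ^ j)
    convert! h3 using 1
    ring

theorem Mj_differentiable (j : ℕ) : Differentiable ℂ (Mj j) :=
  fun T => (Mj_hasDerivAt j T).differentiableAt

theorem exists_line (a b : ℝ) (hab : a < b) :
    ∃ c ∈ Ioo a b, ∀ s : ℝ, Mj 1 ((s : ℂ) + c * Complex.I) ≠ 1 := by
  by_contra hcon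
  push Not at hcon
  set f : ℂ → ℂ := fun T => Mj 1 T - 1 with hf
  have hfa : AnalyticOnNhd ℂ f univ := by
    have : Differentiable ℂ f := (Mj_differentiable 1).sub_const 1
    exact this.differentiableOn.analyticOnNhd isOpen_univ
  have h3 : f (3 : ℂ) ≠ 0 := by
    intro h0
    have h1 : Mj 1 (3 : ℂ) = 1 := by
      have : Mj 1 (3 : ℂ) - 1 = 0 := h0
      linear_combination this
    have h2 := Mj_norm_le 1 (3 : ℂ) (B := 0) (by simp)
    rw [h1] at h2
    have h4 : Real.exp ((0 ^ 2 + 1) ^ 2 / 8) ≤ 3 := by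
      have := Real.exp_one_lt_d9
      have h5 : Real.exp ((0 ^ 2 + 1) ^ 2 / 8) ≤ Real.exp 1 := by
        refine Real.exp_le_exp.2 ?_
        norm_num
      linarith
    have h6 : ((3 : ℂ).re) = 3 := by norm_num
    rw [h6] at h2
    norm_num at h2
    norm_num at h4
    linarith
  have hco : f ⁻¹' {0}ᶜ ∈ codiscrete ℂ := by
    rcases hfa.eqOn_zero_or_eventually_ne_zero_of_preconnected isPreconnected_univ with h | h
    · exact absurd (h (mem_univ (3 : ℂ))) h3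
    · exact h
  have hcl : IsClosed (f ⁻¹' {0}) := by
    simpa using (mem_codiscrete'.mp hco).1
  have hdi : IsDiscrete (f ⁻¹' {0}) := by
    simpa using (mem_codiscrete'.mp hco).2
  set B : ℝ := max |a| |b| with hB
  set K : ℝ := Real.exp ((B ^ 2 + 1) ^ 2 / 8) with hK
  have hKpos : 0 < K := Real.exp_pos _
  set S : ℝ := 4 * K with hS
  have hcomp : IsCompact (Icc (-S) S ×ℂ Icc a b) := isCompact_Icc.reProdIm isCompact_Icc
  have hfin : ((Icc (-S) S ×ℂ Icc a b) ∩ f ⁻¹' {0}).Finite :=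
    (hcomp.inter_right hcl).finite (hdi.mono inter_subset_right)
  refine (Ioo_infinite hab) ((hfin.image Complex.im).subset ?_)
  intro c hc
  obtain ⟨s, hs⟩ := hcon c hc
  refine ⟨(s : ℂ) + c * Complex.I, ⟨?_, ?_⟩, by simp⟩
  · rw [Complex.mem_reProdIm]
    simp only [Complex.add_re, Complex.ofReal_re, Complex.mul_re, Complex.I_re, mul_zero,
      Complex.ofReal_im, Complex.I_im, mul_one, sub_self, add_zero, Complex.add_im, Complex.mul_im,
      zero_add]
    refine ⟨?_, Ioo_subset_Icc_self hc⟩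
    by_contra hout
    have habs : S < |s| := by
      by_contra hh
      exact hout (abs_le.1 (not_lt.1 hh))
    have hcB : |((s : ℂ) + c * Complex.I).im| ≤ B := by
      simp only [Complex.add_im, Complex.ofReal_im, Complex.mul_im, Complex.ofReal_re,
        Complex.I_im, mul_one, Complex.I_re, mul_zero, add_zero, zero_add]
      rw [hB]
      rcases abs_cases c with ⟨h, _⟩ | ⟨h, _⟩
      · rw [h]; exact le_trans (hc.2.le.trans (le_abs_self b)) (le_max_right _ _)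
      · rw [h]; exact le_trans ((neg_le_neg hc.1.le).trans (neg_le_abs a)) (le_max_left _ _)
    have h2 := Mj_norm_le 1 ((s : ℂ) + c * Complex.I) hcB
    rw [hs, norm_one, ← hK] at h2
    have h6 : (((s : ℂ) + c * Complex.I).re) = s := by simp
    rw [h6] at h2
    have hK1 : 1 ≤ K := by
      rw [hK]
      exact Real.one_le_exp (by positivity)
    have h7 : S ^ 2 < s ^ 2 := by
      rw [← sq_abs s]
      exact pow_lt_pow_left₀ habs (by positivity) (by norm_num)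
    have h8 : K * ((2 / (1 + s ^ 2)) ^ (1 + 1) * (Nat.factorial 1 : ℝ)) < 1 := by
      have h9 : K * ((2 / (1 + s ^ 2)) ^ (1 + 1) * (Nat.factorial 1 : ℝ)) =
          4 * K / (1 + s ^ 2) ^ 2 := by
        simp [Nat.factorial]
        field_simp
        norm_num
      rw [h9, div_lt_one (by positivity)]
      have h10 : S ^ 2 < (1 + s ^ 2) ^ 2 := by nlinarith
      have h11 : 4 * K ≤ S ^ 2 := by rw [hS]; nlinarith
      linarith
    linarith
  · simp only [mem_preimage, mem_singleton_iff, hf]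
    rw [hs]; simp

/-- the point of the line -/
noncomputable def ln (c w : ℝ) : ℂ := ((2 * π * w : ℝ) : ℂ) + c * Complex.I

theorem ln_re (c w : ℝ) : (ln c w).re = 2 * π * w := by simp [ln]

theorem ln_im (c w : ℝ) : (ln c w).im = c := by simp [ln]

theorem ln_hasDerivAt (c w : ℝ) : HasDerivAt (ln c) (2 * π : ℂ) w := by
  unfold ln
  have h1 : HasDerivAt (fun w : ℝ => ((2 * π * w : ℝ) : ℂ)) ((2 * π : ℝ) : ℂ) w := by
    have := ((hasDerivAt_id w).const_mul (2 * π)).ofReal_comp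
    simpa using this
  have h2 := h1.add_const ((c : ℂ) * Complex.I)
  convert! h2 using 1
  push_cast
  ring

noncomputable def ka (c w : ℝ) : ℂ := Mj 1 (ln c w)
noncomputable def ka1 (c w : ℝ) : ℂ := (-(ln c w) * Mj 2 (ln c w)) * (2 * π : ℂ)
noncomputable def ka2 (c w : ℝ) : ℂ :=
  ((-Mj 2 (ln c w) + (ln c w) ^ 2 * Mj 3 (ln c w)) * (2 * π : ℂ)) * (2 * π : ℂ)

theorem ka_hasDerivAt (c w : ℝ) : HasDerivAt (ka c) (ka1 c w) w := by
  have h := HasDerivAt.comp_of_eq (h₂ := Mj 1) (h := ln c) w (Mj_hasDerivAt 1 (ln c w))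
    (ln_hasDerivAt c w) rfl
  exact h

theorem ka1_hasDerivAt (c w : ℝ) : HasDerivAt (ka1 c) (ka2 c w) w := by
  have h0 : HasDerivAt (fun T : ℂ => -T * Mj 2 T)
      (-Mj 2 (ln c w) + (ln c w) ^ 2 * Mj 3 (ln c w)) (ln c w) := by
    have h1 := (hasDerivAt_id (ln c w)).neg.mul (Mj_hasDerivAt 2 (ln c w))
    convert! h1 using 1
    simp
    ring
  have h := HasDerivAt.comp_of_eq (h₂ := fun T : ℂ => -T * Mj 2 T) (h := ln c) w h0
    (ln_hasDerivAt c w) rfl
  exact h.mul_const (2 * π : ℂ)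

theorem ka_continuous (c : ℝ) : Continuous (ka c) :=
  continuous_iff_continuousAt.2 fun w => (ka_hasDerivAt c w).continuousAt

theorem ka1_continuous (c : ℝ) : Continuous (ka1 c) :=
  continuous_iff_continuousAt.2 fun w => (ka1_hasDerivAt c w).continuousAt

theorem ln_continuous (c : ℝ) : Continuous (ln c) :=
  continuous_iff_continuousAt.2 fun w => (ln_hasDerivAt c w).continuousAt

theorem ka2_continuous (c : ℝ) : Continuous (ka2 c) := by
  unfold ka2
  have h1 := ln_continuous c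
  have h2 := (Mj_differentiable 2).continuous.comp h1
  have h3 := (Mj_differentiable 3).continuous.comp h1
  have h2' : Continuous (fun w => Mj 2 (ln c w)) := h2
  have h3' : Continuous (fun w => Mj 3 (ln c w)) := h3
  fun_prop

theorem ka_bounds (c : ℝ) : ∃ C : ℝ, 0 ≤ C ∧ ∀ w : ℝ,
    ‖ka c w‖ ≤ C * (1 + w ^ 2)⁻¹ ∧ ‖ka1 c w‖ ≤ C * (1 + w ^ 2)⁻¹ ∧
      ‖ka2 c w‖ ≤ C * (1 + w ^ 2)⁻¹ := by
  set K : ℝ := Real.exp ((|c| ^ 2 + 1) ^ 2 / 8) with hK
  have hK0 : 0 < K := Real.exp_pos _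
  have hpi : (3 : ℝ) < π := Real.pi_gt_three
  refine ⟨(1 + c ^ 2) * K * 1000 * π ^ 2, by positivity, fun w => ?_⟩
  set u : ℝ := (1 + (2 * π * w) ^ 2)⁻¹ with hu
  have hu0 : 0 < u := by positivity
  have hu1 : u ≤ 1 := by
    rw [hu]
    exact inv_le_one_of_one_le₀ (by nlinarith [sq_nonneg (2 * π * w)])
  have huw : u ≤ (1 + w ^ 2)⁻¹ := by
    rw [hu]
    refine inv_anti₀ (by positivity) ?_
    have : w ^ 2 ≤ (2 * π * w) ^ 2 := by
      have h1 : (2 * π * w) ^ 2 = (2 * π) ^ 2 * w ^ 2 := by ring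
      have h2 : (1 : ℝ) ≤ (2 * π) ^ 2 := by nlinarith
      rw [h1]
      nlinarith [sq_nonneg w, mul_le_mul_of_nonneg_right h2 (sq_nonneg w)]
    linarith
  have hM : ∀ j : ℕ, ‖Mj j (ln c w)‖ ≤ K * ((2 * u) ^ (j + 1) * (j.factorial : ℝ)) := by
    intro j
    have h := Mj_norm_le j (ln c w) (B := |c|) (by rw [ln_im])
    rw [ln_re, ← hK] at h
    rw [hu, ← div_eq_mul_inv]
    exact h
  have hT2 : ‖ln c w‖ ^ 2 * u ≤ 1 + c ^ 2 := by
    rw [← Complex.normSq_eq_norm_sq, Complex.normSq_apply, ln_re, ln_im, hu,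
      mul_inv_le_iff₀ (by positivity)]
    nlinarith [sq_nonneg (2 * π * w), mul_nonneg (sq_nonneg c) (sq_nonneg (2 * π * w))]
  have hT1 : ‖ln c w‖ * u ≤ 2 + c ^ 2 := by
    have h1 : ‖ln c w‖ ≤ 1 + ‖ln c w‖ ^ 2 := by nlinarith [sq_nonneg (‖ln c w‖ - 1), norm_nonneg (ln c w)]
    calc ‖ln c w‖ * u ≤ (1 + ‖ln c w‖ ^ 2) * u := by gcongr
      _ = u + ‖ln c w‖ ^ 2 * u := by ring
      _ ≤ 2 + c ^ 2 := by linarith
  have hnpi : ‖(2 * π : ℂ)‖ = 2 * π := by
    rw [norm_mul, Complex.norm_real, Real.norm_of_nonneg (by positivity)]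
    norm_num
  have hA : 1 ≤ 1 + c ^ 2 := by nlinarith [sq_nonneg c]
  have hp2 : (9 : ℝ) < π ^ 2 := by nlinarith
  have hmain : ∀ X : ℝ, X ≤ (1 + c ^ 2) * K * 1000 * π ^ 2 * u →
      X ≤ (1 + c ^ 2) * K * 1000 * π ^ 2 * (1 + w ^ 2)⁻¹ := by
    intro X hX
    refine hX.trans ?_
    gcongr
  have hM2 := hM 2
  have hM3 := hM 3
  have hM1 := hM 1
  simp only [Nat.factorial, Nat.succ_eq_add_one] at hM1 hM2 hM3
  norm_num at hM1 hM2 hM3
  have hKu : 0 < K * u := by positivity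
  have hu2 : u ^ 2 ≤ u := by nlinarith
  have hu3 : u ^ 3 ≤ u := by nlinarith [mul_pos hu0 hu0]
  have hKu2 : K * u ^ 2 ≤ K * u := mul_le_mul_of_nonneg_left hu2 hK0.le
  have hKu3 : K * u ^ 3 ≤ K * u := mul_le_mul_of_nonneg_left hu3 hK0.le
  refine ⟨hmain _ ?_, hmain _ ?_, hmain _ ?_⟩
  · unfold ka
    refine hM1.trans ?_
    have h1 : K * (2 * u) ^ 2 ≤ 4 * (K * u) := by
      have : K * (2 * u) ^ 2 = 4 * (K * u ^ 2) := by ring
      linarith
    have h2 : 4 * (K * u) ≤ (1 + c ^ 2) * K * 1000 * π ^ 2 * u := by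
      have : (1 + c ^ 2) * K * 1000 * π ^ 2 * u = ((1 + c ^ 2) * π ^ 2 * 1000) * (K * u) := by ring
      rw [this]
      refine mul_le_mul_of_nonneg_right ?_ hKu.le
      nlinarith
    linarith
  · unfold ka1
    rw [norm_mul, norm_mul, norm_neg, hnpi]
    have h1 : ‖ln c w‖ * ‖Mj 2 (ln c w)‖ ≤ (2 + c ^ 2) * (16 * (K * u)) := by
      calc ‖ln c w‖ * ‖Mj 2 (ln c w)‖ ≤ ‖ln c w‖ * (K * ((2 * u) ^ 3 * 2)) := by gcongr
        _ = (‖ln c w‖ * u) * (16 * (K * u ^ 2)) := by ring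
        _ ≤ (2 + c ^ 2) * (16 * (K * u)) := by
          have : 16 * (K * u ^ 2) ≤ 16 * (K * u) := by linarith
          exact mul_le_mul hT1 this (by positivity) (by positivity)
    have h2 : ‖ln c w‖ * ‖Mj 2 (ln c w)‖ * (2 * π) ≤ (2 + c ^ 2) * (16 * (K * u)) * (2 * π) := by
      gcongr
    refine h2.trans ?_
    have : (1 + c ^ 2) * K * 1000 * π ^ 2 * u = ((1 + c ^ 2) * π ^ 2 * 1000) * (K * u) := by ring
    rw [this]
    have h3 : (2 + c ^ 2) * (16 * (K * u)) * (2 * π) = ((2 + c ^ 2) * 32 * π) * (K * u) := by ring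
    rw [h3]
    refine mul_le_mul_of_nonneg_right ?_ hKu.le
    have h4 : (2 + c ^ 2) ≤ 2 * (1 + c ^ 2) := by nlinarith [sq_nonneg c]
    have h5 : (2 + c ^ 2) * 32 * π ≤ 2 * (1 + c ^ 2) * 32 * π := by gcongr
    have h6 : 64 * π ≤ 1000 * π ^ 2 := by nlinarith
    nlinarith [mul_le_mul_of_nonneg_left h6 (by positivity : (0 : ℝ) ≤ 1 + c ^ 2)]
  · unfold ka2
    rw [norm_mul, norm_mul, hnpi]
    have h1 : ‖-Mj 2 (ln c w) + (ln c w) ^ 2 * Mj 3 (ln c w)‖ ≤
        16 * (K * u) + (1 + c ^ 2) * (96 * (K * u)) := by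
      refine (norm_add_le _ _).trans (add_le_add ?_ ?_)
      · rw [norm_neg]
        refine hM2.trans ?_
        have : K * ((2 * u) ^ 3 * 2) = 16 * (K * u ^ 3) := by ring
        rw [this]
        linarith
      · rw [norm_mul, norm_pow]
        calc ‖ln c w‖ ^ 2 * ‖Mj 3 (ln c w)‖ ≤ ‖ln c w‖ ^ 2 * (K * ((2 * u) ^ 4 * 6)) := by gcongr
          _ = (‖ln c w‖ ^ 2 * u) * (96 * (K * u ^ 3)) := by ring
          _ ≤ (1 + c ^ 2) * (96 * (K * u)) := by
            have : 96 * (K * u ^ 3) ≤ 96 * (K * u) := by linarith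
            exact mul_le_mul hT2 this (by positivity) (by positivity)
    have h2 : ‖-Mj 2 (ln c w) + (ln c w) ^ 2 * Mj 3 (ln c w)‖ * (2 * π) * (2 * π) ≤
        (16 * (K * u) + (1 + c ^ 2) * (96 * (K * u))) * (2 * π) * (2 * π) := by
      gcongr
    refine h2.trans ?_
    have h3 : (16 * (K * u) + (1 + c ^ 2) * (96 * (K * u))) * (2 * π) * (2 * π) =
      ((16 + (1 + c ^ 2) * 96) * 4) * (K * u * π ^ 2) := by ring
    have h4 : (1 + c ^ 2) * K * 1000 * π ^ 2 * u = ((1 + c ^ 2) * 1000) * (K * u * π ^ 2) := by ring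
    rw [h3, h4]
    refine mul_le_mul_of_nonneg_right ?_ (by positivity)
    linarith

theorem ft_continuous {g : ℝ → ℂ} (hg : Integrable g) : Continuous (𝓕 g) :=
  VectorFourier.fourierIntegral_continuous Real.continuous_fourierChar
    (by exact (innerSL ℝ).continuous₂) hg

theorem ft_norm_le (g : ℝ → ℂ) (x : ℝ) : ‖𝓕 g x‖ ≤ ∫ v, ‖g v‖ :=
  VectorFourier.norm_fourierIntegral_le_integral_norm _ _ _ _ _

theorem int_of_bound {g : ℝ → ℂ} (hg : Continuous g) {C : ℝ}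
    (h : ∀ w, ‖g w‖ ≤ C * (1 + w ^ 2)⁻¹) : Integrable g :=
  Integrable.mono' (integrable_inv_one_add_sq.const_mul C) hg.aestronglyMeasurable
    (Eventually.of_forall h)

theorem lower_bound (c : ℝ) (hc : ∀ s : ℝ, Mj 1 ((s : ℂ) + c * Complex.I) ≠ 1) :
    ∃ d : ℝ, 0 < d ∧ ∀ w : ℝ, d ≤ ‖1 - ka c w‖ := by
  obtain ⟨C, hC0, hC⟩ := ka_bounds c
  have hne : ∀ w : ℝ, 0 < ‖1 - ka c w‖ := by
    intro w
    rw [norm_pos_iff, sub_ne_zero]
    exact fun h => hc (2 * π * w) h.symm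
  have hcont : Continuous (fun w : ℝ => ‖1 - ka c w‖) :=
    (continuous_const.sub (ka_continuous c)).norm
  obtain ⟨w0, -, hw0⟩ := (isCompact_Icc (a := -(2 * C + 1)) (b := 2 * C + 1)).exists_isMinOn
    ⟨0, by constructor <;> linarith⟩ hcont.continuousOn
  refine ⟨min ‖1 - ka c w0‖ (1 / 2), lt_min (hne w0) (by norm_num), fun w => ?_⟩
  by_cases hw : w ∈ Icc (-(2 * C + 1)) (2 * C + 1)
  · exact (min_le_left _ _).trans (hw0 hw)
  · refine (min_le_right _ _).trans ?_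
    have habs : 2 * C + 1 < |w| := by
      by_contra hh
      exact hw (abs_le.1 (not_lt.1 hh))
    have h1 : 2 * C ≤ 1 + w ^ 2 := by
      rw [← sq_abs w]
      nlinarith
    have h2 : ‖ka c w‖ ≤ 1 / 2 := by
      refine (hC w).1.trans ?_
      rw [← div_eq_mul_inv, div_le_iff₀ (by positivity)]
      linarith
    have h3 : ‖(1 : ℂ)‖ ≤ ‖1 - ka c w‖ + ‖ka c w‖ := by
      simpa using norm_add_le (1 - ka c w) (ka c w)
    rw [norm_one] at h3
    linarith

noncomputable def psi (c w : ℝ) : ℂ := ka c w / (1 - ka c w)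
noncomputable def psi1 (c w : ℝ) : ℂ := ka1 c w / (1 - ka c w) ^ 2
noncomputable def psi2 (c w : ℝ) : ℂ :=
  ka2 c w / (1 - ka c w) ^ 2 + 2 * ka1 c w ^ 2 / (1 - ka c w) ^ 3

theorem psi_facts (c : ℝ) (hc : ∀ s : ℝ, Mj 1 ((s : ℂ) + c * Complex.I) ≠ 1) :
    (∀ w, HasDerivAt (psi c) (psi1 c w) w) ∧ (∀ w, HasDerivAt (psi1 c) (psi2 c w) w) ∧
    Integrable (psi c) ∧ Integrable (psi1 c) ∧ Integrable (psi2 c) := by
  obtain ⟨C, hC0, hC⟩ := ka_bounds c
  obtain ⟨d, hd0, hd⟩ := lower_bound c hc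
  have hne : ∀ w : ℝ, 1 - ka c w ≠ 0 := fun w => norm_pos_iff.1 (hd0.trans_le (hd w))
  have hu1 : ∀ w : ℝ, (1 + w ^ 2)⁻¹ ≤ 1 := fun w =>
    inv_le_one_of_one_le₀ (by nlinarith [sq_nonneg w])
  have hu0 : ∀ w : ℝ, 0 < (1 + w ^ 2)⁻¹ := fun w => by positivity
  have c0 := ka_continuous c
  have c1 := ka1_continuous c
  have c2 := ka2_continuous c
  refine ⟨?_, ?_, ?_, ?_, ?_⟩
  · intro w
    have h := (ka_hasDerivAt c w).div ((ka_hasDerivAt c w).const_sub 1) (hne w)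
    convert! h using 1
    unfold psi1
    congr 1
    ring
  · intro w
    have h1 := ((ka_hasDerivAt c w).const_sub 1).pow 2
    have h := (ka1_hasDerivAt c w).div h1 (pow_ne_zero 2 (hne w))
    convert! h using 1
    unfold psi2
    have := hne w
    field_simp
    simp
    ring
  · refine int_of_bound (C := C / d) ?_ fun w => ?_
    · unfold psi
      exact c0.div (continuous_const.sub c0) hne
    · unfold psi
      rw [norm_div, div_mul_eq_mul_div]
      exact div_le_div₀ (by positivity) (hC w).1 hd0 (hd w)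
  · refine int_of_bound (C := C / d ^ 2) ?_ fun w => ?_
    · unfold psi1
      exact c1.div ((continuous_const.sub c0).pow 2) fun w => pow_ne_zero 2 (hne w)
    · unfold psi1
      rw [norm_div, norm_pow, div_mul_eq_mul_div]
      exact div_le_div₀ (by positivity) (hC w).2.1 (by positivity)
        (pow_le_pow_left₀ hd0.le (hd w) 2)
  · refine int_of_bound (C := C / d ^ 2 + 2 * C ^ 2 / d ^ 3) ?_ fun w => ?_
    · unfold psi2
      exact (c2.div ((continuous_const.sub c0).pow 2) fun w => pow_ne_zero 2 (hne w)).add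
        ((continuous_const.mul (c1.pow 2)).div ((continuous_const.sub c0).pow 3)
          fun w => pow_ne_zero 3 (hne w))
    · unfold psi2
      refine (norm_add_le _ _).trans ?_
      rw [add_mul, norm_div, norm_pow, norm_div, norm_pow, norm_mul, norm_pow,
        div_mul_eq_mul_div, div_mul_eq_mul_div]
      refine add_le_add ?_ ?_
      · exact div_le_div₀ (by positivity) (hC w).2.2 (by positivity)
          (pow_le_pow_left₀ hd0.le (hd w) 2)
      · refine div_le_div₀ (by positivity) ?_ (by positivity) (pow_le_pow_left₀ hd0.le (hd w) 3)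
        have h1 : ‖ka1 c w‖ ^ 2 ≤ (C * (1 + w ^ 2)⁻¹) ^ 2 :=
          pow_le_pow_left₀ (norm_nonneg _) (hC w).2.1 2
        have h2 : (C * (1 + w ^ 2)⁻¹) ^ 2 ≤ C ^ 2 * (1 + w ^ 2)⁻¹ := by
          rw [mul_pow]
          have h3 : ((1 + w ^ 2)⁻¹) ^ 2 ≤ (1 + w ^ 2)⁻¹ := by
            nlinarith [hu1 w, hu0 w]
          gcongr
        have h3 : ‖(2 : ℂ)‖ = 2 := by norm_num
        rw [h3]
        linarith

/-- `f(x) = k0 x e^{cx}` as a complex function -/
noncomputable def fe (c x : ℝ) : ℂ := (k0 x : ℂ) * Complex.exp (c * x)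

theorem fe_continuous (c : ℝ) : Continuous (fe c) := by
  have h : Continuous k0 := by
    have : LipschitzWith 1 k0 := LipschitzWith.of_dist_le_mul fun x y => by
      rw [Real.dist_eq, Real.dist_eq]
      simpa using k0_lipschitz x y
    exact this.continuous
  unfold fe
  fun_prop

theorem fe_eq (c x : ℝ) : fe c x = (k0 x : ℂ) * Complex.exp (-(Complex.I * (c * Complex.I) * x)) := by
  unfold fe
  congr 2
  linear_combination (c * x : ℂ) * Complex.I_sq

theorem fe_integrable (c : ℝ) : Integrable (fe c) := by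
  have h := k0_transform_integrable (c * Complex.I)
  refine h.congr (Eventually.of_forall fun x => ?_)
  exact (fe_eq c x).symm

theorem ft_fe (c : ℝ) : 𝓕 (fe c) = ka c := by
  ext w
  rw [Real.fourier_real_eq_integral_exp_smul]
  unfold ka
  rw [← kap_eq_Mj, ← k0_transform]
  refine integral_congr_ae (Eventually.of_forall fun x => ?_)
  simp only [smul_eq_mul, fe]
  rw [mul_comm, mul_assoc, ← Complex.exp_add]
  congr 2
  unfold ln
  push_cast
  linear_combination (c * x : ℂ) * Complex.I_sq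

theorem ka_integrable (c : ℝ) : Integrable (ka c) := by
  obtain ⟨C, hC0, hC⟩ := ka_bounds c
  exact int_of_bound (ka_continuous c) fun w => (hC w).1

theorem fe_inv (c : ℝ) : 𝓕⁻ (ka c) = fe c := by
  rw [← ft_fe]
  exact (fe_continuous c).fourierInv_fourier_eq (fe_integrable c)
    (by rw [ft_fe]; exact ka_integrable c)

theorem fi_eq (g : ℝ → ℂ) (x : ℝ) :
    𝓕⁻ g x = ∫ w : ℝ, Complex.exp (((2 * π * w * x : ℝ) : ℂ) * Complex.I) * g w := by
  rw [Real.fourierInv_eq_fourier_neg, Real.fourier_real_eq_integral_exp_smul]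
  refine integral_congr_ae (Eventually.of_forall fun w => ?_)
  simp only [smul_eq_mul]
  congr 3
  push_cast
  ring

theorem conv_eq (c : ℝ) (g : ℝ → ℂ) (hg : Integrable g) (x : ℝ) :
    ∫ y : ℝ, fe c (x - y) * 𝓕⁻ g y = 𝓕⁻ (fun w => ka c w * g w) x := by
  have hF : Integrable (fun p : ℝ × ℝ => fe c (x - p.1) *
      (Complex.exp (((2 * π * p.2 * p.1 : ℝ) : ℂ) * Complex.I) * g p.2))
      ((volume : Measure ℝ).prod volume) := by
    have h1 : Integrable (fun p : ℝ × ℝ => fe c (x - p.1) * g p.2)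
        ((volume : Measure ℝ).prod volume) :=
      Integrable.mul_prod ((fe_integrable c).comp_sub_left x) hg
    have h2 := h1.bdd_mul (f := fun p : ℝ × ℝ =>
      Complex.exp (((2 * π * p.2 * p.1 : ℝ) : ℂ) * Complex.I)) (c := 1)
      (Continuous.aestronglyMeasurable (by fun_prop)) (Eventually.of_forall fun p => by
        rw [Complex.norm_exp_ofReal_mul_I])
    refine h2.congr (Eventually.of_forall fun p => ?_)
    simp only
    ring
  have h := integral_integral_swap (f := fun y w => fe c (x - y) *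
      (Complex.exp (((2 * π * w * y : ℝ) : ℂ) * Complex.I) * g w)) hF
  have h1 : ∀ y : ℝ, fe c (x - y) * 𝓕⁻ g y = ∫ w : ℝ, fe c (x - y) *
      (Complex.exp (((2 * π * w * y : ℝ) : ℂ) * Complex.I) * g w) := by
    intro y
    rw [fi_eq, integral_const_mul]
  simp_rw [h1]
  rw [h, fi_eq]
  refine integral_congr_ae (Eventually.of_forall fun w => ?_)
  simp only
  have h2 : ∫ y : ℝ, fe c (x - y) * (Complex.exp (((2 * π * w * y : ℝ) : ℂ) * Complex.I) * g w) =
      ∫ v : ℝ, fe c v * (Complex.exp (((2 * π * w * (x - v) : ℝ) : ℂ) * Complex.I) * g w) := by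
    rw [← integral_sub_left_eq_self (fun v : ℝ => fe c v *
      (Complex.exp (((2 * π * w * (x - v) : ℝ) : ℂ) * Complex.I) * g w)) volume x]
    refine integral_congr_ae (Eventually.of_forall fun y => ?_)
    simp only
    rw [sub_sub_cancel]
  rw [h2]
  have h3 : ka c w = ∫ v : ℝ, Complex.exp (((-2 * π * v * w : ℝ) : ℂ) * Complex.I) * fe c v := by
    rw [← ft_fe, Real.fourier_real_eq_integral_exp_smul]
    simp only [smul_eq_mul]
  rw [h3, ← mul_assoc, ← integral_const_mul, ← integral_mul_const]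
  refine integral_congr_ae (Eventually.of_forall fun v => ?_)
  simp only
  have h4 : Complex.exp (((2 * π * w * (x - v) : ℝ) : ℂ) * Complex.I) =
      Complex.exp (((2 * π * w * x : ℝ) : ℂ) * Complex.I) *
      Complex.exp (((-2 * π * v * w : ℝ) : ℂ) * Complex.I) := by
    rw [← Complex.exp_add]
    congr 1
    push_cast
    ring
  rw [h4]
  ring

theorem exists_resolvent (a b : ℝ) (hab : a < b) (_ha : 0 < a) :
    ∃ c ∈ Ioo a b, ∃ R : ℝ → ℂ, Continuous R ∧
      Integrable (fun x : ℝ => ‖R x‖ * Real.exp (c * x)) ∧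
      ∀ x : ℝ, R x = (k0 x : ℂ) + ∫ y : ℝ, (k0 (x - y) : ℂ) * R y := by
  obtain ⟨c, hc, hline⟩ := exists_line a b hab
  obtain ⟨d1, d2, i0, i1, i2⟩ := psi_facts c hline
  set r : ℝ → ℂ := 𝓕⁻ (psi c) with hr
  have hrc : Continuous r := by
    have h1 : r = fun x => 𝓕 (psi c) (-x) := by
      ext x
      rw [hr, Real.fourierInv_eq_fourier_neg]
    rw [h1]
    exact (ft_continuous i0).comp continuous_neg
  have hrb : ∀ x : ℝ, ‖r x‖ ≤ ((∫ v, ‖psi c v‖) + ∫ v, ‖psi2 c v‖) * (1 + x ^ 2)⁻¹ := by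
    intro x
    have e1 : deriv (psi c) = psi1 c := funext fun w => (d1 w).deriv
    have e2 : deriv (psi1 c) = psi2 c := funext fun w => (d2 w).deriv
    have f1 := Real.fourier_deriv i0 (fun w => (d1 w).differentiableAt) (by rw [e1]; exact i1)
    have f2 := Real.fourier_deriv i1 (fun w => (d2 w).differentiableAt) (by rw [e2]; exact i2)
    rw [e1] at f1
    rw [e2, f1] at f2
    have f3 := congrFun f2 (-x)
    have n1 := ft_norm_le (psi c) (-x)
    have n2 := ft_norm_le (psi2 c) (-x)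
    rw [f3] at n2
    rw [norm_smul, norm_smul] at n2
    have hrx : r x = 𝓕 (psi c) (-x) := by rw [hr, Real.fourierInv_eq_fourier_neg]
    rw [← hrx] at n1 n2
    have hn : ‖2 * (π : ℂ) * Complex.I * ((-x : ℝ) : ℂ)‖ = 2 * π * |x| := by
      rw [norm_mul, norm_mul, norm_mul, Complex.norm_real, Complex.norm_real, Complex.norm_I,
        Real.norm_of_nonneg Real.pi_pos.le, Real.norm_eq_abs, abs_neg]
      norm_num
    rw [hn] at n2
    rw [← div_eq_mul_inv, le_div_iff₀ (by positivity)]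
    have hx2 : x ^ 2 ≤ (2 * π * |x|) * (2 * π * |x|) := by
      have h1 : (2 * π * |x|) * (2 * π * |x|) = (2 * π) ^ 2 * x ^ 2 := by
        rw [← sq_abs x]; ring
      rw [h1]
      have h2 : (1 : ℝ) ≤ (2 * π) ^ 2 := by nlinarith [Real.pi_gt_three]
      nlinarith [mul_le_mul_of_nonneg_right h2 (sq_nonneg x)]
    have h5 : x ^ 2 * ‖r x‖ ≤ ∫ v, ‖psi2 c v‖ := by
      calc x ^ 2 * ‖r x‖ ≤ ((2 * π * |x|) * (2 * π * |x|)) * ‖r x‖ := by gcongr
        _ = 2 * π * |x| * (2 * π * |x| * ‖r x‖) := by ring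
        _ ≤ _ := n2
    linarith
  have hri : Integrable r := int_of_bound hrc hrb
  refine ⟨c, hc, fun x => Complex.exp (-(c * x)) * r x, by fun_prop, ?_, fun x => ?_⟩
  · refine hri.norm.congr (Eventually.of_forall fun x => ?_)
    simp only
    have h1 : ‖Complex.exp (-((c : ℂ) * x))‖ = Real.exp (-(c * x)) := by
      have : (-((c : ℂ) * x)) = ((-(c * x) : ℝ) : ℂ) := by push_cast; ring
      rw [this, Complex.norm_exp, Complex.ofReal_re]
    rw [norm_mul, h1]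
    have h2 : Real.exp (-(c * x)) * Real.exp (c * x) = 1 := by
      rw [← Real.exp_add, neg_add_cancel, Real.exp_zero]
    linear_combination -‖r x‖ * h2
  · have h1 := conv_eq c (psi c) i0 x
    rw [← hr] at h1
    have hne : ∀ w : ℝ, 1 - ka c w ≠ 0 := by
      obtain ⟨d, hd0, hd⟩ := lower_bound c hline
      exact fun w => norm_pos_iff.1 (hd0.trans_le (hd w))
    have h2 : (fun w => ka c w * psi c w) = psi c - ka c := by
      ext w
      simp only [Pi.sub_apply, psi]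
      have := hne w
      field_simp
      ring
    have h3 : 𝓕⁻ (psi c - ka c) x = r x - fe c x := by
      rw [hr, ← fe_inv c, fi_eq, fi_eq, fi_eq]
      have hi : ∀ g : ℝ → ℂ, Integrable g → Integrable (fun w : ℝ =>
          Complex.exp (((2 * π * w * x : ℝ) : ℂ) * Complex.I) * g w) := by
        intro g hg
        exact hg.bdd_mul (c := 1) (Continuous.aestronglyMeasurable (by fun_prop))
          (Eventually.of_forall fun p => by rw [Complex.norm_exp_ofReal_mul_I])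
      rw [← integral_sub (hi _ i0) (hi _ (ka_integrable c))]
      refine integral_congr_ae (Eventually.of_forall fun w => ?_)
      simp only [Pi.sub_apply]
      ring
    rw [h2, h3] at h1
    have h4 : ∀ y : ℝ, (k0 (x - y) : ℂ) * (Complex.exp (-(c * y)) * r y) =
        Complex.exp (-(c * x)) * (fe c (x - y) * r y) := by
      intro y
      unfold fe
      have h5 : Complex.exp (-((c : ℂ) * y)) = Complex.exp (-((c : ℂ) * x)) *
          Complex.exp ((c : ℂ) * ((x - y : ℝ) : ℂ)) := by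
        rw [← Complex.exp_add]
        congr 1
        push_cast
        ring
      rw [h5]
      ring
    simp_rw [h4]
    rw [integral_const_mul, h1]
    have h6 : Complex.exp (-((c : ℂ) * x)) * Complex.exp ((c : ℂ) * x) = 1 := by
      rw [← Complex.exp_add, neg_add_cancel, Complex.exp_zero]
    unfold fe
    linear_combination (k0 x : ℂ) * h6

end Pool.Agent.Work.MP_e29078_an

end

section

/-! Layer cake formula for the matrix `Bc`. -/

open MeasureTheory Set Filter Topology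
open scoped Real ComplexConjugate

namespace Pool.Agent.Work.MP_e29078_an

noncomputable def aT (t : ℝ) : ℝ := t / (1 + t)

noncomputable def RT (t : ℝ) : ℝ := max ((1 - t ^ 2 - t ^ 3) / (1 + t) ^ 2) 0

lemma qf_nonneg (w : ℂ) : 0 ≤ qf w := by unfold qf; positivity

lemma rs_sf_pos {w : ℂ} (hw : ‖w‖ < 1) : 0 < sf w := by
  unfold sf
  nlinarith [norm_nonneg w]

lemma rs_rho_nonneg {w : ℂ} (hw : ‖w‖ < 1) : 0 ≤ rho w := by
  have h1 := qf_nonneg w
  have h2 := rs_sf_pos hw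
  have h3 : qf w ≤ √(qf w ^ 2 + 4 * sf w) := Real.le_sqrt_of_sq_le (by linarith)
  unfold rho
  linarith

lemma rs_rho_eq {w : ℂ} (hw : ‖w‖ < 1) : rho w ^ 2 + qf w * rho w = sf w := by
  have h2 := rs_sf_pos hw
  have h3 : √(qf w ^ 2 + 4 * sf w) ^ 2 = qf w ^ 2 + 4 * sf w :=
    Real.sq_sqrt (by positivity)
  have : rho w ^ 2 + qf w * rho w = (√(qf w ^ 2 + 4 * sf w) ^ 2 - qf w ^ 2) / 4 := by
    unfold rho
    ring
  rw [this, h3]
  ring

lemma rs_rho_le_one {w : ℂ} (hw : ‖w‖ < 1) : rho w ≤ 1 := by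
  have h1 := qf_nonneg w
  have h2 := rs_rho_nonneg hw
  have h3 := rs_rho_eq hw
  have h4 : sf w ≤ 1 := by unfold sf; nlinarith [norm_nonneg w]
  nlinarith [mul_nonneg h1 h2]

lemma rs_lt_rho_iff {w : ℂ} (hw : ‖w‖ < 1) {t : ℝ} (ht : 0 < t) :
    t < rho w ↔ t ^ 2 + qf w * t < sf w := by
  have h1 := qf_nonneg w
  have h2 := rs_rho_nonneg hw
  have h3 := rs_rho_eq hw
  constructor
  · intro h
    nlinarith [mul_le_mul_of_nonneg_left h.le h1]
  · intro h
    by_contra hc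
    push Not at hc
    nlinarith [mul_le_mul_of_nonneg_left hc h1]

lemma rs_continuous_rho : Continuous rho := by
  unfold rho qf sf
  fun_prop

lemma rs_norm_sub_sq (w : ℂ) (a : ℝ) : ‖w - a‖ ^ 2 = ‖w‖ ^ 2 - 2 * a * w.re + a ^ 2 := by
  rw [Complex.sq_norm, Complex.sq_norm, Complex.normSq_apply, Complex.normSq_apply]
  simp
  ring

lemma rs_slice {t : ℝ} (ht : 0 < t) (w : ℂ) :
    (‖w‖ < 1 ∧ t < rho w) ↔ ‖w - (aT t : ℝ)‖ ^ 2 < RT t := by
  have ht1 : 0 < 1 + t := by linarith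
  have hq : qf w = 1 - 2 * w.re + ‖w‖ ^ 2 := by
    unfold qf
    rw [Complex.sq_norm, Complex.sq_norm, Complex.normSq_apply, Complex.normSq_apply]
    simp
    ring
  have hR : ‖w - (aT t : ℝ)‖ ^ 2 < RT t ↔ ‖w - (aT t : ℝ)‖ ^ 2 < (1 - t ^ 2 - t ^ 3) / (1 + t) ^ 2 := by
    unfold RT
    rw [lt_max_iff]
    constructor
    · rintro (h | h)
      · exact h
      · exact absurd h (not_lt.2 (by positivity))
    · exact fun h => Or.inl h
  have hE : ‖w - (aT t : ℝ)‖ ^ 2 < (1 - t ^ 2 - t ^ 3) / (1 + t) ^ 2 ↔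
      t ^ 2 + qf w * t < sf w := by
    rw [rs_norm_sub_sq, hq, lt_div_iff₀ (by positivity)]
    unfold aT sf
    have : (‖w‖ ^ 2 - 2 * (t / (1 + t)) * w.re + (t / (1 + t)) ^ 2) * (1 + t) ^ 2 =
        (1 + t) * ((1 + t) * ‖w‖ ^ 2 - 2 * t * w.re) + t ^ 2 := by
      field_simp
    rw [this]
    have h2 : (1 - t ^ 2 - t ^ 3) = (1 + t) * (1 - t - t ^ 2) + t ^ 2 := by ring
    rw [h2, add_lt_add_iff_right, mul_lt_mul_iff_right₀ ht1]
    constructor <;> intro h <;> nlinarith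
  rw [hR, hE]
  constructor
  · rintro ⟨hw, h⟩
    exact (rs_lt_rho_iff hw ht).1 h
  · intro h
    have hw : ‖w‖ < 1 := by
      have h1 := qf_nonneg w
      have : 0 < sf w := lt_of_le_of_lt (by positivity) h
      unfold sf at this
      nlinarith [norm_nonneg w]
    exact ⟨hw, (rs_lt_rho_iff hw ht).2 h⟩

lemma rs_layer_inner (c : ℂ) {r : ℝ} (h0 : 0 ≤ r) (h1 : r ≤ 1) :
    ∫ t in Ioo (0 : ℝ) 1, (if t < r then ((2 * t : ℝ) : ℂ) * c else 0) = ((r ^ 2 : ℝ) : ℂ) * c := by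
  have e1 : ∀ t : ℝ, (if t < r then ((2 * t : ℝ) : ℂ) * c else 0) =
      (Iio r).indicator (fun t : ℝ => ((2 * t : ℝ) : ℂ) * c) t := by
    intro t
    rfl
  simp_rw [e1]
  rw [setIntegral_indicator measurableSet_Iio]
  have e2 : Ioo (0 : ℝ) 1 ∩ Iio r = Ioo 0 r := by
    ext x
    simp only [mem_inter_iff, mem_Ioo, mem_Iio]
    constructor
    · rintro ⟨⟨h3, _⟩, h5⟩
      exact ⟨h3, h5⟩
    · rintro ⟨h3, h4⟩
      exact ⟨⟨h3, by linarith⟩, h4⟩
  rw [e2, ← integral_Ioc_eq_integral_Ioo, ← intervalIntegral.integral_of_le h0]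
  rw [intervalIntegral.integral_mul_const, intervalIntegral.integral_ofReal,
    intervalIntegral.integral_const_mul]
  congr 2
  rw [integral_id]
  ring

lemma rs_layer (k n : ℕ) :
    Bc k n = ∫ t in Ioo (0 : ℝ) 1, ((2 * t * Jf (aT t) (RT t) k n : ℝ) : ℂ) := by
  set G : ℂ → ℝ → ℂ := fun w t => if t < rho w then ((2 * t : ℝ) : ℂ) * (w ^ n * (conj w) ^ k) else 0
    with hG
  have hms : MeasurableSet {p : ℂ × ℝ | p.2 < rho p.1} :=
    measurableSet_lt measurable_snd (rs_continuous_rho.measurable.comp measurable_fst)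
  have hmG : Measurable (Function.uncurry G) := by
    have : Function.uncurry G = fun p : ℂ × ℝ => if p.2 < rho p.1 then
        ((2 * p.2 : ℝ) : ℂ) * (p.1 ^ n * (conj p.1) ^ k) else 0 := by
      ext ⟨w, t⟩
      rfl
    rw [this]
    refine Measurable.ite hms ?_ measurable_const
    have := Complex.continuous_conj
    exact Continuous.measurable (by fun_prop)
  have hint : Integrable (Function.uncurry G)
      ((volume.restrict (Metric.ball (0 : ℂ) 1)).prod (volume.restrict (Ioo (0 : ℝ) 1))) := by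
    have : IsFiniteMeasure (volume.restrict (Metric.ball (0 : ℂ) 1)) :=
      ⟨by rw [Measure.restrict_apply_univ]; exact measure_ball_lt_top⟩
    refine Integrable.mono' (integrable_const (2 : ℝ)) hmG.aestronglyMeasurable ?_
    rw [Measure.prod_restrict]
    refine (ae_restrict_iff' (Metric.isOpen_ball.measurableSet.prod measurableSet_Ioo)).2
      (Eventually.of_forall ?_)
    rintro ⟨w, t⟩ ⟨hw, ht⟩
    simp only [mem_ball_zero_iff, mem_Ioo] at hw ht
    simp only [Function.uncurry, hG]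
    split_ifs with h
    · rw [norm_mul, norm_mul, norm_pow, norm_pow, Complex.norm_real, RCLike.norm_conj,
        Real.norm_eq_abs, abs_of_nonneg (by linarith)]
      have h1 : ‖w‖ ^ n ≤ 1 := pow_le_one₀ (norm_nonneg w) hw.le
      have h2 : ‖w‖ ^ k ≤ 1 := pow_le_one₀ (norm_nonneg w) hw.le
      have h3 : ‖w‖ ^ n * ‖w‖ ^ k ≤ 1 := mul_le_one₀ h1 (by positivity) h2
      have h4 : 0 ≤ ‖w‖ ^ n * ‖w‖ ^ k := by positivity
      nlinarith
    · simp
  have hswap := integral_integral_swap hint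
  have hleft : ∫ w in Metric.ball (0 : ℂ) 1, ∫ t in Ioo (0 : ℝ) 1, G w t = Bc k n := by
    unfold Bc
    refine setIntegral_congr_fun Metric.isOpen_ball.measurableSet ?_
    intro w hw
    rw [mem_ball_zero_iff] at hw
    simp only [hG]
    rw [rs_layer_inner _ (rs_rho_nonneg hw) (rs_rho_le_one hw)]
    ring
  rw [← hleft, hswap]
  refine setIntegral_congr_fun measurableSet_Ioo ?_
  intro t ht
  simp only
  have e1 : ∀ w : ℂ, (Metric.ball (0 : ℂ) 1).indicator (fun w => G w t) w =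
      {w : ℂ | ‖w - (aT t : ℝ)‖ ^ 2 < RT t}.indicator
        (fun w : ℂ => ((2 * t : ℝ) : ℂ) * (w ^ n * (conj w) ^ k)) w := by
    intro w
    have hsl := rs_slice ht.1 w
    by_cases hm : ‖w - (aT t : ℝ)‖ ^ 2 < RT t
    · obtain ⟨h1, h2⟩ := hsl.2 hm
      rw [indicator_of_mem (by rwa [mem_ball_zero_iff]), indicator_of_mem (by exact hm)]
      simp only [hG]
      rw [if_pos h2]
    · rw [indicator_of_notMem (s := {w : ℂ | ‖w - (aT t : ℝ)‖ ^ 2 < RT t}) (by exact hm)]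
      by_cases h1 : ‖w‖ < 1
      · rw [indicator_of_mem (by rwa [mem_ball_zero_iff])]
        simp only [hG]
        rw [if_neg (fun h2 => hm (hsl.1 ⟨h1, h2⟩))]
      · rw [indicator_of_notMem (by rwa [mem_ball_zero_iff])]
  rw [← integral_indicator Metric.isOpen_ball.measurableSet]
  simp_rw [e1]
  rw [integral_indicator (IsOpen.measurableSet (isOpen_lt (by fun_prop) continuous_const)),
    integral_const_mul, disc_shift _ _ (by unfold RT; exact le_max_right _ _)]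
  push_cast
  ring

theorem Bc_im (k n : ℕ) : (Bc k n).im = 0 := by
  rw [rs_layer, integral_complex_ofReal]
  exact Complex.ofReal_im _

lemma Kr_eq (k n : ℕ) : Kr k n = ((k : ℝ) + 1) * (k + 2) / π *
    ∫ t in Ioo (0 : ℝ) 1, 2 * t * Jf (aT t) (RT t) k n := by
  unfold Kr
  rw [rs_layer, integral_complex_ofReal]
  rfl

lemma aT_nonneg {t : ℝ} (ht : 0 ≤ t) : 0 ≤ aT t := by unfold aT; positivity

lemma RT_nonneg (t : ℝ) : 0 ≤ RT t := le_max_right _ _

theorem Kr_nonneg (k n : ℕ) : 0 ≤ Kr k n := by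
  rw [Kr_eq]
  refine mul_nonneg (by positivity) (setIntegral_nonneg measurableSet_Ioo ?_)
  intro t ht
  have := Jf_nonneg (aT t) (RT t) (aT_nonneg ht.1.le) (RT_nonneg t) k n
  have := ht.1
  positivity

end Pool.Agent.Work.MP_e29078_an

end

section

/-! Elementary facts on the change of scale. -/

open MeasureTheory Set Filter Topology
open scoped Real ComplexConjugate

namespace Pool.Agent.Work.MP_e29078_an.Ex

lemma cY_pos : 0 < cY := by unfold cY; positivity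

lemma four_thirds_div_cY : (4 / 3 : ℝ) / cY = (2 : ℝ) ^ (1 / 4 : ℝ) := by
  unfold cY
  rw [Real.rpow_neg (by norm_num)]
  have : (0 : ℝ) < (2 : ℝ) ^ (1 / 4 : ℝ) := by positivity
  field_simp

lemma cY_le : cY ≤ 4 / 3 := by
  unfold cY
  have : (2 : ℝ) ^ (-(1 / 4) : ℝ) ≤ 1 :=
    Real.rpow_le_one_of_one_le_of_nonpos (by norm_num) (by norm_num)
  nlinarith

/-- The inverse change of scale. -/
noncomputable def Yf (N : ℕ) (x : ℝ) : ℝ := cY * (x ^ (3 / 4 : ℝ) - (N : ℝ) ^ (3 / 4 : ℝ))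

lemma Xf_base_nonneg (N : ℕ) {y : ℝ} (hy : 0 ≤ y) : 0 ≤ y / cY + (N : ℝ) ^ (3 / 4 : ℝ) := by
  have := cY_pos
  positivity

lemma Xf_pow (N : ℕ) {y : ℝ} (hy : 0 ≤ y) :
    (Xf N y) ^ (3 / 4 : ℝ) = y / cY + (N : ℝ) ^ (3 / 4 : ℝ) := by
  unfold Xf
  rw [← Real.rpow_mul (Xf_base_nonneg N hy)]
  norm_num

lemma Xf_nonneg (N : ℕ) {y : ℝ} (hy : 0 ≤ y) : 0 ≤ Xf N y :=
  Real.rpow_nonneg (Xf_base_nonneg N hy) _

lemma Yf_Xf (N : ℕ) {y : ℝ} (hy : 0 ≤ y) : Yf N (Xf N y) = y := by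
  unfold Yf
  rw [Xf_pow N hy]
  have := cY_pos.ne'
  field_simp
  ring

lemma N_le_Xf (N : ℕ) {y : ℝ} (hy : 0 ≤ y) : (N : ℝ) ≤ Xf N y := by
  unfold Xf
  have h1 : (N : ℝ) = ((N : ℝ) ^ (3 / 4 : ℝ)) ^ (4 / 3 : ℝ) := by
    rw [← Real.rpow_mul (by positivity)]; norm_num
  conv_lhs => rw [h1]
  have := cY_pos
  apply Real.rpow_le_rpow (by positivity) _ (by norm_num)
  have : 0 ≤ y / cY := by positivity
  linarith

lemma Yf_nonneg (N : ℕ) {x : ℝ} (hx : (N : ℝ) ≤ x) : 0 ≤ Yf N x := by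
  unfold Yf
  have h1 := cY_pos
  have : (N : ℝ) ^ (3 / 4 : ℝ) ≤ x ^ (3 / 4 : ℝ) :=
    Real.rpow_le_rpow (by positivity) hx (by norm_num)
  apply mul_nonneg h1.le; linarith

lemma Xf_Yf (N : ℕ) {x : ℝ} (hx : (N : ℝ) ≤ x) : Xf N (Yf N x) = x := by
  unfold Xf Yf
  have h1 := cY_pos.ne'
  have hx0 : 0 ≤ x := (Nat.cast_nonneg N).trans hx
  have : cY * (x ^ (3 / 4 : ℝ) - (N : ℝ) ^ (3 / 4 : ℝ)) / cY + (N : ℝ) ^ (3 / 4 : ℝ)
      = x ^ (3 / 4 : ℝ) := by field_simp; ring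
  rw [this, ← Real.rpow_mul hx0]; norm_num

lemma Yf_mono (N : ℕ) {x x' : ℝ} (hx : 0 ≤ x) (h : x ≤ x') : Yf N x ≤ Yf N x' := by
  unfold Yf
  have h1 := cY_pos
  have : x ^ (3 / 4 : ℝ) ≤ x' ^ (3 / 4 : ℝ) := Real.rpow_le_rpow hx h (by norm_num)
  apply mul_le_mul_of_nonneg_left _ h1.le; linarith

lemma Yf_strictMono (N : ℕ) {x x' : ℝ} (hx : 0 ≤ x) (h : x < x') : Yf N x < Yf N x' := by
  unfold Yf
  have h1 := cY_pos
  have : x ^ (3 / 4 : ℝ) < x' ^ (3 / 4 : ℝ) := Real.rpow_lt_rpow hx h (by norm_num)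
  apply mul_lt_mul_of_pos_left _ h1; linarith

lemma Yf_self (N : ℕ) : Yf N N = 0 := by unfold Yf; simp

lemma Xf_hasDerivAt (N : ℕ) {y : ℝ} (hy : 0 < y) :
    HasDerivAt (Xf N) ((2 * Xf N y) ^ (1 / 4 : ℝ)) y := by
  have h1 := cY_pos
  have hb : 0 < y / cY + (N : ℝ) ^ (3 / 4 : ℝ) := by positivity
  have h2 : HasDerivAt (fun y : ℝ => y / cY + (N : ℝ) ^ (3 / 4 : ℝ)) (1 / cY) y :=
    ((hasDerivAt_id y).div_const cY).add_const _
  have h3 := h2.rpow_const (p := (4 / 3 : ℝ)) (Or.inl hb.ne')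
  unfold Xf
  convert h3 using 1
  rw [Real.mul_rpow (by norm_num) (by positivity), ← Real.rpow_mul hb.le,
    ← four_thirds_div_cY, show (4 / 3 : ℝ) * (1 / 4) = 4 / 3 - 1 by norm_num]
  ring

lemma Xf_continuous (N : ℕ) : Continuous (Xf N) := by
  unfold Xf
  exact ((continuous_id.div_const _).add continuous_const).rpow_const
    (fun _ => Or.inr (by norm_num))

lemma wX_continuous (N : ℕ) : Continuous (fun y => (2 * Xf N y) ^ (1 / 4 : ℝ)) :=
  ((Xf_continuous N).const_mul 2).rpow_const (fun _ => Or.inr (by norm_num))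

/-- The cell of index `n`. -/
def cell (N n : ℕ) : Set ℝ := {y | 0 ≤ y ∧ ⌊Xf N y⌋₊ = n}

lemma cell_eq (N n : ℕ) (hn : N ≤ n) : cell N n = Ico (Yf N n) (Yf N (n + 1)) := by
  ext y
  simp only [cell, mem_ofPred_eq, mem_Ico]
  have hn' : (N : ℝ) ≤ n := by exact_mod_cast hn
  constructor
  · rintro ⟨hy, h⟩
    have h1 := (Nat.floor_eq_iff (Xf_nonneg N hy)).mp h
    constructor
    · rw [← Yf_Xf N hy]
      exact Yf_mono N (by positivity) h1.1
    · rw [← Yf_Xf N hy]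
      exact Yf_strictMono N (Xf_nonneg N hy) h1.2
  · rintro ⟨h1, h2⟩
    have hy : 0 ≤ y := (Yf_nonneg N hn').trans h1
    refine ⟨hy, ?_⟩
    rw [Nat.floor_eq_iff (Xf_nonneg N hy)]
    constructor
    · by_contra hlt
      push Not at hlt
      have := Yf_strictMono N (Xf_nonneg N hy) hlt
      rw [Yf_Xf N hy] at this
      linarith
    · by_contra hge
      push Not at hge
      have := Yf_mono N (by positivity) hge
      rw [Yf_Xf N hy] at this
      linarith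

lemma cell_empty (N n : ℕ) (hn : n < N) : cell N n = ∅ := by
  ext y
  simp only [cell, mem_ofPred_eq, mem_empty_iff_false, iff_false, not_and]
  intro hy h
  have h1 := N_le_Xf N hy
  have h2 : N ≤ ⌊Xf N y⌋₊ := Nat.le_floor h1
  omega

lemma cell_measurable (N n : ℕ) : MeasurableSet (cell N n) := by
  unfold cell
  apply MeasurableSet.inter (measurableSet_le measurable_const measurable_id)
  exact (Nat.measurable_floor.comp (Xf_continuous N).measurable) (measurableSet_singleton n)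

lemma cell_disjoint (N : ℕ) : Pairwise (Function.onFun Disjoint (cell N)) := by
  intro i j hij
  rw [Function.onFun, Set.disjoint_left]
  rintro y ⟨_, h1⟩ ⟨_, h2⟩
  exact hij (h1.symm.trans h2)

lemma iUnion_cell (N : ℕ) : (⋃ n, cell N n) = Ici (0 : ℝ) := by
  ext y
  simp only [cell, mem_iUnion, mem_ofPred_eq, mem_Ici]
  exact ⟨fun ⟨_, h, _⟩ => h, fun h => ⟨_, h, rfl⟩⟩

lemma integral_cell (N n : ℕ) (hn : N ≤ n) :
    ∫ y in cell N n, (2 * Xf N y) ^ (1 / 4 : ℝ) = 1 := by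
  rw [cell_eq N n hn, integral_Ico_eq_integral_Ioc, ← intervalIntegral.integral_of_le
    (Yf_mono N (by positivity) (by linarith))]
  have hn' : (N : ℝ) ≤ n := by exact_mod_cast hn
  have h0 := Yf_nonneg N hn'
  have hle : Yf N n ≤ Yf N (n + 1) := Yf_mono N (by positivity) (by linarith)
  rw [intervalIntegral.integral_eq_sub_of_hasDerivAt_of_le hle (Xf_continuous N).continuousOn
    (fun y hy => Xf_hasDerivAt N (lt_of_le_of_lt h0 hy.1)) ((wX_continuous N).intervalIntegrable _ _)]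
  rw [Xf_Yf N hn', Xf_Yf N (by linarith)]
  ring

lemma wX_nonneg (N : ℕ) {y : ℝ} (hy : 0 ≤ y) : 0 ≤ (2 * Xf N y) ^ (1 / 4 : ℝ) := by
  have := Xf_nonneg N hy
  positivity

/-- `k^{3/4} - n^{3/4} ≤ (k-n)/k^{1/4}`. -/
lemma pow34_sub_le {a b : ℝ} (ha : 0 < a) (hb : 0 ≤ b) (hba : b ≤ a) :
    a ^ (3 / 4 : ℝ) - b ^ (3 / 4 : ℝ) ≤ (a - b) / a ^ (1 / 4 : ℝ) := by
  have ha4 : 0 < a ^ (1 / 4 : ℝ) := by positivity
  rw [le_div_iff₀ ha4, sub_mul, ← Real.rpow_add ha]
  norm_num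
  have h1 : b ^ (3 / 4 : ℝ) * a ^ (1 / 4 : ℝ) ≥ b ^ (3 / 4 : ℝ) * b ^ (1 / 4 : ℝ) := by
    apply mul_le_mul_of_nonneg_left _ (by positivity)
    exact Real.rpow_le_rpow hb hba (by norm_num)
  have h2 : b ^ (3 / 4 : ℝ) * b ^ (1 / 4 : ℝ) = b := by
    rcases hb.eq_or_lt with h | h
    · rw [← h]; norm_num
    · rw [← Real.rpow_add h]; norm_num
  norm_num at h1 h2 ⊢
  linarith

lemma Yf_sub_le (N : ℕ) {k n : ℕ} (hk : 1 ≤ k) :
    |Yf N k - Yf N n| ≤ cY * (|(n : ℝ) - k| / (k : ℝ) ^ (1 / 4 : ℝ)) := by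
  have h1 : Yf N k - Yf N n = cY * ((k : ℝ) ^ (3 / 4 : ℝ) - (n : ℝ) ^ (3 / 4 : ℝ)) := by
    unfold Yf; ring
  rw [h1, abs_mul, abs_of_pos cY_pos]
  apply mul_le_mul_of_nonneg_left _ cY_pos.le
  have hk0 : (0 : ℝ) < k := by exact_mod_cast hk
  rcases le_total (n : ℝ) k with h | h
  · have h2 : (n : ℝ) ^ (3 / 4 : ℝ) ≤ (k : ℝ) ^ (3 / 4 : ℝ) :=
      Real.rpow_le_rpow (by positivity) h (by norm_num)
    rw [abs_of_nonneg (by linarith), abs_of_nonpos (by linarith)]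
    have := pow34_sub_le hk0 (by positivity) h
    simpa using this
  · have h2 : (k : ℝ) ^ (3 / 4 : ℝ) ≤ (n : ℝ) ^ (3 / 4 : ℝ) :=
      Real.rpow_le_rpow (by positivity) h (by norm_num)
    rw [abs_of_nonpos (by linarith), abs_of_nonneg (by linarith)]
    have h3 := pow34_sub_le (lt_of_lt_of_le hk0 h) hk0.le h
    have h4 : ((n : ℝ) - k) / (n : ℝ) ^ (1 / 4 : ℝ) ≤ ((n : ℝ) - k) / (k : ℝ) ^ (1 / 4 : ℝ) := by
      apply div_le_div_of_nonneg_left (by linarith) (by positivity)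
      exact Real.rpow_le_rpow hk0.le h (by norm_num)
    linarith

/-- sublinear comparison -/
lemma mul_rpow_le (A δ : ℝ) (hA : 0 ≤ A) (hδ : 0 < δ) :
    ∃ C : ℝ, ∀ x : ℝ, 0 ≤ x → A * x ^ (3 / 4 : ℝ) ≤ δ * x + C := by
  refine ⟨A * (A / δ) ^ 3, fun x hx => ?_⟩
  have hx4 : 0 ≤ x ^ (1 / 4 : ℝ) := by positivity
  have h34 : x ^ (3 / 4 : ℝ) = (x ^ (1 / 4 : ℝ)) ^ 3 := by
    rw [← Real.rpow_natCast, ← Real.rpow_mul hx]; norm_num
  have h44 : x = (x ^ (1 / 4 : ℝ)) ^ 4 := by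
    rw [← Real.rpow_natCast, ← Real.rpow_mul hx]; norm_num
  set u := x ^ (1 / 4 : ℝ) with hu
  rw [h34]
  rcases le_total (A / δ) u with h | h
  · have h5 : A ≤ δ * u := by rwa [div_le_iff₀' hδ] at h
    have h6 : A * u ^ 3 ≤ δ * u * u ^ 3 := mul_le_mul_of_nonneg_right h5 (by positivity)
    have h7 : 0 ≤ A * (A / δ) ^ 3 := by positivity
    nlinarith [h44]
  · have h5 : u ^ 3 ≤ (A / δ) ^ 3 := pow_le_pow_left₀ hx4 h 3
    have h6 : A * u ^ 3 ≤ A * (A / δ) ^ 3 := mul_le_mul_of_nonneg_left h5 hA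
    have h7 : 0 ≤ δ * x := by positivity
    linarith

lemma mul_le_rpow43 (A δ : ℝ) (hA : 0 ≤ A) (hδ : 0 < δ) :
    ∃ C : ℝ, ∀ y : ℝ, 0 ≤ y → A * y ≤ δ * y ^ (4 / 3 : ℝ) + C := by
  obtain ⟨C, hC⟩ := mul_rpow_le A δ hA hδ
  refine ⟨C, fun y hy => ?_⟩
  have h1 := hC (y ^ (4 / 3 : ℝ)) (by positivity)
  rwa [← Real.rpow_mul hy, show (4 / 3 : ℝ) * (3 / 4) = 1 by norm_num, Real.rpow_one] at h1

/-- superadditivity of `y^{4/3}` -/
lemma rpow43_add {a b : ℝ} (ha : 0 ≤ a) (hb : 0 ≤ b) :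
    a ^ (4 / 3 : ℝ) + b ^ (4 / 3 : ℝ) ≤ (a + b) ^ (4 / 3 : ℝ) := by
  have h := NNReal.add_rpow_le_rpow_add (p := (4 / 3 : ℝ)) ⟨a, ha⟩ ⟨b, hb⟩ (by norm_num)
  exact_mod_cast h

end Pool.Agent.Work.MP_e29078_an.Ex

end
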