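import Mathlib
import Pool.Agent.Work.MP_e29078_an.Bd.B02
import Pool.Agent.Work.MP_e29078_an.DefsA
import Pool.Agent.Work.MP_e29078_an.Bd.B01
import Pool.Agent.Work.MP_e29078_an.Model

/-! Bundle of small proof modules (one section per former module). -/

section

/-! Smallness of the perturbation kernel `del` in the weighted norm: assembly, with the row sum
bound and the asymptotics of `Kr` as hypotheses. -/

open MeasureTheory Set Filter Topology
open scoped Real ComplexConjugate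

namespace Pool.Agent.Work.MP_e29078_an

theorem k0_measurable : Measurable k0 := by
  have : LipschitzWith 1 k0 := by
    refine LipschitzWith.of_dist_le_mul fun x y => ?_
    rw [Real.dist_eq, Real.dist_eq]
    simpa using k0_lipschitz x y
  exact this.continuous.measurable

theorem k0_bdd : ∃ M : ℝ, 0 ≤ M ∧ ∀ x, k0 x ≤ M := by
  obtain ⟨C, hC⟩ := k0_le
  have hC0 : 0 ≤ C := by
    have h1 := hC 0
    have h2 := k0_nonneg 0
    have h3 : C * Real.exp (-(3 / 4) * |(0 : ℝ)| ^ (4 / 3 : ℝ)) = C := by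
      rw [abs_zero, Real.zero_rpow (by norm_num)]; simp
    linarith
  refine ⟨C, hC0, fun x => (hC x).trans ?_⟩
  have : Real.exp (-(3 / 4) * |x| ^ (4 / 3 : ℝ)) ≤ 1 := by
    apply Real.exp_le_one_iff.2
    have : 0 ≤ |x| ^ (4 / 3 : ℝ) := by positivity
    linarith
  nlinarith

theorem k0_weight_integrable (b : ℝ) : Integrable (fun v : ℝ => k0 v * Real.exp (b * |v|)) := by
  have h1 : ∀ b : ℝ, Integrable (fun v : ℝ => k0 v * Real.exp (b * v)) := by
    intro b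
    have h := (k0_transform_integrable (Complex.I * b)).norm
    refine h.congr (ae_of_all _ fun v => ?_)
    simp only [norm_mul, Complex.norm_real, Real.norm_of_nonneg (k0_nonneg v), Complex.norm_exp]
    congr 2
    have : -(Complex.I * (Complex.I * (b : ℂ)) * (v : ℂ)) = ((b * v : ℝ) : ℂ) := by
      push_cast
      linear_combination (-(b : ℂ) * v) * Complex.I_mul_I
    rw [this, Complex.ofReal_re]
  refine ((h1 b).add (h1 (-b))).mono' ?_ (ae_of_all _ fun v => ?_)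
  · exact (k0_measurable.mul (by fun_prop)).aestronglyMeasurable
  · have h2 : 0 ≤ k0 v := k0_nonneg v
    rw [Real.norm_of_nonneg (mul_nonneg h2 (Real.exp_pos _).le)]
    simp only [Pi.add_apply]
    rw [← mul_add]
    refine mul_le_mul_of_nonneg_left ?_ h2
    rcases le_total 0 v with h | h
    · rw [abs_of_nonneg h]
      have := Real.exp_pos (-b * v)
      linarith
    · rw [abs_of_nonpos h, show b * -v = -b * v by ring]
      have := Real.exp_pos (b * v)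
      linarith

theorem Xf_measurable (N : ℕ) : Measurable (Xf N) := by
  unfold Xf
  fun_prop

theorem del_measurable (N : ℕ) (y : ℝ) : Measurable (del N y) := by
  have h0 : MeasurableSet {y' : ℝ | 0 ≤ y ∧ 0 ≤ y'} :=
    (MeasurableSet.const _).inter measurableSet_Ici
  unfold del
  refine Measurable.ite h0 ?_ measurable_const
  have h1 : Measurable (fun y' => Kr ⌊Xf N y⌋₊ ⌊Xf N y'⌋₊) :=
    (measurable_from_nat (f := Kr ⌊Xf N y⌋₊)).comp (Nat.measurable_floor.comp (Xf_measurable N))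
  have h2 : Measurable (fun y' => (2 * Xf N y') ^ (1 / 4 : ℝ)) :=
    ((Xf_measurable N).const_mul 2).pow_const _
  have h3 : Measurable (fun y' => k0 (y - y')) := k0_measurable.comp (by fun_prop)
  exact (h1.mul h2).sub h3

theorem del_small_of
    (hKr : ∀ k n, 0 ≤ Kr k n)
    (hrow : ∀ β : ℝ, ∃ C : ℝ, ∃ k₁ : ℕ, ∀ k ≥ k₁,
      Summable (fun n : ℕ => Kr k n * Real.exp (β * |(n : ℝ) - k| / (k : ℝ) ^ (1 / 4 : ℝ))) ∧
      ∑' n : ℕ, Kr k n * Real.exp (β * |(n : ℝ) - k| / (k : ℝ) ^ (1 / 4 : ℝ)) ≤ C)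
    (hasy : ∀ L ε : ℝ, 0 < ε → ∃ k₁ : ℕ, ∀ k ≥ k₁, ∀ n : ℕ,
      |(n : ℝ) - k| ≤ L * (k : ℝ) ^ (1 / 4 : ℝ) →
      |(2 * k : ℝ) ^ (1 / 4 : ℝ) * Kr k n - k0 (((n : ℝ) - k) / (2 * k : ℝ) ^ (1 / 4 : ℝ))| ≤ ε)
    (c ε : ℝ) (hε : 0 < ε) : ∃ N₁ : ℕ, ∀ N ≥ N₁, ∀ y : ℝ,
    Integrable (fun y' : ℝ => |del N y y'| * Real.exp (c * |y - y'|)) ∧
    ∫ y' : ℝ, |del N y y'| * Real.exp (c * |y - y'|) ≤ ε := by
  set b : ℝ := |c| + 1 with hb
  have hb0 : 0 ≤ b := by positivity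
  obtain ⟨C₁, k₁, hC₁⟩ := hrow (b * cY)
  obtain ⟨M, hM0, hM⟩ := k0_bdd
  set C₂ : ℝ := ∫ v : ℝ, k0 v * Real.exp (b * |v|) with hC₂
  have hC₂0 : 0 ≤ C₂ := integral_nonneg fun v => mul_nonneg (k0_nonneg v) (Real.exp_pos _).le
  set B : ℝ := Real.exp (b * cY) * C₁ + C₂ with hB
  have hC₁0 : 0 ≤ C₁ := by
    refine le_trans ?_ (hC₁ k₁ le_rfl).2
    exact tsum_nonneg fun n => mul_nonneg (hKr _ _) (Real.exp_pos _).le
  have hB0 : 0 ≤ B := by positivity
  -- the cut off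
  obtain ⟨L, hL0, hLB⟩ : ∃ L : ℝ, 0 ≤ L ∧ Real.exp (-L) * B ≤ ε / 2 := by
    refine ⟨2 * B / ε, by positivity, ?_⟩
    have h1 : 2 * B / ε < Real.exp (2 * B / ε) := by
      have := Real.add_one_le_exp (2 * B / ε)
      linarith
    rw [Real.exp_neg, inv_mul_le_iff₀ (Real.exp_pos _)]
    rw [div_lt_iff₀ hε] at h1
    linarith
  set ε' : ℝ := ε / (4 * (2 * L + 1) * Real.exp (|c| * L)) with hε'
  have hε'0 : 0 < ε' := by positivity
  obtain ⟨k₂, hk₂⟩ := hasy (30 * L + 1) ε' hε'0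
  set Q : ℝ := (M + ε') * (2 * (L + 1)) + (2 + 30 * L + 12 * L ^ 2) with hQ
  have hQ0 : 0 ≤ Q := by positivity
  obtain ⟨N₀, hN₀⟩ := exists_nat_ge ((L + Q / ε' + 1) ^ 4)
  refine ⟨max (max k₁ k₂) (max N₀ 1), fun N hN y => ?_⟩
  have hNk₁ : k₁ ≤ N := by omega
  have hNk₂ : k₂ ≤ N := by omega
  have hNN₀ : N₀ ≤ N := by omega
  have hN1 : 0 < N := by omega
  by_cases hy : 0 ≤ y
  swap
  · have hz : (fun y' : ℝ => |del N y y'| * Real.exp (c * |y - y'|)) = fun _ => 0 := by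
      ext y'
      unfold del
      rw [if_neg (fun h => hy h.1)]
      simp
    rw [hz]
    refine ⟨integrable_zero _ _ _, ?_⟩
    simp only [integral_zero]
    exact hε.le
  set k : ℕ := ⌊Xf N y⌋₊ with hk
  have hkN : N ≤ k := floor_Xf_ge N hy
  obtain ⟨hsum, htsum⟩ := hC₁ k (by omega)
  -- the far majorant
  set F₁ : ℝ → ℝ := (Ici (0 : ℝ)).indicator (fun y' => Kr k ⌊Xf N y'⌋₊ *
    (2 * Xf N y') ^ (1 / 4 : ℝ) * Real.exp (b * |y - y'|)) with hF₁
  have hF₁nn : ∀ y', 0 ≤ F₁ y' := by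
    intro y'
    rw [hF₁]
    refine indicator_nonneg (fun x hx => ?_) y'
    exact mul_nonneg (mul_nonneg (hKr _ _) (Real.rpow_nonneg
      (mul_nonneg (by norm_num) (Xf_nonneg N hx)) _)) (Real.exp_pos _).le
  have hF₁m : Measurable F₁ := by
    rw [hF₁]
    refine Measurable.indicator ?_ measurableSet_Ici
    have h1 : Measurable (fun y' => Kr k ⌊Xf N y'⌋₊) :=
      (measurable_from_nat (f := Kr k)).comp (Nat.measurable_floor.comp (Xf_measurable N))
    have h2 : Measurable (fun y' => (2 * Xf N y') ^ (1 / 4 : ℝ)) :=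
      ((Xf_measurable N).const_mul 2).pow_const _
    exact (h1.mul h2).mul (by fun_prop)
  have hF₁l : ∫⁻ y', ENNReal.ofReal (F₁ y') ≤ ENNReal.ofReal (Real.exp (b * cY) * C₁) := by
    have e1 : ∀ y', ENNReal.ofReal (F₁ y') = (Ici (0 : ℝ)).indicator (fun y' =>
        ENNReal.ofReal (Kr k ⌊Xf N y'⌋₊ * (2 * Xf N y') ^ (1 / 4 : ℝ) *
          Real.exp (b * |y - y'|))) y' := by
      intro y'
      rw [hF₁]
      by_cases h : y' ∈ Ici (0 : ℝ)
      · rw [indicator_of_mem h, indicator_of_mem h]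
      · rw [indicator_of_notMem h, indicator_of_notMem h, ENNReal.ofReal_zero]
    rw [lintegral_congr e1, lintegral_indicator measurableSet_Ici]
    refine (far_lintegral hKr hN1 hb0 hy hk).trans ?_
    rw [← ENNReal.ofReal_tsum_of_nonneg]
    · apply ENNReal.ofReal_le_ofReal
      rw [tsum_mul_left]
      exact mul_le_mul_of_nonneg_left htsum (Real.exp_pos _).le
    · intro n
      exact mul_nonneg (Real.exp_pos _).le (mul_nonneg (hKr _ _) (Real.exp_pos _).le)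
    · exact hsum.mul_left _
  have hF₁i : Integrable F₁ := by
    refine ⟨hF₁m.aestronglyMeasurable, ?_⟩
    rw [hasFiniteIntegral_iff_ofReal (ae_of_all _ hF₁nn)]
    exact lt_of_le_of_lt hF₁l ENNReal.ofReal_lt_top
  have hF₁b : ∫ y', F₁ y' ≤ Real.exp (b * cY) * C₁ := by
    rw [← ofReal_integral_eq_lintegral_ofReal hF₁i (ae_of_all _ hF₁nn)] at hF₁l
    exact (ENNReal.ofReal_le_ofReal_iff (by positivity)).1 hF₁l
  -- the second far majorant
  set F₂ : ℝ → ℝ := fun y' => k0 (y - y') * Real.exp (b * |y - y'|) with hF₂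
  have hF₂i : Integrable F₂ := (k0_weight_integrable b).comp_sub_left y
  have hF₂b : ∫ y', F₂ y' = C₂ := integral_sub_left_eq_self (fun v => k0 v * Real.exp (b * |v|)) _ y
  -- the near majorant
  set F₃ : ℝ → ℝ := (Icc (y - L) (y + L)).indicator (fun _ => 2 * ε' * Real.exp (|c| * L)) with hF₃
  have hF₃i : Integrable F₃ := by
    rw [hF₃, integrable_indicator_iff measurableSet_Icc]
    exact integrableOn_const (by simp)
  have hF₃b : ∫ y', F₃ y' ≤ ε / 2 := by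
    rw [hF₃, integral_indicator measurableSet_Icc]
    simp only [integral_const, MeasurableSet.univ, measureReal_restrict_apply, univ_inter,
      Real.volume_real_Icc, smul_eq_mul]
    rw [max_eq_left (by linarith)]
    have : (y + L - (y - L)) * (2 * ε' * Real.exp (|c| * L)) = ε / 2 * (2 * L / (2 * L + 1)) := by
      rw [hε']
      field_simp
      ring
    rw [this]
    have h1 : 2 * L / (2 * L + 1) ≤ 1 := by
      rw [div_le_one (by positivity)]; linarith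
    nlinarith
  have hF₃nn : ∀ y', 0 ≤ F₃ y' := by
    intro y'
    rw [hF₃]
    exact indicator_nonneg (fun x _ => by positivity) y'
  have hF₂nn : ∀ y', 0 ≤ F₂ y' := fun y' => mul_nonneg (k0_nonneg _) (Real.exp_pos _).le
  set G : ℝ → ℝ := fun y' => Real.exp (-L) * (F₁ y' + F₂ y') + F₃ y' with hG
  have hGi : Integrable G := ((hF₁i.add hF₂i).const_mul _).add hF₃i
  have hvf : L + Q / ε' + 1 ≤ vf N y := by
    refine le_trans ?_ (vf_ge N hy)
    have h1 : (L + Q / ε' + 1) ^ 4 ≤ (N : ℝ) := hN₀.trans (by exact_mod_cast hNN₀)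
    have h0 : 0 ≤ L + Q / ε' + 1 := by positivity
    have h2 : ((L + Q / ε' + 1) ^ 4) ^ (1 / 4 : ℝ) = L + Q / ε' + 1 := by
      rw [← Real.rpow_natCast, ← Real.rpow_mul h0]; norm_num
    rw [← h2]
    exact Real.rpow_le_rpow (by positivity) h1 (by norm_num)
  have hbound : ∀ y', |del N y y'| * Real.exp (c * |y - y'|) ≤ G y' := by
    intro y'
    by_cases hy' : 0 ≤ y'
    swap
    · have : del N y y' = 0 := by
        unfold del
        rw [if_neg (fun h => hy' h.2)]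
      rw [this, abs_zero, zero_mul]
      have h1 := hF₁nn y'
      have h2 := hF₂nn y'
      have h3 := hF₃nn y'
      rw [hG]
      positivity
    rcases le_or_gt |y - y'| L with h | h
    · have h1 := near_bound hN1 hL0 hε'0.le hM hy hy' h (by
        have : 0 ≤ Q / ε' := by positivity
        linarith) hk rfl (hk₂ k (by omega) _)
      have hv0 : 0 < vf N y := by
        have : 0 ≤ Q / ε' := by positivity
        linarith
      have h2 : Q / vf N y ≤ ε' := by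
        rw [div_le_iff₀ hv0]
        have : Q / ε' ≤ vf N y := by linarith
        rw [div_le_iff₀ hε'0] at this
        linarith
      have h3 : |del N y y'| ≤ 2 * ε' := by
        rw [← hQ] at h1
        linarith
      have h4 : Real.exp (c * |y - y'|) ≤ Real.exp (|c| * L) := by
        apply Real.exp_le_exp.2
        calc c * |y - y'| ≤ |c| * |y - y'| :=
              mul_le_mul_of_nonneg_right (le_abs_self c) (abs_nonneg _)
          _ ≤ |c| * L := by gcongr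
      have h5 : F₃ y' = 2 * ε' * Real.exp (|c| * L) := by
        rw [hF₃, indicator_of_mem]
        rw [abs_le] at h
        exact ⟨by linarith, by linarith⟩
      have h6 : |del N y y'| * Real.exp (c * |y - y'|) ≤ F₃ y' := by
        rw [h5]
        exact mul_le_mul h3 h4 (Real.exp_pos _).le (by positivity)
      have h7 : 0 ≤ Real.exp (-L) * (F₁ y' + F₂ y') :=
        mul_nonneg (Real.exp_pos _).le (add_nonneg (hF₁nn _) (hF₂nn _))
      rw [hG]
      simp only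
      linarith
    · have hp : 0 ≤ (2 * Xf N y') ^ (1 / 4 : ℝ) :=
          Real.rpow_nonneg (mul_nonneg (by norm_num) (Xf_nonneg N hy')) _
      have h1 : |del N y y'| ≤ Kr k ⌊Xf N y'⌋₊ * (2 * Xf N y') ^ (1 / 4 : ℝ) + k0 (y - y') := by
        unfold del
        rw [if_pos ⟨hy, hy'⟩, ← hk]
        have q1 : 0 ≤ Kr k ⌊Xf N y'⌋₊ * (2 * Xf N y') ^ (1 / 4 : ℝ) := mul_nonneg (hKr _ _) hp
        have q2 := k0_nonneg (y - y')
        rw [abs_le]
        constructor <;> linarith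
      have h2 : Real.exp (c * |y - y'|) ≤ Real.exp (-L) * Real.exp (b * |y - y'|) := by
        rw [← Real.exp_add]
        apply Real.exp_le_exp.2
        have : c * |y - y'| ≤ |c| * |y - y'| :=
              mul_le_mul_of_nonneg_right (le_abs_self c) (abs_nonneg _)
        rw [hb]
        linarith
      have h3 : F₁ y' = Kr k ⌊Xf N y'⌋₊ * (2 * Xf N y') ^ (1 / 4 : ℝ) *
          Real.exp (b * |y - y'|) := by
        rw [hF₁, indicator_of_mem (by exact hy')]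
      have h4 := hF₃nn y'
      have h5 : |del N y y'| * Real.exp (c * |y - y'|) ≤ Real.exp (-L) * (F₁ y' + F₂ y') := by
        calc |del N y y'| * Real.exp (c * |y - y'|)
            ≤ (Kr k ⌊Xf N y'⌋₊ * (2 * Xf N y') ^ (1 / 4 : ℝ) + k0 (y - y')) *
              (Real.exp (-L) * Real.exp (b * |y - y'|)) :=
              mul_le_mul h1 h2 (Real.exp_pos _).le
                (add_nonneg (mul_nonneg (hKr _ _) hp) (k0_nonneg _))
          _ = Real.exp (-L) * (F₁ y' + F₂ y') := by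
              rw [h3, hF₂]
              ring
      rw [hG]
      simp only
      linarith
  have hmeas : AEStronglyMeasurable (fun y' : ℝ => |del N y y'| * Real.exp (c * |y - y'|)) := by
    have h1 : Measurable (fun y' : ℝ => |del N y y'|) := (del_measurable N y).abs
    exact (h1.mul (by fun_prop)).aestronglyMeasurable
  have hint : Integrable (fun y' : ℝ => |del N y y'| * Real.exp (c * |y - y'|)) := by
    refine hGi.mono' hmeas (ae_of_all _ fun y' => ?_)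
    rw [Real.norm_of_nonneg (mul_nonneg (abs_nonneg _) (Real.exp_pos _).le)]
    exact hbound y'
  refine ⟨hint, ?_⟩
  calc ∫ y' : ℝ, |del N y y'| * Real.exp (c * |y - y'|) ≤ ∫ y', G y' :=
        integral_mono hint hGi hbound
    _ = Real.exp (-L) * ((∫ y', F₁ y') + ∫ y', F₂ y') + ∫ y', F₃ y' := by
        have e1 : ∫ y', G y' = (∫ y', Real.exp (-L) * (F₁ y' + F₂ y')) + ∫ y', F₃ y' :=
          integral_add (f := fun y' => Real.exp (-L) * (F₁ y' + F₂ y'))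
            ((hF₁i.add hF₂i).const_mul _) hF₃i
        have e2 : ∫ y', Real.exp (-L) * (F₁ y' + F₂ y') =
            Real.exp (-L) * ∫ y', (F₁ y' + F₂ y') := integral_const_mul _ _
        rw [e1, e2, integral_add hF₁i hF₂i]
    _ ≤ Real.exp (-L) * B + ε / 2 := by
        rw [hF₂b, hB]
        gcongr
    _ ≤ ε := by linarith

end Pool.Agent.Work.MP_e29078_an

end

section

/-! Tangential integration by parts for the measure of the model hypersurface. -/

open MeasureTheory Set Filter Topology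
open scoped Real ComplexConjugate ContDiff ENNReal

namespace Pool.Agent.Work.MP_e29078_an

theorem integral_Lb_muM (j k : Fin 3) (φ : C3 → ℂ) (hφ : ContDiff ℝ 1 φ)
    (hc : HasCompactSupport φ) : ∫ p, Lb rM j k φ p ∂muM = 0 :=
  B3.integral_Lb_of_tube tube_rM j k φ hφ hc

end Pool.Agent.Work.MP_e29078_an

end

section

/-! Weighted row sums of the matrix `Kr`. -/

open MeasureTheory Set Filter Topology
open scoped Real ComplexConjugate

namespace Pool.Agent.Work.MP_e29078_an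

lemma rs_hasSum_choose (a x : ℝ) (j : ℕ) (hax : ‖a * x‖ < 1) :
    HasSum (fun n : ℕ => (n.choose j : ℝ) * a ^ (n - j) * x ^ n) (x ^ j / (1 - a * x) ^ (j + 1)) := by
  have h := (hasSum_choose_mul_geometric_of_norm_lt_one j hax).mul_left (x ^ j)
  have h2 : HasSum (fun m : ℕ => ((m + j).choose j : ℝ) * a ^ (m + j - j) * x ^ (m + j))
      (x ^ j / (1 - a * x) ^ (j + 1) -
        ∑ i ∈ Finset.range j, (i.choose j : ℝ) * a ^ (i - j) * x ^ i) := by
    have h3 : ∑ i ∈ Finset.range j, (i.choose j : ℝ) * a ^ (i - j) * x ^ i = 0 := by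
      refine Finset.sum_eq_zero fun i hi => ?_
      rw [Nat.choose_eq_zero_of_lt (Finset.mem_range.1 hi)]
      simp
    rw [h3, sub_zero]
    have e1 : (fun m : ℕ => ((m + j).choose j : ℝ) * a ^ (m + j - j) * x ^ (m + j)) =
        fun m : ℕ => x ^ j * (((m + j).choose j : ℝ) * (a * x) ^ m) := by
      funext m
      rw [Nat.add_sub_cancel, mul_pow, pow_add]
      ring
    have e2 : x ^ j / (1 - a * x) ^ (j + 1) = x ^ j * (1 / (1 - a * x) ^ (j + 1)) := by ring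
    rw [e1, e2]
    exact h
  exact (hasSum_nat_add_iff' j).1 h2

lemma rs_gen (a R x : ℝ) (hx : 0 < x) (ha : 0 ≤ a) (hax : a * x < 1) (k : ℕ) :
    HasSum (fun n : ℕ => Jf a R k n * x ^ n)
      (π / ((k + 1) * x) * ((a + R * x / (1 - a * x)) ^ (k + 1) - a ^ (k + 1))) := by
  have hn : ‖a * x‖ < 1 := by
    rw [Real.norm_eq_abs, abs_of_nonneg (by positivity)]
    exact hax
  have hden : 0 < 1 - a * x := by linarith
  have h1 : HasSum (fun n : ℕ => ∑ j ∈ Finset.range (k + 1),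
      (π * (k.choose j) * a ^ (k - j) * R ^ (j + 1) / (j + 1)) *
        ((n.choose j : ℝ) * a ^ (n - j) * x ^ n))
      (∑ j ∈ Finset.range (k + 1), (π * (k.choose j) * a ^ (k - j) * R ^ (j + 1) / (j + 1)) *
        (x ^ j / (1 - a * x) ^ (j + 1))) :=
    hasSum_sum fun j _ => (rs_hasSum_choose a x j hn).mul_left _
  convert h1 using 1
  · ext n
    unfold Jf
    rw [Finset.mul_sum, Finset.sum_mul]
    refine Finset.sum_congr rfl fun j _ => ?_
    ring
  · rw [add_comm a, add_pow, Finset.sum_range_succ']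
    simp only [pow_zero, one_mul, Nat.choose_zero_right, Nat.cast_one, mul_one, Nat.sub_zero]
    rw [add_sub_cancel_right, Finset.mul_sum]
    refine Finset.sum_congr rfl fun j _ => ?_
    have hc : ((k : ℝ) + 1) * (k.choose j) = ((k + 1).choose (j + 1)) * (j + 1) := by
      exact_mod_cast Nat.add_one_mul_choose_eq k j
    have hc2 : ((k.choose j : ℕ) : ℝ) = ((k + 1).choose (j + 1)) * (j + 1) / (k + 1) := by
      rw [eq_div_iff (by positivity), ← hc]
      ring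
    have hsub : k + 1 - (j + 1) = k - j := by omega
    rw [hsub, hc2]
    have hj : (j : ℝ) + 1 ≠ 0 := by positivity
    have hk : (k : ℝ) + 1 ≠ 0 := by positivity
    rw [div_pow]
    field_simp
    ring

lemma rs_partial (a R x : ℝ) (hx : 0 < x) (ha : 0 ≤ a) (hR : 0 ≤ R) (hax : a * x < 1) (k N : ℕ) :
    ∑ n ∈ Finset.range N, Jf a R k n * x ^ n ≤
      π / ((k + 1) * x) * (a + R * x / (1 - a * x)) ^ (k + 1) := by
  have h := sum_le_hasSum (Finset.range N)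
    (fun n _ => mul_nonneg (Jf_nonneg a R ha hR k n) (pow_nonneg hx.le n))
    (rs_gen a R x hx ha hax k)
  refine h.trans ?_
  have h1 : 0 ≤ π / ((k + 1) * x) := by positivity
  have h2 : 0 ≤ a ^ (k + 1) := by positivity
  nlinarith [mul_nonneg h1 h2]

lemma rs_H_bound {t e : ℝ} (ht0 : 0 < t) (ht1 : t < 1) (he : |e| ≤ 1 / 4) :
    aT t * (1 + e) < 1 ∧
    aT t + RT t * (1 + e) / (1 - aT t * (1 + e)) ≤
      (1 + e) * Real.exp (-t ^ 2 / 4 + 3 * t * e ^ 2) := by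
  obtain ⟨he1, he2⟩ := abs_le.1 he
  have hx : 0 < 1 + e := by linarith
  have h1t : 0 < 1 + t := by linarith
  have hte : t * e ≤ 1 / 4 := by nlinarith
  have hte2 : -(1 / 4) ≤ t * e := by nlinarith
  have haT : aT t * (1 + e) < 1 := by
    unfold aT
    rw [div_mul_eq_mul_div, div_lt_one h1t]
    nlinarith
  refine ⟨haT, ?_⟩
  have hexp : -t ^ 2 / 4 + 3 * t * e ^ 2 + 1 ≤ Real.exp (-t ^ 2 / 4 + 3 * t * e ^ 2) :=
    Real.add_one_le_exp _
  refine le_trans ?_ (mul_le_mul_of_nonneg_left hexp hx.le)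
  have hden : 1 - aT t * (1 + e) = (1 - t * e) / (1 + t) := by
    unfold aT
    field_simp
    ring
  have h1te : 0 < 1 - t * e := by linarith
  rcases le_total ((1 - t ^ 2 - t ^ 3) / (1 + t) ^ 2) 0 with hneg | hpos
  · have hRT : RT t = 0 := max_eq_right hneg
    rw [hRT]
    simp only [zero_mul, zero_div, add_zero]
    have h2 : aT t ≤ 1 / 2 := by
      unfold aT
      rw [div_le_div_iff₀ h1t two_pos]
      linarith
    have h3 : 3 / 4 ≤ -t ^ 2 / 4 + 3 * t * e ^ 2 + 1 := by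
      have : 0 ≤ t * e ^ 2 := by positivity
      nlinarith
    nlinarith
  · have hRT : RT t = (1 - t ^ 2 - t ^ 3) / (1 + t) ^ 2 := max_eq_left hpos
    have hP : 0 ≤ 1 - t ^ 2 - t ^ 3 := by
      by_contra hc
      push Not at hc
      have := div_neg_of_neg_of_pos hc (show (0 : ℝ) < (1 + t) ^ 2 by positivity)
      linarith
    set P := 1 - t ^ 2 - t ^ 3 with hPdef
    have hP1 : P ≤ 1 := by
      have : 0 < t ^ 2 := by positivity
      have : 0 < t ^ 3 := by positivity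
      linarith
    have hA : t / (1 + e) ≤ t - t * e + 4 / 3 * t * e ^ 2 := by
      rw [div_le_iff₀ hx]
      have h5 : 0 ≤ t * e ^ 2 * (1 / 3 + 4 / 3 * e) := by
        apply mul_nonneg (by positivity)
        linarith
      nlinarith
    have hB : P / (1 - t * e) ≤ P + P * (t * e) + 4 / 3 * P * (t * e) ^ 2 := by
      rw [div_le_iff₀ h1te]
      have h5 : 0 ≤ P * (t * e) ^ 2 * (1 / 3 - 4 / 3 * (t * e)) := by
        apply mul_nonneg (by positivity)
        linarith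
      nlinarith
    have hlhs : aT t + RT t * (1 + e) / (1 - aT t * (1 + e)) =
        (1 + e) * ((t / (1 + e) + P / (1 - t * e)) / (1 + t)) := by
      rw [hden, hRT]
      unfold aT
      field_simp
    rw [hlhs]
    refine mul_le_mul_of_nonneg_left ?_ hx.le
    rw [div_le_iff₀ h1t]
    have hs : t - t * e + 4 / 3 * t * e ^ 2 + (P + P * (t * e) + 4 / 3 * P * (t * e) ^ 2) ≤
        (-t ^ 2 / 4 + 3 * t * e ^ 2 + 1) * (1 + t) := by
      have e1 : t - t * e + 4 / 3 * t * e ^ 2 + (P + P * (t * e) + 4 / 3 * P * (t * e) ^ 2) =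
          (1 + t) * (1 - t ^ 2 - t ^ 2 * (t * e)) + 4 / 3 * t * e ^ 2 +
            4 / 3 * P * (t * e) ^ 2 := by
        rw [hPdef]
        ring
      have e2 : 4 / 3 * P * (t * e) ^ 2 ≤ 4 / 3 * t * e ^ 2 := by
        have h6 : P * t ≤ 1 := by nlinarith
        have h7 : 0 ≤ t * e ^ 2 := by positivity
        have : 4 / 3 * P * (t * e) ^ 2 = 4 / 3 * (P * t) * (t * e ^ 2) := by ring
        rw [this]
        nlinarith
      have e3 : 4 / 3 * t * e ^ 2 + 4 / 3 * t * e ^ 2 ≤ (1 + t) * (3 * t * e ^ 2) := by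
        have h7 : 0 ≤ t * e ^ 2 := by positivity
        have h8 : 0 ≤ t * (t * e ^ 2) := by positivity
        nlinarith
      have e4 : (1 + t) * (1 - t ^ 2 - t ^ 2 * (t * e)) ≤ (1 + t) * (1 - t ^ 2 / 4) := by
        refine mul_le_mul_of_nonneg_left ?_ h1t.le
        nlinarith [sq_nonneg t, mul_nonneg (sq_nonneg t) (show (0 : ℝ) ≤ t * e + 1 / 4 by linarith)]
      have e5 : (-t ^ 2 / 4 + 3 * t * e ^ 2 + 1) * (1 + t) =
          (1 + t) * (1 - t ^ 2 / 4) + (1 + t) * (3 * t * e ^ 2) := by ring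
      rw [e1, e5]
      linarith
    linarith

lemma rs_continuousOn (k n : ℕ) :
    ContinuousOn (fun t : ℝ => 2 * t * Jf (aT t) (RT t) k n) (Icc 0 1) := by
  have h1 : ContinuousOn aT (Icc 0 1) := by
    unfold aT
    refine ContinuousOn.div (by fun_prop) (by fun_prop) ?_
    intro t ht
    have := ht.1
    positivity
  have h2 : ContinuousOn RT (Icc 0 1) := by
    unfold RT
    refine ContinuousOn.sup (ContinuousOn.div (by fun_prop) (by fun_prop) ?_) continuousOn_const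
    intro t ht
    have := ht.1
    positivity
  unfold Jf
  refine ContinuousOn.mul (by fun_prop) (ContinuousOn.mul continuousOn_const ?_)
  refine continuousOn_finsetSum _ fun j _ => ?_
  fun_prop

lemma rs_integrableOn (k n : ℕ) :
    IntegrableOn (fun t : ℝ => 2 * t * Jf (aT t) (RT t) k n) (Ioo 0 1) :=
  ((rs_continuousOn k n).integrableOn_compact isCompact_Icc).mono_set Ioo_subset_Icc_self

lemma rs_gauss (c : ℝ) (hc : 0 < c) (M : ℝ) :
    ∫ t in Ioo (0 : ℝ) 1, 2 * t * Real.exp (-c * t ^ 2 + M) ≤ Real.exp M / c := by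
  rw [← integral_Ioc_eq_integral_Ioo, ← intervalIntegral.integral_of_le zero_le_one]
  have hd : ∀ t ∈ uIcc (0 : ℝ) 1, HasDerivAt (fun t : ℝ => -(Real.exp (-c * t ^ 2 + M)) / c)
      (2 * t * Real.exp (-c * t ^ 2 + M)) t := by
    intro t _
    have h1 : HasDerivAt (fun t : ℝ => -c * t ^ 2 + M) (-c * (2 * t)) t := by
      have := ((hasDerivAt_pow 2 t).const_mul (-c)).add_const M
      simpa using this
    have h2 := (h1.exp.neg).div_const c
    have e1 : 2 * t * Real.exp (-c * t ^ 2 + M) =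
        -(Real.exp (-c * t ^ 2 + M) * (-c * (2 * t))) / c := by
      field_simp
    rw [e1]
    exact h2
  rw [intervalIntegral.integral_eq_sub_of_hasDerivAt hd]
  · have h3 : 0 < Real.exp (-c * 1 ^ 2 + M) := Real.exp_pos _
    have h4 : 0 < Real.exp (-c * 1 ^ 2 + M) / c := by positivity
    have h5 : -c * 0 ^ 2 + M = M := by ring
    rw [h5, neg_div, neg_div]
    linarith
  · exact (by fun_prop : Continuous (fun t : ℝ => 2 * t * Real.exp (-c * t ^ 2 + M))).intervalIntegrable _ _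

/-- Partial sums of the row generating function. -/
lemma rs_main (b h : ℝ) (hb : 0 ≤ b) (hh : 0 < h) (k : ℕ) (hk : 1 ≤ k) (hk4 : h ^ 4 = k)
    (e : ℝ) (he : |e| ≤ 1 / 4) (he2 : e ^ 2 ≤ 4 * b ^ 2 / h ^ 2) (N : ℕ) :
    ∑ n ∈ Finset.range N, Kr k n * (1 + e) ^ n ≤ 24 * Real.exp (1152 * b ^ 4) * (1 + e) ^ k := by
  obtain ⟨he1', he2'⟩ := abs_le.1 he
  have hx : 0 < 1 + e := by linarith
  have hk1 : (1 : ℝ) ≤ k := by exact_mod_cast hk
  have hk0 : (0 : ℝ) < k := by linarith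
  have h1 : ∑ n ∈ Finset.range N, Kr k n * (1 + e) ^ n =
      ((k : ℝ) + 1) * (k + 2) / π * ∫ t in Ioo (0 : ℝ) 1,
        ∑ n ∈ Finset.range N, 2 * t * Jf (aT t) (RT t) k n * (1 + e) ^ n := by
    rw [integral_finsetSum _ (fun n _ => (rs_integrableOn k n).mul_const _), Finset.mul_sum]
    refine Finset.sum_congr rfl fun n _ => ?_
    rw [integral_mul_const, Kr_eq]
    ring
  rw [h1]
  have h2 : ∫ t in Ioo (0 : ℝ) 1,
        ∑ n ∈ Finset.range N, 2 * t * Jf (aT t) (RT t) k n * (1 + e) ^ n ≤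
      ∫ t in Ioo (0 : ℝ) 1, (π / ((k + 1) * (1 + e)) * (1 + e) ^ (k + 1)) *
        (2 * t * Real.exp (-(k / 8) * t ^ 2 + 1152 * b ^ 4)) := by
    refine setIntegral_mono_on (integrable_finsetSum _ fun n _ => (rs_integrableOn k n).mul_const _)
      ?_ measurableSet_Ioo ?_
    · exact ((by fun_prop : Continuous (fun t : ℝ => (π / ((k + 1) * (1 + e)) * (1 + e) ^ (k + 1)) *
        (2 * t * Real.exp (-(k / 8) * t ^ 2 + 1152 * b ^ 4)))).continuousOn.integrableOn_compact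
          (isCompact_Icc (a := (0 : ℝ)) (b := 1))).mono_set Ioo_subset_Icc_self
    · rintro t ⟨ht0, ht1⟩
      obtain ⟨hax, hH⟩ := rs_H_bound ht0 ht1 he
      have h3 := rs_partial (aT t) (RT t) (1 + e) hx (aT_nonneg ht0.le) (RT_nonneg t) hax k N
      have h4 : ∑ n ∈ Finset.range N, 2 * t * Jf (aT t) (RT t) k n * (1 + e) ^ n =
          2 * t * ∑ n ∈ Finset.range N, Jf (aT t) (RT t) k n * (1 + e) ^ n := by
        rw [Finset.mul_sum]
        refine Finset.sum_congr rfl fun n _ => ?_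
        ring
      rw [h4]
      have h5 : (aT t + RT t * (1 + e) / (1 - aT t * (1 + e))) ^ (k + 1) ≤
          (1 + e) ^ (k + 1) * Real.exp (-(k / 8) * t ^ 2 + 1152 * b ^ 4) := by
        have hnn : 0 ≤ aT t + RT t * (1 + e) / (1 - aT t * (1 + e)) := by
          have := aT_nonneg ht0.le
          have := RT_nonneg t
          have : 0 < 1 - aT t * (1 + e) := by linarith
          positivity
        refine (pow_le_pow_left₀ hnn hH (k + 1)).trans ?_
        rw [mul_pow, ← Real.exp_nat_mul]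
        refine mul_le_mul_of_nonneg_left (Real.exp_le_exp.2 ?_) (by positivity)
        push_cast
        have h6 : t * e ^ 2 ≤ t * (4 * b ^ 2 / h ^ 2) := mul_le_mul_of_nonneg_left he2 ht0.le
        have h7 : ((k : ℝ) + 1) * (3 * t * e ^ 2) ≤ 24 * t * h ^ 2 * b ^ 2 := by
          have h8 : ((k : ℝ) + 1) * (3 * t * e ^ 2) ≤ (2 * h ^ 4) * (3 * (t * (4 * b ^ 2 / h ^ 2))) := by
            rw [hk4]
            have h9 : 0 ≤ t * e ^ 2 := by positivity
            have h10 : 0 ≤ t * (4 * b ^ 2 / h ^ 2) := by positivity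
            nlinarith
          refine h8.trans (le_of_eq ?_)
          field_simp
          ring
        have h8 : 24 * t * h ^ 2 * b ^ 2 ≤ (k : ℝ) * t ^ 2 / 8 + 1152 * b ^ 4 := by
          rw [← hk4]
          nlinarith [sq_nonneg (h ^ 2 * t - 96 * b ^ 2)]
        have h9 : 0 ≤ t ^ 2 := sq_nonneg t
        nlinarith
      have h6 : 0 ≤ π / ((k + 1) * (1 + e)) := by positivity
      calc 2 * t * ∑ n ∈ Finset.range N, Jf (aT t) (RT t) k n * (1 + e) ^ n
          ≤ 2 * t * (π / ((k + 1) * (1 + e)) *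
            (aT t + RT t * (1 + e) / (1 - aT t * (1 + e))) ^ (k + 1)) :=
            mul_le_mul_of_nonneg_left h3 (by positivity)
        _ ≤ 2 * t * (π / ((k + 1) * (1 + e)) *
            ((1 + e) ^ (k + 1) * Real.exp (-(k / 8) * t ^ 2 + 1152 * b ^ 4))) := by
            refine mul_le_mul_of_nonneg_left (mul_le_mul_of_nonneg_left h5 h6) (by positivity)
        _ = _ := by ring
  rw [integral_const_mul] at h2
  have h3 := rs_gauss (k / 8) (by positivity) (1152 * b ^ 4)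
  have hc0 : 0 ≤ ((k : ℝ) + 1) * (k + 2) / π := by positivity
  refine (mul_le_mul_of_nonneg_left h2 hc0).trans ?_
  have hc1 : 0 ≤ π / (((k : ℝ) + 1) * (1 + e)) * (1 + e) ^ (k + 1) := by positivity
  refine (mul_le_mul_of_nonneg_left (mul_le_mul_of_nonneg_left h3 hc1) hc0).trans ?_
  have h4 : ((k : ℝ) + 1) * (k + 2) / π * (π / (((k : ℝ) + 1) * (1 + e)) * (1 + e) ^ (k + 1) *
      (Real.exp (1152 * b ^ 4) / (k / 8))) =
      (8 * (k + 2) / k) * Real.exp (1152 * b ^ 4) * (1 + e) ^ k := by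
    rw [pow_succ]
    field_simp
  rw [h4]
  have h5 : 8 * ((k : ℝ) + 2) / k ≤ 24 := by
    rw [div_le_iff₀ hk0]
    linarith
  refine mul_le_mul_of_nonneg_right (mul_le_mul_of_nonneg_right h5 (Real.exp_pos _).le) (by positivity)

theorem Kr_row_sum (β : ℝ) : ∃ C : ℝ, ∃ k₁ : ℕ, ∀ k ≥ k₁,
    Summable (fun n : ℕ => Kr k n * Real.exp (β * |(n : ℝ) - k| / (k : ℝ) ^ (1 / 4 : ℝ))) ∧
    ∑' n : ℕ, Kr k n * Real.exp (β * |(n : ℝ) - k| / (k : ℝ) ^ (1 / 4 : ℝ)) ≤ C := by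
  set b : ℝ := |β| with hb
  have hb0 : 0 ≤ b := abs_nonneg β
  refine ⟨48 * Real.exp (1152 * b ^ 4), max 1 ⌈(8 * b) ^ 4⌉₊, ?_⟩
  intro k hk
  have hk1 : 1 ≤ k := le_trans (le_max_left _ _) hk
  have hk2 : (8 * b) ^ 4 ≤ (k : ℝ) := by
    have : ⌈(8 * b) ^ 4⌉₊ ≤ k := le_trans (le_max_right _ _) hk
    exact (Nat.le_ceil _).trans (by exact_mod_cast this)
  have hkR : (1 : ℝ) ≤ k := by exact_mod_cast hk1
  set h : ℝ := (k : ℝ) ^ (1 / 4 : ℝ) with hh
  have hh0 : 0 < h := Real.rpow_pos_of_pos (by linarith) _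
  have hh4 : h ^ 4 = k := by
    rw [hh, ← Real.rpow_natCast, ← Real.rpow_mul (by positivity)]
    norm_num
  have h8 : 8 * b ≤ h := by
    rw [← hh4] at hk2
    exact le_of_pow_le_pow_left₀ (by norm_num) hh0.le hk2
  set δ : ℝ := b / h with hδ
  have hδ0 : 0 ≤ δ := by positivity
  have hδ1 : δ ≤ 1 / 8 := by
    rw [hδ, div_le_iff₀ hh0]
    linarith
  have hmain : ∀ s : ℝ, |s| = δ → ∀ N : ℕ,
      ∑ n ∈ Finset.range N, Kr k n * Real.exp (s * ((n : ℝ) - k)) ≤ 24 * Real.exp (1152 * b ^ 4) := by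
    intro s hs N
    have he : |Real.exp s - 1| ≤ 2 * |s| := Real.abs_exp_sub_one_le (by rw [hs]; linarith)
    have he1 : |Real.exp s - 1| ≤ 1 / 4 := by
      rw [hs] at he
      linarith
    have he2 : (Real.exp s - 1) ^ 2 ≤ 4 * b ^ 2 / h ^ 2 := by
      rw [← sq_abs]
      calc |Real.exp s - 1| ^ 2 ≤ (2 * |s|) ^ 2 := by
            exact pow_le_pow_left₀ (abs_nonneg _) he 2
        _ = 4 * b ^ 2 / h ^ 2 := by
            rw [hs, hδ]
            ring
    have hm := rs_main b h hb0 hh0 k hk1 hh4 (Real.exp s - 1) he1 he2 N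
    have hexp : 1 + (Real.exp s - 1) = Real.exp s := by ring
    rw [hexp] at hm
    have hpos : 0 < Real.exp s ^ k := pow_pos (Real.exp_pos s) k
    have : ∑ n ∈ Finset.range N, Kr k n * Real.exp (s * ((n : ℝ) - k)) =
        (∑ n ∈ Finset.range N, Kr k n * Real.exp s ^ n) / Real.exp s ^ k := by
      rw [Finset.sum_div]
      refine Finset.sum_congr rfl fun n _ => ?_
      rw [mul_div_assoc, ← Real.exp_nat_mul, ← Real.exp_nat_mul, ← Real.exp_sub]
      congr 2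
      ring
    rw [this, div_le_iff₀ hpos]
    exact hm
  have hterm : ∀ n : ℕ, Kr k n * Real.exp (β * |(n : ℝ) - k| / h) ≤
      Kr k n * Real.exp (δ * ((n : ℝ) - k)) + Kr k n * Real.exp (-δ * ((n : ℝ) - k)) := by
    intro n
    rw [← mul_add]
    refine mul_le_mul_of_nonneg_left ?_ (Kr_nonneg k n)
    have h1 : β * |(n : ℝ) - k| / h ≤ δ * |(n : ℝ) - k| := by
      rw [hδ, div_mul_eq_mul_div]
      refine div_le_div_of_nonneg_right ?_ hh0.le
      exact mul_le_mul_of_nonneg_right (le_abs_self β) (abs_nonneg _)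
    refine (Real.exp_le_exp.2 h1).trans ?_
    rcases le_total 0 ((n : ℝ) - k) with h2 | h2
    · rw [abs_of_nonneg h2]
      exact le_add_of_nonneg_right (Real.exp_pos _).le
    · rw [abs_of_nonpos h2]
      have : δ * -((n : ℝ) - k) = -δ * ((n : ℝ) - k) := by ring
      rw [this]
      exact le_add_of_nonneg_left (Real.exp_pos _).le
  have hpart : ∀ N : ℕ, ∑ n ∈ Finset.range N, Kr k n * Real.exp (β * |(n : ℝ) - k| / h) ≤
      48 * Real.exp (1152 * b ^ 4) := by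
    intro N
    refine (Finset.sum_le_sum fun n _ => hterm n).trans ?_
    rw [Finset.sum_add_distrib]
    have h1 := hmain δ (abs_of_nonneg hδ0) N
    have h2 := hmain (-δ) (by rw [abs_neg, abs_of_nonneg hδ0]) N
    linarith
  have hnn : ∀ n : ℕ, 0 ≤ Kr k n * Real.exp (β * |(n : ℝ) - k| / h) :=
    fun n => mul_nonneg (Kr_nonneg k n) (Real.exp_pos _).le
  exact ⟨summable_of_sum_range_le hnn hpart, Real.tsum_le_of_sum_range_le hnn hpart⟩

end Pool.Agent.Work.MP_e29078_an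

end

section

/-! Orthogonality and square integrability of the explicit form `u0`. -/

open MeasureTheory Set Filter Topology
open scoped Real ComplexConjugate ContDiff ENNReal

namespace Pool.Agent.Work.MP_e29078_an

namespace B5

lemma qf_nonneg (w : ℂ) : 0 ≤ qf w := by unfold qf; positivity

lemma sf_le_one (w : ℂ) : sf w ≤ 1 := by
  unfold sf
  have : 0 ≤ ‖w‖ ^ 2 := by positivity
  linarith

lemma norm_lt_one {w : ℂ} (h : 0 < sf w) : ‖w‖ < 1 := by
  unfold sf at h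
  by_contra hc
  push Not at hc
  nlinarith

lemma qf_le {w : ℂ} (h : 0 < sf w) : qf w ≤ 4 := by
  have h1 := norm_lt_one h
  have h2 : ‖1 - w‖ ≤ ‖(1 : ℂ)‖ + ‖w‖ := norm_sub_le _ _
  rw [norm_one] at h2
  have h3 : 0 ≤ ‖1 - w‖ := norm_nonneg _
  unfold qf
  nlinarith

lemma rho_eq {w : ℂ} (h : 0 < sf w) : rho w * (rho w + qf w) = sf w := by
  unfold rho
  have h1 : 0 ≤ qf w ^ 2 + 4 * sf w := by positivity
  have h2 := Real.sq_sqrt h1
  nlinarith

lemma rho_pos {w : ℂ} (h : 0 < sf w) : 0 < rho w := by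
  unfold rho
  have h1 : qf w < √(qf w ^ 2 + 4 * sf w) := by
    apply Real.lt_sqrt_of_sq_lt
    linarith
  linarith

lemma rho_le_one {w : ℂ} (h : 0 < sf w) : rho w ≤ 1 := by
  have h1 := rho_eq h
  have h2 := rho_pos h
  have h3 := sf_le_one w
  have h4 := qf_nonneg w
  by_contra hc
  push Not at hc
  nlinarith

lemma GM_facts {z w : ℂ} (h : (z, w) ∈ GM) : 0 < sf w ∧ ‖z‖ ^ 2 < rho w := by
  have h0 : 0 < sf w - ‖z‖ ^ 4 - qf w * ‖z‖ ^ 2 := h
  have hq := qf_nonneg w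
  have h1 : 0 ≤ ‖z‖ ^ 4 := by positivity
  have h2 : 0 ≤ qf w * ‖z‖ ^ 2 := by positivity
  have hs : 0 < sf w := by linarith
  refine ⟨hs, ?_⟩
  have hr := rho_eq hs
  have hp := rho_pos hs
  by_contra hc
  push Not at hc
  have h3 : rho w * (rho w + qf w) ≤ ‖z‖ ^ 2 * (‖z‖ ^ 2 + qf w) := by
    apply mul_le_mul hc (by linarith) (by linarith) (by positivity)
  nlinarith

lemma continuous_qf : Continuous qf := by unfold qf; fun_prop
lemma continuous_sf : Continuous sf := by unfold sf; fun_prop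
lemma continuous_rho : Continuous rho := by
  have h1 := continuous_qf
  have h2 := continuous_sf
  unfold rho
  fun_prop
lemma continuous_hM : Continuous hM := by
  have h1 := continuous_qf
  have h2 := continuous_sf
  unfold hM
  fun_prop
lemma continuous_PM : Continuous PM := by
  have h := continuous_hM
  unfold PM
  fun_prop
lemma measurableSet_GM : MeasurableSet GM :=
  (isOpen_lt continuous_const continuous_hM).measurableSet

lemma rM_PM {x : ℝ × (ℂ × ℂ)} (hx : x.2 ∈ GM) : rM (PM x) = 0 := by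
  have h0 : 0 < hM x.2 := hx
  have h1 : ‖(PM x).1‖ ^ 2 = hM x.2 := by
    simp only [PM, norm_mul, Complex.norm_real, Complex.norm_exp_ofReal_mul_I, mul_one]
    rw [Real.norm_eq_abs, sq_abs, Real.sq_sqrt h0.le]
  unfold rM
  rw [h1]
  simp only [hM, PM, sf, qf]
  ring

/-- the algebra of the orthogonality relation -/
lemma orth_alg (F V : ℂ → ℂ) (p : C3) (hp : rM p = 0) (hs : 0 < sf p.2.2) :
    ∑ k, dz k (rc rM) p * u0 F V p k = 0 := by
  obtain ⟨d0, d1, d2⟩ := dz_rM p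
  rw [Fin.sum_univ_three, d0, d1, d2]
  obtain ⟨z1, z2, w⟩ := p
  simp only at hs ⊢
  set t : ℝ := ‖z2‖ ^ 2 with ht
  have hq0 := qf_nonneg w
  have hr0 := rho_pos hs
  have hre := rho_eq hs
  have ht0 : 0 ≤ t := by positivity
  have hz1 : z1 * conj z1 = ((sf w - t ^ 2 - qf w * t : ℝ) : ℂ) := by
    rw [Complex.mul_conj, Complex.normSq_eq_norm_sq]
    congr 1
    have h := hp
    simp only [rM] at h
    simp only [sf, qf, ht]
    linear_combination h
  have hz2 : z2 * conj z2 = ((t : ℝ) : ℂ) := by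
    rw [Complex.mul_conj, Complex.normSq_eq_norm_sq]
  have hX : (sf w - t ^ 2 - qf w * t) *
      (t * (2 * t + qf w) / ((rho w + qf w) * (rho w + t + qf w))) =
      t * (2 * t + qf w) * (1 - (t + qf w) * rho w / sf w) := by
    have e1 : rho w + qf w ≠ 0 := by positivity
    have e2 : rho w + t + qf w ≠ 0 := by positivity
    have e3 : rho w ≠ 0 := hr0.ne'
    rw [← hre]
    field_simp
    ring
  have hXc := congrArg (fun x : ℝ => (x : ℂ)) hX
  simp only [Complex.ofReal_mul] at hXc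
  have hqd : (‖1 - w‖ ^ 2 : ℝ) = qf w := rfl
  simp only [u0, Matrix.cons_val_zero, Matrix.cons_val_one, Matrix.cons_val]
  rw [← ht, hqd]
  set X : ℂ := ((t * (2 * t + qf w) / ((rho w + qf w) * (rho w + t + qf w)) : ℝ) : ℂ) with hXdef
  set Y : ℂ := ((1 - (t + qf w) * rho w / sf w : ℝ) : ℂ) with hYdef
  have hsc : (sf w : ℂ) ≠ 0 := by exact_mod_cast hs.ne'
  have hVp : -((sf w - t ^ 2 - qf w * t : ℝ) : ℂ) * conj w / (sf w : ℂ) ^ 2 -
      (t : ℂ) * (-(1 - conj w) / (sf w : ℂ) + (t + qf w : ℝ) * conj w / (sf w : ℂ) ^ 2) +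
      (conj w - (1 - conj w) * (t : ℂ)) / (sf w : ℂ) = 0 := by
    push_cast
    field_simp
    ring
  linear_combination (-(V w * (2 * t + qf w : ℝ) * conj w / (sf w : ℂ) ^ 2 + F w * X)) * hz1 +
    ((2 * t + qf w : ℝ) * (F w * Y - V w * (-(1 - conj w) / (sf w : ℂ) +
      (t + qf w : ℝ) * conj w / (sf w : ℂ) ^ 2))) * hz2 + (-F w) * hXc +
      (V w * (2 * t + qf w : ℝ)) * hVp

lemma ae_muM {P : C3 → Prop} (h : ∀ p, rM p = 0 → 0 < sf p.2.2 → P p) : ∀ᵐ p ∂muM, P p := by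
  have hS : MeasurableSet {p : C3 | rM p = 0 ∧ 0 < sf p.2.2} := by
    apply MeasurableSet.inter
    · exact (isClosed_eq B1.rM_cont continuous_const).measurableSet
    · exact (isOpen_lt continuous_const
        (continuous_sf.comp (continuous_snd.comp continuous_snd))).measurableSet
  have h1 : ∀ᵐ p ∂muM, p ∈ {p : C3 | rM p = 0 ∧ 0 < sf p.2.2} := by
    unfold muM
    apply Measure.ae_smul_measure
    refine (ae_map_iff continuous_PM.measurable.aemeasurable hS).2 ?_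
    have h2 : ∀ᵐ x ∂((volume.restrict (Ioo (-π) π)).prod (volume.restrict GM)), x.2 ∈ GM := by
      have h3 : ∀ᵐ z ∂(volume.restrict GM : Measure (ℂ × ℂ)), z ∈ GM :=
        ae_restrict_mem measurableSet_GM
      exact Measure.quasiMeasurePreserving_snd.ae h3
    filter_upwards [h2] with x hx
    refine ⟨rM_PM hx, ?_⟩
    have h4 : (x.2.1, x.2.2) ∈ GM := hx
    exact (GM_facts h4).1
  filter_upwards [h1] with p hp using h p hp.1 hp.2

end B5

theorem u0_orth (F V : ℂ → ℂ) : ∀ᵐ p ∂muM, ∑ k, dz k (rc rM) p * u0 F V p k = 0 :=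
  B5.ae_muM fun p hp hs => B5.orth_alg F V p hp hs

namespace B5

/-- real estimates, `s = r ^ 4` -/
lemma est2 {A r q t v : ℝ} (hA : 0 ≤ A) (hr : 0 < r) (ht : 0 ≤ t) (ht1 : t ≤ 1) (hq : 0 ≤ q)
    (hq4 : q ≤ 4) (hv0 : 0 ≤ v) (hv : v ≤ A * r ^ 3) :
    (v * (2 * t + q) / r ^ 4) ^ 2 ≤ 36 * A ^ 2 / r ^ 2 := by
  have h1 : v * (2 * t + q) / r ^ 4 ≤ 6 * A / r := by
    rw [div_le_div_iff₀ (by positivity) hr]
    calc v * (2 * t + q) * r ≤ (A * r ^ 3) * 6 * r := by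
          gcongr
          linarith
      _ = 6 * A * r ^ 4 := by ring
  have h0 : 0 ≤ v * (2 * t + q) / r ^ 4 := by positivity
  calc (v * (2 * t + q) / r ^ 4) ^ 2 ≤ (6 * A / r) ^ 2 := by gcongr
    _ = 36 * A ^ 2 / r ^ 2 := by rw [div_pow]; ring

lemma est1 {A r q t ρ x : ℝ} (hA : 0 ≤ A) (hr : 0 < r) (hr1 : r ≤ 1) (ht : 0 ≤ t) (htρ : t < ρ)
    (hρ1 : ρ ≤ 1) (hq : 0 ≤ q) (hρ : ρ * (ρ + q) = r ^ 4)
    (hx0 : 0 ≤ x) (hx : x ≤ A + A * r ^ 3 * (2 / r ^ 4 + (t + q) / r ^ 8)) :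
    t * x ^ 2 ≤ 18 * A ^ 2 / (r ^ 2 * ρ) := by
  have hρ0 : 0 < ρ := lt_of_le_of_lt ht htρ
  have h1 : A + A * r ^ 3 * (2 / r ^ 4 + (t + q) / r ^ 8) =
      A * (1 + 2 / r + (t + q) / r ^ 5) := by
    field_simp
    ring
  rw [h1] at hx
  have h2 : (1 + 2 / r + (t + q) / r ^ 5) ^ 2 ≤ 3 * (1 + 4 / r ^ 2 + (t + q) ^ 2 / r ^ 10) := by
    have e1 : (2 / r) ^ 2 = 4 / r ^ 2 := by rw [div_pow]; ring
    have e2 : ((t + q) / r ^ 5) ^ 2 = (t + q) ^ 2 / r ^ 10 := by rw [div_pow]; ring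
    rw [← e1, ← e2]
    nlinarith [sq_nonneg (1 - 2 / r), sq_nonneg (1 - (t + q) / r ^ 5),
      sq_nonneg (2 / r - (t + q) / r ^ 5)]
  have h3 : x ^ 2 ≤ A ^ 2 * (3 * (1 + 4 / r ^ 2 + (t + q) ^ 2 / r ^ 10)) := by
    calc x ^ 2 ≤ (A * (1 + 2 / r + (t + q) / r ^ 5)) ^ 2 := by gcongr
      _ = A ^ 2 * (1 + 2 / r + (t + q) / r ^ 5) ^ 2 := by ring
      _ ≤ _ := by gcongr
  have h4 : t * (t + q) ^ 2 ≤ r ^ 8 / ρ := by
    rw [le_div_iff₀ hρ0]
    calc t * (t + q) ^ 2 * ρ ≤ ρ * (ρ + q) ^ 2 * ρ := by gcongr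
      _ = (ρ * (ρ + q)) ^ 2 := by ring
      _ = r ^ 8 := by rw [hρ]; ring
  have h5 : t ≤ 1 / ρ := by
    rw [le_div_iff₀ hρ0]
    nlinarith
  have h6 : 1 ≤ 1 / r ^ 2 := by
    rw [le_div_iff₀ (by positivity), one_mul]
    nlinarith
  have h7 : t * (1 + 4 / r ^ 2 + (t + q) ^ 2 / r ^ 10) ≤ 6 / (r ^ 2 * ρ) := by
    have e1 : t * (1 + 4 / r ^ 2) ≤ 5 / (r ^ 2 * ρ) := by
      calc t * (1 + 4 / r ^ 2) ≤ (1 / ρ) * (1 / r ^ 2 + 4 / r ^ 2) := by gcongr
        _ = 5 / (r ^ 2 * ρ) := by field_simp; norm_num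
    have e2 : t * ((t + q) ^ 2 / r ^ 10) ≤ 1 / (r ^ 2 * ρ) := by
      calc t * ((t + q) ^ 2 / r ^ 10) = t * (t + q) ^ 2 / r ^ 10 := by ring
        _ ≤ (r ^ 8 / ρ) / r ^ 10 := by gcongr
        _ = 1 / (r ^ 2 * ρ) := by field_simp
    calc t * (1 + 4 / r ^ 2 + (t + q) ^ 2 / r ^ 10) =
        t * (1 + 4 / r ^ 2) + t * ((t + q) ^ 2 / r ^ 10) := by ring
      _ ≤ 5 / (r ^ 2 * ρ) + 1 / (r ^ 2 * ρ) := by gcongr
      _ = 6 / (r ^ 2 * ρ) := by ring
  calc t * x ^ 2 ≤ t * (A ^ 2 * (3 * (1 + 4 / r ^ 2 + (t + q) ^ 2 / r ^ 10))) := by gcongr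
    _ = 3 * A ^ 2 * (t * (1 + 4 / r ^ 2 + (t + q) ^ 2 / r ^ 10)) := by ring
    _ ≤ 3 * A ^ 2 * (6 / (r ^ 2 * ρ)) := by gcongr
    _ = 18 * A ^ 2 / (r ^ 2 * ρ) := by ring

lemma est0 {A r q t ρ x h v : ℝ} (hA : 0 ≤ A) (hr : 0 < r) (hr1 : r ≤ 1) (ht : 0 ≤ t)
    (htρ : t < ρ) (hρ1 : ρ ≤ 1) (hq : 0 ≤ q) (hq4 : q ≤ 4) (hρ : ρ * (ρ + q) = r ^ 4)
    (hh0 : 0 ≤ h) (hh : h ≤ r ^ 4) (hv0 : 0 ≤ v) (hv : v ≤ A * r ^ 3)
    (hx0 : 0 ≤ x) (hx : x ≤ v * (2 * t + q) / r ^ 8 + A) :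
    h * x ^ 2 ≤ 42 * A ^ 2 / (r ^ 2 * ρ) := by
  have hρ0 : 0 < ρ := lt_of_le_of_lt ht htρ
  have h1 : v * (2 * t + q) / r ^ 8 ≤ A * (2 / (r * ρ)) := by
    have e1 : 2 * t + q ≤ 2 * (ρ + q) := by linarith
    have e2 : ρ + q = r ^ 4 / ρ := by
      rw [eq_div_iff hρ0.ne', mul_comm]; exact hρ
    calc v * (2 * t + q) / r ^ 8 ≤ (A * r ^ 3) * (2 * (ρ + q)) / r ^ 8 := by gcongr
      _ = (A * r ^ 3) * (2 * (r ^ 4 / ρ)) / r ^ 8 := by rw [e2]
      _ = A * (2 / (r * ρ)) := by field_simp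
  have h2 : x ^ 2 ≤ A ^ 2 * (2 * (4 / (r ^ 2 * ρ ^ 2) + 1)) := by
    have e1 : (2 / (r * ρ) + 1) ^ 2 ≤ 2 * (4 / (r ^ 2 * ρ ^ 2) + 1) := by
      have e2 : (2 / (r * ρ)) ^ 2 = 4 / (r ^ 2 * ρ ^ 2) := by rw [div_pow]; ring
      rw [← e2]
      nlinarith [sq_nonneg (2 / (r * ρ) - 1)]
    calc x ^ 2 ≤ (A * (2 / (r * ρ) + 1)) ^ 2 := by
          apply pow_le_pow_left₀ hx0
          linarith
      _ = A ^ 2 * (2 / (r * ρ) + 1) ^ 2 := by ring
      _ ≤ _ := by gcongr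
  have h3 : 1 / ρ ≤ 5 / r ^ 4 := by
    rw [div_le_div_iff₀ hρ0 (by positivity), one_mul]
    nlinarith
  have h4 : 1 ≤ 1 / (r ^ 2 * ρ) := by
    rw [le_div_iff₀ (by positivity), one_mul]
    have : r ^ 2 ≤ 1 := by nlinarith
    nlinarith
  have hr4 : r ^ 4 ≤ 1 := pow_le_one₀ hr.le hr1
  calc h * x ^ 2 ≤ r ^ 4 * (A ^ 2 * (2 * (4 / (r ^ 2 * ρ ^ 2) + 1))) := by gcongr
    _ = A ^ 2 * (8 * (r ^ 2 / ρ) * (1 / ρ) + 2 * r ^ 4) := by field_simp; ring
    _ ≤ A ^ 2 * (8 * (r ^ 2 / ρ) * (5 / r ^ 4) + 2 * 1) := by gcongr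
    _ = A ^ 2 * (40 * (1 / (r ^ 2 * ρ)) + 2 * 1) := by field_simp; norm_num
    _ ≤ A ^ 2 * (40 * (1 / (r ^ 2 * ρ)) + 2 * (1 / (r ^ 2 * ρ))) := by gcongr
    _ = 42 * A ^ 2 / (r ^ 2 * ρ) := by ring

/-- the fourth root of `s` -/
noncomputable def rr (w : ℂ) : ℝ := √(√(sf w))

lemma rr_pos {w : ℂ} (h : 0 < sf w) : 0 < rr w := Real.sqrt_pos.2 (Real.sqrt_pos.2 h)

lemma rr_sq (w : ℂ) : rr w ^ 2 = √(sf w) := Real.sq_sqrt (Real.sqrt_nonneg _)

lemma rr_four {w : ℂ} (h : 0 < sf w) : rr w ^ 4 = sf w := by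
  have : rr w ^ 4 = (rr w ^ 2) ^ 2 := by ring
  rw [this, rr_sq, Real.sq_sqrt h.le]

lemma rr_three {w : ℂ} (h : 0 < sf w) : (sf w) ^ (3 / 4 : ℝ) = rr w ^ 3 := by
  have h1 := rr_four h
  have h2 := rr_pos h
  rw [← h1, ← Real.rpow_natCast (rr w) 4, ← Real.rpow_mul h2.le, ← Real.rpow_natCast (rr w) 3]
  norm_num

lemma rr_le_one {w : ℂ} (h : 0 < sf w) : rr w ≤ 1 := by
  have h1 := rr_four h
  have h2 := rr_pos h
  have h3 := sf_le_one w
  by_contra hc
  push Not at hc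
  have : 1 < rr w ^ 4 := one_lt_pow₀ hc (by norm_num)
  linarith

lemma u0_bound (F V : ℂ → ℂ) (A : ℝ) (hF : ∀ w, ‖F w‖ ≤ A)
    (hVb : ∀ w, ‖w‖ < 1 → ‖V w‖ ≤ A * (1 - ‖w‖ ^ 2) ^ (3 / 4 : ℝ)) (x : ℝ × (ℂ × ℂ))
    (hx : x.2 ∈ GM) (k : Fin 3) :
    ‖u0 F V (PM x) k‖ ^ 2 ≤ 42 * A ^ 2 / (√(sf x.2.2) * rho x.2.2) := by
  obtain ⟨θ, z, w⟩ := x
  obtain ⟨hs, htρ⟩ := GM_facts (show (z, w) ∈ GM from hx)
  have hA : 0 ≤ A := (norm_nonneg _).trans (hF 0)
  have hq := qf_nonneg w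
  have hq4 := qf_le hs
  have hρ0 := rho_pos hs
  have hρ1 := rho_le_one hs
  have hρe := rho_eq hs
  have hw := norm_lt_one hs
  have hr := rr_pos hs
  have hr1 := rr_le_one hs
  have hr4 := rr_four hs
  have hV : ‖V w‖ ≤ A * rr w ^ 3 := by
    rw [← rr_three hs]; exact hVb w hw
  have ht0 : 0 ≤ ‖z‖ ^ 2 := by positivity
  have ht1 : ‖z‖ ^ 2 ≤ 1 := by linarith
  have hhM : 0 < hM (z, w) := hx
  have hhMe : hM (z, w) = sf w - ‖z‖ ^ 4 - qf w * ‖z‖ ^ 2 := rfl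
  have hhM1 : hM (z, w) ≤ rr w ^ 4 := by
    rw [hhMe, hr4]
    have : 0 ≤ ‖z‖ ^ 4 + qf w * ‖z‖ ^ 2 := by positivity
    linarith
  have hz1 : ‖(PM (θ, z, w)).1‖ ^ 2 = hM (z, w) := by
    simp only [PM, norm_mul, Complex.norm_real, Complex.norm_exp_ofReal_mul_I, mul_one]
    rw [Real.norm_eq_abs, sq_abs, Real.sq_sqrt hhM.le]
  rw [← rr_sq]
  change ‖u0 F V (PM (θ, z, w)) k‖ ^ 2 ≤ 42 * A ^ 2 / (rr w ^ 2 * rho w)
  set t : ℝ := ‖z‖ ^ 2 with ht
  rw [hr4.symm] at hρe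
  have hnn : ∀ x : ℝ, 0 ≤ x → ‖(x : ℂ)‖ = x := fun x hx => by
    rw [Complex.norm_real, Real.norm_of_nonneg hx]
  have hnw : ‖conj w‖ ≤ 1 := by rw [Complex.norm_conj]; exact hw.le
  fin_cases k
  · have hval : ‖u0 F V (PM (θ, z, w)) 0‖ ^ 2 = hM (z, w) *
        ‖V w * (2 * t + qf w : ℝ) * conj w / (sf w : ℂ) ^ 2 +
      F w * (t * (2 * t + qf w) / ((rho w + qf w) * (rho w + t + qf w)) : ℝ)‖ ^ 2 := by
      rw [← hz1]
      simp only [u0, Matrix.cons_val_zero]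
      rw [neg_mul, norm_neg, norm_mul, mul_pow]
      rfl
    change ‖u0 F V (PM (θ, z, w)) 0‖ ^ 2 ≤ _
    rw [hval]
    refine est0 hA hr hr1 ht0 htρ hρ1 hq hq4 hρe hhM.le hhM1 (norm_nonneg (V w)) hV
      (norm_nonneg _) ?_
    refine (norm_add_le _ _).trans (add_le_add ?_ ?_)
    · rw [norm_div, norm_mul, norm_mul, norm_pow, hnn _ hs.le, hnn _ (by positivity), ← hr4]
      have e : ((rr w) ^ 4) ^ 2 = rr w ^ 8 := by ring
      rw [e]
      exact div_le_div_of_nonneg_right (mul_le_of_le_one_right (by positivity) hnw)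
        (by positivity)
    · rw [norm_mul, hnn _ (by positivity)]
      have e : t * (2 * t + qf w) / ((rho w + qf w) * (rho w + t + qf w)) ≤ 1 := by
        rw [div_le_one (by positivity)]
        apply mul_le_mul <;> first | positivity | linarith
      calc ‖F w‖ * (t * (2 * t + qf w) / ((rho w + qf w) * (rho w + t + qf w))) ≤ A * 1 := by
            gcongr
            exact hF w
        _ = A := mul_one A
  · have hval : ‖u0 F V (PM (θ, z, w)) 1‖ ^ 2 = t *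
        ‖F w * (1 - (t + qf w) * rho w / sf w : ℝ) -
      V w * (-(1 - conj w) / (sf w : ℂ) + (t + qf w : ℝ) * conj w / (sf w : ℂ) ^ 2)‖ ^ 2 := by
      simp only [u0, Matrix.cons_val_one, Matrix.cons_val_zero]
      rw [norm_mul, mul_pow]
      rfl
    change ‖u0 F V (PM (θ, z, w)) 1‖ ^ 2 ≤ _
    rw [hval]
    refine (est1 hA hr hr1 ht0 htρ hρ1 hq hρe (norm_nonneg _) ?_).trans ?_
    · refine (norm_sub_le _ _).trans (add_le_add ?_ ?_)
      · rw [norm_mul, Complex.norm_real, Real.norm_eq_abs]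
        have e0 : (t + qf w) * rho w / sf w ≤ 1 := by
          rw [div_le_one hs, ← hr4, ← hρe, mul_comm]
          gcongr
        have e1 : 0 ≤ (t + qf w) * rho w / sf w := by positivity
        have e2 : |1 - (t + qf w) * rho w / sf w| ≤ 1 := by
          rw [abs_le]; constructor <;> linarith
        calc ‖F w‖ * |1 - (t + qf w) * rho w / sf w| ≤ A * 1 := by
              gcongr
              exact hF w
          _ = A := mul_one A
      · rw [norm_mul]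
        refine mul_le_mul hV ?_ (norm_nonneg _) (by positivity)
        refine (norm_add_le _ _).trans (add_le_add ?_ ?_)
        · rw [norm_div, norm_neg, hnn _ hs.le, ← hr4]
          gcongr
          calc ‖1 - conj w‖ ≤ ‖(1 : ℂ)‖ + ‖conj w‖ := norm_sub_le _ _
            _ ≤ 1 + 1 := by rw [norm_one]; gcongr
            _ = 2 := by norm_num
        · rw [norm_div, norm_mul, norm_pow, hnn _ hs.le, hnn _ (by positivity), ← hr4]
          have e : ((rr w) ^ 4) ^ 2 = rr w ^ 8 := by ring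
          rw [e]
          gcongr
          exact mul_le_of_le_one_right (by positivity) hnw
    · gcongr
      norm_num
  · have hval : ‖u0 F V (PM (θ, z, w)) 2‖ = ‖V w‖ * (2 * t + qf w) / rr w ^ 4 := by
      simp only [u0, Matrix.cons_val]
      have e1 : ‖(PM (θ, z, w)).2.1‖ ^ 2 = t := rfl
      have e2 : (PM (θ, z, w)).2.2 = w := rfl
      rw [e1, e2, norm_div, norm_mul, hnn _ hs.le, hnn _ (by positivity), hr4]
    change ‖u0 F V (PM (θ, z, w)) 2‖ ^ 2 ≤ _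
    rw [hval]
    refine (est2 hA hr ht0 ht1 hq hq4 (norm_nonneg _) hV).trans ?_
    calc 36 * A ^ 2 / rr w ^ 2 ≤ 42 * A ^ 2 / rr w ^ 2 := by
          gcongr; norm_num
      _ ≤ 42 * A ^ 2 / (rr w ^ 2 * rho w) := by
          gcongr
          exact mul_le_of_le_one_right (by positivity) hρ1

lemma measurable_u0 (F V : ℂ → ℂ) (hFm : Measurable F) (hV : Continuous V) (k : Fin 3) :
    Measurable (fun p => u0 F V p k) := by
  have hq := continuous_qf.measurable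
  have hs := continuous_sf.measurable
  have hρ := continuous_rho.measurable
  have hVm := hV.measurable
  have hc : Measurable (fun p : C3 => conj p.2.2) :=
    (Complex.continuous_conj.comp (continuous_snd.comp continuous_snd)).measurable
  fin_cases k
  · simp only [u0, Matrix.cons_val_zero, Fin.zero_eta]
    fun_prop
  · simp only [u0, Matrix.cons_val_one, Matrix.cons_val_zero, Fin.mk_one]
    fun_prop
  · simp only [u0, Matrix.cons_val, Fin.reduceFinMk]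
    fun_prop

lemma integrableOn_inv_sqrt :
    IntegrableOn (fun w : ℂ => 1 / √(sf w)) (Metric.ball (0 : ℂ) 1) := by
  have h1 : IntegrableOn (fun y : ℝ => (1 - y) ^ (-(1 / 2) : ℝ)) (Ioo 0 1) := by
    have h2 := (intervalIntegral.intervalIntegrable_rpow' (a := 0) (b := 1)
      (show (-1 : ℝ) < -(1 / 2) by norm_num)).comp_sub_left 1
    have h3 := h2.symm
    rw [intervalIntegrable_iff_integrableOn_Ioo_of_le (by norm_num)] at h3
    simpa using h3
  refine (integrableOn_fun_norm_addHaar (volume : Measure ℂ)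
    (f := fun y : ℝ => 1 / √(1 - y ^ 2)) (r := 1)).2 ?_
  refine Integrable.mono' h1 ?_ ?_
  · exact Measurable.aestronglyMeasurable (by fun_prop)
  · refine (ae_restrict_iff' measurableSet_Ioo).2 (Eventually.of_forall fun y hy => ?_)
    obtain ⟨hy0, hy1⟩ := hy
    rw [Complex.finrank_real_complex]
    norm_num
    have e1 : (1 - y) ^ (-(1 / 2) : ℝ) = (√(1 - y))⁻¹ := by
      rw [Real.rpow_neg (by linarith), ← Real.sqrt_eq_rpow]
    have e2 : √(1 - y) ≤ √(1 - y ^ 2) := by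
      apply Real.sqrt_le_sqrt
      nlinarith
    have e3 : 0 < √(1 - y) := Real.sqrt_pos.2 (by linarith)
    have e4 : 0 < √(1 - y ^ 2) := lt_of_lt_of_le e3 e2
    norm_num at e1
    rw [e1, abs_of_pos hy0, abs_of_pos e4]
    calc y * (√(1 - y ^ 2))⁻¹ ≤ 1 * (√(1 - y))⁻¹ := by gcongr
      _ = (√(1 - y))⁻¹ := one_mul _

lemma integrableOn_GM :
    IntegrableOn (fun z : ℂ × ℂ => 1 / (√(sf z.2) * rho z.2)) GM := by
  have hms : Measurable (fun w : ℂ => 1 / (√(sf w) * rho w)) := by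
    have hs := continuous_sf.measurable
    have hρ := continuous_rho.measurable
    fun_prop
  have hm : Measurable (fun z : ℂ × ℂ => 1 / (√(sf z.2) * rho z.2)) := hms.comp measurable_snd
  refine ⟨hm.aestronglyMeasurable, ?_⟩
  unfold HasFiniteIntegral
  rw [← lintegral_indicator measurableSet_GM, Measure.volume_eq_prod,
    lintegral_prod_symm _ ((hm.enorm.indicator measurableSet_GM).aemeasurable)]
  have hfin := (integrableOn_inv_sqrt.const_mul π).2
  unfold HasFiniteIntegral at hfin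
  refine lt_of_le_of_lt ?_ hfin
  rw [← lintegral_indicator Metric.isOpen_ball.measurableSet]
  refine lintegral_mono fun w => ?_
  by_cases hw : w ∈ Metric.ball (0 : ℂ) 1
  · rw [indicator_of_mem hw]
    have hw1 : ‖w‖ < 1 := by simpa using hw
    have hs : 0 < sf w := by
      unfold sf
      have := norm_nonneg w
      nlinarith
    have hρ := rho_pos hs
    have h1 : ∀ z : ℂ, GM.indicator (fun z : ℂ × ℂ => ‖1 / (√(sf z.2) * rho z.2)‖ₑ) (z, w) ≤
        (Metric.ball (0 : ℂ) (√(rho w))).indicator (fun _ => ‖1 / (√(sf w) * rho w)‖ₑ) z := by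
      intro z
      by_cases hz : (z, w) ∈ GM
      · rw [indicator_of_mem hz]
        have h2 := (GM_facts hz).2
        have h3 : z ∈ Metric.ball (0 : ℂ) (√(rho w)) := by
          rw [mem_ball_zero_iff]
          exact Real.lt_sqrt_of_sq_lt h2
        rw [indicator_of_mem h3]
      · rw [indicator_of_notMem hz]
        exact zero_le
    refine (lintegral_mono h1).trans ?_
    rw [lintegral_indicator Metric.isOpen_ball.measurableSet, setLIntegral_const,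
      Complex.volume_ball]
    have e1 : (NNReal.pi : ℝ≥0∞) = ENNReal.ofReal π := by
      rw [← NNReal.coe_real_pi, ENNReal.ofReal_coe_nnreal]
    have e2 : 0 < √(sf w) := Real.sqrt_pos.2 hs
    rw [e1, ← ENNReal.ofReal_pow (Real.sqrt_nonneg _), Real.sq_sqrt hρ.le,
      ← ENNReal.ofReal_mul hρ.le, Real.enorm_of_nonneg (by positivity),
      Real.enorm_of_nonneg (by positivity), ← ENNReal.ofReal_mul (by positivity)]
    apply le_of_eq
    congr 1
    field_simp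
  · rw [indicator_of_notMem hw]
    have h1 : ∀ z : ℂ, GM.indicator (fun z : ℂ × ℂ => ‖1 / (√(sf z.2) * rho z.2)‖ₑ) (z, w) = 0 := by
      intro z
      apply indicator_of_notMem
      intro hz
      apply hw
      rw [mem_ball_zero_iff]
      exact norm_lt_one (GM_facts hz).1
    rw [lintegral_congr h1, lintegral_zero]

end B5

theorem u0_memLp (F V : ℂ → ℂ) (A : ℝ) (hFm : Measurable F) (hF : ∀ w, ‖F w‖ ≤ A)
    (hV : Continuous V) (hVb : ∀ w, ‖w‖ < 1 → ‖V w‖ ≤ A * (1 - ‖w‖ ^ 2) ^ (3 / 4 : ℝ)) (k : Fin 3) :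
    MemLp (fun p => u0 F V p k) 2 muM := by
  have hm := B5.measurable_u0 F V hFm hV k
  have hP := B5.continuous_PM.measurable
  unfold muM
  refine MemLp.smul_measure ?_ (by simp)
  rw [memLp_map_measure_iff hm.aestronglyMeasurable hP.aemeasurable,
    memLp_two_iff_integrable_sq_norm (hm.comp hP).aestronglyMeasurable]
  have h1 : Integrable (fun x : ℝ × (ℂ × ℂ) => 42 * A ^ 2 * (1 / (√(sf x.2.2) * rho x.2.2)))
      ((volume.restrict (Ioo (-π) π)).prod (volume.restrict GM)) :=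
    ((B5.integrableOn_GM.comp_snd (volume.restrict (Ioo (-π) π))).const_mul (42 * A ^ 2))
  refine Integrable.mono' h1 ((hm.comp hP).norm.pow_const 2).aestronglyMeasurable ?_
  have h2 : ∀ᵐ x ∂((volume.restrict (Ioo (-π) π)).prod (volume.restrict GM)), x.2 ∈ GM := by
    have h3 : ∀ᵐ z ∂(volume.restrict GM : Measure (ℂ × ℂ)), z ∈ GM :=
      ae_restrict_mem B5.measurableSet_GM
    exact Measure.quasiMeasurePreserving_snd.ae h3
  filter_upwards [h2] with x hx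
  rw [Real.norm_of_nonneg (by positivity)]
  refine (B5.u0_bound F V A hF hVb x hx k).trans (le_of_eq ?_)
  ring

end Pool.Agent.Work.MP_e29078_an

end

section

/-! Weak equation for the explicit form `u0`, part A: calculus and algebra. -/

open MeasureTheory Set Filter Topology
open scoped Real ComplexConjugate ContDiff ENNReal

namespace Pool.Agent.Work.MP_e29078_an
namespace B4

/-! ### One variable -/

/-- `∂/∂z` of a real linear map -/
noncomputable def DL (L : ℂ →L[ℝ] ℂ) : ℂ := (L 1 - Complex.I * L Complex.I) / 2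

/-- `∂/∂z` in one variable -/
noncomputable def D (χ : ℂ → ℂ) (w : ℂ) : ℂ :=
  (fderiv ℝ χ w 1 - Complex.I * fderiv ℝ χ w Complex.I) / 2

lemma D_eq {χ : ℂ → ℂ} {L : ℂ →L[ℝ] ℂ} {w : ℂ} (h : HasFDerivAt χ L w) : D χ w = DL L := by
  unfold D DL; rw [h.fderiv]

lemma D_mul {f g : ℂ → ℂ} {w : ℂ} (hf : DifferentiableAt ℝ f w) (hg : DifferentiableAt ℝ g w) :
    D (fun z => f z * g z) w = D f w * g w + f w * D g w := by
  unfold D
  rw [fderiv_fun_mul hf hg]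
  simp only [add_apply, smul_apply, smul_eq_mul]; ring

lemma D_congr {f g : ℂ → ℂ} {w : ℂ} (h : f =ᶠ[𝓝 w] g) : D f w = D g w := by
  unfold D; rw [h.fderiv_eq]

lemma integral_fderiv_zero (ψ : ℂ → ℂ) (hψ : ContDiff ℝ 1 ψ) (hc : HasCompactSupport ψ) (v : ℂ) :
    ∫ w, fderiv ℝ ψ w v = 0 := by
  have h1 : Continuous fun w => fderiv ℝ ψ w v :=
    (hψ.continuous_fderiv (by norm_num)).clm_apply continuous_const
  have h2 : HasCompactSupport fun w => fderiv ℝ ψ w v := hc.fderiv_apply (𝕜 := ℝ) v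
  have h3 := integral_mul_fderiv_eq_neg_fderiv_mul_of_integrable (μ := (volume : Measure ℂ))
    (f := fun _ : ℂ => (1 : ℂ)) (g := ψ) (v := v) (by simp)
    (by simpa using h1.integrable_of_hasCompactSupport h2)
    (by simpa using hψ.continuous.integrable_of_hasCompactSupport hc)
    (fun x _ => by fun_prop) (fun x _ => hψ.differentiable (by norm_num) x)
  simpa using h3

lemma D_continuous {ψ : ℂ → ℂ} (hψ : ContDiff ℝ 1 ψ) : Continuous (D ψ) := by
  unfold D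
  have h : ∀ v, Continuous fun w => fderiv ℝ ψ w v := fun v =>
    (hψ.continuous_fderiv (by norm_num)).clm_apply continuous_const
  exact ((h 1).sub (continuous_const.mul (h _))).div_const _

lemma D_hasCompactSupport {ψ : ℂ → ℂ} (hc : HasCompactSupport ψ) : HasCompactSupport (D ψ) := by
  refine (hc.fderiv (𝕜 := ℝ)).mono ?_
  intro w hw
  rw [Function.mem_support] at hw ⊢
  intro h
  apply hw
  unfold D; rw [h]; simp

lemma integral_D_zero (ψ : ℂ → ℂ) (hψ : ContDiff ℝ 1 ψ) (hc : HasCompactSupport ψ) :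
    ∫ w, D ψ w = 0 := by
  unfold D
  have h1 : ∀ v, Continuous fun w => fderiv ℝ ψ w v := fun v =>
    (hψ.continuous_fderiv (by norm_num)).clm_apply continuous_const
  have h2 : ∀ v, Integrable fun w => fderiv ℝ ψ w v := fun v =>
    (h1 v).integrable_of_hasCompactSupport (hc.fderiv_apply (𝕜 := ℝ) v)
  rw [integral_div, integral_sub (h2 1) ((h2 _).const_mul _), integral_const_mul,
    integral_fderiv_zero ψ hψ hc, integral_fderiv_zero ψ hψ hc]
  simp

lemma conj_hasFDerivAt (w : ℂ) : HasFDerivAt (fun z : ℂ => conj z)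
    (Complex.conjCLE : ℂ →L[ℝ] ℂ) w :=
  (Complex.conjCLE : ℂ →L[ℝ] ℂ).hasFDerivAt

lemma D_id (w : ℂ) : D (fun z => z) w = 1 := by
  unfold D
  rw [fderiv_fun_id]
  simp

lemma D_conj (w : ℂ) : D (fun z => conj z) w = 0 := by
  rw [D_eq (conj_hasFDerivAt w)]
  unfold DL
  simp

lemma D_const (c w : ℂ) : D (fun _ => c) w = 0 := by simp [D]

lemma D_add {f g : ℂ → ℂ} {w : ℂ} (hf : DifferentiableAt ℝ f w) (hg : DifferentiableAt ℝ g w) :
    D (fun z => f z + g z) w = D f w + D g w := by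
  unfold D
  rw [fderiv_fun_add hf hg]
  simp only [add_apply]; ring

lemma D_sub {f g : ℂ → ℂ} {w : ℂ} (hf : DifferentiableAt ℝ f w) (hg : DifferentiableAt ℝ g w) :
    D (fun z => f z - g z) w = D f w - D g w := by
  unfold D
  rw [fderiv_fun_sub hf hg]
  simp only [sub_apply]; ring

/-! ### the coefficient functions -/

/-- `|w|²`-type expressions as complex functions -/
lemma normsq_eq (z : ℂ) : ((‖z‖ ^ 2 : ℝ) : ℂ) = z * conj z := by
  rw [Complex.mul_conj, Complex.normSq_eq_norm_sq]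

lemma sf_eq (w : ℂ) : (sf w : ℂ) = 1 - w * conj w := by
  unfold sf; rw [← normsq_eq]; push_cast; ring

lemma qf_eq (w : ℂ) : (qf w : ℂ) = (1 - w) * (1 - conj w) := by
  unfold qf; rw [normsq_eq]; simp

/-! ### Two variables -/

noncomputable def D1 (Y : ℂ × ℂ → ℂ) (z : ℂ × ℂ) : ℂ :=
  (fderiv ℝ Y z (1, 0) - Complex.I * fderiv ℝ Y z (Complex.I, 0)) / 2

noncomputable def D2 (Y : ℂ × ℂ → ℂ) (z : ℂ × ℂ) : ℂ :=
  (fderiv ℝ Y z (0, 1) - Complex.I * fderiv ℝ Y z (0, Complex.I)) / 2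

lemma D_slice1 {Y : ℂ × ℂ → ℂ} {a w : ℂ} (h : DifferentiableAt ℝ Y (a, w)) :
    D (fun b => Y (b, w)) a = D1 Y (a, w) := by
  have h1 : HasFDerivAt (fun b : ℂ => (b, w)) (ContinuousLinearMap.inl ℝ ℂ ℂ) a := by
    have := (hasFDerivAt_id (𝕜 := ℝ) a).prodMk (hasFDerivAt_const (𝕜 := ℝ) w a)
    exact this
  have h2 := h.hasFDerivAt.comp a h1
  have h3 : (Y ∘ fun b : ℂ => (b, w)) = fun b => Y (b, w) := rfl
  rw [h3] at h2
  rw [D_eq h2]
  unfold DL D1
  simp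

lemma D_slice2 {Y : ℂ × ℂ → ℂ} {a w : ℂ} (h : DifferentiableAt ℝ Y (a, w)) :
    D (fun b => Y (a, b)) w = D2 Y (a, w) := by
  have h1 : HasFDerivAt (fun b : ℂ => (a, b)) (ContinuousLinearMap.inr ℝ ℂ ℂ) w := by
    have := (hasFDerivAt_const (𝕜 := ℝ) a w).prodMk (hasFDerivAt_id (𝕜 := ℝ) w)
    exact this
  have h2 := h.hasFDerivAt.comp w h1
  have h3 : (Y ∘ fun b : ℂ => (a, b)) = fun b => Y (a, b) := rfl
  rw [h3] at h2
  rw [D_eq h2]
  unfold DL D2
  simp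

lemma D1_continuous {Y : ℂ × ℂ → ℂ} (hY : ContDiff ℝ 1 Y) : Continuous (D1 Y) := by
  unfold D1
  have h : ∀ v, Continuous fun w => fderiv ℝ Y w v := fun v =>
    (hY.continuous_fderiv (by norm_num)).clm_apply continuous_const
  exact ((h _).sub (continuous_const.mul (h _))).div_const _

lemma D2_continuous {Y : ℂ × ℂ → ℂ} (hY : ContDiff ℝ 1 Y) : Continuous (D2 Y) := by
  unfold D2
  have h : ∀ v, Continuous fun w => fderiv ℝ Y w v := fun v =>
    (hY.continuous_fderiv (by norm_num)).clm_apply continuous_const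
  exact ((h _).sub (continuous_const.mul (h _))).div_const _

lemma D1_zero {Y : ℂ × ℂ → ℂ} {z : ℂ × ℂ} (hz : z ∉ tsupport Y) : D1 Y z = 0 := by
  unfold D1
  have : fderiv ℝ Y z = 0 := by
    by_contra h
    exact hz (support_fderiv_subset ℝ (f := Y) h)
  rw [this]; simp

lemma D2_zero {Y : ℂ × ℂ → ℂ} {z : ℂ × ℂ} (hz : z ∉ tsupport Y) : D2 Y z = 0 := by
  unfold D2
  have : fderiv ℝ Y z = 0 := by
    by_contra h
    exact hz (support_fderiv_subset ℝ (f := Y) h)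
  rw [this]; simp

/-! ### The components of `u0` -/

noncomputable def u1 (F V : ℂ → ℂ) (z : ℂ × ℂ) : ℂ :=
  z.1 * (F z.2 * (1 - (‖z.1‖ ^ 2 + qf z.2) * rho z.2 / sf z.2 : ℝ) -
      V z.2 * (-(1 - conj z.2) / (sf z.2 : ℂ) +
        (‖z.1‖ ^ 2 + qf z.2 : ℝ) * conj z.2 / (sf z.2 : ℂ) ^ 2))

noncomputable def u2 (V : ℂ → ℂ) (z : ℂ × ℂ) : ℂ :=
  V z.2 * (2 * ‖z.1‖ ^ 2 + qf z.2 : ℝ) / (sf z.2 : ℂ)

noncomputable def mm (F V : ℂ → ℂ) (z : ℂ × ℂ) : ℂ :=
  -(V z.2 * (2 * ‖z.1‖ ^ 2 + qf z.2 : ℝ) * conj z.2 / (sf z.2 : ℂ) ^ 2 +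
      F z.2 * (‖z.1‖ ^ 2 * (2 * ‖z.1‖ ^ 2 + qf z.2) /
        ((rho z.2 + qf z.2) * (rho z.2 + ‖z.1‖ ^ 2 + qf z.2)) : ℝ))

lemma u0_zero (F V : ℂ → ℂ) (p : C3) : u0 F V p 0 = p.1 * mm F V p.2 := by
  simp only [u0, mm, Matrix.cons_val_zero]; ring

lemma u0_one (F V : ℂ → ℂ) (p : C3) : u0 F V p 1 = u1 F V p.2 := by
  simp only [u0, u1, Matrix.cons_val_one, Matrix.cons_val_zero]

lemma u0_two (F V : ℂ → ℂ) (p : C3) : u0 F V p 2 = u2 V p.2 := by
  simp only [u0, u2, Matrix.cons_val]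

/-- `∂_{z₂} u₁` -/
noncomputable def e1 (F V : ℂ → ℂ) (z : ℂ × ℂ) : ℂ :=
  F z.2 * (1 - (2 * ‖z.1‖ ^ 2 + qf z.2) * rho z.2 / sf z.2 : ℝ) -
      V z.2 * (-(1 - conj z.2) / (sf z.2 : ℂ) +
        (2 * ‖z.1‖ ^ 2 + qf z.2 : ℝ) * conj z.2 / (sf z.2 : ℂ) ^ 2)

/-- the coefficient from the equation for `V` -/
noncomputable def e2 (F Φ V : ℂ → ℂ) (z : ℂ × ℂ) : ℂ :=
  ((sf z.2 : ℂ) * Φ z.2 - (rho z.2 : ℂ) * F z.2) * ((2 * ‖z.1‖ ^ 2 + qf z.2 : ℝ) / (sf z.2 : ℂ))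
    - V z.2 * (-(1 - conj z.2) / (sf z.2 : ℂ) +
        (2 * ‖z.1‖ ^ 2 + qf z.2 : ℝ) * conj z.2 / (sf z.2 : ℂ) ^ 2)

lemma e_sum (F Φ V : ℂ → ℂ) (z : ℂ × ℂ) (hs : sf z.2 ≠ 0) :
    -e1 F V z + e2 F Φ V z = (2 * ‖z.1‖ ^ 2 + qf z.2 : ℝ) * Φ z.2 - F z.2 := by
  have h : (sf z.2 : ℂ) ≠ 0 := by exact_mod_cast hs
  unfold e1 e2
  push_cast
  field_simp
  ring

section meas
variable {F Φ V : ℂ → ℂ} (hFm : Measurable F) (hΦm : Measurable Φ) (hV : Measurable V)

lemma meas_rho : Measurable rho := rs_continuous_rho.measurable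
lemma meas_qf : Measurable qf := by unfold qf; fun_prop
lemma meas_sf : Measurable sf := by unfold sf; fun_prop

include hV in
lemma meas_u2 : Measurable (u2 V) := by
  have h1 := meas_qf
  have h2 := meas_sf
  unfold u2
  fun_prop

include hFm hV in
lemma meas_u1 : Measurable (u1 F V) := by
  have h1 := meas_qf
  have h2 := meas_sf
  have h3 := meas_rho
  unfold u1
  fun_prop

include hFm hV in
lemma meas_mm : Measurable (mm F V) := by
  have h1 := meas_qf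
  have h2 := meas_sf
  have h3 := meas_rho
  unfold mm
  fun_prop

include hFm hV in
lemma meas_e1 : Measurable (e1 F V) := by
  have h1 := meas_qf
  have h2 := meas_sf
  have h3 := meas_rho
  unfold e1
  fun_prop

include hFm hΦm hV in
lemma meas_e2 : Measurable (e2 F Φ V) := by
  have h1 := meas_qf
  have h2 := meas_sf
  have h3 := meas_rho
  unfold e2
  fun_prop

end meas

end B4
end Pool.Agent.Work.MP_e29078_an

end

section

/-! Smallness of the perturbation kernel `del` in the weighted norm. -/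

open MeasureTheory Set Filter Topology
open scoped Real ComplexConjugate

namespace Pool.Agent.Work.MP_e29078_an

theorem del_small (c ε : ℝ) (hε : 0 < ε) : ∃ N₁ : ℕ, ∀ N ≥ N₁, ∀ y : ℝ,
    Integrable (fun y' : ℝ => |del N y y'| * Real.exp (c * |y - y'|)) ∧
    ∫ y' : ℝ, |del N y y'| * Real.exp (c * |y - y'|) ≤ ε :=
  del_small_of Kr_nonneg Kr_row_sum Kr_asymp c ε hε

end Pool.Agent.Work.MP_e29078_an

end

section

/-! Weak equation for the explicit form `u0`, part B: bounds. -/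

open MeasureTheory Set Filter Topology
open scoped Real ComplexConjugate ContDiff ENNReal

namespace Pool.Agent.Work.MP_e29078_an
namespace B4

lemma GM_facts {z : ℂ × ℂ} (hz : z ∈ GM) : ‖z.2‖ < 1 ∧ ‖z.1‖ ^ 2 < rho z.2 ∧ 0 < rho z.2 ∧
    0 < sf z.2 ∧ sf z.2 ≤ 1 ∧ rho z.2 ≤ 1 ∧ 0 ≤ qf z.2 ∧
    rho z.2 ^ 2 + qf z.2 * rho z.2 = sf z.2 := by
  have h0 : 0 < sf z.2 - ‖z.1‖ ^ 4 - qf z.2 * ‖z.1‖ ^ 2 := hz
  have hq := qf_nonneg z.2
  have hs : 0 < sf z.2 := by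
    have : 0 ≤ ‖z.1‖ ^ 4 := by positivity
    have : 0 ≤ qf z.2 * ‖z.1‖ ^ 2 := by positivity
    linarith
  have hw : ‖z.2‖ < 1 := by
    unfold sf at hs
    nlinarith [norm_nonneg z.2]
  have hr := rs_rho_nonneg hw
  have hre := rs_rho_eq hw
  have hr0 : 0 < rho z.2 := by
    rcases hr.lt_or_eq with h | h
    · exact h
    · rw [← h] at hre
      norm_num at hre
      linarith
  have ht : ‖z.1‖ ^ 2 < rho z.2 := by
    rcases (sq_nonneg ‖z.1‖).lt_or_eq with h | h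
    · rw [rs_lt_rho_iff hw h]
      nlinarith
    · rw [← h]; exact hr0
  refine ⟨hw, ht, hr0, hs, ?_, rs_rho_le_one hw, hq, hre⟩
  unfold sf
  nlinarith [norm_nonneg z.2]

/-- the dominating function -/
noncomputable def GG (A : ℝ) (w : ℂ) : ℝ := A * (3 + 8 * ((sf w) ^ (-(1 / 4) : ℝ) / rho w))

lemma GG_nonneg_of {A : ℝ} (hA : 0 ≤ A) {w : ℂ} (hw : ‖w‖ < 1) : 0 ≤ GG A w := by
  have := rs_rho_nonneg hw
  have := rs_sf_pos hw
  unfold GG
  positivity

section bounds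
variable {F Φ V : ℂ → ℂ} {A : ℝ} (hF : ∀ w, ‖F w‖ ≤ A) (hΦ : ∀ w, ‖Φ w‖ ≤ A)
  (hVb : ∀ w, ‖w‖ < 1 → ‖V w‖ ≤ A * (1 - ‖w‖ ^ 2) ^ (3 / 4 : ℝ))

lemma real_facts {z : ℂ × ℂ} (hz : z ∈ GM) :
    1 ≤ (sf z.2) ^ (-(1 / 4) : ℝ) ∧ (sf z.2) ^ (-(1 / 4) : ℝ) ≤ (sf z.2) ^ (-(1 / 4) : ℝ) / rho z.2 ∧
    (2 * ‖z.1‖ ^ 2 + qf z.2) / sf z.2 ≤ 2 / rho z.2 ∧
    (‖z.1‖ ^ 2 + qf z.2) / sf z.2 ≤ 1 / rho z.2 ∧
    (2 * ‖z.1‖ ^ 2 + qf z.2) * rho z.2 / sf z.2 ≤ 2 ∧
    (‖z.1‖ ^ 2 + qf z.2) * rho z.2 / sf z.2 ≤ 1 ∧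
    ‖z.1‖ ^ 2 * (2 * ‖z.1‖ ^ 2 + qf z.2) /
        ((rho z.2 + qf z.2) * (rho z.2 + ‖z.1‖ ^ 2 + qf z.2)) ≤ 1 ∧
    (1 - ‖z.2‖ ^ 2) ^ (3 / 4 : ℝ) = sf z.2 * (sf z.2) ^ (-(1 / 4) : ℝ) := by
  obtain ⟨hw, ht, hr0, hs, hs1, hr1, hq, hre⟩ := GM_facts hz
  have ht0 := sq_nonneg ‖z.1‖
  refine ⟨?_, ?_, ?_, ?_, ?_, ?_, ?_, ?_⟩
  · exact Real.one_le_rpow_of_pos_of_le_one_of_nonpos hs hs1 (by norm_num)
  · rw [le_div_iff₀ hr0]
    have : 0 ≤ (sf z.2) ^ (-(1 / 4) : ℝ) := by positivity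
    nlinarith
  · rw [div_le_div_iff₀ hs hr0, ← hre]
    nlinarith [mul_nonneg hq hr0.le]
  · rw [div_le_div_iff₀ hs hr0, ← hre]
    nlinarith [mul_nonneg hq hr0.le]
  · rw [div_le_iff₀ hs, ← hre]
    nlinarith [mul_nonneg hq hr0.le]
  · rw [div_le_iff₀ hs, ← hre]
    nlinarith [mul_nonneg hq hr0.le]
  · rw [div_le_one (by positivity)]
    exact mul_le_mul (by linarith) (by linarith) (by positivity) (by positivity)
  · have h1 : (1 : ℝ) - ‖z.2‖ ^ 2 = sf z.2 := rfl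
    rw [h1]
    have h2 : (3 / 4 : ℝ) = 1 + (-(1 / 4)) := by norm_num
    rw [h2, Real.rpow_add hs, Real.rpow_one]

include hF in
lemma A_nonneg' : 0 ≤ A := (norm_nonneg _).trans (hF 0)

include hVb in
lemma V_bd {z : ℂ × ℂ} (hz : z ∈ GM) : ‖V z.2‖ ≤ A * (sf z.2 * (sf z.2) ^ (-(1 / 4) : ℝ)) := by
  have h := hVb z.2 (GM_facts hz).1
  rwa [(real_facts hz).2.2.2.2.2.2.2] at h

include hF hVb in
lemma V_term {z : ℂ × ℂ} (h : z ∈ GM) {c d : ℝ}
    (hc : 0 ≤ c) (hcd : c / sf z.2 ≤ d) :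
    ‖V z.2 * ((c : ℝ) : ℂ) * conj z.2 / (sf z.2 : ℂ) ^ 2‖ ≤
      A * (sf z.2) ^ (-(1 / 4) : ℝ) * d := by
  obtain ⟨hw, ht, hr0, hs, hs1, hr1, hq, hre⟩ := GM_facts h
  have hA : 0 ≤ A := A_nonneg' hF
  have hV := V_bd hVb h
  rw [norm_div, norm_mul, norm_mul, norm_pow, Complex.norm_real, Complex.norm_real,
    RCLike.norm_conj, Real.norm_of_nonneg hc, Real.norm_of_nonneg hs.le]
  have h1 : ‖V z.2‖ * c * ‖z.2‖ ≤ A * (sf z.2 * (sf z.2) ^ (-(1 / 4) : ℝ)) * c * 1 := by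
    gcongr
  calc ‖V z.2‖ * c * ‖z.2‖ / sf z.2 ^ 2
      ≤ A * (sf z.2 * (sf z.2) ^ (-(1 / 4) : ℝ)) * c * 1 / sf z.2 ^ 2 := by gcongr
    _ = A * (sf z.2) ^ (-(1 / 4) : ℝ) * (c / sf z.2) := by field_simp
    _ ≤ _ := by gcongr

include hF hVb in
lemma V_term2 {z : ℂ × ℂ} (h : z ∈ GM) :
    ‖V z.2 * (-(1 - conj z.2) / (sf z.2 : ℂ))‖ ≤ A * (sf z.2) ^ (-(1 / 4) : ℝ) * 2 := by
  obtain ⟨hw, ht, hr0, hs, hs1, hr1, hq, hre⟩ := GM_facts h
  have hA : 0 ≤ A := A_nonneg' hF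
  have hV := V_bd hVb h
  have h2 : ‖1 - conj z.2‖ ≤ 2 := by
    calc ‖1 - conj z.2‖ ≤ ‖(1 : ℂ)‖ + ‖conj z.2‖ := norm_sub_le _ _
      _ ≤ 1 + 1 := by rw [RCLike.norm_conj, norm_one]; gcongr
      _ = 2 := by norm_num
  rw [norm_mul, norm_div, norm_neg, Complex.norm_real, Real.norm_of_nonneg hs.le]
  calc ‖V z.2‖ * (‖1 - conj z.2‖ / sf z.2)
      ≤ A * (sf z.2 * (sf z.2) ^ (-(1 / 4) : ℝ)) * (2 / sf z.2) := by gcongr
    _ = _ := by field_simp

include hF in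
lemma F_term {w : ℂ} {c d : ℝ} (hc : |c| ≤ d) : ‖F w * (c : ℂ)‖ ≤ A * d := by
  have hA : 0 ≤ A := A_nonneg' hF
  rw [norm_mul, Complex.norm_real, Real.norm_eq_abs]
  have := hF w
  gcongr

lemma sum_le (hA : 0 ≤ A) {σ r a b c : ℝ} (h1 : 1 ≤ σ) (h2 : σ ≤ σ / r) {x : ℝ}
    (ha : 0 ≤ a) (hb : 0 ≤ b) (hc : 0 ≤ c) (ha3 : a ≤ 3) (hbc : b + c ≤ 8)
    (hx : x ≤ A * a + A * σ * b + A * σ * (c / r)) : x ≤ A * (3 + 8 * (σ / r)) := by
  refine hx.trans ?_
  have h3 : A * σ * b ≤ A * (σ / r) * b := by gcongr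
  have h4 : A * σ * (c / r) = A * (σ / r) * c := by ring
  rw [h4]
  have h5 : 0 ≤ A * (σ / r) := by
    apply mul_nonneg hA; linarith
  nlinarith [mul_le_mul_of_nonneg_left ha3 hA, mul_le_mul_of_nonneg_left hbc h5]

include hF hVb in
lemma mm_bd {z : ℂ × ℂ} (h : z ∈ GM) : ‖mm F V z‖ ≤ GG A z.2 := by
  obtain ⟨hw, ht, hr0, hs, hs1, hr1, hq, hre⟩ := GM_facts h
  obtain ⟨f1, f2, f3, f4, f5, f6, f7, f8⟩ := real_facts h
  have hA : 0 ≤ A := A_nonneg' hF
  have g1 := V_term hF hVb h (c := 2 * ‖z.1‖ ^ 2 + qf z.2) (by positivity) f3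
  have g2 := F_term hF (w := z.2) (c := ‖z.1‖ ^ 2 * (2 * ‖z.1‖ ^ 2 + qf z.2) /
        ((rho z.2 + qf z.2) * (rho z.2 + ‖z.1‖ ^ 2 + qf z.2))) (d := 1) (by
      rw [abs_of_nonneg (by positivity)]; exact f7)
  unfold GG
  refine sum_le (a := 1) (b := 0) (c := 2) hA f1 f2 (by norm_num) (by norm_num) (by norm_num)
    (by norm_num) (by norm_num) ?_
  unfold mm
  rw [norm_neg]
  refine (norm_add_le _ _).trans ?_
  linarith

include hF hVb in
lemma u2_bd {z : ℂ × ℂ} (h : z ∈ GM) : ‖u2 V z‖ ≤ GG A z.2 := by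
  obtain ⟨hw, ht, hr0, hs, hs1, hr1, hq, hre⟩ := GM_facts h
  obtain ⟨f1, f2, f3, f4, f5, f6, f7, f8⟩ := real_facts h
  have hA : 0 ≤ A := A_nonneg' hF
  have hV := V_bd hVb h
  unfold GG
  refine sum_le (a := 0) (b := 0) (c := 2) hA f1 f2 (by norm_num) (by norm_num) (by norm_num)
    (by norm_num) (by norm_num) ?_
  unfold u2
  rw [norm_div, norm_mul, Complex.norm_real, Complex.norm_real,
    Real.norm_of_nonneg hs.le, Real.norm_of_nonneg (by positivity)]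
  have h0 : 0 ≤ 2 * ‖z.1‖ ^ 2 + qf z.2 := by positivity
  calc ‖V z.2‖ * (2 * ‖z.1‖ ^ 2 + qf z.2) / sf z.2
      = ‖V z.2‖ * ((2 * ‖z.1‖ ^ 2 + qf z.2) / sf z.2) := by ring
    _ ≤ A * (sf z.2 * (sf z.2) ^ (-(1 / 4) : ℝ)) * (2 / rho z.2) := by gcongr
    _ ≤ A * (1 * (sf z.2) ^ (-(1 / 4) : ℝ)) * (2 / rho z.2) := by gcongr
    _ = _ := by ring

include hF hVb in
lemma u1_bd {z : ℂ × ℂ} (h : z ∈ GM) : ‖u1 F V z‖ ≤ GG A z.2 := by
  obtain ⟨hw, ht, hr0, hs, hs1, hr1, hq, hre⟩ := GM_facts h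
  obtain ⟨f1, f2, f3, f4, f5, f6, f7, f8⟩ := real_facts h
  have hA : 0 ≤ A := A_nonneg' hF
  have g1 := V_term hF hVb h (c := ‖z.1‖ ^ 2 + qf z.2) (by positivity) f4
  have g3 := V_term2 hF hVb h
  have g2 := F_term hF (w := z.2) (c := 1 - (‖z.1‖ ^ 2 + qf z.2) * rho z.2 / sf z.2) (d := 1) (by
      have : 0 ≤ (‖z.1‖ ^ 2 + qf z.2) * rho z.2 / sf z.2 := by positivity
      rw [abs_of_nonneg (by linarith)]; linarith)
  unfold GG
  refine sum_le (a := 1) (b := 2) (c := 1) hA f1 f2 (by norm_num) (by norm_num) (by norm_num)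
    (by norm_num) (by norm_num) ?_
  unfold u1
  rw [norm_mul]
  have hz1 : ‖z.1‖ ≤ 1 := by nlinarith [norm_nonneg z.1]
  have e1 : V z.2 * (-(1 - conj z.2) / (sf z.2 : ℂ) +
        (‖z.1‖ ^ 2 + qf z.2 : ℝ) * conj z.2 / (sf z.2 : ℂ) ^ 2) =
      V z.2 * (-(1 - conj z.2) / (sf z.2 : ℂ)) +
        V z.2 * (‖z.1‖ ^ 2 + qf z.2 : ℝ) * conj z.2 / (sf z.2 : ℂ) ^ 2 := by ring
  rw [e1]
  have e2 := (norm_sub_le (F z.2 * ((1 - (‖z.1‖ ^ 2 + qf z.2) * rho z.2 / sf z.2 : ℝ) : ℂ))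
    (V z.2 * (-(1 - conj z.2) / (sf z.2 : ℂ)) +
        V z.2 * (‖z.1‖ ^ 2 + qf z.2 : ℝ) * conj z.2 / (sf z.2 : ℂ) ^ 2))
  have e3 := norm_add_le (V z.2 * (-(1 - conj z.2) / (sf z.2 : ℂ)))
    (V z.2 * (‖z.1‖ ^ 2 + qf z.2 : ℝ) * conj z.2 / (sf z.2 : ℂ) ^ 2)
  refine (mul_le_of_le_one_left (norm_nonneg _) hz1).trans ?_
  linarith

include hF hVb in
lemma e1_bd {z : ℂ × ℂ} (h : z ∈ GM) : ‖e1 F V z‖ ≤ GG A z.2 := by
  obtain ⟨hw, ht, hr0, hs, hs1, hr1, hq, hre⟩ := GM_facts h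
  obtain ⟨f1, f2, f3, f4, f5, f6, f7, f8⟩ := real_facts h
  have hA : 0 ≤ A := A_nonneg' hF
  have g1 := V_term hF hVb h (c := 2 * ‖z.1‖ ^ 2 + qf z.2) (by positivity) f3
  have g3 := V_term2 hF hVb h
  have g2 := F_term hF (w := z.2) (c := 1 - (2 * ‖z.1‖ ^ 2 + qf z.2) * rho z.2 / sf z.2)
    (d := 1) (by
      have : 0 ≤ (2 * ‖z.1‖ ^ 2 + qf z.2) * rho z.2 / sf z.2 := by positivity
      rw [abs_le]; constructor <;> linarith)
  unfold GG
  refine sum_le (a := 1) (b := 2) (c := 2) hA f1 f2 (by norm_num) (by norm_num) (by norm_num)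
    (by norm_num) (by norm_num) ?_
  unfold e1
  have e1 : V z.2 * (-(1 - conj z.2) / (sf z.2 : ℂ) +
        (2 * ‖z.1‖ ^ 2 + qf z.2 : ℝ) * conj z.2 / (sf z.2 : ℂ) ^ 2) =
      V z.2 * (-(1 - conj z.2) / (sf z.2 : ℂ)) +
        V z.2 * (2 * ‖z.1‖ ^ 2 + qf z.2 : ℝ) * conj z.2 / (sf z.2 : ℂ) ^ 2 := by ring
  rw [e1]
  have e2 := (norm_sub_le (F z.2 * ((1 - (2 * ‖z.1‖ ^ 2 + qf z.2) * rho z.2 / sf z.2 : ℝ) : ℂ))
    (V z.2 * (-(1 - conj z.2) / (sf z.2 : ℂ)) +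
        V z.2 * (2 * ‖z.1‖ ^ 2 + qf z.2 : ℝ) * conj z.2 / (sf z.2 : ℂ) ^ 2))
  have e3 := norm_add_le (V z.2 * (-(1 - conj z.2) / (sf z.2 : ℂ)))
    (V z.2 * (2 * ‖z.1‖ ^ 2 + qf z.2 : ℝ) * conj z.2 / (sf z.2 : ℂ) ^ 2)
  linarith

include hF hΦ in
lemma rhs_bd {z : ℂ × ℂ} (h : z ∈ GM) :
    ‖((2 * ‖z.1‖ ^ 2 + qf z.2 : ℝ) : ℂ) * Φ z.2 - F z.2‖ ≤ GG A z.2 := by
  obtain ⟨hw, ht, hr0, hs, hs1, hr1, hq, hre⟩ := GM_facts h
  obtain ⟨f1, f2, f3, f4, f5, f6, f7, f8⟩ := real_facts h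
  have hA : 0 ≤ A := A_nonneg' hF
  unfold GG
  refine sum_le (a := 1) (b := 0) (c := 2) hA f1 f2 (by norm_num) (by norm_num) (by norm_num)
    (by norm_num) (by norm_num) ?_
  refine (norm_sub_le _ _).trans ?_
  rw [norm_mul, Complex.norm_real, Real.norm_of_nonneg (by positivity)]
  have h1 : 2 * ‖z.1‖ ^ 2 + qf z.2 ≤ 2 / rho z.2 := by
    refine le_trans ?_ f3
    rw [le_div_iff₀ hs]
    have : 0 ≤ 2 * ‖z.1‖ ^ 2 + qf z.2 := by positivity
    nlinarith
  have h2 : (2 * ‖z.1‖ ^ 2 + qf z.2) * ‖Φ z.2‖ ≤ 2 / rho z.2 * A := by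
    have := hΦ z.2
    gcongr
  have h3 : 2 / rho z.2 * A ≤ A * (sf z.2) ^ (-(1 / 4) : ℝ) * (2 / rho z.2) := by
    have : A * 1 * (2 / rho z.2) ≤ A * (sf z.2) ^ (-(1 / 4) : ℝ) * (2 / rho z.2) := by gcongr
    linarith
  linarith [hF z.2]

lemma e2_eq {z : ℂ × ℂ} (h : z ∈ GM) : e2 F Φ V z = e1 F V z +
    (((2 * ‖z.1‖ ^ 2 + qf z.2 : ℝ) : ℂ) * Φ z.2 - F z.2) := by
  have := e_sum F Φ V z (GM_facts h).2.2.2.1.ne'
  linear_combination this

include hF hΦ hVb in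
lemma e2_bd {z : ℂ × ℂ} (h : z ∈ GM) : ‖e2 F Φ V z‖ ≤ 2 * GG A z.2 := by
  rw [e2_eq h]
  refine (norm_add_le _ _).trans ?_
  linarith [e1_bd hF hVb h, rhs_bd hF hΦ h]

end bounds

/-- `u₁ h_{z₂} + u₂ h_w = h m` -/
lemma alg_id (F V : ℂ → ℂ) {z : ℂ × ℂ} (h : z ∈ GM) :
    u1 F V z * (-conj z.1 * (2 * ‖z.1‖ ^ 2 + qf z.2 : ℝ)) +
      u2 V z * (-conj z.2 + (‖z.1‖ ^ 2 : ℝ) * (1 - conj z.2)) = (hM z : ℂ) * mm F V z := by
  obtain ⟨hw, ht, hr0, hs, hs1, hr1, hq, hre⟩ := GM_facts h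
  have ht0 : 0 ≤ ‖z.1‖ ^ 2 := sq_nonneg _
  have k1 : ((‖z.1‖ ^ 2 : ℝ) : ℂ) = z.1 * conj z.1 := normsq_eq z.1
  have k2 : (hM z : ℝ) = (rho z.2 - ‖z.1‖ ^ 2) * (rho z.2 + ‖z.1‖ ^ 2 + qf z.2) := by
    unfold hM; rw [← hre]; ring
  have k3 : rho z.2 + qf z.2 ≠ 0 := by positivity
  have k4 : rho z.2 + ‖z.1‖ ^ 2 + qf z.2 ≠ 0 := by positivity
  have k5 : sf z.2 = rho z.2 * (rho z.2 + qf z.2) := by rw [← hre]; ring
  set t : ℝ := ‖z.1‖ ^ 2 with htdef
  set q : ℝ := qf z.2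
  set r : ℝ := rho z.2
  have k6 : u1 F V z * (-conj z.1) = -((t : ℂ) * (F z.2 * (1 - (t + q) * r / (sf z.2) : ℝ) -
      V z.2 * (-(1 - conj z.2) / (sf z.2 : ℂ) + (t + q : ℝ) * conj z.2 / (sf z.2 : ℂ) ^ 2))) := by
    rw [k1]; unfold u1; ring
  have k7 : u2 V z = V z.2 * (2 * t + q : ℝ) / (sf z.2 : ℂ) := rfl
  have k8 : mm F V z = -(V z.2 * (2 * t + q : ℝ) * conj z.2 / (sf z.2 : ℂ) ^ 2 +
      F z.2 * (t * (2 * t + q) / ((r + q) * (r + t + q)) : ℝ)) := rfl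
  rw [← mul_assoc, k6, k7, k8, k2, k5]
  have m1 : ((r : ℂ) + q) ≠ 0 := by exact_mod_cast k3
  have m2 : ((r : ℂ) + t + q) ≠ 0 := by exact_mod_cast k4
  have m3 : (r : ℂ) ≠ 0 := by exact_mod_cast hr0.ne'
  push_cast
  field_simp
  ring

end B4
end Pool.Agent.Work.MP_e29078_an

end
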