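import Mathlib
import Pool.Agent.Work.MP_e29078_an.Bd.B02
import Pool.Agent.Work.MP_e29078_an.Bd.B01
import Pool.Agent.Work.MP_e29078_an.Bd.B03
import Pool.Agent.Work.MP_e29078_an.DefsA

/-! Bundle of small proof modules (one section per former module). -/

section

/-! The exotic solution of the perturbed convolution equation. -/

open MeasureTheory Set Filter Topology
open scoped Real ComplexConjugate

namespace Pool.Agent.Work.MP_e29078_an.Ex

lemma k0_continuous : Continuous k0 := by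
  have : LipschitzWith 1 k0 := LipschitzWith.of_dist_le_mul fun x y => by
    rw [Real.dist_eq, Real.dist_eq, NNReal.coe_one, one_mul]
    exact k0_lipschitz x y
  exact this.continuous

lemma k0_weight_integrable (c : ℝ) : Integrable (fun x => k0 x * Real.exp (c * x)) := by
  have h := (k0_transform_integrable (Complex.I * c)).norm
  refine h.congr (ae_of_all _ fun x => ?_)
  simp only [norm_mul, Complex.norm_real, Real.norm_eq_abs, abs_of_nonneg (k0_nonneg x),
    Complex.norm_exp]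
  congr 2
  simp [Complex.mul_re, Complex.mul_im]

/-- The conjugated data. -/
noncomputable def aw (c : ℝ) (x : ℝ) : ℂ := (k0 x : ℂ) * Complex.exp (c * x)
noncomputable def Rw (R : ℝ → ℂ) (c : ℝ) (x : ℝ) : ℂ := R x * Complex.exp (c * x)

lemma norm_exp_real (c x : ℝ) : ‖Complex.exp (c * x)‖ = Real.exp (c * x) := by
  rw [← Complex.ofReal_mul, Complex.norm_exp_ofReal]

lemma resPair (c : ℝ) (R : ℝ → ℂ) (hRc : Continuous R)
    (hRi : Integrable (fun x : ℝ => ‖R x‖ * Real.exp (c * x)))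
    (hR : ∀ x : ℝ, R x = (k0 x : ℂ) + ∫ y : ℝ, (k0 (x - y) : ℂ) * R y) :
    ResPair (aw c) (Rw R c) := by
  have hce : Continuous (fun x : ℝ => Complex.exp (c * x)) := by fun_prop
  have h1 : Continuous (aw c) := (Complex.continuous_ofReal.comp k0_continuous).mul hce
  have h2 : Continuous (Rw R c) := hRc.mul hce
  refine ⟨h1.measurable, ?_, h2.measurable, ?_, fun x => ?_⟩
  · refine (k0_weight_integrable c).mono' h1.aestronglyMeasurable (ae_of_all _ fun x => ?_)
    unfold aw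
    rw [norm_mul, norm_exp_real, Complex.norm_real, Real.norm_eq_abs, abs_of_nonneg (k0_nonneg x)]
  · refine hRi.mono' h2.aestronglyMeasurable (ae_of_all _ fun x => ?_)
    unfold Rw
    rw [norm_mul, norm_exp_real]
  · unfold Rw aw
    rw [hR x, add_mul]
    congr 1
    rw [← integral_mul_const]
    congr 1
    ext t
    have : Complex.exp (c * x) = Complex.exp (c * ((x - t : ℝ) : ℂ)) * Complex.exp (c * t) := by
      rw [← Complex.exp_add]; congr 1; push_cast; ring
    rw [this]; ring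

/-- The conjugated perturbation. -/
noncomputable def Dw (N : ℕ) (c : ℝ) (y y' : ℝ) : ℂ :=
  (del N y y' : ℂ) * Complex.exp (c * (y - y' : ℝ))

lemma meas_discrete {α : Type} [MeasurableSpace α] (F : ℕ → ℕ → ℝ) {a b : α → ℕ}
    (ha : Measurable a) (hb : Measurable b) : Measurable (fun p => F (a p) (b p)) := by
  have h1 : Measurable (fun p : α => (a p, b p)) := ha.prodMk hb
  have h2 : Measurable (fun p : ℕ × ℕ => F p.1 p.2) := Measurable.of_discrete
  exact h2.comp h1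

lemma Kr_floor_measurable (N : ℕ) :
    Measurable (fun p : ℝ × ℝ => Kr ⌊Xf N p.1⌋₊ ⌊Xf N p.2⌋₊) := by
  have ha : Measurable (fun p : ℝ × ℝ => ⌊Xf N p.1⌋₊) :=
    Nat.measurable_floor.comp ((Xf_continuous N).measurable.comp measurable_fst)
  have hb : Measurable (fun p : ℝ × ℝ => ⌊Xf N p.2⌋₊) :=
    Nat.measurable_floor.comp ((Xf_continuous N).measurable.comp measurable_snd)
  exact meas_discrete Kr ha hb

lemma del_measurable (N : ℕ) : Measurable (Function.uncurry (del N)) := by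
  have h3 : Measurable (fun p : ℝ × ℝ => (2 * Xf N p.2) ^ (1 / 4 : ℝ)) :=
    (wX_continuous N).measurable.comp measurable_snd
  have h4 : Measurable (fun p : ℝ × ℝ => k0 (p.1 - p.2)) :=
    k0_continuous.measurable.comp (measurable_fst.sub measurable_snd)
  have h5 := ((Kr_floor_measurable N).mul h3).sub h4
  have h6 : MeasurableSet {p : ℝ × ℝ | 0 ≤ p.1 ∧ 0 ≤ p.2} :=
    (measurableSet_le measurable_const measurable_fst).inter
      (measurableSet_le measurable_const measurable_snd)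
  unfold del Function.uncurry
  exact Measurable.ite h6 h5 measurable_const

lemma Dw_isKer (N : ℕ) (c C ε : ℝ) (hcC : |c| ≤ C)
    (h : ∀ y : ℝ, Integrable (fun y' : ℝ => |del N y y'| * Real.exp (C * |y - y'|)) ∧
      ∫ y' : ℝ, |del N y y'| * Real.exp (C * |y - y'|) ≤ ε) : IsKer (Dw N c) ε := by
  have hm : Measurable (Function.uncurry (Dw N c)) := by
    unfold Dw Function.uncurry
    apply Measurable.mul
    · exact Complex.measurable_ofReal.comp (del_measurable N)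
    · fun_prop
  have hb : ∀ y y', ‖Dw N c y y'‖ ≤ |del N y y'| * Real.exp (C * |y - y'|) := by
    intro y y'
    unfold Dw
    rw [norm_mul, norm_exp_real, Complex.norm_real, Real.norm_eq_abs]
    apply mul_le_mul_of_nonneg_left _ (abs_nonneg _)
    apply Real.exp_le_exp.mpr
    calc c * (y - y') ≤ |c * (y - y')| := le_abs_self _
      _ = |c| * |y - y'| := abs_mul _ _
      _ ≤ C * |y - y'| := mul_le_mul_of_nonneg_right hcC (abs_nonneg _)
  refine ⟨hm, fun y => ?_, fun y => ?_⟩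
  · exact (h y).1.mono' (hm.comp measurable_prodMk_left).aestronglyMeasurable
      (ae_of_all _ fun y' => hb y y')
  · exact (integral_mono_of_nonneg (ae_of_all _ fun _ => norm_nonneg _) (h y).1
      (ae_of_all _ fun y' => hb y y')).trans (h y).2

/-- shorthand for the two operators on general functions -/
lemma k0_part (c : ℝ) (u : ℝ → ℂ) (y : ℝ) :
    ∫ y', (k0 (y - y') : ℂ) * (u y' * Complex.exp (-(c * y' : ℝ))) =
      Complex.exp (-(c * y : ℝ)) * iop (ck (aw c)) u y := by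
  unfold iop ck aw
  rw [← integral_const_mul]
  congr 1
  ext y'
  have : Complex.exp (-(c * y' : ℝ)) = Complex.exp (-(c * y : ℝ)) *
      Complex.exp (c * ((y - y' : ℝ) : ℂ)) := by
    rw [← Complex.exp_add]; congr 1; push_cast; ring
  rw [this]; ring

lemma del_part (N : ℕ) (c : ℝ) (u : ℝ → ℂ) (y : ℝ) :
    ∫ y', (del N y y' : ℂ) * (u y' * Complex.exp (-(c * y' : ℝ))) =
      Complex.exp (-(c * y : ℝ)) * iop (Dw N c) u y := by
  unfold iop Dw
  rw [← integral_const_mul]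
  congr 1
  ext y'
  have : Complex.exp (-(c * y' : ℝ)) = Complex.exp (-(c * y : ℝ)) *
      Complex.exp (c * ((y - y' : ℝ) : ℂ)) := by
    rw [← Complex.exp_add]; congr 1; push_cast; ring
  rw [this]; ring

lemma k0_part_int (c : ℝ) {u : ℝ → ℂ} {M ρ : ℝ} (hk : IsKer (ck (aw c)) ρ) (hu : IsBd u M) (y : ℝ) :
    Integrable (fun y' => (k0 (y - y') : ℂ) * (u y' * Complex.exp (-(c * y' : ℝ)))) := by
  have h := (ker_mul_integrable hk hu y).const_mul (Complex.exp (-(c * y : ℝ)))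
  refine h.congr (ae_of_all _ fun y' => ?_)
  simp only [ck, aw]
  have : Complex.exp (-(c * y' : ℝ)) = Complex.exp (-(c * y : ℝ)) *
      Complex.exp (c * ((y - y' : ℝ) : ℂ)) := by
    rw [← Complex.exp_add]; congr 1; push_cast; ring
  rw [this]; ring

lemma del_part_int (N : ℕ) (c : ℝ) {u : ℝ → ℂ} {M ρ : ℝ} (hk : IsKer (Dw N c) ρ) (hu : IsBd u M)
    (y : ℝ) :
    Integrable (fun y' => (del N y y' : ℂ) * (u y' * Complex.exp (-(c * y' : ℝ)))) := by
  have h := (ker_mul_integrable hk hu y).const_mul (Complex.exp (-(c * y : ℝ)))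
  refine h.congr (ae_of_all _ fun y' => ?_)
  simp only [Dw]
  have : Complex.exp (-(c * y' : ℝ)) = Complex.exp (-(c * y : ℝ)) *
      Complex.exp (c * ((y - y' : ℝ) : ℂ)) := by
    rw [← Complex.exp_add]; congr 1; push_cast; ring
  rw [this]; ring

lemma del_neg (N : ℕ) {y y' : ℝ} (h : y' < 0) : del N y y' = 0 := by
  unfold del
  rw [if_neg]
  rintro ⟨_, h2⟩
  linarith

lemma k0_exp (T : ℂ) (y : ℝ) :
    Integrable (fun y' : ℝ => (k0 (y - y') : ℂ) * Complex.exp (Complex.I * T * y')) ∧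
    ∫ y' : ℝ, (k0 (y - y') : ℂ) * Complex.exp (Complex.I * T * y') =
      Complex.exp (Complex.I * T * y) * kap T := by
  have key : ∀ y' : ℝ, (k0 (y - y') : ℂ) * Complex.exp (Complex.I * T * y') =
      (fun t : ℝ => Complex.exp (Complex.I * T * y) *
        ((k0 t : ℂ) * Complex.exp (-(Complex.I * T * t)))) (y - y') := by
    intro y'
    simp only
    have : Complex.exp (Complex.I * T * y') = Complex.exp (Complex.I * T * y) *
        Complex.exp (-(Complex.I * T * ((y - y' : ℝ) : ℂ))) := by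
      rw [← Complex.exp_add]; congr 1; push_cast; ring
    rw [this]; ring
  simp_rw [key]
  constructor
  · exact ((k0_transform_integrable T).const_mul _).comp_sub_left y
  · rw [integral_sub_left_eq_self (fun t : ℝ => Complex.exp (Complex.I * T * y) *
        ((k0 t : ℂ) * Complex.exp (-(Complex.I * T * t)))), integral_const_mul, k0_transform]

/-- The exotic solution on the line. -/
theorem exists_line : ∃ cm b₁ cp : ℝ, 0 < cm ∧ cm < b₁ ∧ b₁ < cp ∧ ∀ k₁ : ℕ, ∃ N ≥ k₁, 1 ≤ N ∧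
    ∃ (M : ℝ) (f : ℝ → ℂ), Measurable f ∧ (∀ y, 0 ≤ y → ‖f y‖ ≤ M * Real.exp (-(cm * y))) ∧
      (∀ y, y ≤ 0 → ‖f y‖ ≤ M * Real.exp (-(b₁ * y))) ∧
      (∀ y, Integrable (fun y' => (k0 (y - y') : ℂ) * f y')) ∧
      (∀ y, Integrable (fun y' => (del N y y' : ℂ) * f y')) ∧
      (∀ y, f y = (∫ y', (k0 (y - y') : ℂ) * f y') + ∫ y', (del N y y' : ℂ) * f y') ∧
      ¬ ∃ M' : ℝ, ∀ y, 0 ≤ y → ‖f y‖ ≤ M' * Real.exp (-(cp * y)) := by
  obtain ⟨T, hT, hkap⟩ := exists_kap_eq_one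
  set b₁ := T.im with hb₁
  obtain ⟨cm, ⟨hcm1, hcm2⟩, Rm, hRmc, hRmi, hRm⟩ :=
    exists_resolvent (b₁ / 2) b₁ (by linarith) (by linarith)
  obtain ⟨cp, ⟨hcp1, hcp2⟩, Rp, hRpc, hRpi, hRp⟩ :=
    exists_resolvent b₁ (b₁ + 1) (by linarith) hT
  have hcm0 : 0 < cm := by linarith
  refine ⟨cm, b₁, cp, hcm0, hcm2, hcp1, fun k₁ => ?_⟩
  have pm := resPair cm Rm hRmc hRmi hRm
  have pp := resPair cp Rp hRpc hRpi hRp
  set rm := ∫ x, ‖Rw Rm cm x‖ with hrm
  set rp := ∫ x, ‖Rw Rp cp x‖ with hrp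
  have hrm0 : 0 ≤ rm := integral_nonneg fun _ => norm_nonneg _
  have hrp0 : 0 ≤ rp := integral_nonneg fun _ => norm_nonneg _
  set ε := min (1 / (2 * (1 + rm))) (1 / (2 * (1 + rp))) with hε
  have hε0 : 0 < ε := lt_min (by positivity) (by positivity)
  have hεm : (1 + rm) * ε ≤ 1 / 2 := by
    calc (1 + rm) * ε ≤ (1 + rm) * (1 / (2 * (1 + rm))) :=
          mul_le_mul_of_nonneg_left (min_le_left _ _) (by linarith)
      _ = 1 / 2 := by field_simp
  have hεp : (1 + rp) * ε ≤ 1 / 2 := by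
    calc (1 + rp) * ε ≤ (1 + rp) * (1 / (2 * (1 + rp))) :=
          mul_le_mul_of_nonneg_left (min_le_right _ _) (by linarith)
      _ = 1 / 2 := by field_simp
  obtain ⟨N₁, hN₁⟩ := del_small (b₁ + 1) ε hε0
  refine ⟨max (max N₁ k₁) 1, (le_max_right _ _).trans (le_max_left _ _), le_max_right _ _, ?_⟩
  set N := max (max N₁ k₁) 1 with hN
  have hdel := hN₁ N ((le_max_left _ _).trans (le_max_left _ _))
  have kDm : IsKer (Dw N cm) ε := Dw_isKer N cm (b₁ + 1) ε
    (by rw [abs_of_pos hcm0]; linarith) hdel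
  have kDp : IsKer (Dw N cp) ε := Dw_isKer N cp (b₁ + 1) ε
    (by rw [abs_of_pos (by linarith)]; linarith) hdel
  -- the truncated exponential
  let et : ℝ → ℂ := fun y => if 0 ≤ y then
    Complex.exp (Complex.I * T * y) * Complex.exp (cm * y) else 0
  have het : IsBd et 1 := by
    constructor
    · apply Measurable.ite measurableSet_Ici
      · fun_prop
      · exact measurable_const
    · intro y
      simp only [et]
      split_ifs with h
      · rw [← Complex.exp_add, Complex.norm_exp]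
        have h1 : (Complex.I * T * y + cm * y).re = -(b₁ - cm) * y := by
          simp [Complex.mul_re, Complex.mul_im, hb₁]; ring
        rw [h1, ← Real.exp_zero]
        apply Real.exp_le_exp.mpr
        nlinarith
      · simp
  have hbt := iop_isBd kDm het
  obtain ⟨vt, M, hvt, hveq⟩ := exists_perturbed pm kDm hεm hbt
  have hM0 : 0 ≤ M := hvt.nonneg
  have kam := ck_isKer pm.ma pm.ia
  have kap' := ck_isKer pp.ma pp.ia
  let e₁ : ℝ → ℂ := fun y => Complex.exp (Complex.I * T * y)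
  let v : ℝ → ℂ := fun y => vt y * Complex.exp (-(cm * y : ℝ))
  have hne : ∀ y, ‖e₁ y‖ = Real.exp (-(b₁ * y)) := by
    intro y
    simp only [e₁]
    rw [Complex.norm_exp]
    congr 1
    simp [Complex.mul_re, Complex.mul_im, hb₁]
  have hnexp : ∀ c y : ℝ, ‖Complex.exp (-(c * y : ℝ))‖ = Real.exp (-(c * y)) := by
    intro c y
    rw [← Complex.ofReal_neg, Complex.norm_exp_ofReal]
  have hnv : ∀ y, ‖v y‖ ≤ M * Real.exp (-(cm * y)) := by
    intro y
    simp only [v]
    rw [norm_mul, hnexp]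
    exact mul_le_mul_of_nonneg_right (hvt.bound y) (Real.exp_pos _).le
  -- del * e₁
  have hdele : ∀ y, Integrable (fun y' => (del N y y' : ℂ) * e₁ y') ∧
      ∫ y', (del N y y' : ℂ) * e₁ y' = Complex.exp (-(cm * y : ℝ)) * iop (Dw N cm) et y := by
    intro y
    have h1 : ∀ y', (del N y y' : ℂ) * e₁ y' =
        (del N y y' : ℂ) * (et y' * Complex.exp (-(cm * y' : ℝ))) := by
      intro y'
      simp only [e₁, et]
      split_ifs with h
      · congr 1
        rw [← Complex.exp_add, ← Complex.exp_add]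
        congr 1
        push_cast; ring
      · rw [del_neg N (not_le.mp h)]; simp
    simp_rw [h1]
    exact ⟨del_part_int N cm kDm het y, del_part N cm et y⟩
  have hk0e := fun y => k0_exp T y
  have hk0v := fun y => k0_part_int cm kam hvt y
  have hdelv := fun y => del_part_int N cm kDm hvt y
  have hfeq : ∀ y, (e₁ y + v y) = (∫ y', (k0 (y - y') : ℂ) * (e₁ y' + v y')) +
      ∫ y', (del N y y' : ℂ) * (e₁ y' + v y') := by
    intro y
    simp only [mul_add]
    rw [integral_add (hk0e y).1 (hk0v y), integral_add (hdele y).1 (hdelv y), (hk0e y).2,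
      (hdele y).2, k0_part cm vt y, del_part N cm vt y, hkap, mul_one]
    have h1 : v y = Complex.exp (-(cm * y : ℝ)) * vt y := mul_comm _ _
    rw [h1]
    have h2 := hveq y
    conv_lhs => rw [h2]
    simp only [e₁]
    ring
  have hfpos : ∀ y, 0 ≤ y → ‖e₁ y + v y‖ ≤ (1 + M) * Real.exp (-(cm * y)) := by
    intro y hy
    have h1 : Real.exp (-(b₁ * y)) ≤ Real.exp (-(cm * y)) := by
      apply Real.exp_le_exp.mpr; nlinarith
    calc ‖e₁ y + v y‖ ≤ ‖e₁ y‖ + ‖v y‖ := norm_add_le _ _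
      _ ≤ Real.exp (-(cm * y)) + M * Real.exp (-(cm * y)) := by
          rw [hne]; exact add_le_add h1 (hnv y)
      _ = (1 + M) * Real.exp (-(cm * y)) := by ring
  have hfneg : ∀ y, y ≤ 0 → ‖e₁ y + v y‖ ≤ (1 + M) * Real.exp (-(b₁ * y)) := by
    intro y hy
    have h1 : Real.exp (-(cm * y)) ≤ Real.exp (-(b₁ * y)) := by
      apply Real.exp_le_exp.mpr; nlinarith
    calc ‖e₁ y + v y‖ ≤ ‖e₁ y‖ + ‖v y‖ := norm_add_le _ _
      _ ≤ Real.exp (-(b₁ * y)) + M * Real.exp (-(b₁ * y)) := by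
          rw [hne]
          exact add_le_add le_rfl ((hnv y).trans (mul_le_mul_of_nonneg_left h1 hM0))
      _ = (1 + M) * Real.exp (-(b₁ * y)) := by ring
  have he₁m : Measurable e₁ := by
    apply Continuous.measurable; simp only [e₁]; fun_prop
  have hvm : Measurable v := by
    apply hvt.meas.mul
    apply Continuous.measurable; fun_prop
  refine ⟨1 + M, fun y => e₁ y + v y, he₁m.add hvm, hfpos, hfneg, fun y => ?_, fun y => ?_,
    hfeq, ?_⟩
  · simp only [mul_add]; exact (hk0e y).1.add (hk0v y)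
  · simp only [mul_add]; exact (hdele y).1.add (hdelv y)
  · rintro ⟨M', hM'⟩
    let fp : ℝ → ℂ := fun y => (e₁ y + v y) * Complex.exp (cp * y : ℝ)
    have hcexp : ∀ y : ℝ, ‖Complex.exp (cp * y : ℝ)‖ = Real.exp (cp * y) := fun y => by
      rw [Complex.norm_exp_ofReal]
    have hfp : IsBd fp (max M' (1 + M)) := by
      constructor
      · apply (he₁m.add hvm).mul
        apply Continuous.measurable; fun_prop
      · intro y
        simp only [fp]
        rw [norm_mul, hcexp]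
        rcases le_total 0 y with hy | hy
        · calc ‖e₁ y + v y‖ * Real.exp (cp * y) ≤ (M' * Real.exp (-(cp * y))) * Real.exp (cp * y) :=
                mul_le_mul_of_nonneg_right (hM' y hy) (Real.exp_pos _).le
            _ = M' := by rw [mul_assoc, ← Real.exp_add]; simp
            _ ≤ _ := le_max_left _ _
        · calc ‖e₁ y + v y‖ * Real.exp (cp * y)
              ≤ ((1 + M) * Real.exp (-(b₁ * y))) * Real.exp (cp * y) :=
                mul_le_mul_of_nonneg_right (hfneg y hy) (Real.exp_pos _).le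
            _ = (1 + M) * Real.exp ((cp - b₁) * y) := by
                rw [mul_assoc, ← Real.exp_add]; congr 2; ring
            _ ≤ (1 + M) * 1 := by
                apply mul_le_mul_of_nonneg_left _ (by linarith)
                rw [← Real.exp_zero]
                apply Real.exp_le_exp.mpr; nlinarith
            _ = 1 + M := mul_one _
            _ ≤ _ := le_max_right _ _
    have hback : ∀ y, e₁ y + v y = fp y * Complex.exp (-(cp * y : ℝ)) := by
      intro y
      simp only [fp]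
      rw [mul_assoc, ← Complex.exp_add]
      simp
    have hfpeq : ∀ y, fp y = iop (ck (aw cp)) fp y + iop (Dw N cp) fp y := by
      intro y
      have h1 := hfeq y
      simp_rw [hback] at h1
      rw [k0_part cp fp y, del_part N cp fp y, ← mul_add, mul_comm] at h1
      exact mul_left_cancel₀ (Complex.exp_ne_zero _) h1
    have hz := unique_perturbed pp kDp hεp hfp hfpeq
    have hz2 : ∀ y, e₁ y + v y = 0 := fun y => by rw [hback, hz, zero_mul]
    -- growth at -∞
    have h3 : ∀ y : ℝ, Real.exp ((b₁ - cm) * y) ≤ M := by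
      intro y
      have h4 : e₁ (-y) = -v (-y) := eq_neg_of_add_eq_zero_left (hz2 (-y))
      have h5 : ‖e₁ (-y)‖ ≤ M * Real.exp (-(cm * -y)) := by
        rw [h4, norm_neg]; exact hnv _
      rw [hne] at h5
      have h6 : Real.exp ((b₁ - cm) * y) = Real.exp (-(b₁ * -y)) * Real.exp (-(cm * y)) := by
        rw [← Real.exp_add]; congr 1; ring
      rw [h6]
      calc Real.exp (-(b₁ * -y)) * Real.exp (-(cm * y))
          ≤ (M * Real.exp (-(cm * -y))) * Real.exp (-(cm * y)) :=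
            mul_le_mul_of_nonneg_right h5 (Real.exp_pos _).le
        _ = M := by rw [mul_assoc, ← Real.exp_add]; simp
    have h7 := h3 ((M + 1) / (b₁ - cm))
    have h8 : (b₁ - cm) * ((M + 1) / (b₁ - cm)) = M + 1 := by
      have : b₁ - cm ≠ 0 := by linarith
      field_simp
    rw [h8] at h7
    have h9 := Real.add_one_le_exp (M + 1)
    linarith

end Pool.Agent.Work.MP_e29078_an.Ex

end

section

/-! Weak equation for the explicit form `u0`, part C: the equation on `GM`. -/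

open MeasureTheory Set Filter Topology
open scoped Real ComplexConjugate ContDiff ENNReal

namespace Pool.Agent.Work.MP_e29078_an
namespace B4

lemma cont_qf : Continuous qf := by unfold qf; fun_prop
lemma cont_sf : Continuous sf := by unfold sf; fun_prop
lemma cont_hM : Continuous hM := by
  have h1 := cont_qf
  have h2 := cont_sf
  unfold hM
  fun_prop

lemma isOpen_GM : IsOpen GM := isOpen_lt continuous_const cont_hM

lemma GG_bdd (A : ℝ) {K : Set (ℂ × ℂ)} (hK : IsCompact K) (hKG : K ⊆ GM) :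
    ∃ C, ∀ z ∈ K, GG A z.2 ≤ C := by
  have h : ContinuousOn (fun z : ℂ × ℂ => GG A z.2) K := by
    unfold GG
    refine continuousOn_const.mul (continuousOn_const.add (continuousOn_const.mul
      (ContinuousOn.div ?_ ?_ ?_)))
    · refine ContinuousOn.rpow_const (cont_sf.comp continuous_snd).continuousOn ?_
      intro z hz
      exact Or.inl (GM_facts (hKG hz)).2.2.2.1.ne'
    · exact (rs_continuous_rho.comp continuous_snd).continuousOn
    · intro z hz
      exact (GM_facts (hKG hz)).2.2.1.ne'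
  obtain ⟨C, hC⟩ := (hK.image_of_continuousOn h).bddAbove
  exact ⟨C, fun z hz => hC ⟨z, hz, rfl⟩⟩

lemma integrable_mul_bdd {X : Type} [TopologicalSpace X] [MeasurableSpace X] [OpensMeasurableSpace X]
    {μ : Measure X} [IsFiniteMeasureOnCompacts μ] {u g : X → ℂ}
    (hu : Measurable u) (hg : Continuous g) (hgc : HasCompactSupport g) {K : Set X}
    (hK : ∀ z, z ∉ K → g z = 0) {C : ℝ} (hb : ∀ z ∈ K, ‖u z‖ ≤ C) :
    Integrable (fun z => u z * g z) μ := by
  have h1 : Integrable g μ := hg.integrable_of_hasCompactSupport hgc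
  refine (h1.norm.const_mul C).mono' (hu.aestronglyMeasurable.mul h1.aestronglyMeasurable) ?_
  refine Eventually.of_forall fun z => ?_
  rw [norm_mul]
  by_cases hz : z ∈ K
  · have := hb z hz
    gcongr
  · rw [hK z hz]; simp

lemma clEmb1 (w : ℂ) : IsClosedEmbedding (fun a : ℂ => (a, w)) :=
  Function.LeftInverse.isClosedEmbedding (f := Prod.fst) (fun _ => rfl) continuous_fst
    (by fun_prop)

lemma clEmb2 (a : ℂ) : IsClosedEmbedding (fun w : ℂ => (a, w)) :=
  Function.LeftInverse.isClosedEmbedding (f := Prod.snd) (fun _ => rfl) continuous_snd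
    (by fun_prop)

section
variable {F Φ V : ℂ → ℂ} {A : ℝ} (hFm : Measurable F) (hF : ∀ w, ‖F w‖ ≤ A)
    (hΦm : Measurable Φ) (hΦ : ∀ w, ‖Φ w‖ ≤ A)
    (hV : Continuous V) (hVb : ∀ w, ‖w‖ < 1 → ‖V w‖ ≤ A * (1 - ‖w‖ ^ 2) ^ (3 / 4 : ℝ))

lemma slice1 (F V : ℂ → ℂ) {Y : ℂ × ℂ → ℂ} (hY : ContDiff ℝ 1 Y) (hYc : HasCompactSupport Y) (w : ℂ) :
    ∫ a, u1 F V (a, w) * D1 Y (a, w) = ∫ a, -e1 F V (a, w) * Y (a, w) := by
  set c1 : ℂ := F w * (1 - qf w * rho w / sf w : ℝ) - V w * (-(1 - conj w) / (sf w : ℂ) +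
    (qf w : ℝ) * conj w / (sf w : ℂ) ^ 2) with hc1
  set c2 : ℂ := -(F w * (rho w / sf w : ℝ)) - V w * (conj w / (sf w : ℂ) ^ 2) with hc2
  have hu : ∀ a, u1 F V (a, w) = a * (c1 + c2 * (a * conj a)) := by
    intro a
    unfold u1
    rw [← normsq_eq]
    simp only [hc1, hc2]
    push_cast
    ring
  have he : ∀ a, e1 F V (a, w) = c1 + 2 * c2 * (a * conj a) := by
    intro a
    unfold e1
    rw [← normsq_eq]
    simp only [hc1, hc2]
    push_cast
    ring
  have hconj : ContDiff ℝ 1 (fun a : ℂ => conj a) := (Complex.conjCLE : ℂ →L[ℝ] ℂ).contDiff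
  have hcd : ContDiff ℝ 1 (fun a : ℂ => a * (c1 + c2 * (a * conj a))) := by fun_prop
  have hYs : ContDiff ℝ 1 (fun a : ℂ => Y (a, w)) :=
    hY.comp (contDiff_id.prodMk contDiff_const)
  have hYsc : HasCompactSupport (fun a : ℂ => Y (a, w)) :=
    hYc.comp_isClosedEmbedding (g := fun a : ℂ => (a, w)) (clEmb1 w)
  have hDu : ∀ a, D (fun a : ℂ => a * (c1 + c2 * (a * conj a))) a = c1 + 2 * c2 * (a * conj a) := by
    intro a
    have d1 : DifferentiableAt ℝ (fun a : ℂ => conj a) a := hconj.differentiable (by norm_num) a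
    have d0 : DifferentiableAt ℝ (fun a : ℂ => a) a := differentiableAt_id
    have d2 : DifferentiableAt ℝ (fun a : ℂ => a * conj a) a := d0.mul d1
    have d3 : DifferentiableAt ℝ (fun _ : ℂ => c2) a := differentiableAt_const _
    have d4 : DifferentiableAt ℝ (fun a : ℂ => c2 * (a * conj a)) a := d3.mul d2
    have d5 : DifferentiableAt ℝ (fun _ : ℂ => c1) a := differentiableAt_const _
    have d6 : DifferentiableAt ℝ (fun a : ℂ => c1 + c2 * (a * conj a)) a := d5.add d4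
    rw [D_mul d0 d6, D_add d5 d4, D_mul d3 d2, D_mul d0 d1, D_id, D_conj, D_const, D_const]
    ring
  have hprod : ∀ a, D (fun a : ℂ => (a * (c1 + c2 * (a * conj a))) * Y (a, w)) a =
      e1 F V (a, w) * Y (a, w) + u1 F V (a, w) * D1 Y (a, w) := by
    intro a
    rw [D_mul (hcd.differentiable (by norm_num) a) (hYs.differentiable (by norm_num) a), hDu,
      D_slice1 (hY.differentiable (by norm_num) _), he, hu]
  have h0 := integral_D_zero _ (hcd.mul hYs) hYsc.mul_left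
  have h1 : (fun a => D (fun a : ℂ => (a * (c1 + c2 * (a * conj a))) * Y (a, w)) a) =
      fun a => e1 F V (a, w) * Y (a, w) + u1 F V (a, w) * D1 Y (a, w) := funext hprod
  have h0' : ∫ a, (e1 F V (a, w) * Y (a, w) + u1 F V (a, w) * D1 Y (a, w)) = 0 := by
    rw [← h1]; exact h0
  have i1 : Integrable (fun a => e1 F V (a, w) * Y (a, w)) := by
    have : Continuous (fun a => e1 F V (a, w) * Y (a, w)) := by
      simp only [he]
      have := hconj.continuous
      have := hYs.continuous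
      fun_prop
    exact this.integrable_of_hasCompactSupport hYsc.mul_left
  have i2 : Integrable (fun a => u1 F V (a, w) * D1 Y (a, w)) := by
    have h3 : (fun a => D1 Y (a, w)) = D (fun a => Y (a, w)) := by
      ext a
      rw [D_slice1 (hY.differentiable (by norm_num) _)]
    have h4 : Continuous (fun a => u1 F V (a, w) * D1 Y (a, w)) := by
      have h5 := D_continuous hYs
      rw [← h3] at h5
      simp only [hu]
      have := hconj.continuous
      fun_prop
    refine h4.integrable_of_hasCompactSupport ?_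
    have h6 := D_hasCompactSupport hYsc
    rw [← h3] at h6
    exact h6.mul_left
  rw [integral_add i1 i2] at h0'
  have h7 : ∫ a, -e1 F V (a, w) * Y (a, w) = -∫ a, e1 F V (a, w) * Y (a, w) := by
    rw [← integral_neg]
    congr 1
    ext a
    ring
  rw [h7]
  linear_combination h0'

lemma D_ratio (t : ℝ) {w : ℂ} (hs : sf w ≠ 0) :
    DifferentiableAt ℝ (fun w : ℂ => ((2 * t + qf w : ℝ) : ℂ) / (sf w : ℂ)) w ∧
    D (fun w : ℂ => ((2 * t + qf w : ℝ) : ℂ) / (sf w : ℂ)) w = -(1 - conj w) / (sf w : ℂ) +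
      (2 * t + qf w : ℝ) * conj w / (sf w : ℂ) ^ 2 := by
  have hs' : (sf w : ℂ) ≠ 0 := by exact_mod_cast hs
  have hconj : ContDiff ℝ 1 (fun a : ℂ => conj a) := (Complex.conjCLE : ℂ →L[ℝ] ℂ).contDiff
  have d1 : DifferentiableAt ℝ (fun a : ℂ => conj a) w := hconj.differentiable (by norm_num) w
  have d0 : DifferentiableAt ℝ (fun a : ℂ => a) w := differentiableAt_id
  have dc : ∀ c : ℂ, DifferentiableAt ℝ (fun _ : ℂ => c) w := fun c => differentiableAt_const _
  have hS : (fun w : ℂ => (sf w : ℂ)) = fun w => 1 - w * conj w := funext sf_eq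
  have hN : (fun w : ℂ => ((2 * t + qf w : ℝ) : ℂ)) = fun w => 2 * (t : ℂ) + (1 - w) * (1 - conj w) := by
    ext w; push_cast; rw [qf_eq]
  have dS : DifferentiableAt ℝ (fun w : ℂ => (sf w : ℂ)) w := by
    rw [hS]; exact (dc 1).fun_sub (d0.fun_mul d1)
  have dN : DifferentiableAt ℝ (fun w : ℂ => ((2 * t + qf w : ℝ) : ℂ)) w := by
    rw [hN]; exact (dc _).fun_add (((dc 1).fun_sub d0).fun_mul ((dc 1).fun_sub d1))
  have DS : D (fun w : ℂ => (sf w : ℂ)) w = -conj w := by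
    rw [hS, D_sub (dc 1) (d0.fun_mul d1), D_mul d0 d1, D_id, D_conj, D_const]
    ring
  have DN : D (fun w : ℂ => ((2 * t + qf w : ℝ) : ℂ)) w = -(1 - conj w) := by
    rw [hN, D_add (dc _) (((dc 1).fun_sub d0).fun_mul ((dc 1).fun_sub d1)),
      D_mul ((dc 1).fun_sub d0) ((dc 1).fun_sub d1),
      D_sub (dc 1) d0, D_sub (dc 1) d1, D_id, D_conj, D_const, D_const]
    ring
  have dR : DifferentiableAt ℝ (fun w : ℂ => ((2 * t + qf w : ℝ) : ℂ) / (sf w : ℂ)) w :=
by
    have h1 : DifferentiableAt ℝ (fun w : ℂ => (sf w : ℂ)⁻¹) w :=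
      DifferentiableAt.fun_inv (h := fun w : ℂ => (sf w : ℂ)) dS hs'
    simp only [div_eq_mul_inv]
    exact dN.fun_mul h1
  refine ⟨dR, ?_⟩
  have h1 := D_mul dR dS
  have h2 : (fun z : ℂ => ((2 * t + qf z : ℝ) : ℂ) / (sf z : ℂ) * (sf z : ℂ)) =ᶠ[𝓝 w]
      fun w : ℂ => ((2 * t + qf w : ℝ) : ℂ) := by
    have h3 : ∀ᶠ z in 𝓝 w, sf z ≠ 0 := cont_sf.continuousAt.eventually_ne hs
    filter_upwards [h3] with z hz
    have : (sf z : ℂ) ≠ 0 := by exact_mod_cast hz
    field_simp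
  rw [D_congr h2, DN, DS] at h1
  have h4 : D (fun w : ℂ => ((2 * t + qf w : ℝ) : ℂ) / (sf w : ℂ)) w =
      (-(1 - conj w) + ((2 * t + qf w : ℝ) : ℂ) / (sf w : ℂ) * conj w) / (sf w : ℂ) := by
    rw [eq_div_iff hs']
    linear_combination -h1
  rw [h4]
  field_simp

include hFm hF hΦm hΦ hV hVb in
lemma slice2 (hweak : ∀ χ : ℂ → ℂ, ContDiff ℝ 1 χ → HasCompactSupport χ →
      tsupport χ ⊆ Metric.ball 0 1 →
      ∫ w in Metric.ball (0 : ℂ) 1, V w * D χ w =
        ∫ w in Metric.ball (0 : ℂ) 1, ((sf w : ℂ) * Φ w - (rho w : ℂ) * F w) * χ w)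
    {Y : ℂ × ℂ → ℂ} (hY : ContDiff ℝ 1 Y) (hYc : HasCompactSupport Y)
    (hYG : tsupport Y ⊆ GM) (a : ℂ) :
    ∫ w, u2 V (a, w) * D2 Y (a, w) = ∫ w, e2 F Φ V (a, w) * Y (a, w) := by
  set R : ℂ → ℂ := fun w : ℂ => ((2 * ‖a‖ ^ 2 + qf w : ℝ) : ℂ) / (sf w : ℂ) with hR
  set χ : ℂ → ℂ := fun w => R w * Y (a, w) with hχ
  have hYs : ContDiff ℝ 1 (fun w : ℂ => Y (a, w)) :=
    hY.comp (contDiff_const.prodMk contDiff_id)
  have hYsc : HasCompactSupport (fun w : ℂ => Y (a, w)) :=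
    hYc.comp_isClosedEmbedding (g := fun w : ℂ => (a, w)) (clEmb2 a)
  have hts : tsupport (fun w : ℂ => Y (a, w)) ⊆ {w | (a, w) ∈ GM} := by
    intro w hw
    exact hYG (tsupport_comp_subset_preimage Y (f := fun w : ℂ => (a, w)) (by fun_prop) hw)
  have hRcd : ∀ w, sf w ≠ 0 → ContDiffAt ℝ 1 R w := by
    intro w hs
    have hs' : (sf w : ℂ) ≠ 0 := by exact_mod_cast hs
    have h1 : ContDiff ℝ 1 (fun w : ℂ => ((2 * ‖a‖ ^ 2 + qf w : ℝ) : ℂ)) := by
      have hN : (fun w : ℂ => ((2 * ‖a‖ ^ 2 + qf w : ℝ) : ℂ)) =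
          fun w => ((2 * ‖a‖ ^ 2 : ℝ) : ℂ) + (1 - w) * (1 - conj w) := by
        ext w; push_cast; rw [qf_eq]
      rw [hN]
      have hconj : ContDiff ℝ 1 (fun a : ℂ => conj a) := (Complex.conjCLE : ℂ →L[ℝ] ℂ).contDiff
      fun_prop
    have h2 : ContDiff ℝ 1 (fun w : ℂ => (sf w : ℂ)) := by
      have hS : (fun w : ℂ => (sf w : ℂ)) = fun w => 1 - w * conj w := funext sf_eq
      rw [hS]
      have hconj : ContDiff ℝ 1 (fun a : ℂ => conj a) := (Complex.conjCLE : ℂ →L[ℝ] ℂ).contDiff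
      fun_prop
    have h3 : ContDiffAt ℝ 1 (fun w : ℂ => (sf w : ℂ)⁻¹) w :=
      ContDiffAt.fun_inv (f := fun w : ℂ => (sf w : ℂ)) h2.contDiffAt hs'
    simp only [hR, div_eq_mul_inv]
    exact h1.contDiffAt.mul h3
  have hχcd : ContDiff ℝ 1 χ := by
    rw [contDiff_iff_contDiffAt]
    intro w
    by_cases hw : w ∈ tsupport (fun w : ℂ => Y (a, w))
    · exact (hRcd w (GM_facts (hts hw)).2.2.2.1.ne').mul hYs.contDiffAt
    · have h1 : χ =ᶠ[𝓝 w] fun _ => 0 := by
        filter_upwards [(isClosed_tsupport _).isOpen_compl.mem_nhds hw] with z hz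
        simp only [hχ]
        rw [image_eq_zero_of_notMem_tsupport hz, mul_zero]
      exact contDiffAt_const.congr_of_eventuallyEq h1
  have hχc : HasCompactSupport χ := hYsc.mul_left
  have hχt : tsupport χ ⊆ tsupport (fun w : ℂ => Y (a, w)) :=
    closure_mono (Function.support_mul_subset_right _ _)
  have hχb : tsupport χ ⊆ Metric.ball 0 1 := by
    intro w hw
    rw [mem_ball_zero_iff]
    exact (GM_facts (hts (hχt hw))).1
  have hw := hweak χ hχcd hχc hχb
  have hDχ0 : ∀ w, w ∉ tsupport χ → D χ w = 0 := by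
    intro w hw
    have h1 : χ =ᶠ[𝓝 w] fun _ => 0 := by
      filter_upwards [(isClosed_tsupport _).isOpen_compl.mem_nhds hw] with z hz
      exact image_eq_zero_of_notMem_tsupport hz
    rw [D_congr h1, D_const]
  rw [setIntegral_eq_integral_of_forall_compl_eq_zero (by
      intro w hw
      rw [hDχ0 w (fun h => hw (hχb h)), mul_zero]),
    setIntegral_eq_integral_of_forall_compl_eq_zero (by
      intro w hw
      rw [image_eq_zero_of_notMem_tsupport (f := χ) (fun h => hw (hχb h)), mul_zero])] at hw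
  have hpt : ∀ w, u2 V (a, w) * D2 Y (a, w) - e2 F Φ V (a, w) * Y (a, w) =
      V w * D χ w - ((sf w : ℂ) * Φ w - (rho w : ℂ) * F w) * χ w := by
    intro w
    by_cases hw : w ∈ tsupport (fun w : ℂ => Y (a, w))
    · have hs := (GM_facts (hts hw)).2.2.2.1.ne'
      obtain ⟨dR, DR⟩ := D_ratio (‖a‖ ^ 2) hs
      have h1 : D χ w = D R w * Y (a, w) + R w * D2 Y (a, w) := by
        rw [hχ, D_mul dR (hYs.differentiable (by norm_num) w),
          D_slice2 (hY.differentiable (by norm_num) _)]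
      rw [h1, DR]
      unfold u2 e2
      simp only [hχ, hR]
      ring
    · have h1 : Y (a, w) = 0 := image_eq_zero_of_notMem_tsupport (f := fun w : ℂ => Y (a, w)) hw
      have h2 : D2 Y (a, w) = 0 := by
        rw [← D_slice2 (hY.differentiable (by norm_num) _)]
        have h1 : (fun w : ℂ => Y (a, w)) =ᶠ[𝓝 w] fun _ => 0 := by
          filter_upwards [(isClosed_tsupport _).isOpen_compl.mem_nhds hw] with z hz
          exact image_eq_zero_of_notMem_tsupport (f := fun w : ℂ => Y (a, w)) hz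
        rw [D_congr h1, D_const]
      have h3 : χ w = 0 := by simp only [hχ]; rw [h1, mul_zero]
      rw [h1, h2, h3, hDχ0 w (fun h => hw (hχt h))]
      ring
  have j1 : Integrable (fun w => V w * D χ w) :=
    (hV.mul (D_continuous hχcd)).integrable_of_hasCompactSupport (D_hasCompactSupport hχc).mul_left
  have j2 : Integrable (fun w => ((sf w : ℂ) * Φ w - (rho w : ℂ) * F w) * χ w) := by
    refine integrable_mul_bdd (K := tsupport χ) (C := A + A) ?_ hχcd.continuous hχc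
      (fun z hz => image_eq_zero_of_notMem_tsupport hz) ?_
    · have h1 := meas_sf
      have h2 := meas_rho
      fun_prop
    · intro w hw
      have hf := GM_facts (hts (hχt hw))
      refine (norm_sub_le _ _).trans ?_
      rw [norm_mul, norm_mul, Complex.norm_real, Complex.norm_real,
        Real.norm_of_nonneg hf.2.2.2.1.le, Real.norm_of_nonneg hf.2.2.1.le]
      exact add_le_add
        ((mul_le_of_le_one_left (norm_nonneg _) hf.2.2.2.2.1).trans (hΦ w))
        ((mul_le_of_le_one_left (norm_nonneg _) hf.2.2.2.2.2.1).trans (hF w))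
  obtain ⟨C, hC⟩ := GG_bdd A hYc hYG
  have j3 : Integrable (fun w => u2 V (a, w) * D2 Y (a, w)) := by
    have h3 : (fun w => D2 Y (a, w)) = D (fun w => Y (a, w)) := by
      ext w
      rw [D_slice2 (hY.differentiable (by norm_num) _)]
    refine integrable_mul_bdd (u := fun w => u2 V (a, w)) (g := fun w => D2 Y (a, w))
      (K := {w | (a, w) ∈ tsupport Y}) (C := C) ?_ ?_ ?_ ?_ ?_
    · exact (meas_u2 hV.measurable).comp (by fun_prop)
    · exact (D2_continuous hY).comp (by fun_prop)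
    · rw [h3]; exact D_hasCompactSupport hYsc
    · intro w hw
      exact D2_zero hw
    · intro w hw
      exact (u2_bd hF hVb (hYG hw)).trans (hC (a, w) hw)
  have j4 : Integrable (fun w => e2 F Φ V (a, w) * Y (a, w)) := by
    have h5 : (fun w => e2 F Φ V (a, w) * Y (a, w)) = fun w => u2 V (a, w) * D2 Y (a, w) -
        (V w * D χ w - ((sf w : ℂ) * Φ w - (rho w : ℂ) * F w) * χ w) := by
      ext w
      rw [← hpt]; ring
    rw [h5]
    exact j3.sub (j1.sub j2)
  have h6 : ∫ w, (u2 V (a, w) * D2 Y (a, w) - e2 F Φ V (a, w) * Y (a, w)) =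
      ∫ w, (V w * D χ w - ((sf w : ℂ) * Φ w - (rho w : ℂ) * F w) * χ w) := by
    congr 1; ext w; exact hpt w
  rw [integral_sub j3 j4, integral_sub j1 j2, hw, sub_self] at h6
  exact sub_eq_zero.mp h6

include hFm hF hΦm hΦ hV hVb in
/-- the weak equation on `GM` -/
lemma weakGM (hweak : ∀ χ : ℂ → ℂ, ContDiff ℝ 1 χ → HasCompactSupport χ →
      tsupport χ ⊆ Metric.ball 0 1 →
      ∫ w in Metric.ball (0 : ℂ) 1, V w * D χ w =
        ∫ w in Metric.ball (0 : ℂ) 1, ((sf w : ℂ) * Φ w - (rho w : ℂ) * F w) * χ w)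
    {Y : ℂ × ℂ → ℂ} (hY : ContDiff ℝ 1 Y) (hYc : HasCompactSupport Y)
    (hYG : tsupport Y ⊆ GM) :
    ∫ z, (u1 F V z * D1 Y z + u2 V z * D2 Y z) =
      ∫ z, (((2 * ‖z.1‖ ^ 2 + qf z.2 : ℝ) : ℂ) * Φ z.2 - F z.2) * Y z := by
  obtain ⟨C, hC⟩ := GG_bdd A hYc hYG
  have hD1c : HasCompactSupport (D1 Y) :=
    hYc.mono' (fun z hz => by
      by_contra h
      exact hz (D1_zero h))
  have hD2c : HasCompactSupport (D2 Y) :=
    hYc.mono' (fun z hz => by
      by_contra h
      exact hz (D2_zero h))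
  have hY0 : ∀ z, z ∉ tsupport Y → Y z = 0 := fun z hz => image_eq_zero_of_notMem_tsupport hz
  have k1 : Integrable (fun z => u1 F V z * D1 Y z) :=
    integrable_mul_bdd (meas_u1 hFm hV.measurable) (D1_continuous hY) hD1c
      (fun z hz => D1_zero hz) (fun z hz => (u1_bd hF hVb (hYG hz)).trans (hC z hz))
  have k2 : Integrable (fun z => u2 V z * D2 Y z) :=
    integrable_mul_bdd (meas_u2 hV.measurable) (D2_continuous hY) hD2c
      (fun z hz => D2_zero hz) (fun z hz => (u2_bd hF hVb (hYG hz)).trans (hC z hz))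
  have k3 : Integrable (fun z => e1 F V z * Y z) :=
    integrable_mul_bdd (meas_e1 hFm hV.measurable) hY.continuous hYc
      hY0 (fun z hz => (e1_bd hF hVb (hYG hz)).trans (hC z hz))
  have k4 : Integrable (fun z => e2 F Φ V z * Y z) :=
    integrable_mul_bdd (meas_e2 hFm hΦm hV.measurable) hY.continuous hYc
      hY0 (C := 2 * C) (fun z hz => (e2_bd hF hΦ hVb (hYG hz)).trans (by
        have := hC z hz
        linarith))
  have k3' : Integrable (fun z => -(e1 F V z * Y z)) := k3.neg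
  rw [integral_add k1 k2]
  have m1 : ∫ z, u1 F V z * D1 Y z = ∫ z, -(e1 F V z * Y z) := by
    rw [Measure.volume_eq_prod] at k1 k3' ⊢
    rw [integral_prod_symm _ k1, integral_prod_symm _ k3']
    congr 1
    ext w
    rw [slice1 F V hY hYc w]
    congr 1
    ext a
    ring
  have m2 : ∫ z, u2 V z * D2 Y z = ∫ z, e2 F Φ V z * Y z := by
    rw [Measure.volume_eq_prod] at k2 k4 ⊢
    rw [integral_prod _ k2, integral_prod _ k4]
    congr 1
    ext a
    exact slice2 hFm hF hΦm hΦ hV hVb hweak hY hYc hYG a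
  rw [m1, m2, ← integral_add k3' k4]
  congr 1
  ext z
  by_cases hz : z ∈ tsupport Y
  · have := e_sum F Φ V z (GM_facts (hYG hz)).2.2.2.1.ne'
    linear_combination (Y z) * this
  · rw [hY0 z hz]
    ring

end

end B4
end Pool.Agent.Work.MP_e29078_an

end

section

/-! Theorem A: the sequence `g`. -/

open MeasureTheory Set Filter Topology
open scoped Real ComplexConjugate

namespace Pool.Agent.Work.MP_e29078_an.Ex

section
variable (N : ℕ) (f : ℝ → ℂ)

/-- weight -/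
noncomputable def wX (y : ℝ) : ℝ := (2 * Xf N y) ^ (1 / 4 : ℝ)

/-- cell averages -/
noncomputable def gc (n : ℕ) : ℂ := ∫ y in cell N n, (wX N y : ℂ) * f y

/-- contribution of the negative half line -/
noncomputable def Tc (y : ℝ) : ℂ := ∫ y' in Iio (0 : ℝ), (k0 (y - y') : ℂ) * f y'

lemma cell_bdd (n : ℕ) : ∃ a b : ℝ, cell N n ⊆ Ico a b := by
  rcases lt_or_ge n N with h | h
  · exact ⟨0, 0, by rw [cell_empty N n h]; exact empty_subset _⟩
  · exact ⟨_, _, (cell_eq N n h).subset⟩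

lemma wX_integrableOn (n : ℕ) : IntegrableOn (wX N) (cell N n) := by
  obtain ⟨a, b, hab⟩ := cell_bdd N n
  have h1 : IntegrableOn (wX N) (Icc a b) := (wX_continuous N).continuousOn.integrableOn_Icc
  exact h1.mono_set (hab.trans Ico_subset_Icc_self)

lemma kernel_eq {y y' : ℝ} (hy : 0 ≤ y) (hy' : 0 ≤ y') :
    k0 (y - y') + del N y y' = Kr ⌊Xf N y⌋₊ ⌊Xf N y'⌋₊ * wX N y' := by
  unfold del wX
  rw [if_pos ⟨hy, hy'⟩]; ring

variable {N f}

lemma hasSum_cells (h1 : ∀ y, Integrable (fun y' => (k0 (y - y') : ℂ) * f y'))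
    (h2 : ∀ y, Integrable (fun y' => (del N y y' : ℂ) * f y'))
    (h3 : ∀ y, f y = (∫ y', (k0 (y - y') : ℂ) * f y') + ∫ y', (del N y y' : ℂ) * f y')
    {y : ℝ} (hy : 0 ≤ y) :
    HasSum (fun n : ℕ => (Kr ⌊Xf N y⌋₊ n : ℂ) * gc N f n) (f y - Tc f y) := by
  have hi := (h1 y).add (h2 y)
  have h4 : f y = (∫ y' in Iio (0 : ℝ), ((k0 (y - y') : ℂ) * f y' + (del N y y' : ℂ) * f y')) +
      ∫ y' in Ici (0 : ℝ), ((k0 (y - y') : ℂ) * f y' + (del N y y' : ℂ) * f y') := by
    have h5 : f y = ∫ y', ((k0 (y - y') : ℂ) * f y' + (del N y y' : ℂ) * f y') := by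
      rw [integral_add (h1 y) (h2 y)]; exact h3 y
    rw [h5, ← compl_Iio]
    exact (integral_add_compl measurableSet_Iio hi).symm
  have h6 : (∫ y' in Iio (0 : ℝ), ((k0 (y - y') : ℂ) * f y' + (del N y y' : ℂ) * f y')) =
      Tc f y := by
    unfold Tc
    apply setIntegral_congr_fun measurableSet_Iio
    intro y' hy'
    simp only
    rw [del_neg N hy']; simp
  have h7 : f y - Tc f y = ∫ y' in ⋃ n, cell N n,
      ((k0 (y - y') : ℂ) * f y' + (del N y y' : ℂ) * f y') := by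
    rw [iUnion_cell, h4, h6]; ring
  rw [h7]
  have h8 := hasSum_integral_iUnion (fun n => cell_measurable N n) (cell_disjoint N)
    (f := fun y' => (k0 (y - y') : ℂ) * f y' + (del N y y' : ℂ) * f y') (μ := volume)
    hi.integrableOn
  have h11 : (fun n : ℕ => (Kr ⌊Xf N y⌋₊ n : ℂ) * gc N f n) = fun n : ℕ =>
      ∫ y' in cell N n, ((k0 (y - y') : ℂ) * f y' + (del N y y' : ℂ) * f y') := by
    ext n
    unfold gc
    rw [← integral_const_mul]
    apply setIntegral_congr_fun (cell_measurable N n)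
    intro y' hy'
    simp only
    have h9 := kernel_eq N hy hy'.1
    rw [hy'.2] at h9
    have h10 : (k0 (y - y') : ℂ) + (del N y y' : ℂ) = (Kr ⌊Xf N y⌋₊ n : ℂ) * (wX N y' : ℂ) := by
      exact_mod_cast h9
    rw [← add_mul, h10]; ring
  rw [h11]
  exact h8

lemma gc_integrable {M : ℝ} (hf : Measurable f) (hb : ∀ y, 0 ≤ y → ‖f y‖ ≤ M) (n : ℕ) :
    IntegrableOn (fun y => (wX N y : ℂ) * f y) (cell N n) := by
  have h1 : IntegrableOn (fun y => wX N y * M) (cell N n) := (wX_integrableOn N n).mul_const M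
  refine Integrable.mono' h1 ?_ ?_
  · apply Measurable.aestronglyMeasurable
    exact (Complex.measurable_ofReal.comp (wX_continuous N).measurable).mul hf
  · rw [ae_restrict_iff' (cell_measurable N n)]
    refine ae_of_all _ fun y hy => ?_
    have h0 : 0 ≤ wX N y := wX_nonneg N hy.1
    rw [norm_mul, Complex.norm_real, Real.norm_eq_abs, abs_of_nonneg h0]
    exact mul_le_mul_of_nonneg_left (hb y hy.1) h0

/-- averages of a function bounded by `B` on the cell. -/
lemma norm_cell_le {u : ℝ → ℂ} {B : ℝ} {n : ℕ} (hn : N ≤ n)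
    (hb : ∀ y ∈ cell N n, ‖u y‖ ≤ B) : ‖∫ y in cell N n, (wX N y : ℂ) * u y‖ ≤ B := by
  calc ‖∫ y in cell N n, (wX N y : ℂ) * u y‖ ≤ ∫ y in cell N n, ‖(wX N y : ℂ) * u y‖ :=
        norm_integral_le_integral_norm _
    _ ≤ ∫ y in cell N n, wX N y * B := by
        apply integral_mono_of_nonneg (ae_of_all _ fun _ => norm_nonneg _)
          ((wX_integrableOn N n).mul_const B)
        rw [EventuallyLE, ae_restrict_iff' (cell_measurable N n)]
        refine ae_of_all _ fun y hy => ?_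
        have h0 : 0 ≤ wX N y := wX_nonneg N hy.1
        rw [norm_mul, Complex.norm_real, Real.norm_eq_abs, abs_of_nonneg h0]
        exact mul_le_mul_of_nonneg_left (hb y hy) h0
    _ = B := by
        rw [integral_mul_const]
        have := integral_cell N n hn
        unfold wX
        rw [this, one_mul]

lemma Tc_bound {M b : ℝ} (hb : 0 ≤ b) (hM : 0 ≤ M)
    (hf : ∀ y, y ≤ 0 → ‖f y‖ ≤ M * Real.exp (-(b * y))) :
    ∃ C : ℝ, 0 ≤ C ∧ ∀ y, 0 ≤ y → ‖Tc f y‖ ≤ C * Real.exp (-(3 / 4) * y ^ (4 / 3 : ℝ)) := by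
  obtain ⟨C₀, hC₀⟩ := k0_le
  have hC₀' : 0 ≤ C₀ := by
    have h1 := (k0_nonneg 0).trans (hC₀ 0)
    have h2 := Real.exp_pos (-(3 / 4) * |(0:ℝ)| ^ (4 / 3 : ℝ))
    by_contra h; push Not at h
    nlinarith
  obtain ⟨C₁, hC₁⟩ := mul_le_rpow43 (b + 1) (3 / 4) (by linarith) (by norm_num)
  refine ⟨C₀ * M * Real.exp C₁ * ∫ y' in Iio (0 : ℝ), Real.exp y', by
    have : 0 ≤ ∫ y' in Iio (0 : ℝ), Real.exp y' := integral_nonneg fun _ => (Real.exp_pos _).le
    positivity, fun y hy => ?_⟩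
  unfold Tc
  have hint : IntegrableOn (fun y' : ℝ => Real.exp y') (Iio 0) :=
    (integrableOn_exp_Iic 0).mono_set Iio_subset_Iic_self
  calc ‖∫ y' in Iio (0 : ℝ), (k0 (y - y') : ℂ) * f y'‖
      ≤ ∫ y' in Iio (0 : ℝ), ‖(k0 (y - y') : ℂ) * f y'‖ := norm_integral_le_integral_norm _
    _ ≤ ∫ y' in Iio (0 : ℝ), (C₀ * M * Real.exp C₁ * Real.exp (-(3 / 4) * y ^ (4 / 3 : ℝ))) *
          Real.exp y' := by
        apply integral_mono_of_nonneg (ae_of_all _ fun _ => norm_nonneg _) (hint.const_mul _)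
        rw [EventuallyLE, ae_restrict_iff' measurableSet_Iio]
        refine ae_of_all _ fun y' hy' => ?_
        have hy'' : y' < 0 := hy'
        rw [norm_mul, Complex.norm_real, Real.norm_eq_abs, abs_of_nonneg (k0_nonneg _)]
        have h1 := hC₀ (y - y')
        have h2 : |y - y'| = y + (-y') := by rw [abs_of_nonneg (by linarith)]; ring
        rw [h2] at h1
        have h3 := rpow43_add hy (by linarith : 0 ≤ -y')
        have h4 := hC₁ (-y') (by linarith)
        have h5 := hf y' hy''.le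
        have h6 : Real.exp (-(3 / 4) * (y + -y') ^ (4 / 3 : ℝ)) * Real.exp (-(b * y')) ≤
            Real.exp C₁ * Real.exp (-(3 / 4) * y ^ (4 / 3 : ℝ)) * Real.exp y' := by
          rw [← Real.exp_add, ← Real.exp_add, ← Real.exp_add]
          apply Real.exp_le_exp.mpr
          nlinarith
        calc k0 (y - y') * ‖f y'‖
            ≤ (C₀ * Real.exp (-(3 / 4) * (y + -y') ^ (4 / 3 : ℝ))) *
                (M * Real.exp (-(b * y'))) := by
              apply mul_le_mul h1 h5 (norm_nonneg _) (by positivity)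
          _ = C₀ * M * (Real.exp (-(3 / 4) * (y + -y') ^ (4 / 3 : ℝ)) * Real.exp (-(b * y'))) := by
              ring
          _ ≤ C₀ * M * (Real.exp C₁ * Real.exp (-(3 / 4) * y ^ (4 / 3 : ℝ)) * Real.exp y') :=
              mul_le_mul_of_nonneg_left h6 (by positivity)
          _ = _ := by ring
    _ = _ := by rw [integral_const_mul]; ring

lemma exp_cell (N : ℕ) : ∃ δ > 0, ∃ C : ℝ, 0 ≤ C ∧ ∀ (k : ℕ) (y : ℝ), y ∈ cell N k →
    Real.exp (-(3 / 4) * y ^ (4 / 3 : ℝ)) ≤ C * Real.exp (-δ * k) := by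
  have hc := cY_pos
  set A : ℝ := (2 : ℝ) ^ (4 / 3 : ℝ) with hA
  have hA0 : 0 < A := by positivity
  set B : ℝ := cY ^ (4 / 3 : ℝ) with hB
  have hB0 : 0 < B := by positivity
  refine ⟨(3 / 4) * B / A, by positivity, Real.exp ((3 / 4) * B * N), (Real.exp_pos _).le, ?_⟩
  rintro k y ⟨hy, hk⟩
  have h1 : (k : ℝ) ≤ Xf N y := by
    rw [← hk]; exact Nat.floor_le (Xf_nonneg N hy)
  have h2 : Xf N y ≤ A * ((y / cY) ^ (4 / 3 : ℝ) + N) := by
    unfold Xf
    set a := y / cY with ha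
    set b := (N : ℝ) ^ (3 / 4 : ℝ) with hb
    have ha0 : 0 ≤ a := by positivity
    have hb0 : 0 ≤ b := by positivity
    have hbN : b ^ (4 / 3 : ℝ) = N := by
      rw [hb, ← Real.rpow_mul (by positivity)]; norm_num
    calc (a + b) ^ (4 / 3 : ℝ) ≤ (2 * max a b) ^ (4 / 3 : ℝ) := by
          apply Real.rpow_le_rpow (by positivity) _ (by norm_num)
          have := le_max_left a b
          have := le_max_right a b
          linarith
      _ = A * (max a b) ^ (4 / 3 : ℝ) := by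
          rw [Real.mul_rpow (by norm_num) (le_max_of_le_left ha0)]
      _ ≤ A * (a ^ (4 / 3 : ℝ) + N) := by
          apply mul_le_mul_of_nonneg_left _ hA0.le
          rcases max_choice a b with h | h
          · rw [h]
            have : (0 : ℝ) ≤ N := Nat.cast_nonneg N
            linarith
          · rw [h, hbN]
            have : 0 ≤ a ^ (4 / 3 : ℝ) := by positivity
            linarith
  have h3 : (y / cY) ^ (4 / 3 : ℝ) = y ^ (4 / 3 : ℝ) / B := Real.div_rpow hy hc.le _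
  rw [h3] at h2
  rw [← Real.exp_add]
  apply Real.exp_le_exp.mpr
  have h4 : (k : ℝ) ≤ A * (y ^ (4 / 3 : ℝ) / B + N) := h1.trans h2
  have h5 : (3 / 4) * B / A * k ≤ (3 / 4) * B / A * (A * (y ^ (4 / 3 : ℝ) / B + N)) :=
    mul_le_mul_of_nonneg_left h4 (by positivity)
  have h6 : (3 / 4) * B / A * (A * (y ^ (4 / 3 : ℝ) / B + N)) =
      (3 / 4) * y ^ (4 / 3 : ℝ) + (3 / 4) * B * N := by field_simp
  linarith

end

lemma summable_exp34 {c : ℝ} (hc : 0 < c) :
    Summable (fun n : ℕ => Real.exp (-(c * (n : ℝ) ^ (3 / 4 : ℝ)))) := by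
  have h1 : Summable (fun n : ℕ => (24 / c ^ 4) * (1 / (n : ℝ) ^ 3)) :=
    (Real.summable_one_div_nat_pow.mpr (by norm_num)).mul_left _
  refine Summable.of_norm_bounded_eventually_nat h1 ?_
  filter_upwards [eventually_ge_atTop 1] with n hn
  have hn0 : (0 : ℝ) < n := by exact_mod_cast hn
  rw [Real.norm_of_nonneg (Real.exp_pos _).le]
  set x := c * (n : ℝ) ^ (3 / 4 : ℝ) with hx
  have hx0 : 0 < x := by positivity
  have hx4 : x ^ 4 = c ^ 4 * (n : ℝ) ^ 3 := by
    rw [hx, mul_pow, ← Real.rpow_natCast ((n : ℝ) ^ (3 / 4 : ℝ)), ← Real.rpow_mul hn0.le]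
    norm_num
  have h2 : x ^ 4 / 24 ≤ Real.exp x := by
    have := Real.pow_div_factorial_le_exp x hx0.le 4
    simpa [Nat.factorial] using this
  rw [Real.exp_neg]
  have h3 : 0 < x ^ 4 / 24 := by positivity
  calc (Real.exp x)⁻¹ ≤ (x ^ 4 / 24)⁻¹ := inv_anti₀ h3 h2
    _ = 24 / c ^ 4 * (1 / (n : ℝ) ^ 3) := by rw [hx4]; field_simp

/-- Theorem A. -/
theorem exists_g : ∃ g : ℕ → ℂ, Summable (fun n => ‖g n‖) ∧
    (∃ δ > 0, ∃ C : ℝ, ∀ k : ℕ, ‖g k - ∑' n, (Kr k n : ℂ) * g n‖ ≤ C * Real.exp (-δ * k)) ∧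
    (∀ δ > 0, ∀ C : ℝ, ¬ ∀ n : ℕ, ‖g n‖ ≤ C * Real.exp (-δ * n)) := by
  obtain ⟨cm, b₁, cp, hcm, hb₁, hcp, hall⟩ := exists_line
  obtain ⟨Crow, k₁, hrow⟩ := Kr_row_sum (cp * cY)
  obtain ⟨N, hNk, hN1, M, f, hfm, hfpos, hfneg, hi1, hi2, heq, hnot⟩ := hall k₁
  have hcY := cY_pos
  have hM : 0 ≤ M := by
    have := (norm_nonneg _).trans (hfpos 0 le_rfl)
    simpa using this
  have hsum := fun {y : ℝ} (hy : 0 ≤ y) => hasSum_cells hi1 hi2 heq hy
  obtain ⟨CT, hCT0, hCT⟩ := Tc_bound (f := f) (hcm.trans hb₁).le hM hfneg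
  obtain ⟨δ, hδ, Cδ, hCδ0, hCδ⟩ := exp_cell N
  set g := gc N f with hg
  have hg0 : ∀ n, n < N → g n = 0 := by
    intro n hn
    simp [hg, gc, cell_empty N n hn]
  have hYmem : ∀ k : ℕ, N ≤ k → Yf N k ∈ cell N k := by
    intro k hk
    rw [cell_eq N k hk]
    exact ⟨le_rfl, Yf_strictMono N (by positivity) (by linarith)⟩
  refine ⟨g, ?_, ⟨δ, hδ, ?_⟩, ?_⟩
  · -- summability
    have h1 := (summable_exp34 (c := cm * cY) (by positivity)).mul_left
      (M * Real.exp (cm * cY * (N : ℝ) ^ (3 / 4 : ℝ)))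
    refine Summable.of_nonneg_of_le (fun _ => norm_nonneg _) (fun n => ?_) h1
    rcases lt_or_ge n N with h | h
    · rw [hg0 n h, norm_zero]; positivity
    · have h2 : ‖g n‖ ≤ M * Real.exp (-(cm * Yf N n)) := by
        apply norm_cell_le h
        intro y hy
        have h3 : Yf N n ≤ y := by
          rw [cell_eq N n h] at hy; exact hy.1
        refine (hfpos y hy.1).trans ?_
        apply mul_le_mul_of_nonneg_left _ hM
        apply Real.exp_le_exp.mpr
        nlinarith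
      refine h2.trans (le_of_eq ?_)
      rw [mul_assoc, ← Real.exp_add]
      congr 2
      unfold Yf; ring
  · -- decay of h
    have hk : ∀ k, N ≤ k → ‖g k - ∑' n, (Kr k n : ℂ) * g n‖ ≤ CT * Cδ * Real.exp (-δ * k) := by
      intro k hk
      have h1 : ∀ y ∈ cell N k, f y = (∑' n, (Kr k n : ℂ) * g n) + Tc f y := by
        intro y hy
        have := (hsum hy.1).tsum_eq
        rw [hy.2] at this
        rw [this]; ring
      have h2 : g k - ∑' n, (Kr k n : ℂ) * g n = ∫ y in cell N k, (wX N y : ℂ) * Tc f y := by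
        have h3 : (∑' n, (Kr k n : ℂ) * g n) =
            ∫ y in cell N k, (wX N y : ℂ) * ∑' n, (Kr k n : ℂ) * g n := by
          rw [integral_mul_const]
          have h4 : ∫ y in cell N k, (wX N y : ℂ) = 1 := by
            have := integral_cell N k hk
            have h5 : ∫ y in cell N k, (wX N y : ℂ) = ((∫ y in cell N k, wX N y : ℝ) : ℂ) :=
              integral_ofReal
            rw [h5]; unfold wX; rw [this]; simp
          rw [h4, one_mul]
        have h2' : g k = ∫ y in cell N k, (wX N y : ℂ) * f y := rfl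
        rw [h2', h3, ← integral_sub]
        · apply setIntegral_congr_fun (cell_measurable N k)
          intro y hy
          simp only
          rw [h1 y hy]; ring
        · apply gc_integrable hfm (M := M) _ k
          intro y hy
          refine (hfpos y hy).trans ?_
          have : Real.exp (-(cm * y)) ≤ 1 := by
            rw [← Real.exp_zero]; apply Real.exp_le_exp.mpr
            have : 0 ≤ cm * y := by positivity
            linarith
          calc M * Real.exp (-(cm * y)) ≤ M * 1 := mul_le_mul_of_nonneg_left this hM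
            _ = M := mul_one M
        · exact ((wX_integrableOn N k).ofReal (𝕜 := ℂ)).mul_const _
      rw [h2]
      apply norm_cell_le hk
      intro y hy
      calc ‖Tc f y‖ ≤ CT * Real.exp (-(3 / 4) * y ^ (4 / 3 : ℝ)) := hCT y hy.1
        _ ≤ CT * (Cδ * Real.exp (-δ * k)) := mul_le_mul_of_nonneg_left (hCδ k y hy) hCT0
        _ = _ := by ring
    set h : ℕ → ℝ := fun k => ‖g k - ∑' n, (Kr k n : ℂ) * g n‖ with hh
    refine ⟨CT * Cδ + ∑ j ∈ Finset.range N, h j * Real.exp (δ * j), fun k => ?_⟩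
    have hsn : 0 ≤ ∑ j ∈ Finset.range N, h j * Real.exp (δ * j) :=
      Finset.sum_nonneg fun j _ => mul_nonneg (norm_nonneg _) (Real.exp_pos _).le
    rcases lt_or_ge k N with h1 | h1
    · have h2 : h k * Real.exp (δ * k) ≤ ∑ j ∈ Finset.range N, h j * Real.exp (δ * j) :=
        Finset.single_le_sum (f := fun j : ℕ => h j * Real.exp (δ * j))
          (fun j _ => mul_nonneg (norm_nonneg _) (Real.exp_pos _).le) (Finset.mem_range.mpr h1)
      have h3 : h k = (h k * Real.exp (δ * k)) * Real.exp (-δ * k) := by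
        rw [mul_assoc, ← Real.exp_add]; simp
      change h k ≤ _
      rw [h3]
      apply mul_le_mul_of_nonneg_right _ (Real.exp_pos _).le
      have : 0 ≤ CT * Cδ := by positivity
      linarith
    · refine (hk k h1).trans ?_
      apply mul_le_mul_of_nonneg_right _ (Real.exp_pos _).le
      linarith
  · -- no exponential decay
    intro δ' hδ' C hC
    apply hnot
    have hC0 : 0 ≤ C := by
      have := (norm_nonneg _).trans (hC 0)
      simpa using this
    obtain ⟨C₁, hC₁⟩ := mul_rpow_le (cp * cY) δ' (by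
      have : 0 < cp := by linarith
      positivity) hδ'
    obtain ⟨C₂, hC₂⟩ := mul_le_rpow43 cp (3 / 4) (by linarith) (by norm_num)
    have hcp0 : 0 < cp := by linarith
    have hCrow : 0 ≤ Crow := by
      have h1 := hrow k₁ le_rfl
      refine le_trans (tsum_nonneg fun n => ?_) h1.2
      exact mul_nonneg (Kr_nonneg _ _) (Real.exp_pos _).le
    refine ⟨Real.exp (cp * cY) * (C * Real.exp C₁) * Crow + CT * Real.exp C₂, fun y hy => ?_⟩
    set k := ⌊Xf N y⌋₊ with hk
    have hycell : y ∈ cell N k := ⟨hy, rfl⟩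
    have hkN : N ≤ k := Nat.le_floor (N_le_Xf N hy)
    have hfy : f y = (∑' n, (Kr k n : ℂ) * g n) + Tc f y := by
      rw [(hsum hy).tsum_eq]; ring
    -- bound on y
    have hyk : y ≤ Yf N k + cY := by
      rw [cell_eq N k hkN] at hycell
      have h1 := hycell.2
      have h2 := Yf_sub_le N (k := k + 1) (n := k) (by omega)
      have h3 : |(k : ℝ) - ((k + 1 : ℕ) : ℝ)| / ((k + 1 : ℕ) : ℝ) ^ (1 / 4 : ℝ) ≤ 1 := by
        have h4 : (1 : ℝ) ≤ ((k + 1 : ℕ) : ℝ) ^ (1 / 4 : ℝ) :=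
          Real.one_le_rpow (by push_cast; linarith [Nat.cast_nonneg (α := ℝ) k]) (by norm_num)
        rw [div_le_one (by linarith)]
        push_cast
        have : (k : ℝ) - (k + 1) = -1 := by ring
        rw [this, abs_neg, abs_one]
        push_cast at h4
        exact h4
      have h5 : Yf N ((k + 1 : ℕ) : ℝ) - Yf N k ≤ cY := by
        calc Yf N ((k + 1 : ℕ) : ℝ) - Yf N k ≤ |Yf N ((k + 1 : ℕ) : ℝ) - Yf N k| := le_abs_self _
          _ ≤ cY * (|(k : ℝ) - ((k + 1 : ℕ) : ℝ)| / ((k + 1 : ℕ) : ℝ) ^ (1 / 4 : ℝ)) := h2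
          _ ≤ cY * 1 := mul_le_mul_of_nonneg_left h3 hcY.le
          _ = cY := mul_one _
      push_cast at h5
      linarith
    have hterm : ∀ n : ℕ, ‖(Kr k n : ℂ) * g n‖ ≤
        (Real.exp (cp * cY) * (C * Real.exp C₁) * Real.exp (-(cp * y))) *
          (Kr k n * Real.exp (cp * cY * |(n : ℝ) - k| / (k : ℝ) ^ (1 / 4 : ℝ))) := by
      intro n
      rw [norm_mul, Complex.norm_real, Real.norm_eq_abs, abs_of_nonneg (Kr_nonneg _ _)]
      have h1 := hC n
      have h2 := hC₁ n (by positivity)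
      have h3 := Yf_sub_le N (k := k) (n := n) (by omega)
      have h4 : Yf N k - Yf N n ≤ cY * (|(n : ℝ) - k| / (k : ℝ) ^ (1 / 4 : ℝ)) :=
        (le_abs_self _).trans h3
      have h5 : Yf N n ≤ cY * (n : ℝ) ^ (3 / 4 : ℝ) := by
        unfold Yf
        apply mul_le_mul_of_nonneg_left _ hcY.le
        have : 0 ≤ (N : ℝ) ^ (3 / 4 : ℝ) := by positivity
        linarith
      have h6 : Real.exp (-δ' * n) ≤ Real.exp (cp * cY) * Real.exp C₁ * Real.exp (-(cp * y)) *
          Real.exp (cp * cY * |(n : ℝ) - k| / (k : ℝ) ^ (1 / 4 : ℝ)) := by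
        rw [← Real.exp_add, ← Real.exp_add, ← Real.exp_add]
        apply Real.exp_le_exp.mpr
        have h7 : cp * cY * |(n : ℝ) - k| / (k : ℝ) ^ (1 / 4 : ℝ) =
            cp * (cY * (|(n : ℝ) - k| / (k : ℝ) ^ (1 / 4 : ℝ))) := by ring
        rw [h7]
        have h8 : y ≤ cY * (n : ℝ) ^ (3 / 4 : ℝ) +
            cY * (|(n : ℝ) - k| / (k : ℝ) ^ (1 / 4 : ℝ)) + cY := by linarith
        have h9 := mul_le_mul_of_nonneg_left h8 hcp0.le
        nlinarith
      calc Kr k n * ‖g n‖ ≤ Kr k n * (C * Real.exp (-δ' * n)) :=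
            mul_le_mul_of_nonneg_left h1 (Kr_nonneg _ _)
        _ ≤ Kr k n * (C * (Real.exp (cp * cY) * Real.exp C₁ * Real.exp (-(cp * y)) *
          Real.exp (cp * cY * |(n : ℝ) - k| / (k : ℝ) ^ (1 / 4 : ℝ)))) := by
            apply mul_le_mul_of_nonneg_left _ (Kr_nonneg _ _)
            exact mul_le_mul_of_nonneg_left h6 hC0
        _ = _ := by ring
    have hrk := hrow k (hNk.trans hkN)
    have hS : ‖∑' n, (Kr k n : ℂ) * g n‖ ≤
        (Real.exp (cp * cY) * (C * Real.exp C₁) * Real.exp (-(cp * y))) * Crow := by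
      have h1 := tsum_of_norm_bounded (hrk.1.mul_left
        (Real.exp (cp * cY) * (C * Real.exp C₁) * Real.exp (-(cp * y)))).hasSum hterm
      refine h1.trans ?_
      rw [tsum_mul_left]
      exact mul_le_mul_of_nonneg_left hrk.2 (by positivity)
    have hT : ‖Tc f y‖ ≤ CT * Real.exp C₂ * Real.exp (-(cp * y)) := by
      refine (hCT y hy).trans ?_
      rw [mul_assoc, ← Real.exp_add]
      apply mul_le_mul_of_nonneg_left _ hCT0
      apply Real.exp_le_exp.mpr
      have := hC₂ y hy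
      linarith
    calc ‖f y‖ ≤ ‖∑' n, (Kr k n : ℂ) * g n‖ + ‖Tc f y‖ := by rw [hfy]; exact norm_add_le _ _
      _ ≤ _ := add_le_add hS hT
      _ = _ := by ring

end Pool.Agent.Work.MP_e29078_an.Ex

end

section

/-! Weak equation for the explicit form `u0`, part D: the chain rule. -/

open MeasureTheory Set Filter Topology
open scoped Real ComplexConjugate ContDiff ENNReal

namespace Pool.Agent.Work.MP_e29078_an
namespace B4

/-! ### the cut-off -/

noncomputable def kap1 (y : ℝ) : ℝ := Real.smoothTransition (y - 1)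

lemma kap1_contDiff : ContDiff ℝ 1 kap1 := by
  unfold kap1
  exact (Real.smoothTransition.contDiff (n := 1)).comp (contDiff_id.sub contDiff_const)

lemma kap1_zero {y : ℝ} (hy : y ≤ 1) : kap1 y = 0 :=
  Real.smoothTransition.zero_of_nonpos (by linarith)

lemma kap1_one {y : ℝ} (hy : 2 ≤ y) : kap1 y = 1 :=
  Real.smoothTransition.one_of_one_le (by linarith)

lemma kap1_abs (y : ℝ) : |kap1 y| ≤ 1 := by
  unfold kap1
  rw [abs_of_nonneg (Real.smoothTransition.nonneg _)]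
  exact Real.smoothTransition.le_one _

lemma dkap1_zero {y : ℝ} (hy : y < 1) : deriv kap1 y = 0 := by
  have : kap1 =ᶠ[𝓝 y] fun _ => 0 := by
    filter_upwards [Iio_mem_nhds hy] with x hx using kap1_zero hx.le
  rw [this.deriv_eq]; simp

lemma dkap1_zero' {y : ℝ} (hy : 2 < y) : deriv kap1 y = 0 := by
  have : kap1 =ᶠ[𝓝 y] fun _ => 1 := by
    filter_upwards [Ioi_mem_nhds hy] with x hx using kap1_one (le_of_lt hx)
  rw [this.deriv_eq]; simp

lemma dkap1_bd : ∃ C, ∀ y : ℝ, |y * deriv kap1 y| ≤ C := by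
  have h1 : Continuous fun y : ℝ => y * deriv kap1 y :=
    continuous_id.mul (kap1_contDiff.continuous_deriv (by norm_num))
  have h2 : HasCompactSupport fun y : ℝ => y * deriv kap1 y := by
    refine HasCompactSupport.intro (isCompact_Icc (a := (1 : ℝ)) (b := 2)) ?_
    intro y hy
    rw [mem_Icc, not_and_or, not_le, not_le] at hy
    rcases hy with hy | hy
    · rw [dkap1_zero hy, mul_zero]
    · rw [dkap1_zero' hy, mul_zero]
  obtain ⟨C, hC⟩ := h2.exists_bound_of_continuous h1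
  exact ⟨C, fun y => by simpa using hC y⟩

/-! ### the derivatives of `hM` -/

lemma hM_eq (z : ℂ × ℂ) : (hM z : ℂ) = 1 - z.2 * conj z.2 - (z.1 * conj z.1) * (z.1 * conj z.1) -
    ((1 - z.2) * (1 - conj z.2)) * (z.1 * conj z.1) := by
  unfold hM
  push_cast
  rw [sf_eq, qf_eq]
  have : ((‖z.1‖ : ℂ)) ^ 2 = z.1 * conj z.1 := by
    rw [← normsq_eq]; push_cast; rfl
  have h4 : ((‖z.1‖ : ℂ)) ^ 4 = (z.1 * conj z.1) * (z.1 * conj z.1) := by
    rw [← this]; ring
  rw [this, h4]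

lemma hM_contDiff {n : WithTop ℕ∞} : ContDiff ℝ n hM := by
  have h1 : hM = fun z => Complex.re (hM z : ℂ) := by
    ext z; simp
  rw [h1]
  simp only [hM_eq]
  have h2 : ContDiff ℝ n (fun z : ℂ × ℂ => conj z.1) :=
    (Complex.conjCLE : ℂ →L[ℝ] ℂ).contDiff.comp contDiff_fst
  have h3 : ContDiff ℝ n (fun z : ℂ × ℂ => conj z.2) :=
    (Complex.conjCLE : ℂ →L[ℝ] ℂ).contDiff.comp contDiff_snd
  have h4 : ContDiff ℝ n (fun z : ℂ × ℂ => 1 - z.2 * conj z.2 -
      (z.1 * conj z.1) * (z.1 * conj z.1) - ((1 - z.2) * (1 - conj z.2)) * (z.1 * conj z.1)) := by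
    fun_prop
  exact Complex.reCLM.contDiff.comp h4

/-- `∂_{z₂}` of `hM` in terms of the real derivative -/
lemma D1_hM (z : ℂ × ℂ) : ((fderiv ℝ hM z (1, 0) : ℂ) - Complex.I * (fderiv ℝ hM z (Complex.I, 0) : ℂ)) / 2
    = -conj z.1 * (2 * ‖z.1‖ ^ 2 + qf z.2 : ℝ) := by
  have h0 : DifferentiableAt ℝ hM z := hM_contDiff.differentiable (n := 1) (by norm_num) z
  have h1 : HasFDerivAt (fun z => (hM z : ℂ)) (Complex.ofRealCLM.comp (fderiv ℝ hM z)) z :=
    Complex.ofRealCLM.hasFDerivAt.comp z h0.hasFDerivAt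
  have h2 : D1 (fun z => (hM z : ℂ)) z =
      ((fderiv ℝ hM z (1, 0) : ℂ) - Complex.I * (fderiv ℝ hM z (Complex.I, 0) : ℂ)) / 2 := by
    unfold D1; rw [h1.fderiv]; rfl
  rw [← h2]
  obtain ⟨a, w⟩ := z
  rw [← D_slice1 (Y := fun z => (hM z : ℂ)) h1.differentiableAt]
  simp only [hM_eq]
  have hconj : ContDiff ℝ 1 (fun a : ℂ => conj a) := (Complex.conjCLE : ℂ →L[ℝ] ℂ).contDiff
  have d1 : DifferentiableAt ℝ (fun a : ℂ => conj a) a := hconj.differentiable (by norm_num) a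
  have d0 : DifferentiableAt ℝ (fun a : ℂ => a) a := differentiableAt_id
  have dc : ∀ c : ℂ, DifferentiableAt ℝ (fun _ : ℂ => c) a := fun c => differentiableAt_const _
  have d2 := d0.fun_mul d1
  rw [D_sub ((dc _).fun_sub (d2.fun_mul d2)) ((dc _).fun_mul d2), D_sub (dc _) (d2.fun_mul d2),
    D_mul d2 d2, D_mul (dc _) d2, D_mul d0 d1, D_id, D_conj, D_const, D_const]
  push_cast
  rw [qf_eq]
  have : ((‖a‖ : ℂ)) ^ 2 = a * conj a := by
    rw [← normsq_eq]; push_cast; rfl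
  rw [this]
  ring

lemma D2_hM (z : ℂ × ℂ) : ((fderiv ℝ hM z (0, 1) : ℂ) - Complex.I * (fderiv ℝ hM z (0, Complex.I) : ℂ)) / 2
    = -conj z.2 + (‖z.1‖ ^ 2 : ℝ) * (1 - conj z.2) := by
  have h0 : DifferentiableAt ℝ hM z := hM_contDiff.differentiable (n := 1) (by norm_num) z
  have h1 : HasFDerivAt (fun z => (hM z : ℂ)) (Complex.ofRealCLM.comp (fderiv ℝ hM z)) z :=
    Complex.ofRealCLM.hasFDerivAt.comp z h0.hasFDerivAt
  have h2 : D2 (fun z => (hM z : ℂ)) z =
      ((fderiv ℝ hM z (0, 1) : ℂ) - Complex.I * (fderiv ℝ hM z (0, Complex.I) : ℂ)) / 2 := by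
    unfold D2; rw [h1.fderiv]; rfl
  rw [← h2]
  obtain ⟨a, w⟩ := z
  rw [← D_slice2 (Y := fun z => (hM z : ℂ)) h1.differentiableAt]
  simp only [hM_eq]
  have hconj : ContDiff ℝ 1 (fun a : ℂ => conj a) := (Complex.conjCLE : ℂ →L[ℝ] ℂ).contDiff
  have d1 : DifferentiableAt ℝ (fun a : ℂ => conj a) w := hconj.differentiable (by norm_num) w
  have d0 : DifferentiableAt ℝ (fun a : ℂ => a) w := differentiableAt_id
  have dc : ∀ c : ℂ, DifferentiableAt ℝ (fun _ : ℂ => c) w := fun c => differentiableAt_const _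
  have d2 := d0.fun_mul d1
  have d3 := (dc 1).fun_sub d0
  have d4 := (dc 1).fun_sub d1
  rw [D_sub (((dc _).fun_sub d2).fun_sub (dc _)) ((d3.fun_mul d4).fun_mul (dc _)),
    D_sub ((dc _).fun_sub d2) (dc _), D_sub (dc _) d2, D_mul (d3.fun_mul d4) (dc _), D_mul d3 d4,
    D_sub (dc _) d0, D_sub (dc _) d1, D_mul d0 d1, D_id, D_conj, D_const, D_const, D_const]
  push_cast
  have : ((‖a‖ : ℂ)) ^ 2 = a * conj a := by
    rw [← normsq_eq]; push_cast; rfl
  rw [this]
  ring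

/-! ### expansion of real linear maps on `ℂ³` -/

lemma lin1 (L : ℂ →L[ℝ] ℂ) (α : ℂ) : L α = α * ((L 1 - Complex.I * L Complex.I) / 2) +
    conj α * ((L 1 + Complex.I * L Complex.I) / 2) := by
  have h1 : α = α.re • (1 : ℂ) + α.im • Complex.I := by
    simp [Complex.re_add_im]
  have h3 : L α = (α.re : ℂ) * L 1 + (α.im : ℂ) * L Complex.I := by
    conv_lhs => rw [h1]
    rw [map_add, map_smul, map_smul]
    simp
  have h4 : α = (α.re : ℂ) + (α.im : ℂ) * Complex.I := (Complex.re_add_im α).symm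
  have h5 : conj α = (α.re : ℂ) - (α.im : ℂ) * Complex.I := by
    apply Complex.ext <;> simp
  rw [h3, h5]
  have h6 := Complex.I_mul_I
  linear_combination (-(L 1 - Complex.I * L Complex.I) / 2) * h4 + ((α.im : ℂ) * L Complex.I) * h6

lemma lin3 (X : C3 → ℂ) (P : C3) (α β γ : ℂ) : fderiv ℝ X P (α, β, γ) =
    (α * dz 0 X P + conj α * dzb 0 X P) + (β * dz 1 X P + conj β * dzb 1 X P) +
    (γ * dz 2 X P + conj γ * dzb 2 X P) := by
  set L := fderiv ℝ X P with hL
  have h0 : ((α, β, γ) : C3) = (α, 0, 0) + (0, β, 0) + (0, 0, γ) := by simp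
  rw [h0, map_add, map_add]
  have e0 := lin1 (L.comp (ContinuousLinearMap.inl ℝ ℂ (ℂ × ℂ))) α
  have e1 := lin1 (L.comp ((ContinuousLinearMap.inr ℝ ℂ (ℂ × ℂ)).comp
    (ContinuousLinearMap.inl ℝ ℂ ℂ))) β
  have e2 := lin1 (L.comp ((ContinuousLinearMap.inr ℝ ℂ (ℂ × ℂ)).comp
    (ContinuousLinearMap.inr ℝ ℂ ℂ))) γ
  simp only [ContinuousLinearMap.comp_apply, ContinuousLinearMap.inl_apply,
    ContinuousLinearMap.inr_apply] at e0 e1 e2
  have z0 : ((0 : ℂ × ℂ)) = (0, 0) := rfl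
  rw [z0] at e0
  rw [e0, e1, e2]
  unfold dz dzb
  simp [bas, ← hL]

/-! ### the pulled back functions -/

noncomputable def YY (X : C3 → ℂ) (n θ : ℝ) (z : ℂ × ℂ) : ℂ :=
  (kap1 (n * hM z) : ℂ) * X (PM (θ, z))

noncomputable def ex (θ : ℝ) : ℂ := Complex.exp (θ * Complex.I)

lemma ex_cont : Continuous ex := by unfold ex; fun_prop

lemma ex_conj (θ : ℝ) : ex θ * conj (ex θ) = 1 := by
  rw [Complex.mul_conj, Complex.normSq_eq_norm_sq]
  unfold ex
  rw [Complex.norm_exp_ofReal_mul_I]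
  simp

lemma ex_norm (θ : ℝ) : ‖ex θ‖ = 1 := Complex.norm_exp_ofReal_mul_I θ

lemma ex_deriv (θ : ℝ) : HasDerivAt ex (Complex.I * ex θ) θ := by
  unfold ex
  have h1 : HasDerivAt (fun t : ℝ => (t : ℂ) * Complex.I) (1 * Complex.I) θ :=
    (HasDerivAt.ofReal_comp (hasDerivAt_id θ)).mul_const Complex.I
  have h2 := h1.cexp
  rw [one_mul, mul_comm] at h2
  exact h2

lemma PM_eq (θ : ℝ) (z : ℂ × ℂ) : PM (θ, z) = (((√(hM z) : ℝ) : ℂ) * ex θ, z.1, z.2) := rfl

lemma YY_zero (X : C3 → ℂ) {n θ : ℝ} {z : ℂ × ℂ} (h : n * hM z ≤ 1) : YY X n θ z = 0 := by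
  unfold YY; rw [kap1_zero h]; simp

lemma YY_ev_zero (X : C3 → ℂ) {n θ : ℝ} {z : ℂ × ℂ} (h : n * hM z < 1) :
    YY X n θ =ᶠ[𝓝 z] fun _ => 0 := by
  have h1 : ContinuousAt (fun z => n * hM z) z := (continuous_const.mul cont_hM).continuousAt
  filter_upwards [h1.eventually_lt_const h] with y hy using YY_zero X hy.le

lemma PM_contDiffAt {θ : ℝ} {z : ℂ × ℂ} (h : 0 < hM z) :
    ContDiffAt ℝ 1 (fun z => PM (θ, z)) z := by
  simp only [PM_eq]
  have h1 : ContDiffAt ℝ 1 (fun z => √(hM z)) z := hM_contDiff.contDiffAt.sqrt h.ne'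
  have h2 : ContDiffAt ℝ 1 (fun z => ((√(hM z) : ℝ) : ℂ)) z :=
    Complex.ofRealCLM.contDiff.contDiffAt.comp z h1
  exact (h2.mul contDiffAt_const).prodMk (contDiffAt_fst.prodMk contDiffAt_snd)

lemma YY_contDiff {X : C3 → ℂ} (hX : ContDiff ℝ 1 X) {n : ℝ} (hn : 0 < n) (θ : ℝ) :
    ContDiff ℝ 1 (YY X n θ) := by
  rw [contDiff_iff_contDiffAt]
  intro z
  by_cases h : 0 < hM z
  · have h1 : ContDiffAt ℝ 1 (fun z => ((kap1 (n * hM z) : ℝ) : ℂ)) z := by
      have h2 : ContDiff ℝ 1 (fun z => kap1 (n * hM z)) :=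
        kap1_contDiff.comp (contDiff_const.mul hM_contDiff)
      exact Complex.ofRealCLM.contDiff.contDiffAt.comp z h2.contDiffAt
    exact h1.mul (hX.contDiffAt.comp z (PM_contDiffAt h))
  · have h1 : n * hM z < 1 := by
      have : n * hM z ≤ 0 := mul_nonpos_of_nonneg_of_nonpos hn.le (not_lt.mp h)
      linarith
    exact contDiffAt_const.congr_of_eventuallyEq (YY_ev_zero X h1)

lemma YY_tsupport {X : C3 → ℂ} {n : ℝ} (θ : ℝ) :
    tsupport (YY X n θ) ⊆ {z | 1 ≤ n * hM z} := by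
  have h1 : IsClosed {z : ℂ × ℂ | 1 ≤ n * hM z} :=
    isClosed_le continuous_const (continuous_const.mul cont_hM)
  refine closure_minimal ?_ h1
  intro z hz
  by_contra h
  exact hz (YY_zero X (not_le.mp h).le)

lemma YY_tsupport_GM {X : C3 → ℂ} {n : ℝ} (hn : 0 < n) (θ : ℝ) :
    tsupport (YY X n θ) ⊆ GM := by
  intro z hz
  have h := YY_tsupport θ hz
  have h1 : 1 ≤ n * hM z := h
  have : 0 < n * hM z := by linarith
  exact (pos_iff_pos_of_mul_pos this).mp hn

lemma GM_bounded : GM ⊆ Metric.closedBall (0 : ℂ × ℂ) 1 := by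
  intro z hz
  obtain ⟨hw, ht, hr0, hs, hs1, hr1, hq, hre⟩ := GM_facts hz
  rw [mem_closedBall_zero_iff, Prod.norm_def]
  have : ‖z.1‖ ≤ 1 := by nlinarith [norm_nonneg z.1]
  exact max_le this hw.le

lemma YY_compact {X : C3 → ℂ} {n : ℝ} (hn : 0 < n) (θ : ℝ) : HasCompactSupport (YY X n θ) := by
  refine HasCompactSupport.intro (isCompact_closedBall (0 : ℂ × ℂ) 1) ?_
  intro z hz
  have h1 : z ∉ tsupport (YY X n θ) := fun h => hz (GM_bounded (YY_tsupport_GM hn θ h))
  exact image_eq_zero_of_notMem_tsupport h1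

lemma YY_fderiv {X : C3 → ℂ} (hX : ContDiff ℝ 1 X) {n : ℝ} {θ : ℝ} {z : ℂ × ℂ} (h : 0 < hM z)
    (v : ℂ × ℂ) : fderiv ℝ (YY X n θ) z v =
      ((deriv kap1 (n * hM z) * (n * fderiv ℝ hM z v) : ℝ) : ℂ) * X (PM (θ, z)) +
      (kap1 (n * hM z) : ℂ) * (fderiv ℝ X (PM (θ, z))
        (((1 / (2 * √(hM z)) * fderiv ℝ hM z v : ℝ) : ℂ) * ex θ, v.1, v.2)) := by
  have h0 : HasFDerivAt hM (fderiv ℝ hM z) z :=
    (hM_contDiff.differentiable (n := 1) (by norm_num) z).hasFDerivAt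
  have h1 : HasFDerivAt (fun z => kap1 (n * hM z)) (deriv kap1 (n * hM z) • (n • fderiv ℝ hM z)) z :=
    ((kap1_contDiff.differentiable (by norm_num) _).hasDerivAt).comp_hasFDerivAt z (h0.const_mul n)
  have h2 : HasFDerivAt (fun z => ((kap1 (n * hM z) : ℝ) : ℂ))
      (Complex.ofRealCLM.comp (deriv kap1 (n * hM z) • (n • fderiv ℝ hM z))) z :=
    Complex.ofRealCLM.hasFDerivAt.comp z h1
  have h3 : HasFDerivAt (fun z => √(hM z)) ((1 / (2 * √(hM z))) • fderiv ℝ hM z) z :=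
    h0.sqrt h.ne'
  have h4 : HasFDerivAt (fun z => ((√(hM z) : ℝ) : ℂ))
      (Complex.ofRealCLM.comp ((1 / (2 * √(hM z))) • fderiv ℝ hM z)) z :=
    Complex.ofRealCLM.hasFDerivAt.comp z h3
  have h5 := (h4.mul_const (ex θ)).prodMk (hasFDerivAt_fst (𝕜 := ℝ) (p := z) |>.prodMk
    (hasFDerivAt_snd (𝕜 := ℝ) (p := z)))
  have h6 := (hX.differentiable (by norm_num) (PM (θ, z))).hasFDerivAt
  have h7 := HasFDerivAt.comp z (f := fun z : ℂ × ℂ => (((√(hM z) : ℝ) : ℂ) * ex θ, z.1, z.2)) h6 h5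
  have h8 := h2.mul h7
  have h9 : fderiv ℝ (YY X n θ) z = _ := h8.fderiv
  rw [h9]
  simp [PM_eq]
  ring

end B4
end Pool.Agent.Work.MP_e29078_an

end

section

/-! From the sequence `g` of Theorem A to the functions `F` and `Phi`. -/

open MeasureTheory Set Filter Topology
open scoped Real ComplexConjugate ContDiff ENNReal

namespace Pool.Agent.Work.MP_e29078_an

namespace B6

lemma term_integrable (u : ℂ → ℝ) (hu : Continuous u) (c : ℂ) (n k : ℕ) :
    IntegrableOn (fun w : ℂ => c * ((u w : ℂ) * (w ^ n * (conj w) ^ k)))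
      (Metric.ball (0 : ℂ) 1) := by
  have h1 : Continuous (fun w : ℂ => c * ((u w : ℂ) * (w ^ n * (conj w) ^ k))) := by
    have := Complex.continuous_conj
    fun_prop
  exact (h1.continuousOn.integrableOn_compact (isCompact_closedBall (0 : ℂ) 1)).mono_set
    Metric.ball_subset_closedBall

lemma term_norm (u : ℂ → ℝ) (hb : ∀ w : ℂ, ‖w‖ < 1 → |u w| ≤ 1) (c : ℂ) (n k : ℕ) {w : ℂ}
    (hw : w ∈ Metric.ball (0 : ℂ) 1) : ‖c * ((u w : ℂ) * (w ^ n * (conj w) ^ k))‖ ≤ ‖c‖ := by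
  rw [mem_ball_zero_iff] at hw
  rw [norm_mul, norm_mul, norm_mul, norm_pow, norm_pow, Complex.norm_real, Real.norm_eq_abs,
    RCLike.norm_conj]
  have h1 : ‖w‖ ^ n ≤ 1 := pow_le_one₀ (norm_nonneg _) hw.le
  have h2 : ‖w‖ ^ k ≤ 1 := pow_le_one₀ (norm_nonneg _) hw.le
  have h3 : ‖w‖ ^ n * ‖w‖ ^ k ≤ 1 := mul_le_one₀ h1 (by positivity) h2
  have h4 : |u w| * (‖w‖ ^ n * ‖w‖ ^ k) ≤ 1 := mul_le_one₀ (hb w hw) (by positivity) h3
  calc ‖c‖ * (|u w| * (‖w‖ ^ n * ‖w‖ ^ k)) ≤ ‖c‖ * 1 :=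
        mul_le_mul_of_nonneg_left h4 (norm_nonneg _)
    _ = ‖c‖ := mul_one _

lemma summable_int (a : ℕ → ℂ) (ha : Summable fun n => ‖a n‖) (u : ℂ → ℝ) (hu : Continuous u)
    (hb : ∀ w : ℂ, ‖w‖ < 1 → |u w| ≤ 1) (k : ℕ) :
    Summable (fun n => ∫ w in Metric.ball (0 : ℂ) 1, ‖a n * ((u w : ℂ) * (w ^ n * (conj w) ^ k))‖) := by
  refine Summable.of_nonneg_of_le (fun n => integral_nonneg fun _ => norm_nonneg _) (fun n => ?_)
    (ha.mul_left (volume.real (Metric.ball (0 : ℂ) 1)))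
  calc ∫ w in Metric.ball (0 : ℂ) 1, ‖a n * ((u w : ℂ) * (w ^ n * (conj w) ^ k))‖
      ≤ ∫ _w in Metric.ball (0 : ℂ) 1, ‖a n‖ := by
        apply setIntegral_mono_on (term_integrable u hu (a n) n k).norm _ measurableSet_ball
        · intro w hw
          exact term_norm u hb (a n) n k hw
        · exact integrableOn_const (by exact measure_ball_lt_top.ne)
    _ = volume.real (Metric.ball (0 : ℂ) 1) * ‖a n‖ := by
        rw [setIntegral_const, smul_eq_mul]

lemma exch (a : ℕ → ℂ) (ha : Summable fun n => ‖a n‖) (u : ℂ → ℝ) (hu : Continuous u)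
    (hb : ∀ w : ℂ, ‖w‖ < 1 → |u w| ≤ 1) (k : ℕ) :
    ∫ w in Metric.ball (0 : ℂ) 1, (u w : ℂ) * (∑' n, a n * w ^ n) * (conj w) ^ k =
      ∑' n, a n * ∫ w in Metric.ball (0 : ℂ) 1, (u w : ℂ) * (w ^ n * (conj w) ^ k) := by
  have h1 := integral_tsum_of_summable_integral_norm
    (μ := volume.restrict (Metric.ball (0 : ℂ) 1))
    (F := fun n w => a n * ((u w : ℂ) * (w ^ n * (conj w) ^ k)))
    (fun n => term_integrable u hu (a n) n k) (summable_int a ha u hu hb k)
  have h2 : ∀ n, ∫ w in Metric.ball (0 : ℂ) 1, a n * ((u w : ℂ) * (w ^ n * (conj w) ^ k)) =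
      a n * ∫ w in Metric.ball (0 : ℂ) 1, (u w : ℂ) * (w ^ n * (conj w) ^ k) :=
    fun n => integral_const_mul _ _
  simp only [h2] at h1
  rw [h1]
  apply setIntegral_congr_fun measurableSet_ball
  intro w _
  simp only
  rw [mul_right_comm, ← tsum_mul_left]
  apply tsum_congr
  intro n
  ring

lemma gen_cont (a : ℕ → ℂ) (ha : Summable fun n => ‖a n‖) :
    ContinuousOn (fun w : ℂ => ∑' n, a n * w ^ n) (Metric.closedBall (0 : ℂ) 1) := by
  apply continuousOn_tsum (u := fun n => ‖a n‖) _ ha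
  · intro n w hw
    rw [mem_closedBall_zero_iff] at hw
    rw [norm_mul, norm_pow]
    have h1 : ‖w‖ ^ n ≤ 1 := pow_le_one₀ (norm_nonneg _) hw
    calc ‖a n‖ * ‖w‖ ^ n ≤ ‖a n‖ * 1 := mul_le_mul_of_nonneg_left h1 (norm_nonneg _)
      _ = _ := mul_one _
  · intro n
    fun_prop

lemma gen_integrable (a : ℕ → ℂ) (ha : Summable fun n => ‖a n‖) (v : ℂ → ℂ) (hv : Continuous v) :
    IntegrableOn (fun w : ℂ => v w * (∑' n, a n * w ^ n)) (Metric.ball (0 : ℂ) 1) := by
  have h1 : ContinuousOn (fun w : ℂ => v w * (∑' n, a n * w ^ n)) (Metric.closedBall (0 : ℂ) 1) :=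
    hv.continuousOn.mul (gen_cont a ha)
  exact (h1.integrableOn_compact (isCompact_closedBall (0 : ℂ) 1)).mono_set
    Metric.ball_subset_closedBall

lemma sf_continuous : Continuous sf := by unfold sf; fun_prop

lemma sf_le {w : ℂ} (hw : ‖w‖ < 1) : |sf w| ≤ 1 := by
  unfold sf
  have h1 : ‖w‖ ^ 2 ≤ 1 := pow_le_one₀ (norm_nonneg _) hw.le
  rw [abs_le]; constructor <;> nlinarith [norm_nonneg w]

/-- the moments of `s` -/
lemma s_moment (n k : ℕ) :
    ∫ w in Metric.ball (0 : ℂ) 1, (sf w : ℂ) * (w ^ n * (conj w) ^ k) =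
      if n = k then ((π / ((k + 1) * (k + 2)) : ℝ) : ℂ) else 0 := by
  have h1 : ∀ w : ℂ, (sf w : ℂ) * (w ^ n * (conj w) ^ k) =
      w ^ n * (conj w) ^ k - w ^ (n + 1) * (conj w) ^ (k + 1) := by
    intro w
    have : ((‖w‖ ^ 2 : ℝ) : ℂ) = w * conj w := by
      rw [Complex.mul_conj, Complex.normSq_eq_norm_sq]
    unfold sf
    rw [Complex.ofReal_sub, this]
    push_cast
    ring
  simp only [h1]
  have hi : ∀ i j : ℕ, IntegrableOn (fun w : ℂ => w ^ i * (conj w) ^ j) (Metric.ball (0 : ℂ) 1) := by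
    intro i j
    have := term_integrable (fun _ => 1) continuous_const 1 i j
    simpa using this
  rw [integral_sub (hi n k) (hi (n + 1) (k + 1)), disc_moment 1 zero_le_one,
    disc_moment 1 zero_le_one]
  by_cases h : n = k
  · subst h
    simp only [if_true]
    rw [← Complex.ofReal_sub]
    congr 1
    have h2 : (n : ℝ) + 1 ≠ 0 := by positivity
    have h3 : (n : ℝ) + 2 ≠ 0 := by positivity
    push_cast
    have h4 : (n : ℝ) + 1 + 1 ≠ 0 := by positivity
    field_simp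
    ring
  · simp [h]

lemma rho_sq_moment (n k : ℕ) :
    ∫ w in Metric.ball (0 : ℂ) 1, ((rho w ^ 2 : ℝ) : ℂ) * (w ^ n * (conj w) ^ k) = Bc k n := by
  unfold Bc
  apply setIntegral_congr_fun measurableSet_ball
  intro w _
  simp only
  ring

/-- the moments of `F` -/
noncomputable def mom (g : ℕ → ℂ) (k : ℕ) : ℂ :=
  ∫ w in Metric.ball (0 : ℂ) 1, (rho w : ℂ) * ((1 - w) * ∑' n, g n * w ^ n) * (conj w) ^ k

lemma rho_sq_le {w : ℂ} (hw : ‖w‖ < 1) : |rho w ^ 2| ≤ 1 := by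
  have h1 := rs_rho_nonneg hw
  have h2 := rs_rho_le_one hw
  rw [abs_of_nonneg (by positivity)]
  exact pow_le_one₀ h1 h2

lemma mom_sub (g : ℕ → ℂ) (hg : Summable fun n => ‖g n‖) (k : ℕ) :
    mom g k - mom g (k + 1) =
      ((π / ((k + 1) * (k + 2)) : ℝ) : ℂ) * (g k - ∑' n, (Kr k n : ℂ) * g n) := by
  have hrc := rs_continuous_rho
  have hcc := Complex.continuous_conj
  have hi : ∀ j : ℕ, IntegrableOn (fun w : ℂ => (rho w : ℂ) * ((1 - w) * ∑' n, g n * w ^ n) *
      (conj w) ^ j) (Metric.ball (0 : ℂ) 1) := by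
    intro j
    have := gen_integrable g hg (fun w => (rho w : ℂ) * (1 - w) * (conj w) ^ j) (by fun_prop)
    refine this.congr_fun (fun w _ => ?_) measurableSet_ball
    simp only
    ring
  have h1 : mom g k - mom g (k + 1) =
      (∫ w in Metric.ball (0 : ℂ) 1, (sf w : ℂ) * (∑' n, g n * w ^ n) * (conj w) ^ k) -
      ∫ w in Metric.ball (0 : ℂ) 1, ((rho w ^ 2 : ℝ) : ℂ) * (∑' n, g n * w ^ n) * (conj w) ^ k := by
    unfold mom
    rw [← integral_sub (hi k) (hi (k + 1)), ← integral_sub]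
    · apply setIntegral_congr_fun measurableSet_ball
      intro w hw
      rw [mem_ball_zero_iff] at hw
      simp only
      have h2 := rs_rho_eq hw
      have h3 : ((qf w : ℝ) : ℂ) = (1 - w) * (1 - conj w) := by
        unfold qf
        rw [← Complex.normSq_eq_norm_sq, ← Complex.mul_conj, map_sub, map_one]
      have h4 : (sf w : ℂ) = ((rho w ^ 2 : ℝ) : ℂ) + (1 - w) * (1 - conj w) * (rho w : ℂ) := by
        rw [← h2, Complex.ofReal_add, Complex.ofReal_mul, h3]
      rw [h4]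
      ring
    · have := gen_integrable g hg (fun w => (sf w : ℂ) * (conj w) ^ k) (by
        have := sf_continuous
        fun_prop)
      refine this.congr_fun (fun w _ => ?_) measurableSet_ball
      simp only
      ring
    · have := gen_integrable g hg (fun w => ((rho w ^ 2 : ℝ) : ℂ) * (conj w) ^ k) (by
        fun_prop)
      refine this.congr_fun (fun w _ => ?_) measurableSet_ball
      simp only
      ring
  rw [h1, exch g hg sf sf_continuous (fun w hw => sf_le hw) k,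
    exch g hg (fun w => rho w ^ 2) (by fun_prop) (fun w hw => rho_sq_le hw) k]
  simp only [s_moment, rho_sq_moment]
  have h5 : ∑' n, g n * (if n = k then ((π / ((k + 1) * (k + 2)) : ℝ) : ℂ) else 0) =
      ((π / ((k + 1) * (k + 2)) : ℝ) : ℂ) * g k := by
    rw [tsum_eq_single k]
    · simp only [if_true]; ring
    · intro n hn; simp [hn]
  rw [h5, mul_sub]
  congr 1
  rw [← tsum_mul_left]
  apply tsum_congr
  intro n
  have h6 : (Bc k n) = ((Bc k n).re : ℂ) := by
    apply Complex.ext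
    · simp
    · simp [Bc_im]
  have h7 : ((π / ((k + 1) * (k + 2)) : ℝ) : ℂ) * (Kr k n : ℂ) = Bc k n := by
    rw [h6, ← Complex.ofReal_mul]
    congr 1
    unfold Kr
    have hpi := Real.pi_pos
    field_simp
  rw [← mul_assoc, h7]
  ring

lemma mom_tendsto (g : ℕ → ℂ) (hg : Summable fun n => ‖g n‖) :
    Tendsto (mom g) atTop (𝓝 0) := by
  have hrc := rs_continuous_rho
  have hcc := Complex.continuous_conj
  have h0 : (0 : ℂ) = ∫ _w in Metric.ball (0 : ℂ) 1, (0 : ℂ) := by simp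
  rw [h0]
  unfold mom
  have hi := gen_integrable g hg (fun w => (rho w : ℂ) * (1 - w)) (by fun_prop)
  apply tendsto_integral_of_dominated_convergence
    (fun w => ‖(rho w : ℂ) * (1 - w) * (∑' n, g n * w ^ n)‖)
  · intro j
    have := gen_integrable g hg (fun w => (rho w : ℂ) * (1 - w) * (conj w) ^ j) (by fun_prop)
    refine AEStronglyMeasurable.congr this.aestronglyMeasurable (ae_of_all _ fun w => ?_)
    simp only
    ring
  · exact hi.norm
  · intro j
    rw [ae_restrict_iff' measurableSet_ball]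
    refine ae_of_all _ fun w hw => ?_
    rw [mem_ball_zero_iff] at hw
    rw [norm_mul, norm_pow, RCLike.norm_conj, ← mul_assoc]
    have h1 : ‖w‖ ^ j ≤ 1 := pow_le_one₀ (norm_nonneg _) hw.le
    calc _ ≤ ‖(rho w : ℂ) * (1 - w) * (∑' n, g n * w ^ n)‖ * 1 :=
          mul_le_mul_of_nonneg_left h1 (norm_nonneg _)
      _ = _ := mul_one _
  · rw [ae_restrict_iff' measurableSet_ball]
    refine ae_of_all _ fun w hw => ?_
    rw [mem_ball_zero_iff] at hw
    have h1 : Tendsto (fun j : ℕ => (conj w) ^ j) atTop (𝓝 0) := by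
      apply tendsto_pow_atTop_nhds_zero_of_norm_lt_one
      rwa [RCLike.norm_conj]
    simpa using h1.const_mul ((rho w : ℂ) * ((1 - w) * ∑' n, g n * w ^ n))

end B6

open B6 in
theorem exists_FPhi : ∃ (g : ℕ → ℂ) (Φ : ℂ → ℂ) (R : ℝ), 1 < R ∧
    DifferentiableOn ℂ Φ (Metric.ball 0 R) ∧ Summable (fun n => ‖g n‖) ∧
    (∀ δ > 0, ∀ C : ℝ, ¬ ∀ n : ℕ, ‖g n‖ ≤ C * Real.exp (-δ * n)) ∧
    (∀ k : ℕ, ∫ w in Metric.ball (0 : ℂ) 1,
      ((sf w : ℂ) * Φ w - (rho w : ℂ) * ((1 - w) * ∑' n, g n * w ^ n)) * (conj w) ^ k = 0) := by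
  obtain ⟨g, hg, ⟨δ, hδ, C, hC⟩, hnot⟩ := Ex.exists_g
  have hC0 : 0 ≤ C := by
    have := (norm_nonneg _).trans (hC 0)
    simpa using this
  set r := Real.exp (-δ) with hr
  have hr0 : 0 < r := Real.exp_pos _
  have hr1 : r < 1 := by rw [hr, Real.exp_lt_one_iff]; linarith
  have hpi := Real.pi_pos
  have hexp : ∀ k : ℕ, Real.exp (-δ * k) = r ^ k := by
    intro k
    rw [hr, ← Real.exp_nat_mul]
    congr 1
    ring
  have hstep : ∀ k, dist (mom g k) (mom g (k + 1)) ≤ (π * C) * r ^ k := by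
    intro k
    rw [dist_eq_norm, mom_sub g hg k, norm_mul, Complex.norm_real, Real.norm_eq_abs,
      abs_of_nonneg (by positivity)]
    have h1 := hC k
    rw [hexp k] at h1
    have h2 : π / (((k : ℝ) + 1) * (k + 2)) ≤ π := by
      apply div_le_self hpi.le
      have : (0 : ℝ) ≤ k := Nat.cast_nonneg k
      nlinarith
    calc π / (((k : ℝ) + 1) * (k + 2)) * ‖g k - ∑' n, (Kr k n : ℂ) * g n‖ ≤ π * (C * r ^ k) :=
          mul_le_mul h2 h1 (norm_nonneg _) hpi.le
      _ = _ := by ring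
  have hmom : ∀ k, ‖mom g k‖ ≤ π * C / (1 - r) * r ^ k := by
    intro k
    have h1 := dist_le_of_le_geometric_of_tendsto r (π * C) hr1 hstep (mom_tendsto g hg) k
    rw [dist_zero_right] at h1
    refine h1.trans (le_of_eq ?_)
    ring
  set C' := π * C / (1 - r) with hC'
  have hC'0 : 0 ≤ C' := div_nonneg (by positivity) (by linarith)
  set c : ℕ → ℂ := fun k => ((((k : ℝ) + 1) * (k + 2) / π : ℝ) : ℂ) * mom g k with hc
  have hcn : ∀ k, ‖c k‖ ≤ (((k : ℝ) + 1) * (k + 2) / π) * (C' * r ^ k) := by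
    intro k
    rw [hc]
    simp only
    rw [norm_mul, Complex.norm_real, Real.norm_eq_abs, abs_of_nonneg (by positivity)]
    exact mul_le_mul_of_nonneg_left (hmom k) (by positivity)
  set R := Real.exp (δ / 2) with hR
  have hR1 : 1 < R := by rw [hR, Real.one_lt_exp_iff]; linarith
  have hR0 : 0 < R := by linarith
  set y := r * R with hy
  have hy0 : 0 < y := by positivity
  have hy1 : y < 1 := by
    rw [hy, hr, hR, ← Real.exp_add, Real.exp_lt_one_iff]; linarith
  have hsumR : Summable (fun k => ‖c k‖ * R ^ k) := by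
    have hbase : Summable (fun k : ℕ => (((k : ℝ) + 1) * (k + 2) / π) * C' * y ^ k) := by
      have hyn : ‖y‖ < 1 := by rw [Real.norm_of_nonneg hy0.le]; exact hy1
      have h2 := summable_pow_mul_geometric_of_norm_lt_one 2 hyn
      have h1 := summable_pow_mul_geometric_of_norm_lt_one 1 hyn
      have h0 := summable_pow_mul_geometric_of_norm_lt_one 0 hyn
      have h3 := ((h2.add (h1.mul_left 3)).add (h0.mul_left 2)).mul_left (C' / π)
      refine h3.congr fun k => ?_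
      field_simp
      ring
    refine Summable.of_nonneg_of_le (fun k => by positivity) (fun k => ?_) hbase
    calc ‖c k‖ * R ^ k ≤ ((((k : ℝ) + 1) * (k + 2) / π) * (C' * r ^ k)) * R ^ k :=
          mul_le_mul_of_nonneg_right (hcn k) (by positivity)
      _ = _ := by rw [hy, mul_pow]; ring
  have hsum1 : Summable (fun k => ‖c k‖) := by
    refine Summable.of_nonneg_of_le (fun k => norm_nonneg _) (fun k => ?_) hsumR
    have : 1 ≤ R ^ k := one_le_pow₀ hR1.le
    calc ‖c k‖ = ‖c k‖ * 1 := (mul_one _).symm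
      _ ≤ _ := mul_le_mul_of_nonneg_left this (norm_nonneg _)
  refine ⟨g, fun w => ∑' k, c k * w ^ k, R, hR1, ?_, hg, hnot, fun k => ?_⟩
  · apply Complex.differentiableOn_tsum_of_summable_norm hsumR
    · intro k
      fun_prop
    · exact Metric.isOpen_ball
    · intro k w hw
      rw [mem_ball_zero_iff] at hw
      rw [norm_mul, norm_pow]
      exact mul_le_mul_of_nonneg_left (pow_le_pow_left₀ (norm_nonneg _) hw.le _) (norm_nonneg _)
  · have hrc := rs_continuous_rho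
    have hsc := sf_continuous
    have hcc := Complex.continuous_conj
    have h1 : ∫ w in Metric.ball (0 : ℂ) 1, (sf w : ℂ) * (∑' n, c n * w ^ n) * (conj w) ^ k =
        mom g k := by
      rw [exch c hsum1 sf sf_continuous (fun w hw => sf_le hw) k]
      simp only [s_moment]
      rw [tsum_eq_single k]
      · simp only [if_true, hc]
        rw [mul_right_comm, ← Complex.ofReal_mul]
        have : ((k : ℝ) + 1) * (k + 2) / π * (π / ((k + 1) * (k + 2))) = 1 := by
          field_simp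
        rw [this]; simp
      · intro n hn; simp [hn]
    have h2 : ∫ w in Metric.ball (0 : ℂ) 1,
        ((sf w : ℂ) * (∑' k, c k * w ^ k) - (rho w : ℂ) * ((1 - w) * ∑' n, g n * w ^ n)) *
          (conj w) ^ k =
        (∫ w in Metric.ball (0 : ℂ) 1, (sf w : ℂ) * (∑' n, c n * w ^ n) * (conj w) ^ k) -
        mom g k := by
      unfold mom
      rw [← integral_sub]
      · apply setIntegral_congr_fun measurableSet_ball
        intro w _
        simp only
        ring
      · have := gen_integrable c hsum1 (fun w => (sf w : ℂ) * (conj w) ^ k) (by fun_prop)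
        refine this.congr_fun (fun w _ => ?_) measurableSet_ball
        simp only
        ring
      · have := gen_integrable g hg (fun w => (rho w : ℂ) * (1 - w) * (conj w) ^ k) (by fun_prop)
        refine this.congr_fun (fun w _ => ?_) measurableSet_ball
        simp only
        ring
    rw [h2, h1, sub_self]

end Pool.Agent.Work.MP_e29078_an

end

section

/-! Weak equation for the explicit form `u0`, part E: integrability of the dominating function. -/

open MeasureTheory Set Filter Topology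
open scoped Real ComplexConjugate ContDiff ENNReal

namespace Pool.Agent.Work.MP_e29078_an
namespace B4

lemma int_rad : IntegrableOn (fun y : ℝ => y ^ (Module.finrank ℝ ℂ - 1) • (1 - y ^ 2) ^ (-(1 / 4) : ℝ))
    (Ioo 0 1) := by
  have h1 : IntervalIntegrable (fun y : ℝ => (1 - y) ^ (-(1 / 4) : ℝ)) volume 0 1 := by
    have h2 : IntervalIntegrable (fun y : ℝ => y ^ (-(1 / 4) : ℝ)) volume 0 1 :=
      intervalIntegral.intervalIntegrable_rpow' (by norm_num)
    have h3 := h2.comp_sub_left 1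
    simp only [sub_zero, sub_self] at h3
    exact h3.symm
  have h4 : IntegrableOn (fun y : ℝ => (1 - y) ^ (-(1 / 4) : ℝ)) (Ioo 0 1) := by
    rw [intervalIntegrable_iff_integrableOn_Ioo_of_le (by norm_num)] at h1
    exact h1
  refine Integrable.mono' h4 ?_ ?_
  · refine Measurable.aestronglyMeasurable ?_
    fun_prop
  · refine (ae_restrict_iff' measurableSet_Ioo).mpr (Eventually.of_forall fun y hy => ?_)
    have hd : Module.finrank ℝ ℂ - 1 = 1 := by rw [Complex.finrank_real_complex]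
    rw [hd, pow_one, smul_eq_mul, norm_mul, Real.norm_of_nonneg hy.1.le, Real.norm_eq_abs]
    have h5 : 0 < 1 - y := by linarith [hy.2]
    have h6 : 1 - y ≤ 1 - y ^ 2 := by nlinarith [hy.1, hy.2]
    have h7 : 0 < 1 - y ^ 2 := by linarith
    rw [abs_of_nonneg (by positivity)]
    calc y * (1 - y ^ 2) ^ (-(1 / 4) : ℝ) ≤ 1 * (1 - y ^ 2) ^ (-(1 / 4) : ℝ) := by
          have := hy.2
          gcongr
      _ = (1 - y ^ 2) ^ (-(1 / 4) : ℝ) := one_mul _
      _ ≤ (1 - y) ^ (-(1 / 4) : ℝ) := Real.rpow_le_rpow_of_nonpos h5 h6 (by norm_num)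

lemma int_sf : IntegrableOn (fun w : ℂ => (sf w) ^ (-(1 / 4) : ℝ)) (Metric.ball 0 1) := by
  have h := (integrableOn_fun_norm_addHaar (volume : Measure ℂ) (r := 1)
    (f := fun y : ℝ => (1 - y ^ 2) ^ (-(1 / 4) : ℝ))).mpr int_rad
  exact h

/-- a measurable set containing `GM` -/
def BB : Set (ℂ × ℂ) := {z | ‖z.2‖ < 1 ∧ ‖z.1‖ ^ 2 < rho z.2}

lemma GM_subset_BB : GM ⊆ BB := fun _ hz => ⟨(GM_facts hz).1, (GM_facts hz).2.1⟩

lemma isOpen_BB : IsOpen BB := by
  have h1 : Continuous (fun z : ℂ × ℂ => rho z.2) := rs_continuous_rho.comp continuous_snd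
  have h2 : Continuous (fun z : ℂ × ℂ => ‖z.2‖) := continuous_snd.norm
  have h3 : Continuous (fun z : ℂ × ℂ => ‖z.1‖ ^ 2) := continuous_fst.norm.pow 2
  exact (isOpen_lt h2 continuous_const).inter (isOpen_lt h3 h1)

lemma meas_GG (A : ℝ) : Measurable (GG A) := by
  have h1 := meas_sf
  have h2 := meas_rho
  unfold GG
  fun_prop

lemma int_GG {A : ℝ} (hA : 0 ≤ A) : IntegrableOn (fun z : ℂ × ℂ => GG A z.2) GM := by
  refine IntegrableOn.mono_set ?_ GM_subset_BB
  rw [← integrable_indicator_iff isOpen_BB.measurableSet, Measure.volume_eq_prod]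
  have hm : Measurable (BB.indicator fun z : ℂ × ℂ => GG A z.2) :=
    ((meas_GG A).comp measurable_snd).indicator isOpen_BB.measurableSet
  have hsl : ∀ w : ℂ, ‖w‖ < 1 → (fun a => (BB.indicator fun z : ℂ × ℂ => GG A z.2) (a, w)) =
      (Metric.ball (0 : ℂ) (√(rho w))).indicator (fun _ => GG A w) := by
    intro w hw
    ext a
    by_cases ha : a ∈ Metric.ball (0 : ℂ) (√(rho w))
    · have : (a, w) ∈ BB := by
        refine ⟨hw, ?_⟩
        rw [mem_ball_zero_iff] at ha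
        exact (Real.lt_sqrt (norm_nonneg _)).mp ha
      rw [indicator_of_mem this, indicator_of_mem ha]
    · have : (a, w) ∉ BB := by
        rintro ⟨_, h⟩
        apply ha
        rw [mem_ball_zero_iff]
        exact (Real.lt_sqrt (norm_nonneg _)).mpr h
      rw [indicator_of_notMem this, indicator_of_notMem ha]
  have hsl' : ∀ w : ℂ, ¬ ‖w‖ < 1 → (fun a => (BB.indicator fun z : ℂ × ℂ => GG A z.2) (a, w)) =
      fun _ => 0 := by
    intro w hw
    ext a
    exact indicator_of_notMem (fun h => hw h.1) _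
  rw [integrable_prod_iff' hm.aestronglyMeasurable]
  constructor
  · refine Eventually.of_forall fun w => ?_
    by_cases hw : ‖w‖ < 1
    · rw [hsl w hw, integrable_indicator_iff Metric.isOpen_ball.measurableSet]
      exact integrableOn_const (by exact measure_ball_lt_top.ne)
    · rw [hsl' w hw]; exact integrable_zero _ _ _
  · have h5 : (fun w : ℂ => ∫ a, ‖(BB.indicator fun z : ℂ × ℂ => GG A z.2) (a, w)‖) =
        (Metric.ball (0 : ℂ) 1).indicator (fun w => π * rho w * GG A w) := by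
      ext w
      by_cases hw : ‖w‖ < 1
      · rw [indicator_of_mem (by rwa [mem_ball_zero_iff])]
        have h6 : (fun a => ‖(BB.indicator fun z : ℂ × ℂ => GG A z.2) (a, w)‖) =
            (Metric.ball (0 : ℂ) (√(rho w))).indicator (fun _ => GG A w) := by
          ext a
          have := congrFun (hsl w hw) a
          rw [this, norm_indicator_eq_indicator_norm]
          congr 1
          ext b
          exact Real.norm_of_nonneg (GG_nonneg_of hA hw)
        rw [h6, integral_indicator Metric.isOpen_ball.measurableSet, setIntegral_const]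
        rw [Measure.real, Complex.volume_ball, smul_eq_mul]
        have hr := rs_rho_nonneg hw
        rw [ENNReal.toReal_mul, ENNReal.toReal_pow, ENNReal.toReal_ofReal (Real.sqrt_nonneg _),
          Real.sq_sqrt hr]
        rw [mul_comm (rho w)]
        rfl
      · rw [indicator_of_notMem (by rwa [mem_ball_zero_iff])]
        have h6 : (fun a => ‖(BB.indicator fun z : ℂ × ℂ => GG A z.2) (a, w)‖) = fun _ => 0 := by
          ext a
          have := congrFun (hsl' w hw) a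
          rw [this, norm_zero]
        rw [h6]; simp
    rw [h5, integrable_indicator_iff Metric.isOpen_ball.measurableSet]
    have h7 : IntegrableOn (fun w : ℂ => π * A * (3 + 8 * (sf w) ^ (-(1 / 4) : ℝ)))
        (Metric.ball (0 : ℂ) 1) := by
      refine Integrable.const_mul ?_ _
      refine Integrable.add ?_ (int_sf.const_mul 8)
      exact integrableOn_const (by exact measure_ball_lt_top.ne)
    refine Integrable.mono' h7 ?_ ?_
    · exact ((measurable_const.mul meas_rho).mul (meas_GG A)).aestronglyMeasurable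
    · refine (ae_restrict_iff' Metric.isOpen_ball.measurableSet).mpr
        (Eventually.of_forall fun w hw => ?_)
      rw [mem_ball_zero_iff] at hw
      have hr := rs_rho_nonneg hw
      have hr1 := rs_rho_le_one hw
      have hs := rs_sf_pos hw
      have hg := GG_nonneg_of hA hw
      have hp : 0 ≤ (sf w) ^ (-(1 / 4) : ℝ) := by positivity
      rw [Real.norm_of_nonneg (by positivity)]
      unfold GG
      rcases hr.lt_or_eq with h | h
      · have : π * rho w * (A * (3 + 8 * ((sf w) ^ (-(1 / 4) : ℝ) / rho w))) =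
            π * A * (3 * rho w + 8 * (sf w) ^ (-(1 / 4) : ℝ)) := by
          field_simp
        rw [this]
        have := Real.pi_pos.le
        gcongr
        linarith
      · rw [← h]
        have := Real.pi_pos.le
        simp only [mul_zero, zero_mul]
        positivity

end B4
end Pool.Agent.Work.MP_e29078_an

end

section

/-! Weak equation for the explicit form `u0`. -/

open MeasureTheory Set Filter Topology
open scoped Real ComplexConjugate ContDiff ENNReal

namespace Pool.Agent.Work.MP_e29078_an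
namespace B4

lemma D1_YY {X : C3 → ℂ} (hX : ContDiff ℝ 1 X) {n θ : ℝ} {z : ℂ × ℂ} (h : 0 < hM z) :
    D1 (YY X n θ) z = ((deriv kap1 (n * hM z) * n : ℝ) : ℂ) *
      (-conj z.1 * (2 * ‖z.1‖ ^ 2 + qf z.2 : ℝ)) * X (PM (θ, z)) +
      (kap1 (n * hM z) : ℂ) * (dz 1 X (PM (θ, z)) +
        (-conj z.1 * (2 * ‖z.1‖ ^ 2 + qf z.2 : ℝ)) * ((1 / (2 * √(hM z)) : ℝ) : ℂ) *
          (ex θ * dz 0 X (PM (θ, z)) + conj (ex θ) * dzb 0 X (PM (θ, z)))) := by
  unfold D1
  rw [YY_fderiv hX h, YY_fderiv hX h, lin3, lin3, ← D1_hM z]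
  simp only [map_mul, Complex.conj_ofReal, map_one, map_zero, Complex.conj_I]
  push_cast
  have h6 := Complex.I_mul_I
  linear_combination (-(kap1 (n * hM z) : ℂ) * (dz 1 X (PM (θ, z)) - dzb 1 X (PM (θ, z))) / 2) * h6

lemma D2_YY {X : C3 → ℂ} (hX : ContDiff ℝ 1 X) {n θ : ℝ} {z : ℂ × ℂ} (h : 0 < hM z) :
    D2 (YY X n θ) z = ((deriv kap1 (n * hM z) * n : ℝ) : ℂ) *
      (-conj z.2 + (‖z.1‖ ^ 2 : ℝ) * (1 - conj z.2)) * X (PM (θ, z)) +
      (kap1 (n * hM z) : ℂ) * (dz 2 X (PM (θ, z)) +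
        (-conj z.2 + (‖z.1‖ ^ 2 : ℝ) * (1 - conj z.2)) * ((1 / (2 * √(hM z)) : ℝ) : ℂ) *
          (ex θ * dz 0 X (PM (θ, z)) + conj (ex θ) * dzb 0 X (PM (θ, z)))) := by
  unfold D2
  rw [YY_fderiv hX h, YY_fderiv hX h, lin3, lin3, ← D2_hM z]
  simp only [map_mul, Complex.conj_ofReal, map_one, map_zero, Complex.conj_I]
  push_cast
  have h6 := Complex.I_mul_I
  linear_combination (-(kap1 (n * hM z) : ℂ) * (dz 2 X (PM (θ, z)) - dzb 2 X (PM (θ, z))) / 2) * h6

/-- the main part -/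
noncomputable def ff (F V : ℂ → ℂ) (X : C3 → ℂ) (n : ℝ) (x : ℝ × (ℂ × ℂ)) : ℂ :=
  (kap1 (n * hM x.2) : ℂ) * (∑ k, u0 F V (PM x) k * dz k X (PM x)) +
    ((n * hM x.2 * deriv kap1 (n * hM x.2) : ℝ) : ℂ) * mm F V x.2 * X (PM x)

/-- the part which averages to zero -/
noncomputable def gg (F V : ℂ → ℂ) (X : C3 → ℂ) (n : ℝ) (x : ℝ × (ℂ × ℂ)) : ℂ :=
  (kap1 (n * hM x.2) : ℂ) * mm F V x.2 / 2 *
    ((√(hM x.2) : ℂ) * (conj (ex x.1) * dzb 0 X (PM x) - ex x.1 * dz 0 X (PM x)))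

lemma point_id (F V : ℂ → ℂ) {X : C3 → ℂ} (hX : ContDiff ℝ 1 X) {n θ : ℝ} {z : ℂ × ℂ}
    (hz : z ∈ GM) :
    u1 F V z * D1 (YY X n θ) z + u2 V z * D2 (YY X n θ) z =
      ff F V X n (θ, z) + gg F V X n (θ, z) := by
  have h : 0 < hM z := hz
  rw [D1_YY hX h, D2_YY hX h]
  have ha := alg_id F V hz
  unfold ff gg
  rw [Fin.sum_univ_three, u0_zero, u0_one, u0_two]
  have hP : PM (θ, z) = (((√(hM z) : ℝ) : ℂ) * ex θ, z.1, z.2) := rfl
  have hP2 : (PM (θ, z)).2 = z := rfl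
  have hP1 : (PM (θ, z)).1 = ((√(hM z) : ℝ) : ℂ) * ex θ := rfl
  rw [hP2, hP1]
  have hs : ((√(hM z) : ℝ) : ℂ) * ((√(hM z) : ℝ) : ℂ) = (hM z : ℂ) := by
    rw [← Complex.ofReal_mul, Real.mul_self_sqrt h.le]
  have hs0 : ((√(hM z) : ℝ) : ℂ) ≠ 0 := by
    have := Real.sqrt_pos.mpr h
    exact_mod_cast this.ne'
  set S : ℂ := ((√(hM z) : ℝ) : ℂ) with hS
  set P := PM (θ, z)
  have key : (u1 F V z * (-conj z.1 * (2 * ‖z.1‖ ^ 2 + qf z.2 : ℝ)) +
      u2 V z * (-conj z.2 + (‖z.1‖ ^ 2 : ℝ) * (1 - conj z.2))) * ((1 / (2 * √(hM z)) : ℝ) : ℂ) =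
      S * mm F V z / 2 := by
    rw [ha, ← hs]
    push_cast
    rw [← hS]
    field_simp
  simp only
  push_cast at ha key ⊢
  linear_combination (((deriv kap1 (n * hM z) : ℝ) : ℂ) * n * X P) * ha +
    ((kap1 (n * hM z) : ℂ) * (ex θ * dz 0 X P + conj (ex θ) * dzb 0 X P)) * key

/-- the derivative in `θ` -/
lemma theta_deriv {X : C3 → ℂ} (hX : ContDiff ℝ 1 X) (z : ℂ × ℂ) (θ : ℝ) :
    HasDerivAt (fun θ => X (PM (θ, z)))
      (-Complex.I * ((√(hM z) : ℂ) * (conj (ex θ) * dzb 0 X (PM (θ, z)) -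
        ex θ * dz 0 X (PM (θ, z))))) θ := by
  have h1 : HasDerivAt (fun θ : ℝ => (((√(hM z) : ℝ) : ℂ) * ex θ, z.1, z.2))
      ((((√(hM z) : ℝ) : ℂ) * (Complex.I * ex θ), 0, 0) : C3) θ :=
    ((ex_deriv θ).const_mul _).prodMk ((hasDerivAt_const θ z.1).prodMk (hasDerivAt_const θ z.2))
  have h2 := (hX.differentiable (by norm_num) (PM (θ, z))).hasFDerivAt
  have h3 := HasFDerivAt.comp_hasDerivAt θ (f := fun θ : ℝ => (((√(hM z) : ℝ) : ℂ) * ex θ, z.1, z.2))
    h2 h1
  rw [lin3] at h3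
  refine h3.congr_deriv ?_
  simp only [map_mul, Complex.conj_ofReal, map_zero, Complex.conj_I, zero_mul, add_zero]
  ring

lemma ex_pi : ex π = ex (-π) := by
  unfold ex
  rw [Complex.exp_pi_mul_I]
  push_cast
  rw [neg_mul, Complex.exp_neg, Complex.exp_pi_mul_I]
  norm_num

lemma dz_cont {X : C3 → ℂ} (hX : ContDiff ℝ 1 X) (k : Fin 3) : Continuous (dz k X) := by
  unfold dz
  have h : ∀ v, Continuous fun w => fderiv ℝ X w v := fun v =>
    (hX.continuous_fderiv (by norm_num)).clm_apply continuous_const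
  exact ((h _).sub (continuous_const.mul (h _))).div_const _

lemma dzb_cont {X : C3 → ℂ} (hX : ContDiff ℝ 1 X) (k : Fin 3) : Continuous (dzb k X) := by
  unfold dzb
  have h : ∀ v, Continuous fun w => fderiv ℝ X w v := fun v =>
    (hX.continuous_fderiv (by norm_num)).clm_apply continuous_const
  exact ((h _).add (continuous_const.mul (h _))).div_const _

lemma dz_bd {X : C3 → ℂ} (hX : ContDiff ℝ 1 X) (hXc : HasCompactSupport X) :
    ∃ C : ℝ, 0 ≤ C ∧ (∀ p, ‖X p‖ ≤ C) ∧ (∀ k p, ‖dz k X p‖ ≤ C) ∧ ∀ k p, ‖dzb k X p‖ ≤ C := by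
  obtain ⟨C0, h0⟩ := hXc.exists_bound_of_continuous hX.continuous
  obtain ⟨C1, h1⟩ := (hXc.fderiv (𝕜 := ℝ)).exists_bound_of_continuous
    (hX.continuous_fderiv (by norm_num))
  have hb : ∀ k, ‖bas k‖ ≤ 1 := by
    intro k
    fin_cases k <;> simp [bas, Prod.norm_def]
  have hb2 : ∀ k, ‖Complex.I • bas k‖ ≤ 1 := by
    intro k; rw [norm_smul, Complex.norm_I, one_mul]; exact hb k
  have hC0 : 0 ≤ C0 := (norm_nonneg _).trans (h0 0)
  have hC1 : 0 ≤ C1 := (norm_nonneg _).trans (h1 0)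
  have h2 : ∀ k p, ‖fderiv ℝ X p (bas k)‖ ≤ C1 := by
    intro k p
    calc ‖fderiv ℝ X p (bas k)‖ ≤ ‖fderiv ℝ X p‖ * ‖bas k‖ := ContinuousLinearMap.le_opNorm _ _
      _ ≤ C1 * 1 := mul_le_mul (h1 p) (hb k) (norm_nonneg _) hC1
      _ = C1 := mul_one _
  have h3 : ∀ k p, ‖fderiv ℝ X p (Complex.I • bas k)‖ ≤ C1 := by
    intro k p
    calc ‖fderiv ℝ X p (Complex.I • bas k)‖ ≤ ‖fderiv ℝ X p‖ * ‖Complex.I • bas k‖ :=
        ContinuousLinearMap.le_opNorm _ _
      _ ≤ C1 * 1 := mul_le_mul (h1 p) (hb2 k) (norm_nonneg _) hC1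
      _ = C1 := mul_one _
  refine ⟨C0 + C1, by positivity, fun p => (h0 p).trans (by linarith), ?_, ?_⟩
  · intro k p
    unfold dz
    rw [norm_div, RCLike.norm_ofNat]
    have h4 := norm_sub_le (fderiv ℝ X p (bas k)) (Complex.I * fderiv ℝ X p (Complex.I • bas k))
    rw [norm_mul, Complex.norm_I, one_mul] at h4
    have h5 := h2 k p
    have h6 := h3 k p
    linarith
  · intro k p
    unfold dzb
    rw [norm_div, RCLike.norm_ofNat]
    have h4 := norm_add_le (fderiv ℝ X p (bas k)) (Complex.I * fderiv ℝ X p (Complex.I • bas k))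
    rw [norm_mul, Complex.norm_I, one_mul] at h4
    have h5 := h2 k p
    have h6 := h3 k p
    linarith

lemma PM_cont : Continuous PM := by
  have h1 := cont_hM
  unfold PM
  fun_prop

lemma gg_slice (F V : ℂ → ℂ) {X : C3 → ℂ} (hX : ContDiff ℝ 1 X) (n : ℝ) (z : ℂ × ℂ) :
    ∫ θ in Ioo (-π) π, gg F V X n (θ, z) = 0 := by
  have h1 : ∀ θ : ℝ, gg F V X n (θ, z) = (kap1 (n * hM z) : ℂ) * mm F V z / 2 * Complex.I *
      (-Complex.I * ((√(hM z) : ℂ) * (conj (ex θ) * dzb 0 X (PM (θ, z)) -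
        ex θ * dz 0 X (PM (θ, z))))) := by
    intro θ
    unfold gg
    have h6 := Complex.I_mul_I
    simp only
    linear_combination ((kap1 (n * hM z) : ℂ) * mm F V z / 2 *
      ((√(hM z) : ℂ) * (conj (ex θ) * dzb 0 X (PM (θ, z)) -
        ex θ * dz 0 X (PM (θ, z))))) * h6
  simp only [h1]
  rw [integral_const_mul]
  have h2 : ∫ θ in Ioo (-π) π, (-Complex.I * ((√(hM z) : ℂ) * (conj (ex θ) *
      dzb 0 X (PM (θ, z)) - ex θ * dz 0 X (PM (θ, z))))) = 0 := by
    have hPc : Continuous fun θ : ℝ => PM (θ, z) := PM_cont.comp (by fun_prop)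
    have hc : Continuous fun θ : ℝ => (-Complex.I * ((√(hM z) : ℂ) * (conj (ex θ) *
      dzb 0 X (PM (θ, z)) - ex θ * dz 0 X (PM (θ, z))))) := by
      have h3 := (dz_cont hX 0).comp hPc
      have h4 := (dzb_cont hX 0).comp hPc
      have h5 := ex_cont
      have h6 : Continuous fun θ => conj (ex θ) := Complex.continuous_conj.comp ex_cont
      exact continuous_const.mul (continuous_const.mul ((h6.mul h4).sub (h5.mul h3)))
    rw [← integral_Ioc_eq_integral_Ioo, ← intervalIntegral.integral_of_le (by linarith [Real.pi_pos]),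
      intervalIntegral.integral_eq_sub_of_hasDerivAt (fun θ _ => theta_deriv hX z θ)
      (hc.intervalIntegrable _ _)]
    rw [PM_eq, PM_eq, ex_pi, sub_self]
  rw [h2, mul_zero]

/-- the product measure -/
noncomputable def nu : Measure (ℝ × (ℂ × ℂ)) :=
  (volume.restrict (Ioo (-π) π)).prod (volume.restrict GM)

lemma nu_ae : ∀ᵐ x ∂nu, x.2 ∈ GM := by
  unfold nu
  rw [Measure.prod_restrict, ae_restrict_iff' (measurableSet_Ioo.prod isOpen_GM.measurableSet)]
  exact Eventually.of_forall fun x hx => hx.2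

lemma nu_int {A : ℝ} (hA : 0 ≤ A) : Integrable (fun x : ℝ × (ℂ × ℂ) => GG A x.2.2) nu := by
  unfold nu
  haveI : IsFiniteMeasure (volume.restrict (Ioo (-π) π)) := by
    constructor
    rw [Measure.restrict_apply_univ, Real.volume_Ioo]
    exact ENNReal.ofReal_lt_top
  exact Integrable.comp_snd (int_GG hA) _

section asm
variable {F Φ V : ℂ → ℂ} {A : ℝ} (hFm : Measurable F) (hF : ∀ w, ‖F w‖ ≤ A)
    (hΦm : Measurable Φ) (hΦ : ∀ w, ‖Φ w‖ ≤ A)
    (hV : Continuous V) (hVb : ∀ w, ‖w‖ < 1 → ‖V w‖ ≤ A * (1 - ‖w‖ ^ 2) ^ (3 / 4 : ℝ))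

include hFm hV in
lemma meas_u0 (k : Fin 3) : Measurable (fun p => u0 F V p k) := by
  fin_cases k
  · simp only [Fin.zero_eta, u0_zero]
    exact measurable_fst.mul ((meas_mm hFm hV.measurable).comp measurable_snd)
  · simp only [Fin.mk_one, u0_one]
    exact (meas_u1 hFm hV.measurable).comp measurable_snd
  · simp only [Fin.reduceFinMk, u0_two]
    exact (meas_u2 hV.measurable).comp measurable_snd

include hFm hV in
lemma meas_sum {X : C3 → ℂ} (hX : ContDiff ℝ 1 X) :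
    Measurable (fun p => ∑ k, u0 F V p k * dz k X p) :=
  Finset.measurable_sum _ fun k _ => (meas_u0 hFm hV k).mul (dz_cont hX k).measurable

lemma meas_k (n : ℝ) : Continuous (fun x : ℝ × (ℂ × ℂ) => ((kap1 (n * hM x.2) : ℝ) : ℂ)) :=
  Complex.continuous_ofReal.comp (kap1_contDiff.continuous.comp
    (continuous_const.mul (cont_hM.comp continuous_snd)))

include hFm hV in
lemma meas_ff {X : C3 → ℂ} (hX : ContDiff ℝ 1 X) (n : ℝ) : Measurable (ff F V X n) := by
  unfold ff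
  refine Measurable.add ((meas_k n).measurable.mul ((meas_sum hFm hV hX).comp PM_cont.measurable))
    (Measurable.mul (Measurable.mul ?_ ((meas_mm hFm hV.measurable).comp measurable_snd)) ?_)
  · refine (Complex.continuous_ofReal.comp ?_).measurable
    have h1 : Continuous fun x : ℝ × (ℂ × ℂ) => n * hM x.2 :=
      continuous_const.mul (cont_hM.comp continuous_snd)
    exact h1.mul ((kap1_contDiff.continuous_deriv (by norm_num)).comp h1)
  · exact (hX.continuous.comp PM_cont).measurable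

include hFm hV in
lemma meas_gg {X : C3 → ℂ} (hX : ContDiff ℝ 1 X) (n : ℝ) : Measurable (gg F V X n) := by
  unfold gg
  refine Measurable.mul (((meas_k n).measurable.mul
    ((meas_mm hFm hV.measurable).comp measurable_snd)).div_const _) ?_
  refine Continuous.measurable ?_
  have h1 : Continuous fun x : ℝ × (ℂ × ℂ) => ex x.1 := ex_cont.comp continuous_fst
  have h2 : Continuous fun x : ℝ × (ℂ × ℂ) => conj (ex x.1) := Complex.continuous_conj.comp h1
  have h3 : Continuous fun x : ℝ × (ℂ × ℂ) => ((√(hM x.2) : ℝ) : ℂ) :=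
    Complex.continuous_ofReal.comp (Real.continuous_sqrt.comp (cont_hM.comp continuous_snd))
  exact h3.mul ((h2.mul ((dzb_cont hX 0).comp PM_cont)).sub (h1.mul ((dz_cont hX 0).comp PM_cont)))

lemma sqrt_h_le {z : ℂ × ℂ} (hz : z ∈ GM) : √(hM z) ≤ 1 := by
  rw [Real.sqrt_le_left (by norm_num), one_pow]
  have h1 : 0 ≤ ‖z.1‖ ^ 4 := by positivity
  have h2 : 0 ≤ qf z.2 * ‖z.1‖ ^ 2 := mul_nonneg (qf_nonneg _) (sq_nonneg _)
  have h3 := (GM_facts hz).2.2.2.2.1
  unfold hM
  linarith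

include hF hVb in
lemma sum_bd {X : C3 → ℂ} {C : ℝ} (hC0 : 0 ≤ C) (hC : ∀ k p, ‖dz k X p‖ ≤ C) {x : ℝ × (ℂ × ℂ)}
    (hx : x.2 ∈ GM) : ‖∑ k, u0 F V (PM x) k * dz k X (PM x)‖ ≤ 3 * C * GG A x.2.2 := by
  have hA : 0 ≤ A := A_nonneg' hF
  have hG := GG_nonneg_of hA (GM_facts hx).1
  rw [Fin.sum_univ_three, u0_zero, u0_one, u0_two]
  have hP2 : (PM x).2 = x.2 := rfl
  have hP1 : (PM x).1 = ((√(hM x.2) : ℝ) : ℂ) * ex x.1 := rfl
  rw [hP2, hP1]
  have b0 : ‖((√(hM x.2) : ℝ) : ℂ) * ex x.1 * mm F V x.2 * dz 0 X (PM x)‖ ≤ GG A x.2.2 * C := by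
    rw [norm_mul, norm_mul, norm_mul, ex_norm, Complex.norm_real,
      Real.norm_of_nonneg (Real.sqrt_nonneg _)]
    have h1 := sqrt_h_le hx
    have h2 := mm_bd hF hVb hx
    have h3 := hC 0 (PM x)
    calc √(hM x.2) * 1 * ‖mm F V x.2‖ * ‖dz 0 X (PM x)‖ ≤ 1 * 1 * GG A x.2.2 * C := by gcongr
      _ = _ := by ring
  have b1 : ‖u1 F V x.2 * dz 1 X (PM x)‖ ≤ GG A x.2.2 * C := by
    rw [norm_mul]
    exact mul_le_mul (u1_bd hF hVb hx) (hC 1 _) (norm_nonneg _) hG
  have b2 : ‖u2 V x.2 * dz 2 X (PM x)‖ ≤ GG A x.2.2 * C := by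
    rw [norm_mul]
    exact mul_le_mul (u2_bd hF hVb hx) (hC 2 _) (norm_nonneg _) hG
  refine (norm_add₃_le).trans ?_
  linarith

include hF hVb in
lemma ff_bd {X : C3 → ℂ} {C : ℝ} (hC0 : 0 ≤ C) (hX0 : ∀ p, ‖X p‖ ≤ C)
    (hC : ∀ k p, ‖dz k X p‖ ≤ C) {L : ℝ} (hL : ∀ y : ℝ, |y * deriv kap1 y| ≤ L) (n : ℝ)
    {x : ℝ × (ℂ × ℂ)}
    (hx : x.2 ∈ GM) : ‖ff F V X n x‖ ≤ (3 * C + L * C) * GG A x.2.2 := by
  have hA : 0 ≤ A := A_nonneg' hF
  have hG := GG_nonneg_of hA (GM_facts hx).1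
  have hL0 : 0 ≤ L := (abs_nonneg _).trans (hL 0)
  unfold ff
  refine (norm_add_le _ _).trans ?_
  rw [norm_mul, norm_mul, norm_mul, Complex.norm_real, Complex.norm_real, Real.norm_eq_abs,
    Real.norm_eq_abs]
  have h1 := kap1_abs (n * hM x.2)
  have h2 := sum_bd hF hVb hC0 hC hx
  have h3 := hL (n * hM x.2)
  have h4 := mm_bd hF hVb hx
  have h5 := hX0 (PM x)
  calc _ ≤ 1 * (3 * C * GG A x.2.2) + L * GG A x.2.2 * C := by gcongr
    _ = _ := by ring

include hF hVb in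
lemma gg_bd {X : C3 → ℂ} {C : ℝ} (hC0 : 0 ≤ C) (hC : ∀ k p, ‖dz k X p‖ ≤ C)
    (hC' : ∀ k p, ‖dzb k X p‖ ≤ C) (n : ℝ) {x : ℝ × (ℂ × ℂ)}
    (hx : x.2 ∈ GM) : ‖gg F V X n x‖ ≤ C * GG A x.2.2 := by
  have hA : 0 ≤ A := A_nonneg' hF
  have hG := GG_nonneg_of hA (GM_facts hx).1
  unfold gg
  rw [norm_mul, norm_div, norm_mul, norm_mul, Complex.norm_real, Complex.norm_real,
    Real.norm_eq_abs, Real.norm_of_nonneg (Real.sqrt_nonneg _), RCLike.norm_ofNat]
  have h1 := kap1_abs (n * hM x.2)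
  have h4 := mm_bd hF hVb hx
  have h6 := sqrt_h_le hx
  have h5 : ‖conj (ex x.1) * dzb 0 X (PM x) - ex x.1 * dz 0 X (PM x)‖ ≤ 2 * C := by
    refine (norm_sub_le _ _).trans ?_
    rw [norm_mul, norm_mul, RCLike.norm_conj, ex_norm]
    linarith [hC 0 (PM x), hC' 0 (PM x)]
  calc _ ≤ 1 * GG A x.2.2 / 2 * (1 * (2 * C)) := by gcongr
    _ = _ := by ring

include hFm hF hΦm hΦ hV hVb in
lemma key_n (hweak : ∀ χ : ℂ → ℂ, ContDiff ℝ 1 χ → HasCompactSupport χ →
      tsupport χ ⊆ Metric.ball 0 1 →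
      ∫ w in Metric.ball (0 : ℂ) 1, V w * D χ w =
        ∫ w in Metric.ball (0 : ℂ) 1, ((sf w : ℂ) * Φ w - (rho w : ℂ) * F w) * χ w)
    {X : C3 → ℂ} (hX : ContDiff ℝ 1 X) (hXc : HasCompactSupport X) {n : ℝ} (hn : 0 < n) :
    ∫ x, ff F V X n x ∂nu = ∫ x, (((2 * ‖x.2.1‖ ^ 2 + qf x.2.2 : ℝ) : ℂ) * Φ x.2.2 - F x.2.2) *
      ((kap1 (n * hM x.2) : ℂ) * X (PM x)) ∂nu := by
  have hA : 0 ≤ A := A_nonneg' hF
  obtain ⟨C, hC0, hX0, hC, hC'⟩ := dz_bd hX hXc
  obtain ⟨L, hL⟩ := dkap1_bd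
  have i1 : Integrable (ff F V X n) nu := by
    refine Integrable.mono' ((nu_int hA).const_mul (3 * C + L * C))
      (meas_ff hFm hV hX n).aestronglyMeasurable ?_
    filter_upwards [nu_ae] with x hx using ff_bd hF hVb hC0 hX0 hC hL n hx
  have i2 : Integrable (gg F V X n) nu := by
    refine Integrable.mono' ((nu_int hA).const_mul C)
      (meas_gg hFm hV hX n).aestronglyMeasurable ?_
    filter_upwards [nu_ae] with x hx using gg_bd hF hVb hC0 hC hC' n hx
  have i3 : Integrable (fun x : ℝ × (ℂ × ℂ) =>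
      (((2 * ‖x.2.1‖ ^ 2 + qf x.2.2 : ℝ) : ℂ) * Φ x.2.2 - F x.2.2) *
      ((kap1 (n * hM x.2) : ℂ) * X (PM x))) nu := by
    refine Integrable.mono' ((nu_int hA).const_mul C) ?_ ?_
    · refine Measurable.aestronglyMeasurable ?_
      have h1 := meas_qf
      have h2 := (meas_k n).measurable
      have h3 := (hX.continuous.comp PM_cont).measurable
      refine Measurable.mul ?_ (h2.mul h3)
      fun_prop
    · filter_upwards [nu_ae] with x hx
      rw [norm_mul, norm_mul, Complex.norm_real, Real.norm_eq_abs]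
      have h1 := kap1_abs (n * hM x.2)
      have h2 := rhs_bd hF hΦ hx
      have h3 := hX0 (PM x)
      have hG := GG_nonneg_of hA (GM_facts hx).1
      calc _ ≤ GG A x.2.2 * (1 * C) := by gcongr
        _ = _ := by ring
  have e1 : ∫ x, gg F V X n x ∂nu = 0 := by
    unfold nu at i2 ⊢
    rw [integral_prod_symm _ i2]
    simp only [gg_slice F V hX n]
    simp
  have e2 : ∫ x, ff F V X n x ∂nu = ∫ x, (ff F V X n x + gg F V X n x) ∂nu := by
    rw [integral_add i1 i2, e1, add_zero]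
  rw [e2]
  have i4 : Integrable (fun x => ff F V X n x + gg F V X n x) nu := i1.add i2
  unfold nu at i3 i4 ⊢
  rw [integral_prod _ i3, integral_prod _ i4]
  congr 1
  ext θ
  have hg := weakGM hFm hF hΦm hΦ hV hVb hweak (YY_contDiff hX hn θ) (YY_compact hn θ)
    (YY_tsupport_GM hn θ)
  have s1 : ∫ z, (u1 F V z * D1 (YY X n θ) z + u2 V z * D2 (YY X n θ) z) =
      ∫ z in GM, (u1 F V z * D1 (YY X n θ) z + u2 V z * D2 (YY X n θ) z) := by
    rw [setIntegral_eq_integral_of_forall_compl_eq_zero]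
    intro z hz
    have : z ∉ tsupport (YY X n θ) := fun h => hz (YY_tsupport_GM hn θ h)
    rw [D1_zero this, D2_zero this]; ring
  have s2 : ∫ z, (((2 * ‖z.1‖ ^ 2 + qf z.2 : ℝ) : ℂ) * Φ z.2 - F z.2) * YY X n θ z =
      ∫ z in GM, (((2 * ‖z.1‖ ^ 2 + qf z.2 : ℝ) : ℂ) * Φ z.2 - F z.2) * YY X n θ z := by
    rw [setIntegral_eq_integral_of_forall_compl_eq_zero]
    intro z hz
    have : z ∉ tsupport (YY X n θ) := fun h => hz (YY_tsupport_GM hn θ h)
    rw [image_eq_zero_of_notMem_tsupport this, mul_zero]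
  rw [s1, s2] at hg
  have s3 : ∫ z in GM, (u1 F V z * D1 (YY X n θ) z + u2 V z * D2 (YY X n θ) z) =
      ∫ z in GM, (ff F V X n (θ, z) + gg F V X n (θ, z)) :=
    setIntegral_congr_fun isOpen_GM.measurableSet fun z hz => point_id F V hX hz
  rw [s3] at hg
  exact hg

end asm

end B4

theorem weak_u0 (F Φ V : ℂ → ℂ) (A : ℝ) (hFm : Measurable F) (hF : ∀ w, ‖F w‖ ≤ A)
    (hΦm : Measurable Φ) (hΦ : ∀ w, ‖Φ w‖ ≤ A)
    (hV : Continuous V) (hVb : ∀ w, ‖w‖ < 1 → ‖V w‖ ≤ A * (1 - ‖w‖ ^ 2) ^ (3 / 4 : ℝ))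
    (hweak : ∀ χ : ℂ → ℂ, ContDiff ℝ 1 χ → HasCompactSupport χ → tsupport χ ⊆ Metric.ball 0 1 →
      ∫ w in Metric.ball (0 : ℂ) 1, V w *
          ((fderiv ℝ χ w 1 - Complex.I * fderiv ℝ χ w Complex.I) / 2) =
        ∫ w in Metric.ball (0 : ℂ) 1, ((sf w : ℂ) * Φ w - (rho w : ℂ) * F w) * χ w)
    (X : C3 → ℂ) (hX : ContDiff ℝ 1 X) (hXc : HasCompactSupport X) :
    ∫ p, ∑ k, u0 F V p k * dz k X p ∂muM = ∫ p, (fM Φ p - F p.2.2) * X p ∂muM := by
  have hA : 0 ≤ A := B4.A_nonneg' hF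
  obtain ⟨C, hC0, hX0, hC, hC'⟩ := B4.dz_bd hX hXc
  obtain ⟨L, hL⟩ := B4.dkap1_bd
  have hmu : ∀ φ : C3 → ℂ, Measurable φ → ∫ p, φ p ∂muM = (1 / 2 : ℝ) • ∫ x, φ (PM x) ∂B4.nu := by
    intro φ hφ
    unfold muM B4.nu
    rw [integral_smul_measure, integral_map B4.PM_cont.measurable.aemeasurable
      hφ.aestronglyMeasurable]
    norm_num
  have hqf := B4.meas_qf
  rw [hmu _ (B4.meas_sum hFm hV hX), hmu _ (by
    have h3 := hX.continuous.measurable
    unfold fM
    fun_prop)]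
  congr 1
  have hnt : ∀ h : ℝ, 0 < h → ∀ᶠ j : ℕ in atTop, 2 < ((j : ℝ) + 1) * h := by
    intro h hh
    have h1 : Tendsto (fun j : ℕ => ((j : ℝ) + 1) * h) atTop atTop :=
      (tendsto_atTop_add_const_right _ _ tendsto_natCast_atTop_atTop).atTop_mul_const hh
    exact h1.eventually_gt_atTop 2
  have t1 : Tendsto (fun j : ℕ => ∫ x, B4.ff F V X ((j : ℝ) + 1) x ∂B4.nu) atTop
      (𝓝 (∫ x, ∑ k, u0 F V (PM x) k * dz k X (PM x) ∂B4.nu)) := by
    refine tendsto_integral_of_dominated_convergence (fun x => (3 * C + L * C) * B4.GG A x.2.2)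
      (fun j => (B4.meas_ff hFm hV hX _).aestronglyMeasurable)
      ((B4.nu_int hA).const_mul _) ?_ ?_
    · intro j
      filter_upwards [B4.nu_ae] with x hx using B4.ff_bd hF hVb hC0 hX0 hC hL _ hx
    · filter_upwards [B4.nu_ae] with x hx
      refine tendsto_const_nhds.congr' ?_
      filter_upwards [hnt (hM x.2) hx] with j hj
      unfold B4.ff
      rw [B4.kap1_one hj.le, B4.dkap1_zero' hj]
      simp
  have t2 : Tendsto (fun j : ℕ => ∫ x, (((2 * ‖x.2.1‖ ^ 2 + qf x.2.2 : ℝ) : ℂ) * Φ x.2.2 - F x.2.2) *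
      ((B4.kap1 (((j : ℝ) + 1) * hM x.2) : ℂ) * X (PM x)) ∂B4.nu) atTop
      (𝓝 (∫ x, (fM Φ (PM x) - F (PM x).2.2) * X (PM x) ∂B4.nu)) := by
    refine tendsto_integral_of_dominated_convergence (fun x => C * B4.GG A x.2.2) ?_
      ((B4.nu_int hA).const_mul _) ?_ ?_
    · intro j
      refine Measurable.aestronglyMeasurable ?_
      have h2 := (B4.meas_k ((j : ℝ) + 1)).measurable
      have h3 := (hX.continuous.comp B4.PM_cont).measurable
      refine Measurable.mul ?_ (h2.mul h3)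
      fun_prop
    · intro j
      filter_upwards [B4.nu_ae] with x hx
      rw [norm_mul, norm_mul, Complex.norm_real, Real.norm_eq_abs]
      have h1 := B4.kap1_abs (((j : ℝ) + 1) * hM x.2)
      have h2 := B4.rhs_bd hF hΦ hx
      have h3 := hX0 (PM x)
      have hG := B4.GG_nonneg_of hA (B4.GM_facts hx).1
      calc _ ≤ B4.GG A x.2.2 * (1 * C) := by gcongr
        _ = _ := by ring
    · filter_upwards [B4.nu_ae] with x hx
      refine tendsto_const_nhds.congr' ?_
      filter_upwards [hnt (hM x.2) hx] with j hj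
      rw [B4.kap1_one hj.le]
      simp [fM, PM]
  refine tendsto_nhds_unique t1 (t2.congr fun j => ?_)
  exact (B4.key_n hFm hF hΦm hΦ hV hVb hweak hX hXc (by positivity)).symm

end Pool.Agent.Work.MP_e29078_an

end

section

/-! Formal adjoints on the model hypersurface. -/

open MeasureTheory Set Filter Topology
open scoped Real ComplexConjugate ContDiff ENNReal

namespace Pool.Agent.Work.MP_e29078_an

lemma exists_ext {K : Set C3} (hK : IsCompact K) {f : C3 → ℂ}
    (hf : ∀ p ∈ K, ContDiffAt ℝ 1 f p) :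
    ∃ g : C3 → ℂ, ContDiff ℝ 1 g ∧ HasCompactSupport g ∧ ∀ p ∈ K, g =ᶠ[𝓝 p] f := by
  classical
  let U : Set C3 := {q | ContDiffAt ℝ 1 f q}
  have hU : IsOpen U := by
    rw [isOpen_iff_mem_nhds]
    intro q hq
    exact ContDiffAt.eventually hq (by norm_num)
  obtain ⟨t, ht, hKt, htU⟩ := exists_compact_between hK hU hf
  obtain ⟨φ, h1, h0, -⟩ := exists_contMDiffMap_one_nhds_of_subset_interior (n := 1)
    (modelWithCornersSelf ℝ C3) hK.isClosed hKt
  have hφ : ContDiff ℝ 1 (fun p => (φ p : ℂ)) := by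
    have h2 : ContDiff ℝ 1 φ := by
      have := φ.contMDiff
      exact contMDiff_iff_contDiff.mp this
    exact Complex.ofRealCLM.contDiff.comp h2
  refine ⟨fun p => (φ p : ℂ) * f p, ?_, ?_, ?_⟩
  · rw [contDiff_iff_contDiffAt]
    intro q
    by_cases hq : q ∈ t
    · exact hφ.contDiffAt.mul (htU hq)
    · have h3 : (fun p => (φ p : ℂ) * f p) =ᶠ[𝓝 q] fun _ => 0 := by
        filter_upwards [ht.isClosed.isOpen_compl.mem_nhds hq] with q' hq'
        rw [h0 q' hq']; simp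
      exact contDiffAt_const.congr_of_eventuallyEq h3
  · refine HasCompactSupport.intro ht fun q hq => ?_
    rw [h0 q hq]; simp
  · intro p hp
    have h4 : ∀ᶠ x in 𝓝 p, φ x = 1 := by
      exact eventually_nhdsSet_iff_forall.mp h1 p hp
    filter_upwards [h4] with q hq
    rw [hq]; simp

instance muM_finite : IsFiniteMeasure muM := isVol_muM.finite

lemma ae_mem_Hyp : ∀ᵐ p ∂muM, p ∈ Hyp rM := by
  rw [ae_iff]; exact isVol_muM.supp

lemma restrict_Hyp : muM.restrict (Hyp rM) = muM :=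
  Measure.restrict_eq_self_of_ae_mem ae_mem_Hyp

lemma integrable_of_cont {E : Type} [NormedAddCommGroup E] [SecondCountableTopology E] {f : C3 → E}
    (hf : ∀ p ∈ Hyp rM, ContinuousAt f p) : Integrable f muM := by
  have h1 : ContinuousOn f (Hyp rM) := fun p hp => (hf p hp).continuousWithinAt
  have h2 := h1.integrableOn_compact (μ := muM) isPscHyp_rM.compact
  rwa [IntegrableOn, restrict_Hyp] at h2

lemma integral_congr_Hyp {f g : C3 → ℂ} (h : ∀ p ∈ Hyp rM, f p = g p) :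
    ∫ p, f p ∂muM = ∫ p, g p ∂muM := by
  apply integral_congr_ae
  filter_upwards [ae_mem_Hyp] with p hp using h p hp

/-- Integration by parts for functions that are `C¹` near the hypersurface. -/
lemma ibp_near {χ y : C3 → ℂ} (hχ : ∀ p ∈ Hyp rM, ContDiffAt ℝ 1 χ p)
    (hy : ∀ p ∈ Hyp rM, ContDiffAt ℝ 1 y p) (j k : Fin 3) :
    ∫ p, Lb rM j k χ p * y p ∂muM = -∫ p, χ p * Lb rM j k y p ∂muM := by
  obtain ⟨χ', hχ', hχc, hχe⟩ := exists_ext isPscHyp_rM.compact hχ
  obtain ⟨y', hy', hyc, hye⟩ := exists_ext isPscHyp_rM.compact hy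
  have h0 := integral_Lb_muM j k (fun p => χ' p * y' p) (hχ'.mul hy') hχc.mul_right
  have hd : ∀ p, Lb rM j k (fun p => χ' p * y' p) p =
      Lb rM j k χ' p * y' p + χ' p * Lb rM j k y' p := by
    intro p
    unfold Lb
    rw [dzb_mul (hχ'.differentiable (by norm_num) p) (hy'.differentiable (by norm_num) p),
      dzb_mul (hχ'.differentiable (by norm_num) p) (hy'.differentiable (by norm_num) p)]
    ring
  have hr : ∀ p, AnalyticAt ℝ (rc rM) p := fun p =>
    (Complex.ofRealCLM.analyticAt _).comp (isPscHyp_rM.analytic p)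
  have hLc : ∀ (u : C3 → ℂ), ContDiff ℝ 1 u → ∀ p, ContinuousAt (Lb rM j k u) p := by
    intro u hu p
    unfold Lb
    have h1 : ∀ i, ContinuousAt (dzb i (rc rM)) p := fun i => (analyticAt_dzb (hr p)).continuousAt
    have h2 : ∀ i, ContinuousAt (dzb i u) p := fun i =>
      (contDiffAt_dzb (n := 1) (m := 0) hu.contDiffAt (by norm_num)).continuousAt
    exact ((h1 j).mul (h2 k)).sub ((h1 k).mul (h2 j))
  simp_rw [hd] at h0
  rw [integral_add] at h0
  · have e1 : ∫ p, Lb rM j k χ p * y p ∂muM = ∫ p, Lb rM j k χ' p * y' p ∂muM := by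
      apply integral_congr_Hyp
      intro p hp
      unfold Lb
      rw [dzb_congr (hχe p hp), dzb_congr (hχe p hp), (hye p hp).eq_of_nhds]
    have e2 : ∫ p, χ p * Lb rM j k y p ∂muM = ∫ p, χ' p * Lb rM j k y' p ∂muM := by
      apply integral_congr_Hyp
      intro p hp
      unfold Lb
      rw [dzb_congr (hye p hp), dzb_congr (hye p hp), (hχe p hp).eq_of_nhds]
    rw [e1, e2]
    exact eq_neg_of_add_eq_zero_left h0
  · exact integrable_of_cont fun p _ => (hLc χ' hχ' p).mul hy'.continuous.continuousAt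
  · exact integrable_of_cont fun p _ => hχ'.continuous.continuousAt.mul (hLc y' hy' p)

/-! Smoothness near the hypersurface. -/

lemma rc_analytic (p : C3) : AnalyticAt ℝ (rc rM) p :=
  (Complex.ofRealCLM.analyticAt _).comp (isPscHyp_rM.analytic p)

lemma rc_smooth (p : C3) : ContDiffAt ℝ ∞ (rc rM) p := (rc_analytic p).contDiffAt

lemma smooth_dz {f : C3 → ℂ} {p : C3} (hf : ContDiffAt ℝ ∞ f p) (k : Fin 3) :
    ContDiffAt ℝ ∞ (dz k f) p := contDiffAt_dz hf (by simp)

lemma smooth_dzb {f : C3 → ℂ} {p : C3} (hf : ContDiffAt ℝ ∞ f p) (k : Fin 3) :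
    ContDiffAt ℝ ∞ (dzb k f) p := contDiffAt_dzb hf (by simp)

lemma gsq_eq (p : C3) : (gsq rM p : ℂ) = ∑ k, dz k (rc rM) p * dzb k (rc rM) p := by
  unfold gsq
  push_cast
  apply Finset.sum_congr rfl
  intro k _
  rw [dzb_rc, Complex.mul_conj, Complex.normSq_eq_norm_sq]
  push_cast; rfl

lemma gsq_eq_fun : (fun p => (gsq rM p : ℂ)) = fun p => ∑ k, dz k (rc rM) p * dzb k (rc rM) p :=
  funext gsq_eq

lemma gsq_smooth (p : C3) : ContDiffAt ℝ ∞ (fun p => (gsq rM p : ℂ)) p := by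
  rw [gsq_eq_fun]
  exact ContDiffAt.sum fun k _ => (smooth_dz (rc_smooth p) k).mul (smooth_dzb (rc_smooth p) k)

lemma gsq_analytic (p : C3) : AnalyticAt ℝ (fun p => (gsq rM p : ℂ)) p := by
  rw [gsq_eq_fun]
  exact Finset.analyticAt_fun_sum _ fun k _ =>
    (analyticAt_dz (rc_analytic p)).mul (analyticAt_dzb (rc_analytic p))

lemma gsq_pos {p : C3} (hp : p ∈ Hyp rM) : 0 < gsq rM p := by
  have h0 : 0 ≤ gsq rM p := by unfold gsq; positivity
  rcases h0.eq_or_lt with h | h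
  · exfalso
    have h1 : ∀ k, dz k (rc rM) p = 0 := by
      intro k
      have h2 : ∀ k ∈ Finset.univ, (0 : ℝ) ≤ ‖dz k (rc rM) p‖ ^ 2 := fun k _ => by positivity
      have h3 := (Finset.sum_eq_zero_iff_of_nonneg h2).mp h.symm k (Finset.mem_univ k)
      simpa using h3
    obtain ⟨a, b, c⟩ := dz_rM p
    rw [h1] at a b c
    have hz1 : p.1 = 0 := by
      have := a.symm; simpa using this
    have hz2 : p.2.1 = 0 := by
      have h4 := b.symm
      rcases mul_eq_zero.mp h4 with h5 | h5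
      · simpa using h5
      · have h6 : (2 * ‖p.2.1‖ ^ 2 + ‖1 - p.2.2‖ ^ 2 : ℝ) = 0 := by exact_mod_cast h5
        have h7 : ‖p.2.1‖ ^ 2 = 0 := by nlinarith [sq_nonneg ‖p.2.1‖, sq_nonneg ‖1 - p.2.2‖]
        simpa using h7
    have hw : p.2.2 = 0 := by
      rw [hz2] at c
      simpa using c.symm
    have h8 : rM p = 0 := hp
    unfold rM at h8
    rw [hz1, hz2, hw] at h8
    norm_num at h8
  · exact h

lemma gsq_ne {p : C3} (hp : p ∈ Hyp rM) : (gsq rM p : ℂ) ≠ 0 := by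
  exact_mod_cast (gsq_pos hp).ne'

lemma div_gsq {f : C3 → ℂ} {p : C3} (hp : p ∈ Hyp rM) (hf : ContDiffAt ℝ ∞ f p) :
    ContDiffAt ℝ ∞ (fun q => f q / (gsq rM q : ℂ)) p := by
  have h : (fun q => f q / (gsq rM q : ℂ)) =
      fun q => f q * ((fun q => (gsq rM q : ℂ)) q)⁻¹ := by ext; rw [div_eq_mul_inv]
  rw [h]
  exact hf.mul (ContDiffAt.inv (gsq_smooth p) (gsq_ne hp))

lemma div_gsq_analytic {f : C3 → ℂ} {p : C3} (hp : p ∈ Hyp rM) (hf : AnalyticAt ℝ f p) :
    AnalyticAt ℝ (fun q => f q / (gsq rM q : ℂ)) p := by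
  have h : (fun q => f q / (gsq rM q : ℂ)) =
      fun q => f q * ((fun q => (gsq rM q : ℂ)) q)⁻¹ := by ext; rw [div_eq_mul_inv]
  rw [h]
  exact hf.mul (AnalyticAt.inv (gsq_analytic p) (gsq_ne hp))

lemma Lz_smooth {f : C3 → ℂ} {p : C3} (hf : ContDiffAt ℝ ∞ f p) (j k : Fin 3) :
    ContDiffAt ℝ ∞ (Lz rM j k f) p := by
  unfold Lz
  exact ((smooth_dz (rc_smooth p) j).mul (smooth_dz hf k)).sub
    ((smooth_dz (rc_smooth p) k).mul (smooth_dz hf j))

lemma Lb_smooth {f : C3 → ℂ} {p : C3} (hf : ContDiffAt ℝ ∞ f p) (j k : Fin 3) :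
    ContDiffAt ℝ ∞ (Lb rM j k f) p := by
  unfold Lb
  exact ((smooth_dzb (rc_smooth p) j).mul (smooth_dzb hf k)).sub
    ((smooth_dzb (rc_smooth p) k).mul (smooth_dzb hf j))

lemma conj_smooth {f : C3 → ℂ} {p : C3} {n : WithTop ℕ∞} (hf : ContDiffAt ℝ n f p) :
    ContDiffAt ℝ n (fun q => conj (f q)) p :=
  (Complex.conjCLE : ℂ →L[ℝ] ℂ).contDiff.contDiffAt.comp p hf

lemma conj_Lz (f : C3 → ℂ) (j k : Fin 3) (p : C3) :
    conj (Lz rM j k f p) = Lb rM j k (fun q => conj (f q)) p := by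
  unfold Lz Lb
  rw [map_sub, map_mul, map_mul, dzb_rc, dzb_rc, dzb_conj, dzb_conj]

lemma comp_smooth {ψ : C3 → Fin 3 → ℂ} {p : C3} {n : WithTop ℕ∞} (hψ : ContDiffAt ℝ n ψ p)
    (k : Fin 3) : ContDiffAt ℝ n (fun q => ψ q k) p := (contDiffAt_pi.mp hψ) k

lemma dbarb_smooth {χ : C3 → ℂ} (hχ : SmoothNear (Hyp rM) χ) :
    SmoothNear (Hyp rM) (dbarb rM χ) := by
  intro p hp
  rw [contDiffAt_pi]
  intro k
  unfold dbarb
  exact (smooth_dzb (hχ p hp) k).sub
    ((div_gsq hp (ContDiffAt.sum fun j _ => (smooth_dz (rc_smooth p) j).mul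
      (smooth_dzb (hχ p hp) j))).mul (smooth_dzb (rc_smooth p) k))

lemma inner_smooth {ψ : C3 → Fin 3 → ℂ} {p : C3} (hp : p ∈ Hyp rM) (hψ : ContDiffAt ℝ ∞ ψ p)
    (j k : Fin 3) :
    ContDiffAt ℝ ∞ (fun q => dzb j (rc rM) q * ψ q k / (gsq rM q : ℂ)) p :=
  div_gsq hp ((smooth_dzb (rc_smooth p) j).mul (comp_smooth hψ k))

lemma dbarbStar_smooth {ψ : C3 → Fin 3 → ℂ} (hψ : SmoothNear (Hyp rM) ψ) :
    SmoothNear (Hyp rM) (dbarbStar rM ψ) := by
  intro p hp
  unfold dbarbStar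
  exact (ContDiffAt.sum fun j _ => ContDiffAt.sum fun k _ =>
    Lz_smooth (inner_smooth hp (hψ p hp) j k) j k).neg

lemma dbarb2_smooth {ψ : C3 → Fin 3 → ℂ} (hψ : SmoothNear (Hyp rM) ψ) :
    SmoothNear (Hyp rM) (dbarb2 rM ψ) := by
  intro p hp
  unfold dbarb2
  exact ((Lb_smooth (comp_smooth (hψ p hp) 0) 1 2).add
    (Lb_smooth (comp_smooth (hψ p hp) 1) 2 0)).add (Lb_smooth (comp_smooth (hψ p hp) 2) 0 1)

lemma dbarb2Star_smooth {σ : C3 → ℂ} (hσ : SmoothNear (Hyp rM) σ) :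
    SmoothNear (Hyp rM) (dbarb2Star rM σ) := by
  intro p hp
  rw [contDiffAt_pi]
  intro k
  unfold dbarb2Star
  exact (Lz_smooth (div_gsq hp (hσ p hp)) _ _).neg

/-- on the hypersurface `(\bar∂_b χ)_k = |∂r|^{-2} ∑_j r_{z_j} L̄_{jk} χ` -/
lemma dbarb_eq (χ : C3 → ℂ) {p : C3} (hp : p ∈ Hyp rM) (k : Fin 3) :
    dbarb rM χ p k = ∑ j, dz j (rc rM) p / (gsq rM p : ℂ) * Lb rM j k χ p := by
  have hg := gsq_ne hp
  have h1 : (∑ j, dz j (rc rM) p / (gsq rM p : ℂ) * Lb rM j k χ p) =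
      (∑ j, dz j (rc rM) p * dzb j (rc rM) p) / (gsq rM p : ℂ) * dzb k χ p -
      (∑ j, dz j (rc rM) p * dzb j χ p) / (gsq rM p : ℂ) * dzb k (rc rM) p := by
    unfold Lb
    simp only [Fin.sum_univ_three]
    ring
  rw [h1, ← gsq_eq, div_self hg, one_mul]
  rfl

/-- first adjoint relation, for arbitrary `C¹` functions -/
lemma adj1_gen (χ : C3 → ℂ) (ψ : C3 → Fin 3 → ℂ) (hχ : SmoothNear (Hyp rM) χ)
    (hψ : SmoothNear (Hyp rM) ψ) :
    ∫ p, ∑ k, dbarb rM χ p k * conj (ψ p k) ∂muM = ∫ p, χ p * conj (dbarbStar rM ψ p) ∂muM := by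
  let y : Fin 3 → Fin 3 → C3 → ℂ := fun j k q =>
    conj (dzb j (rc rM) q * ψ q k / (gsq rM q : ℂ))
  have hy : ∀ j k, ∀ p ∈ Hyp rM, ContDiffAt ℝ ∞ (y j k) p := fun j k p hp =>
    conj_smooth (inner_smooth hp (hψ p hp) j k)
  have hy1 : ∀ j k, ∀ p ∈ Hyp rM, ContDiffAt ℝ 1 (y j k) p := fun j k p hp =>
    (hy j k p hp).of_le (by exact_mod_cast le_top)
  have hχ1 : ∀ p ∈ Hyp rM, ContDiffAt ℝ 1 χ p := fun p hp =>
    (hχ p hp).of_le (by exact_mod_cast le_top)
  have e1 : ∫ p, ∑ k, dbarb rM χ p k * conj (ψ p k) ∂muM =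
      ∫ p, ∑ j, ∑ k, Lb rM j k χ p * y j k p ∂muM := by
    apply integral_congr_Hyp
    intro p hp
    rw [Finset.sum_comm]
    apply Finset.sum_congr rfl
    intro k _
    rw [dbarb_eq χ hp, Finset.sum_mul]
    apply Finset.sum_congr rfl
    intro j _
    simp only [y]
    rw [map_div₀, map_mul, dzb_rc, Complex.conj_conj, Complex.conj_ofReal]
    ring
  have e2 : ∫ p, χ p * conj (dbarbStar rM ψ p) ∂muM =
      ∫ p, ∑ j, ∑ k, -(χ p * Lb rM j k (y j k) p) ∂muM := by
    congr 1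
    ext p
    unfold dbarbStar
    rw [map_neg, map_sum, mul_neg, Finset.mul_sum, ← Finset.sum_neg_distrib]
    apply Finset.sum_congr rfl
    intro j _
    rw [map_sum, Finset.mul_sum, ← Finset.sum_neg_distrib]
    apply Finset.sum_congr rfl
    intro k _
    rw [conj_Lz]
  have hc : ∀ j k, Integrable (fun p => Lb rM j k χ p * y j k p) muM := fun j k =>
    integrable_of_cont fun p hp =>
      (Lb_smooth (hχ p hp) j k).continuousAt.mul (hy j k p hp).continuousAt
  have hc2 : ∀ j k, Integrable (fun p => -(χ p * Lb rM j k (y j k) p)) muM := fun j k =>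
    (integrable_of_cont fun p hp =>
      (hχ p hp).continuousAt.mul (Lb_smooth (hy j k p hp) j k).continuousAt).neg
  rw [e1, e2, integral_finsetSum _ fun j _ => integrable_finsetSum _ fun k _ => hc j k,
    integral_finsetSum _ fun j _ => integrable_finsetSum _ fun k _ => hc2 j k]
  apply Finset.sum_congr rfl
  intro j _
  rw [integral_finsetSum _ fun k _ => hc j k, integral_finsetSum _ fun k _ => hc2 j k]
  apply Finset.sum_congr rfl
  intro k _
  rw [ibp_near hχ1 (hy1 j k) j k, integral_neg]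

lemma adj2_gen (ψ : C3 → Fin 3 → ℂ) (σ : C3 → ℂ) (hψ : SmoothNear (Hyp rM) ψ)
    (hσ : SmoothNear (Hyp rM) σ) :
    ∫ p, dbarb2 rM ψ p * conj (σ p) / (gsq rM p : ℂ) ∂muM =
      ∫ p, ∑ k, ψ p k * conj (dbarb2Star rM σ p k) ∂muM := by
  let y : C3 → ℂ := fun q => conj (σ q / (gsq rM q : ℂ))
  have hy : ∀ p ∈ Hyp rM, ContDiffAt ℝ ∞ y p := fun p hp =>
    conj_smooth (div_gsq hp (hσ p hp))
  have hy1 : ∀ p ∈ Hyp rM, ContDiffAt ℝ 1 y p := fun p hp =>
    (hy p hp).of_le (by exact_mod_cast le_top)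
  have hψ1 : ∀ k, ∀ p ∈ Hyp rM, ContDiffAt ℝ 1 (fun q => ψ q k) p := fun k p hp =>
    (comp_smooth (hψ p hp) k).of_le (by exact_mod_cast le_top)
  have e1 : ∫ p, dbarb2 rM ψ p * conj (σ p) / (gsq rM p : ℂ) ∂muM =
      ∫ p, ∑ k, Lb rM (k + 1) (k + 2) (fun q => ψ q k) p * y p ∂muM := by
    congr 1
    ext p
    simp only [Fin.sum_univ_three, y]
    rw [map_div₀, Complex.conj_ofReal]
    unfold dbarb2
    have i1 : (0 : Fin 3) + 1 = 1 := rfl
    have i2 : (0 : Fin 3) + 2 = 2 := rfl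
    have i3 : (1 : Fin 3) + 1 = 2 := rfl
    have i4 : (1 : Fin 3) + 2 = 0 := rfl
    have i5 : (2 : Fin 3) + 1 = 0 := rfl
    have i6 : (2 : Fin 3) + 2 = 1 := rfl
    rw [i1, i2, i3, i4, i5, i6]
    ring
  have e2 : ∫ p, ∑ k, ψ p k * conj (dbarb2Star rM σ p k) ∂muM =
      ∫ p, ∑ k : Fin 3, -(ψ p k * Lb rM (k + 1) (k + 2) y p) ∂muM := by
    congr 1
    ext p
    apply Finset.sum_congr rfl
    intro k _
    unfold dbarb2Star
    rw [map_neg, conj_Lz, mul_neg]
  have hc : ∀ k : Fin 3, Integrable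
      (fun p => Lb rM (k + 1) (k + 2) (fun q => ψ q k) p * y p) muM := fun k =>
    integrable_of_cont fun p hp =>
      (Lb_smooth (comp_smooth (hψ p hp) k) _ _).continuousAt.mul (hy p hp).continuousAt
  have hc2 : ∀ k : Fin 3, Integrable
      (fun p => -(ψ p k * Lb rM (k + 1) (k + 2) y p)) muM := fun k =>
    (integrable_of_cont fun p hp =>
      (comp_smooth (hψ p hp) k).continuousAt.mul (Lb_smooth (hy p hp) _ _).continuousAt).neg
  rw [e1, e2, integral_finsetSum _ fun k _ => hc k, integral_finsetSum _ fun k _ => hc2 k]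
  apply Finset.sum_congr rfl
  intro k _
  rw [ibp_near (hψ1 k) hy1, integral_neg]

theorem formalAdj_rM : FormalAdj rM muM :=
  ⟨fun χ ψ hχ hψ _ => adj1_gen χ ψ hχ hψ, fun ψ σ hψ hσ _ => adj2_gen ψ σ hψ hσ⟩

/-- `\bar∂_b² = 0` -/
lemma dbarb2_dbarb {χ : C3 → ℂ} (hχ : SmoothNear (Hyp rM) χ) {p : C3} (hp : p ∈ Hyp rM) :
    dbarb2 rM (dbarb rM χ) p = 0 := by
  let c : C3 → ℂ := fun q => (∑ j, dz j (rc rM) q * dzb j χ q) / (gsq rM q : ℂ)
  have hc : ContDiffAt ℝ ∞ c p :=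
    div_gsq hp (ContDiffAt.sum fun j _ => (smooth_dz (rc_smooth p) j).mul
      (smooth_dzb (hχ p hp) j))
  have hcd : DifferentiableAt ℝ c p := hc.differentiableAt (by simp)
  have hXd : ∀ k, DifferentiableAt ℝ (dzb k χ) p := fun k =>
    (smooth_dzb (hχ p hp) k).differentiableAt (by simp)
  have hRd : ∀ k, DifferentiableAt ℝ (dzb k (rc rM)) p := fun k =>
    (smooth_dzb (rc_smooth p) k).differentiableAt (by simp)
  have key : ∀ i k, dzb i (fun q => dbarb rM χ q k) p =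
      dzb i (dzb k χ) p - (dzb i c p * dzb k (rc rM) p + c p * dzb i (dzb k (rc rM)) p) := by
    intro i k
    have h1 : (fun q => dbarb rM χ q k) = fun q => dzb k χ q - c q * dzb k (rc rM) q := rfl
    have h2 : DifferentiableAt ℝ (fun q => c q * dzb k (rc rM) q) p := hcd.mul (hRd k)
    rw [h1, dzb_sub (hXd k) h2, dzb_mul hcd (hRd k)]
  have h2i : (2 : WithTop ℕ∞) ≤ ((⊤ : ℕ∞) : WithTop ℕ∞) :=
    (WithTop.coe_le_coe.mpr le_top : ((2 : ℕ∞) : WithTop ℕ∞) ≤ ((⊤ : ℕ∞) : WithTop ℕ∞))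
  have hX2 : ContDiffAt ℝ 2 χ p := (hχ p hp).of_le h2i
  have hR2 : ContDiffAt ℝ 2 (rc rM) p := (rc_smooth p).of_le h2i
  unfold dbarb2 Lb
  rw [key, key, key, key, key, key]
  rw [dzb_dzb_comm (j := 0) (k := 1) hX2, dzb_dzb_comm (j := 0) (k := 2) hX2,
    dzb_dzb_comm (j := 1) (k := 2) hX2, dzb_dzb_comm (j := 0) (k := 1) hR2,
    dzb_dzb_comm (j := 0) (k := 2) hR2, dzb_dzb_comm (j := 1) (k := 2) hR2]
  ring

end Pool.Agent.Work.MP_e29078_an

end

section

/-! Projection onto the closure of the range of `\bar∂_b`. -/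

open MeasureTheory Set Filter Topology
open scoped Real ComplexConjugate ContDiff ENNReal InnerProductSpace

namespace Pool.Agent.Work.MP_e29078_an

/-- `ℂ³` as an inner product space. -/
abbrev E3 : Type := EuclideanSpace ℂ (Fin 3)

noncomputable def toE (ψ : C3 → Fin 3 → ℂ) (p : C3) : E3 := WithLp.toLp 2 (ψ p)

lemma toE_memLp {ψ : C3 → Fin 3 → ℂ} (h : ∀ k, MemLp (fun p => ψ p k) 2 muM) :
    MemLp (toE ψ) 2 muM := MemLp.of_eval_piLp h

lemma memLp_of_cont {f : C3 → ℂ} (hf : ∀ p ∈ Hyp rM, ContinuousAt f p) : MemLp f 2 muM := by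
  have h1 : ContinuousOn f (Hyp rM) := fun p hp => (hf p hp).continuousWithinAt
  have hm : AEStronglyMeasurable f muM := by
    have := h1.aestronglyMeasurable (μ := muM) isPscHyp_rM.compact.isClosed.measurableSet
    rwa [restrict_Hyp] at this
  obtain ⟨C, hC⟩ := isPscHyp_rM.compact.exists_bound_of_continuousOn h1
  refine MemLp.of_bound hm C ?_
  filter_upwards [ae_mem_Hyp] with p hp using hC p hp

lemma memLp_of_smooth {ψ : C3 → Fin 3 → ℂ} (hψ : SmoothNear (Hyp rM) ψ) (k : Fin 3) :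
    MemLp (fun p => ψ p k) 2 muM :=
  memLp_of_cont fun p hp => (comp_smooth (hψ p hp) k).continuousAt

lemma inner_toE (a b : C3 → Fin 3 → ℂ) (p : C3) :
    ⟪toE a p, toE b p⟫_ℂ = ∑ k, b p k * conj (a p k) := by
  unfold toE
  rw [PiLp.inner_apply]
  simp [RCLike.inner_apply]

lemma inner_toLp {a b : C3 → Fin 3 → ℂ} (ha : MemLp (toE a) 2 muM) (hb : MemLp (toE b) 2 muM) :
    ⟪ha.toLp, hb.toLp⟫_ℂ = ∫ p, ∑ k, b p k * conj (a p k) ∂muM := by
  rw [L2.inner_def]
  apply integral_congr_ae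
  filter_upwards [ha.coeFn_toLp, hb.coeFn_toLp] with p h1 h2
  rw [h1, h2, inner_toE]

lemma exists_proj (u₀ : C3 → Fin 3 → ℂ) (h : ∀ k, MemLp (fun p => u₀ p k) 2 muM) :
    ∃ u : C3 → Fin 3 → ℂ, (∀ k, MemLp (fun p => u p k) 2 muM) ∧
      (∀ χ : C3 → ℂ, SmoothNear (Hyp rM) χ → ∫ p, ∑ k, u p k * conj (dbarb rM χ p k) ∂muM =
        ∫ p, ∑ k, u₀ p k * conj (dbarb rM χ p k) ∂muM) ∧
      (∀ η : C3 → Fin 3 → ℂ, SmoothNear (Hyp rM) η →
        (∀ χ : C3 → ℂ, SmoothNear (Hyp rM) χ →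
          ∫ p, ∑ k, dbarb rM χ p k * conj (η p k) ∂muM = 0) →
        ∫ p, ∑ k, u p k * conj (η p k) ∂muM = 0) := by
  classical
  let hm : ∀ χ : C3 → ℂ, SmoothNear (Hyp rM) χ → MemLp (toE (dbarb rM χ)) 2 muM :=
    fun χ hχ => toE_memLp (memLp_of_smooth (dbarb_smooth hχ))
  let S : Submodule ℂ (Lp E3 2 muM) := Submodule.span ℂ
    {a | ∃ (χ : C3 → ℂ) (hχ : SmoothNear (Hyp rM) χ), a = (hm χ hχ).toLp}
  let K := S.topologicalClosure
  have : CompleteSpace K := S.isClosed_topologicalClosure.completeSpace_coe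
  have h0 : MemLp (toE u₀) 2 muM := toE_memLp h
  let U : Lp E3 2 muM := K.starProjection h0.toLp
  let u : C3 → Fin 3 → ℂ := fun p k => (U p) k
  have hu : toE u = U := by
    ext p k; rfl
  have huL : MemLp (toE u) 2 muM := by rw [hu]; exact Lp.memLp U
  have huU : huL.toLp = U := by
    apply Lp.ext
    exact huL.coeFn_toLp.trans (Eventually.of_forall fun p => congrFun hu p)
  refine ⟨u, ?_, ?_, ?_⟩
  · exact fun k => huL.eval_piLp k
  · intro χ hχ
    rw [← inner_toLp (hm χ hχ) huL, ← inner_toLp (hm χ hχ) h0, huU]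
    have h2 : (hm χ hχ).toLp ∈ K := S.le_topologicalClosure (Submodule.subset_span ⟨χ, hχ, rfl⟩)
    have h3 := Submodule.starProjection_inner_eq_zero (K := K) h0.toLp (hm χ hχ).toLp h2
    have h4 : ⟪(hm χ hχ).toLp, h0.toLp - U⟫_ℂ = 0 := inner_eq_zero_symm.mp h3
    rw [inner_sub_right, sub_eq_zero] at h4
    exact h4.symm
  · intro η hη horth
    have hηL : MemLp (toE η) 2 muM := toE_memLp (memLp_of_smooth hη)
    rw [← inner_toLp hηL huL, huU]
    have h5 : hηL.toLp ∈ Kᗮ := by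
      rw [Submodule.orthogonal_closure, Submodule.mem_orthogonal]
      intro a ha
      induction ha using Submodule.span_induction with
      | mem x hx =>
        obtain ⟨χ, hχ, rfl⟩ := hx
        apply inner_eq_zero_symm.mp
        rw [inner_toLp hηL (hm χ hχ)]
        exact horth χ hχ
      | zero => exact inner_zero_left _
      | add x y _ _ hx hy => rw [inner_add_left, hx, hy, add_zero]
      | smul c x _ hx => rw [inner_smul_left, hx, mul_zero]
    have h6 : U ∈ K := Submodule.starProjection_apply_mem K _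
    exact inner_eq_zero_symm.mp ((Submodule.mem_orthogonal K _).mp h5 U h6)

/-- pointwise orthogonal correction -/
noncomputable def orthc (u : C3 → Fin 3 → ℂ) (p : C3) (k : Fin 3) : ℂ :=
  u p k - (∑ j, dz j (rc rM) p * u p j) / (gsq rM p : ℂ) * dzb k (rc rM) p

lemma orthc_isForm (u : C3 → Fin 3 → ℂ) : IsForm rM (orthc u) := by
  intro p hp
  have hg := gsq_ne hp
  unfold orthc
  have h1 : (∑ k, dz k (rc rM) p * (u p k - (∑ j, dz j (rc rM) p * u p j) / (gsq rM p : ℂ) *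
      dzb k (rc rM) p)) = (∑ j, dz j (rc rM) p * u p j) - (∑ j, dz j (rc rM) p * u p j) /
      (gsq rM p : ℂ) * ∑ k, dz k (rc rM) p * dzb k (rc rM) p := by
    simp only [Fin.sum_univ_three]; ring
  rw [h1, ← gsq_eq, div_mul_cancel₀ _ hg, sub_self]

lemma orthc_pair (u ψ : C3 → Fin 3 → ℂ) (hψ : IsForm rM ψ) {p : C3} (hp : p ∈ Hyp rM) :
    ∑ k, orthc u p k * conj (ψ p k) = ∑ k, u p k * conj (ψ p k) := by
  have h1 : ∑ k, dzb k (rc rM) p * conj (ψ p k) = 0 := by
    have h2 := congrArg conj (hψ p hp)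
    simp only [map_sum, map_mul, map_zero] at h2
    simpa only [dzb_rc] using h2
  unfold orthc
  have h3 : ∑ k, (u p k - (∑ j, dz j (rc rM) p * u p j) / (gsq rM p : ℂ) * dzb k (rc rM) p) *
      conj (ψ p k) = ∑ k, u p k * conj (ψ p k) - (∑ j, dz j (rc rM) p * u p j) /
      (gsq rM p : ℂ) * ∑ k, dzb k (rc rM) p * conj (ψ p k) := by
    simp only [Fin.sum_univ_three]; ring
  rw [h3, h1, mul_zero, sub_zero]

lemma dbarb_isForm (χ : C3 → ℂ) : IsForm rM (dbarb rM χ) := by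
  intro p hp
  have hg := gsq_ne hp
  unfold dbarb
  have h1 : (∑ k, dz k (rc rM) p * (dzb k χ p - (∑ j, dz j (rc rM) p * dzb j χ p) /
      (gsq rM p : ℂ) * dzb k (rc rM) p)) = (∑ j, dz j (rc rM) p * dzb j χ p) -
      (∑ j, dz j (rc rM) p * dzb j χ p) /
      (gsq rM p : ℂ) * ∑ k, dz k (rc rM) p * dzb k (rc rM) p := by
    simp only [Fin.sum_univ_three]; ring
  rw [h1, ← gsq_eq, div_mul_cancel₀ _ hg, sub_self]

lemma memLp_mul_bdd {f c : C3 → ℂ} (hf : MemLp f 2 muM) (hc : ∀ p ∈ Hyp rM, ContinuousAt c p) :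
    MemLp (fun p => c p * f p) 2 muM := by
  have h1 : ContinuousOn c (Hyp rM) := fun p hp => (hc p hp).continuousWithinAt
  have hm : AEStronglyMeasurable c muM := by
    have := h1.aestronglyMeasurable (μ := muM) isPscHyp_rM.compact.isClosed.measurableSet
    rwa [restrict_Hyp] at this
  obtain ⟨C, hC⟩ := isPscHyp_rM.compact.exists_bound_of_continuousOn h1
  refine MemLp.of_le_mul (c := C) hf (hm.mul hf.aestronglyMeasurable) ?_
  filter_upwards [ae_mem_Hyp] with p hp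
  rw [norm_mul]
  exact mul_le_mul_of_nonneg_right (hC p hp) (norm_nonneg _)

lemma orthc_memLp {u : C3 → Fin 3 → ℂ} (hu : ∀ k, MemLp (fun p => u p k) 2 muM) (k : Fin 3) :
    MemLp (fun p => orthc u p k) 2 muM := by
  have h1 : (fun p => orthc u p k) = fun p => u p k -
      ∑ j, (dz j (rc rM) p / (gsq rM p : ℂ) * dzb k (rc rM) p) * u p j := by
    ext p
    unfold orthc
    simp only [Fin.sum_univ_three]; ring
  rw [h1]
  refine (hu k).sub (memLp_finsetSum _ fun j _ => memLp_mul_bdd (hu j) fun p hp => ?_)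
  exact ((div_gsq hp (smooth_dz (rc_smooth p) j)).continuousAt).mul
    (smooth_dzb (rc_smooth p) k).continuousAt

/-- The projected form. -/
lemma exists_form (u₀ : C3 → Fin 3 → ℂ) (h : ∀ k, MemLp (fun p => u₀ p k) 2 muM) :
    ∃ u : C3 → Fin 3 → ℂ, (∀ k, MemLp (fun p => u p k) 2 muM) ∧ IsForm rM u ∧
      (∀ χ : C3 → ℂ, SmoothNear (Hyp rM) χ → ∫ p, ∑ k, u p k * conj (dbarb rM χ p k) ∂muM =
        ∫ p, ∑ k, u₀ p k * conj (dbarb rM χ p k) ∂muM) ∧
      (∀ η : C3 → Fin 3 → ℂ, SmoothNear (Hyp rM) η → IsForm rM η →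
        (∀ χ : C3 → ℂ, SmoothNear (Hyp rM) χ →
          ∫ p, ∑ k, dbarb rM χ p k * conj (η p k) ∂muM = 0) →
        ∫ p, ∑ k, u p k * conj (η p k) ∂muM = 0) := by
  obtain ⟨u, hu, h1, h2⟩ := exists_proj u₀ h
  refine ⟨orthc u, orthc_memLp hu, orthc_isForm u, fun χ hχ => ?_, fun η hη hf ho => ?_⟩
  · rw [← h1 χ hχ]
    exact integral_congr_Hyp fun p hp => orthc_pair u _ (dbarb_isForm χ) hp
  · rw [← h2 η hη ho]
    exact integral_congr_Hyp fun p hp => orthc_pair u _ hf hp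

lemma dbarb2Star_isForm (σ : C3 → ℂ) : IsForm rM (dbarb2Star rM σ) := by
  intro p _
  unfold dbarb2Star Lz
  simp only [Fin.sum_univ_three]
  have i1 : (0 : Fin 3) + 1 = 1 := rfl
  have i2 : (0 : Fin 3) + 2 = 2 := rfl
  have i3 : (1 : Fin 3) + 1 = 2 := rfl
  have i4 : (1 : Fin 3) + 2 = 0 := rfl
  have i5 : (2 : Fin 3) + 1 = 0 := rfl
  have i6 : (2 : Fin 3) + 2 = 1 := rfl
  rw [i1, i2, i3, i4, i5, i6]
  ring

end Pool.Agent.Work.MP_e29078_an

end

section

/-! Assembly: the form `u` with `□_b u` real analytic and `u` not real analytic. -/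

open MeasureTheory Set Filter Topology
open scoped Real ComplexConjugate ContDiff ENNReal

namespace Pool.Agent.Work.MP_e29078_an

/-- The CR function `F = (1-w) ∑ g_n w^n`, cut to the closed disc. -/
noncomputable def Fg (g : ℕ → ℂ) (w : ℂ) : ℂ :=
  open Classical in if ‖w‖ ≤ 1 then (1 - w) * ∑' n, g n * w ^ n else 0

section
variable {g : ℕ → ℂ} (hg : Summable (fun n => ‖g n‖))
include hg

lemma Fg_cont : ContinuousOn (Fg g) (Metric.closedBall 0 1) := by
  have h1 : ContinuousOn (fun w : ℂ => (1 - w) * ∑' n, g n * w ^ n) (Metric.closedBall 0 1) := by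
    apply ContinuousOn.mul (by fun_prop)
    apply continuousOn_tsum (u := fun n => ‖g n‖) (fun n => by fun_prop) hg
    intro n w hw
    rw [norm_mul, norm_pow]
    have : ‖w‖ ^ n ≤ 1 := pow_le_one₀ (norm_nonneg _) (by simpa using hw)
    exact mul_le_of_le_one_right (norm_nonneg _) this
  refine h1.congr fun w hw => ?_
  unfold Fg
  rw [if_pos (by simpa using hw)]

lemma Fg_bound (w : ℂ) : ‖Fg g w‖ ≤ 2 * ∑' n, ‖g n‖ := by
  have hS : 0 ≤ ∑' n, ‖g n‖ := tsum_nonneg fun _ => norm_nonneg _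
  unfold Fg
  split_ifs with h
  · rw [norm_mul]
    have h1 : ‖1 - w‖ ≤ 2 := by
      calc ‖1 - w‖ ≤ ‖(1 : ℂ)‖ + ‖w‖ := norm_sub_le _ _
        _ ≤ 2 := by rw [norm_one]; linarith
    have h2 : ‖∑' n, g n * w ^ n‖ ≤ ∑' n, ‖g n‖ := by
      refine tsum_of_norm_bounded hg.hasSum fun n => ?_
      rw [norm_mul, norm_pow]
      have : ‖w‖ ^ n ≤ 1 := pow_le_one₀ (norm_nonneg _) h
      exact mul_le_of_le_one_right (norm_nonneg _) this
    exact mul_le_mul h1 h2 (norm_nonneg _) (by norm_num)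
  · simpa using hS

lemma Fg_meas : Measurable (Fg g) := by
  classical
  have h1 : ContinuousOn (Fg g) (Metric.closedBall 0 1) := Fg_cont hg
  have h2 := h1.measurable_piecewise (g := fun _ => (0 : ℂ)) continuousOn_const
    Metric.isClosed_closedBall.measurableSet
  convert h2 using 1
  ext w
  by_cases h : ‖w‖ ≤ 1
  · rw [Set.piecewise_eq_of_mem _ _ _ (by simpa using h)]
  · rw [Set.piecewise_eq_of_notMem _ _ _ (by simpa using h)]
    unfold Fg; rw [if_neg h]

end

/-- `Φ` cut to the closed disc. -/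
noncomputable def cut (Φ : ℂ → ℂ) (w : ℂ) : ℂ := open Classical in if ‖w‖ ≤ 1 then Φ w else 0

lemma cut_bound {Φ : ℂ → ℂ} (hΦ : ContinuousOn Φ (Metric.closedBall 0 1)) :
    ∃ C, ∀ w, ‖cut Φ w‖ ≤ C := by
  obtain ⟨C, hC⟩ := (isCompact_closedBall (0 : ℂ) 1).exists_bound_of_continuousOn hΦ
  refine ⟨max C 0, fun w => ?_⟩
  unfold cut
  split_ifs with h
  · exact (hC w (by simpa using h)).trans (le_max_left _ _)
  · simp

lemma cut_meas {Φ : ℂ → ℂ} (hΦ : ContinuousOn Φ (Metric.closedBall 0 1)) :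
    Measurable (cut Φ) := by
  classical
  have h2 := hΦ.measurable_piecewise (g := fun _ => (0 : ℂ)) continuousOn_const
    Metric.isClosed_closedBall.measurableSet
  convert h2 using 1
  ext w
  unfold cut
  by_cases h : ‖w‖ ≤ 1
  · rw [Set.piecewise_eq_of_mem _ _ _ (by simpa using h), if_pos h]
  · rw [Set.piecewise_eq_of_notMem _ _ _ (by simpa using h), if_neg h]

lemma norm_w_le {p : C3} (hp : p ∈ Hyp rM) : ‖p.2.2‖ ≤ 1 := by
  have h : rM p = 0 := hp
  unfold rM at h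
  have h1 : ‖p.2.2‖ ^ 2 ≤ 1 := by
    have : 0 ≤ ‖p.1‖ ^ 2 + ‖p.2.1‖ ^ 4 + ‖1 - p.2.2‖ ^ 2 * ‖p.2.1‖ ^ 2 := by positivity
    linarith
  exact (sq_le_one_iff₀ (norm_nonneg _)).mp h1

lemma sf_bound {w : ℂ} (hw : ‖w‖ < 1) : |sf w| ≤ 1 := by
  unfold sf
  rw [abs_le]
  constructor <;> nlinarith [norm_nonneg w]

lemma rho_bound {w : ℂ} (hw : ‖w‖ < 1) : |rho w| ≤ 1 := by
  have hs0 : 0 < sf w := by unfold sf; nlinarith [norm_nonneg w]
  have hs1 : sf w ≤ 1 := by unfold sf; nlinarith [norm_nonneg w]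
  have hq : 0 ≤ qf w := by unfold qf; positivity
  unfold rho
  have h1 : √(qf w ^ 2 + 4 * sf w) ≤ qf w + 2 := by
    rw [Real.sqrt_le_left (by linarith)]
    nlinarith
  have h2 : qf w ≤ √(qf w ^ 2 + 4 * sf w) := by
    apply Real.le_sqrt_of_sq_le; linarith
  rw [abs_le]
  constructor <;> linarith

lemma sf_meas : Measurable sf := by unfold sf; fun_prop
lemma qf_meas : Measurable qf := by unfold qf; fun_prop
lemma rho_meas : Measurable rho := by
  unfold rho
  have h1 := sf_meas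
  have h2 := qf_meas
  fun_prop

/-- The potential `V` for given `g`, `Φ`. -/
lemma exists_V {g : ℕ → ℂ} (hg : Summable (fun n => ‖g n‖)) {Φ : ℂ → ℂ}
    (hΦ : ContinuousOn Φ (Metric.closedBall 0 1))
    (hmom : ∀ k : ℕ, ∫ w in Metric.ball (0 : ℂ) 1,
      ((sf w : ℂ) * Φ w - (rho w : ℂ) * ((1 - w) * ∑' n, g n * w ^ n)) * (conj w) ^ k = 0) :
    ∃ (V : ℂ → ℂ) (A : ℝ), (∀ w, ‖Fg g w‖ ≤ A) ∧ (∀ w, ‖cut Φ w‖ ≤ A) ∧ Continuous V ∧
      (∀ w, ‖w‖ < 1 → ‖V w‖ ≤ A * (1 - ‖w‖ ^ 2) ^ (3 / 4 : ℝ)) ∧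
      (∀ χ : ℂ → ℂ, ContDiff ℝ 1 χ → HasCompactSupport χ → tsupport χ ⊆ Metric.ball 0 1 →
      ∫ w in Metric.ball (0 : ℂ) 1, V w *
          ((fderiv ℝ χ w 1 - Complex.I * fderiv ℝ χ w Complex.I) / 2) =
        ∫ w in Metric.ball (0 : ℂ) 1, ((sf w : ℂ) * cut Φ w - (rho w : ℂ) * Fg g w) * χ w) := by
  classical
  obtain ⟨C, hC⟩ := cut_bound hΦ
  let Θ : ℂ → ℂ := (Metric.ball (0 : ℂ) 1).indicator
    (fun w => (sf w : ℂ) * cut Φ w - (rho w : ℂ) * Fg g w)
  have hΘm : Measurable Θ := by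
    apply Measurable.indicator _ Metric.isOpen_ball.measurableSet
    exact ((Complex.measurable_ofReal.comp sf_meas).mul (cut_meas hΦ)).sub
      ((Complex.measurable_ofReal.comp rho_meas).mul (Fg_meas hg))
  have hS : 0 ≤ ∑' n, ‖g n‖ := tsum_nonneg fun _ => norm_nonneg _
  have hC0 : 0 ≤ C := (norm_nonneg _).trans (hC 0)
  have hΘb : ∀ w, ‖Θ w‖ ≤ C + 2 * ∑' n, ‖g n‖ := by
    intro w
    by_cases hw : w ∈ Metric.ball (0 : ℂ) 1
    · simp only [Θ, Set.indicator_of_mem hw]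
      have hw' : ‖w‖ < 1 := by simpa using hw
      refine (norm_sub_le _ _).trans (add_le_add ?_ ?_)
      · rw [norm_mul, Complex.norm_real, Real.norm_eq_abs]
        calc |sf w| * ‖cut Φ w‖ ≤ 1 * C :=
              mul_le_mul (sf_bound hw') (hC w) (norm_nonneg _) (by norm_num)
          _ = C := one_mul _
      · rw [norm_mul, Complex.norm_real, Real.norm_eq_abs]
        calc |rho w| * ‖Fg g w‖ ≤ 1 * (2 * ∑' n, ‖g n‖) :=
              mul_le_mul (rho_bound hw') (Fg_bound hg w) (norm_nonneg _) (by norm_num)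
          _ = _ := one_mul _
    · simp only [Θ, Set.indicator_of_notMem hw, norm_zero]
      positivity
  have hΘeq : ∀ w ∈ Metric.ball (0 : ℂ) 1, Θ w =
      (sf w : ℂ) * cut Φ w - (rho w : ℂ) * Fg g w := fun w hw => by
    simp only [Θ, Set.indicator_of_mem hw]
  have h0 : ∀ k : ℕ, ∫ w in Metric.ball (0 : ℂ) 1, Θ w * (conj w) ^ k = 0 := by
    intro k
    refine Eq.trans ?_ (hmom k)
    apply setIntegral_congr_fun Metric.isOpen_ball.measurableSet
    intro w hw
    simp only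
    rw [hΘeq w hw]
    have hw' : ‖w‖ ≤ 1 := by
      have : ‖w‖ < 1 := by simpa using hw
      exact this.le
    unfold cut Fg
    rw [if_pos hw', if_pos hw']
  obtain ⟨h1, h2, ⟨C', hC'⟩, h4⟩ := cauchyV_spec Θ hΘm _ hΘb h0
  refine ⟨cauchyV Θ, max (max C (2 * ∑' n, ‖g n‖)) C', fun w => ?_, fun w => ?_, h1,
    fun w hw => ?_, fun χ a b c => ?_⟩
  · exact (Fg_bound hg w).trans ((le_max_right _ _).trans (le_max_left _ _))
  · exact (hC w).trans ((le_max_left _ _).trans (le_max_left _ _))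
  · refine (hC' w hw).trans ?_
    have : 0 ≤ (1 - ‖w‖ ^ 2) ^ (3 / 4 : ℝ) := by
      apply Real.rpow_nonneg; nlinarith [norm_nonneg w]
    exact mul_le_mul_of_nonneg_right (le_max_right _ _) this
  · rw [h4 χ a b c]
    apply setIntegral_congr_fun Metric.isOpen_ball.measurableSet
    intro w hw
    simp only
    rw [hΘeq w hw]

/-- The first weak equation, for the projected form. -/
lemma weak_one {F Φ V : ℂ → ℂ} {A : ℝ} (hFm : Measurable F) (hF : ∀ w, ‖F w‖ ≤ A)
    (hΦm : Measurable Φ) (hΦ : ∀ w, ‖Φ w‖ ≤ A)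
    (hV : Continuous V) (hVb : ∀ w, ‖w‖ < 1 → ‖V w‖ ≤ A * (1 - ‖w‖ ^ 2) ^ (3 / 4 : ℝ))
    (hweak : ∀ χ : ℂ → ℂ, ContDiff ℝ 1 χ → HasCompactSupport χ → tsupport χ ⊆ Metric.ball 0 1 →
      ∫ w in Metric.ball (0 : ℂ) 1, V w *
          ((fderiv ℝ χ w 1 - Complex.I * fderiv ℝ χ w Complex.I) / 2) =
        ∫ w in Metric.ball (0 : ℂ) 1, ((sf w : ℂ) * Φ w - (rho w : ℂ) * F w) * χ w)
    (χ : C3 → ℂ) (hχ : SmoothNear (Hyp rM) χ) :
    ∫ p, ∑ k, u0 F V p k * conj (dbarb rM χ p k) ∂muM =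
      ∫ p, (fM Φ p - F p.2.2) * conj (χ p) ∂muM := by
  have hχc : ∀ p ∈ Hyp rM, ContDiffAt ℝ 1 (fun q => conj (χ q)) p := fun p hp =>
    (conj_smooth (hχ p hp)).of_le (by exact_mod_cast le_top)
  obtain ⟨X, hX, hXc, hXe⟩ := exists_ext isPscHyp_rM.compact hχc
  have h1 := weak_u0 F Φ V A hFm hF hΦm hΦ hV hVb hweak X hX hXc
  have h2 : ∫ p, (fM Φ p - F p.2.2) * conj (χ p) ∂muM =
      ∫ p, (fM Φ p - F p.2.2) * X p ∂muM := by
    apply integral_congr_Hyp
    intro p hp
    rw [(hXe p hp).eq_of_nhds]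
  rw [h2, ← h1]
  apply integral_congr_ae
  filter_upwards [ae_mem_Hyp, u0_orth F V] with p hp ho
  have h3 : ∀ k, dz k X p = conj (dzb k χ p) := by
    intro k
    rw [dz_congr (hXe p hp), dz_conj]
  simp_rw [h3]
  unfold dbarb
  have h4 : ∑ k, u0 F V p k * conj (dzb k χ p - (∑ j, dz j (rc rM) p * dzb j χ p) /
      (gsq rM p : ℂ) * dzb k (rc rM) p) = ∑ k, u0 F V p k * conj (dzb k χ p) -
      conj ((∑ j, dz j (rc rM) p * dzb j χ p) / (gsq rM p : ℂ)) *
        ∑ k, dz k (rc rM) p * u0 F V p k := by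
    rw [Finset.mul_sum, ← Finset.sum_sub_distrib]
    apply Finset.sum_congr rfl
    intro k _
    rw [map_sub, map_mul (starRingEnd ℂ) _ (dzb k (rc rM) p), dzb_rc, Complex.conj_conj]
    ring
  rw [h4, ho, mul_zero, sub_zero]

/-- Real analyticity of `f = (2|z₂|²+|1-w|²) Φ(w)` near the hypersurface. -/
lemma fM_analytic {Φ : ℂ → ℂ} {R : ℝ} (hR : 1 < R) (hΦ : DifferentiableOn ℂ Φ (Metric.ball 0 R))
    {p : C3} (hp : ‖p.2.2‖ < R) : AnalyticAt ℝ (fM Φ) p := by
  have hm : co 2 p ∈ Metric.ball (0 : ℂ) R := by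
    change p.2.2 ∈ Metric.ball (0 : ℂ) R
    simpa using hp
  have h1 : AnalyticAt ℂ Φ (co 2 p) := hΦ.analyticAt (Metric.isOpen_ball.mem_nhds hm)
  have h2 : AnalyticAt ℝ Φ (co 2 p) := h1.restrictScalars
  have h3 : ∀ j, AnalyticAt ℝ (co j) p := fun j => by
    rw [co_eq]; exact ContinuousLinearMap.analyticAt _ _
  have h4 : AnalyticAt ℝ (fun q => Φ (co 2 q)) p := AnalyticAt.fun_comp h2 (h3 2)
  have h5 : ∀ j, AnalyticAt ℝ (fun q => conj (co j q)) p := fun j =>
    AnalyticAt.fun_comp ((Complex.conjCLE : ℂ →L[ℝ] ℂ).analyticAt _) (h3 j)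
  have h6 : fM Φ = fun q => (2 * (co 1 q * conj (co 1 q)) + (1 - co 2 q) * (1 - conj (co 2 q))) *
      Φ (co 2 q) := by
    ext q
    unfold fM
    have e1 : (co 1 q * conj (co 1 q) : ℂ) = ((‖q.2.1‖ ^ 2 : ℝ) : ℂ) := by
      change q.2.1 * conj q.2.1 = _
      rw [Complex.mul_conj, Complex.normSq_eq_norm_sq]
    have e2 : ((1 - co 2 q) * (1 - conj (co 2 q)) : ℂ) = ((qf q.2.2 : ℝ) : ℂ) := by
      change (1 - q.2.2) * (1 - conj q.2.2) = _
      have : (1 - conj q.2.2 : ℂ) = conj (1 - q.2.2) := by rw [map_sub, map_one]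
      rw [this, Complex.mul_conj, Complex.normSq_eq_norm_sq]; rfl
    rw [e1, e2]
    push_cast
    rfl
  rw [h6]
  exact (((analyticAt_const.mul ((h3 1).mul (h5 1))).add
    ((analyticAt_const.sub (h3 2)).mul (analyticAt_const.sub (h5 2))))).mul h4

lemma dbarb_analytic {χ : C3 → ℂ} {p : C3} (hp : p ∈ Hyp rM) (hχ : AnalyticAt ℝ χ p) :
    AnalyticAt ℝ (dbarb rM χ) p := by
  rw [analyticAt_pi_iff]
  intro k
  unfold dbarb
  exact (analyticAt_dzb hχ).sub ((div_gsq_analytic hp (Finset.analyticAt_fun_sum _ fun j _ =>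
    (analyticAt_dz (rc_analytic p)).mul (analyticAt_dzb hχ))).mul (analyticAt_dzb (rc_analytic p)))

lemma dbarbStar_analytic {ψ : C3 → Fin 3 → ℂ} {p : C3} (hp : p ∈ Hyp rM)
    (hψ : AnalyticAt ℝ ψ p) : AnalyticAt ℝ (dbarbStar rM ψ) p := by
  have h1 : ∀ k, AnalyticAt ℝ (fun q => ψ q k) p := fun k => (analyticAt_pi_iff.mp hψ) k
  unfold dbarbStar
  refine (Finset.analyticAt_fun_sum _ fun j _ => Finset.analyticAt_fun_sum _ fun k _ => ?_).neg
  have h2 : AnalyticAt ℝ (fun q => dzb j (rc rM) q * ψ q k / (gsq rM q : ℂ)) p :=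
    div_gsq_analytic hp ((analyticAt_dzb (rc_analytic p)).mul (h1 k))
  unfold Lz
  exact ((analyticAt_dz (rc_analytic p)).mul (analyticAt_dz h2)).sub
    ((analyticAt_dz (rc_analytic p)).mul (analyticAt_dz h2))

/-- `F` is orthogonal to the range of `\bar∂_b^*`. -/
lemma Fg_orth {g : ℕ → ℂ} (hg : Summable (fun n => ‖g n‖)) {ψ : C3 → Fin 3 → ℂ}
    (hψ : SmoothNear (Hyp rM) ψ) :
    ∫ p, Fg g p.2.2 * conj (dbarbStar rM ψ p) ∂muM = 0 := by
  let P : ℕ → ℂ → ℂ := fun n w => (1 - w) * ∑ j ∈ Finset.range n, g j * w ^ j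
  have hPd : ∀ n w, DifferentiableAt ℂ (P n) w := by
    intro n w; simp only [P]; fun_prop
  have hz : ∀ n, ∫ p : C3, P n p.2.2 * conj (dbarbStar rM ψ p) ∂muM = 0 := by
    intro n
    have hs : SmoothNear (Hyp rM) (fun p : C3 => P n p.2.2) := by
      intro p _
      have h1 : ContDiffAt ℝ ∞ (P n) (p.2.2) := by
        have : ContDiff ℝ ∞ (P n) := by simp only [P]; fun_prop
        exact this.contDiffAt
      have h2 : ContDiffAt ℝ ∞ (fun p : C3 => p.2.2) p := by fun_prop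
      exact h1.comp p h2
    rw [← adj1_gen _ _ hs hψ]
    have hz2 : ∀ k p, dzb k (fun p : C3 => P n p.2.2) p = 0 := fun k p =>
      dzb_holo (Φ := P n) 2 (hPd n _).hasDerivAt
    have : ∀ p k, dbarb rM (fun p : C3 => P n p.2.2) p k = 0 := by
      intro p k
      unfold dbarb
      simp [hz2]
    simp [this]
  have ha : ∀ p ∈ Hyp rM, ContinuousAt (dbarbStar rM ψ) p := fun p hp =>
    (dbarbStar_smooth hψ p hp).continuousAt
  have hai := integrable_of_cont ha
  have hS : 0 ≤ ∑' n, ‖g n‖ := tsum_nonneg fun _ => norm_nonneg _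
  have hlim := tendsto_integral_of_dominated_convergence (μ := muM)
    (F := fun n p => P n p.2.2 * conj (dbarbStar rM ψ p))
    (f := fun p => Fg g p.2.2 * conj (dbarbStar rM ψ p))
    (fun p => (2 * ∑' n, ‖g n‖) * ‖dbarbStar rM ψ p‖) ?_ ?_ ?_ ?_
  · simp only [hz] at hlim
    exact (tendsto_nhds_unique hlim tendsto_const_nhds)
  · intro n
    apply AEStronglyMeasurable.mul
    · apply Continuous.aestronglyMeasurable
      simp only [P]; fun_prop
    · exact Complex.continuous_conj.comp_aestronglyMeasurable hai.aestronglyMeasurable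
  · exact hai.norm.const_mul _
  · intro n
    filter_upwards [ae_mem_Hyp] with p hp
    have hw := norm_w_le hp
    rw [norm_mul, RCLike.norm_conj]
    apply mul_le_mul_of_nonneg_right _ (norm_nonneg _)
    simp only [P]
    rw [norm_mul]
    have h1 : ‖1 - p.2.2‖ ≤ 2 := by
      calc ‖1 - p.2.2‖ ≤ ‖(1 : ℂ)‖ + ‖p.2.2‖ := norm_sub_le _ _
        _ ≤ 2 := by rw [norm_one]; linarith
    have h2 : ‖∑ j ∈ Finset.range n, g j * p.2.2 ^ j‖ ≤ ∑' n, ‖g n‖ := by
      calc ‖∑ j ∈ Finset.range n, g j * p.2.2 ^ j‖ ≤ ∑ j ∈ Finset.range n, ‖g j * p.2.2 ^ j‖ :=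
            norm_sum_le _ _
        _ ≤ ∑ j ∈ Finset.range n, ‖g j‖ := by
            apply Finset.sum_le_sum
            intro j _
            rw [norm_mul, norm_pow]
            have : ‖p.2.2‖ ^ j ≤ 1 := pow_le_one₀ (norm_nonneg _) hw
            exact mul_le_of_le_one_right (norm_nonneg _) this
        _ ≤ _ := hg.sum_le_tsum _ fun _ _ => norm_nonneg _
    exact mul_le_mul h1 h2 (norm_nonneg _) (by norm_num)
  · filter_upwards [ae_mem_Hyp] with p hp
    have hw := norm_w_le hp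
    apply Tendsto.mul_const
    unfold Fg
    rw [if_pos hw]
    apply Tendsto.const_mul
    apply HasSum.tendsto_sum_nat
    apply Summable.hasSum
    refine Summable.of_norm_bounded hg fun n => ?_
    rw [norm_mul, norm_pow]
    have : ‖p.2.2‖ ^ n ≤ 1 := pow_le_one₀ (norm_nonneg _) hw
    exact mul_le_of_le_one_right (norm_nonneg _) this

lemma Fg_comp_bdd {g : ℕ → ℂ} (hg : Summable (fun n => ‖g n‖)) {a : C3 → ℂ}
    (ha : Integrable a muM) : Integrable (fun p => Fg g p.2.2 * a p) muM := by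
  refine ha.bdd_mul (c := 2 * ∑' n, ‖g n‖) ?_ (ae_of_all _ fun p => Fg_bound hg _)
  exact ((Fg_meas hg).comp (measurable_snd.comp measurable_snd)).aestronglyMeasurable

lemma pair_integrable {u ψ : C3 → Fin 3 → ℂ} (hu : ∀ k, MemLp (fun p => u p k) 2 muM)
    (hψ : SmoothNear (Hyp rM) ψ) : Integrable (fun p => ∑ k, u p k * conj (ψ p k)) muM := by
  apply integrable_finsetSum
  intro k _
  have h1 := memLp_of_smooth hψ k
  have h2 : MemLp (fun p => conj (ψ p k)) 2 muM := by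
    have := h1.star
    exact this
  have := (hu k).mul h2 (r := 1)
  exact memLp_one_iff_integrable.mp (by
    have h3 : (fun p => u p k * conj (ψ p k)) = (fun p => conj (ψ p k)) * (fun p => u p k) := by
      ext p; simp [mul_comm]
    first
      | exact this
      | (rw [h3]; exact (hu k).mul h2))

end Pool.Agent.Work.MP_e29078_an

end
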